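import Pool.Agent.T3h73.SN.Stm3
import Pool.Agent.T3h73.SD.Mdl3

/-! Project SN, task DICW (helper3): the dictionary between the model and the Selmer group for all `n`.
The proof follows `Ctx2.good` in `SD/Mdl3.lean` and `Ctx2.good_pow` in `SD/Mdl4.lean` (helper87). -/

set_option autoImplicit false
set_option linter.all false

open NumberField IsDedekindDomain

namespace Pool.Agent.T3h73.SN.DICW

open Pool.Agent.T3h73.SL (Pl IsP Pk loc val_loc)
open Pool.Agent.T3h73.SD (Sv)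
open Pool.Agent.T3h73.SD.MDL
open Pool.Agent.Y713.SE Pool.Agent.Y713.SE.Dat
open Pool.Agent.T3h73.SN

/-! ## the order of the space of the families of sum zero -/

theorem card_Sz (ℓ n : ℕ) [Fact ℓ.Prime] (hn : 1 ≤ n) :
    Nat.card (Sz ℓ n (ZMod ℓ)) = ℓ ^ (n - 1) := by
  obtain ⟨m, rfl⟩ : ∃ m, n = m + 1 := ⟨n - 1, by omega⟩
  let e : Sz ℓ (m + 1) (ZMod ℓ) ≃ (Fin m → ZMod ℓ) :=
    { toFun := fun x i => (x : Fin (m + 1) → ZMod ℓ) i.succ
      invFun := fun y => ⟨Fin.cons (-∑ i, y i) y, by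
        show ∑ i, (Fin.cons (-∑ i, y i) y : Fin (m + 1) → ZMod ℓ) i = 0
        rw [Fin.sum_univ_succ, Fin.cons_zero]
        simp only [Fin.cons_succ]
        rw [neg_add_cancel]⟩
      left_inv := by
        rintro ⟨x, hx⟩
        have h : ∑ i, x i = 0 := hx
        rw [Fin.sum_univ_succ] at h
        apply Subtype.ext
        funext i
        refine Fin.cases ?_ (fun j => ?_) i
        · show -∑ i : Fin m, x i.succ = x 0
          linear_combination -h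
        · rfl
      right_inv := fun y => by
        funext i
        rfl }
  rw [Nat.card_congr e, Nat.card_fun, Nat.card_zmod, Nat.card_eq_fintype_card, Fintype.card_fin,
    Nat.add_sub_cancel]

/-! ## the torsion elements -/

section
variable {ℓ n : ℕ} {K : Type} [Field K] [NumberField K]

theorem cl_zpow {V : Type} [AddCommGroup V] [Module (ZMod ℓ) V] {cl : Kˣ → V}
    (hc : ∀ x y, cl (x * y) = cl x + cl y) (x : Kˣ) (m : ℤ) :
    cl (x ^ m) = (m : ZMod ℓ) • cl x := by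
  obtain ⟨k, hk | hk⟩ := m.eq_nat_or_neg
  · rw [hk, zpow_natCast, cl_pow (ℓ := ℓ) hc, Int.cast_natCast]
  · rw [hk, zpow_neg, zpow_natCast, cl_inv hc, cl_pow (ℓ := ℓ) hc, Int.cast_neg, Int.cast_natCast,
      neg_smul]

theorem od_gu (D : Dat ℓ n K) {v : Pl K} (h : D.Sep1 v) (i j : Fin n) : od v (gu D i j) = 0 := by
  rw [← val_one_iff]
  unfold gu
  split_ifs with hij
  · rw [Units.val_one, map_one]
  · rw [Units.val_mk0]
    exact h i j hij

theorem od_tor (D : Dat ℓ n K) {v : Pl K} (h : D.Sep1 v) (c : Fin n → ℤ) (i : Fin n) :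
    od v (tor D c i) = c i * od v (δu D) := by
  unfold tor
  rw [od_mul, od_zpow, Pool.Agent.T3h73.SD.MDL.od_prod, Finset.sum_eq_zero fun j _ => by
    rw [od_zpow, od_gu D h, mul_zero], add_zero]

theorem cl_tor (D : Dat ℓ n K) {V : Type} [AddCommGroup V] [Module (ZMod ℓ) V] {cl : Kˣ → V}
    (hc : ∀ x y, cl (x * y) = cl x + cl y) (c : Fin n → ℤ) (i : Fin n) :
    cl (tor D c i) = (c i : ZMod ℓ) • cl (δu D) +
      ∑ j, ((c i : ZMod ℓ) - (c j : ZMod ℓ)) • cl (gu D i j) := by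
  unfold tor
  rw [hc, cl_zpow (ℓ := ℓ) hc, Pool.Agent.T3h73.SD.MDL.cl_prod hc]
  congr 1
  refine Finset.sum_congr rfl fun j _ => ?_
  rw [cl_zpow (ℓ := ℓ) hc, Int.cast_sub]

theorem sv_tor (D : Dat ℓ n K) {sv : Pl K → Kˣ → Kˣ → ZMod ℓ} (H : Sv ℓ K sv) (v : Pl K)
    (c : Fin n → ℤ) (i : Fin n) (y : Kˣ) :
    sv v (tor D c i) y = (c i : ZMod ℓ) * sv v (δu D) y +
      ∑ j, ((c i : ZMod ℓ) - (c j : ZMod ℓ)) * sv v (gu D i j) y := by
  unfold tor
  rw [H.mul_left, sl_zpow H, sl_prod H]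
  congr 1
  refine Finset.sum_congr rfl fun j _ => ?_
  rw [sl_zpow H, Int.cast_sub]

theorem cl_gu_symm (hℓ : Odd ℓ) (D : Dat ℓ n K) {V : Type} [AddCommGroup V] [Module (ZMod ℓ) V]
    {cl : Kˣ → V} (hc : ∀ x y, cl (x * y) = cl x + cl y) (i j : Fin n) :
    cl (gu D i j) = cl (gu D j i) := by
  by_cases hij : i = j
  · rw [hij]
  · have h : gu D i j = (-1 : Kˣ) ^ ℓ * gu D j i := by
      unfold gu
      rw [dif_neg hij, dif_neg (Ne.symm hij)]
      apply Units.ext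
      rw [Units.val_mul, Units.val_mk0, Units.val_mk0, Units.val_pow_eq_pow_val, Units.val_neg,
        Units.val_one, hℓ.neg_one_pow]
      ring
    rw [h, hc, cl_pow_ell (ℓ := ℓ) hc, zero_add]

end

section
variable {ℓ n : ℕ} {K : Type} [Field K] [NumberField K] {sv : Pl K → Kˣ → Kˣ → ZMod ℓ}
  {S : Finset (Pl K)} {V : Type} [AddCommGroup V] [Module (ZMod ℓ) V]
  {ψ : V →ₗ[ZMod ℓ] V →ₗ[ZMod ℓ] ZMod ℓ} {cl : Kˣ → V} {η : Kˣ}
  {L0 L1 : Submodule (ZMod ℓ) V} {P : Pl K → Kˣ} {u : L0} {d1 : V}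

/-- the classes of the torsion elements -/
theorem cl_tor' (hc : ∀ x y, cl (x * y) = cl x + cl y) (D : Dat ℓ n K) {δ : Kˣ} {a₀ : ℕ}
    (hδ : δu D = δ ^ a₀) (g : Fin n → Fin n → L0)
    (hg : ∀ i j, (a₀ : ZMod ℓ) • (g i j : V) = cl (gu D i j)) (h1 : cl δ = (u : V) + d1)
    (c : Fin n → ZMod ℓ) (c' : Fin n → ℤ) (hc' : ∀ i, (c' i : ZMod ℓ) * (a₀ : ZMod ℓ) = c i)
    (i : Fin n) :
    cl (tor D c' i) = c i • ((u : V) + d1) + ∑ j, (c i - c j) • (g i j : V) := by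
  rw [cl_tor D hc, hδ, cl_pow (ℓ := ℓ) hc, h1, smul_smul, hc']
  congr 1
  refine Finset.sum_congr rfl fun j _ => ?_
  rw [← hg, smul_smul, sub_mul, hc', hc']

/-- the equation at a place of `B` -/
theorem eqn (C : Ctx2 ℓ K sv S V ψ cl η L0 L1 ⊤ P u d1) (D : Dat ℓ n K) {δ : Kˣ} {a₀ : ℕ}
    (hδ : δu D = δ ^ a₀) (hsep : ∀ v, v ∉ S → D.Sep1 v) (g : Fin n → Fin n → L0)
    (hg : ∀ i j, (a₀ : ZMod ℓ) • (g i j : V) = cl (gu D i j)) (B : Finset (Pl K))
    (hs2 : cl (δ * (∏ q ∈ B, P q)⁻¹) = u)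
    (hδ'o : ∀ v, v ∉ S → (ℓ : ℤ) ∣ od v (δ * (∏ q ∈ B, P q)⁻¹)) (q : Pl K) (hqS : q ∉ S)
    (x w : Kˣ) (m : Pl K → ℤ) (hw : x = w * ∏ p ∈ B, P p ^ m p)
    (hwo : ∀ v, v ∉ S → (ℓ : ℤ) ∣ od v w) (c : Fin n → ℤ) (i : Fin n)
    (hci : IsP ℓ (loc q (x * (tor D c i)⁻¹))) :
    - ψ (cl w) (cl (P q)) + ((a₀ : ZMod ℓ) * (c i : ZMod ℓ)) * ψ (u : V) (cl (P q)) +
      ∑ j, ((a₀ : ZMod ℓ) * (c i : ZMod ℓ) - (a₀ : ZMod ℓ) * (c j : ZMod ℓ)) *
        ψ (g i j : V) (cl (P q)) +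
      ∑ p ∈ B, ((m p : ZMod ℓ) - (a₀ : ZMod ℓ) * (c i : ZMod ℓ)) * sv q (P p) (P q) = 0 := by
  obtain ⟨δ', hδ'⟩ : ∃ δ', δ' = δ * (∏ q ∈ B, P q)⁻¹ := ⟨_, rfl⟩
  rw [← hδ'] at hs2
  have hδδ' : δ = δ' * ∏ q ∈ B, P q := by
    rw [hδ', inv_mul_cancel_right]
  have e1 : sv q w (P q) = - ψ (cl w) (cl (P q)) := C.sq q hqS w fun v hv _ => hwo v hv
  have e2 : sv q δ' (P q) = - ψ (u : V) (cl (P q)) := by
    rw [C.sq q hqS δ' fun v hv _ => by rw [hδ']; exact hδ'o v hv, hs2]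
  have e3 : sv q (x * (tor D c i)⁻¹) (P q) = 0 := C.ctx.hs.pow_left q _ _ hci
  have e4 : sv q x (P q) = sv q w (P q) + ∑ p ∈ B, (m p : ZMod ℓ) * sv q (P p) (P q) := by
    conv_lhs => rw [hw]
    rw [C.ctx.hs.mul_left, sl_prod C.ctx.hs]
    congr 1
    refine Finset.sum_congr rfl fun p _ => ?_
    rw [sl_zpow C.ctx.hs]
  have e5 : sv q δ (P q) = sv q δ' (P q) + ∑ p ∈ B, sv q (P p) (P q) := by
    conv_lhs => rw [hδδ']
    rw [C.ctx.hs.mul_left, sl_prod C.ctx.hs]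
  have e7 : ∀ j, sv q (gu D i j) (P q) = - ((a₀ : ZMod ℓ) * ψ (g i j : V) (cl (P q))) := by
    intro j
    rw [C.sq q hqS (gu D i j) fun v hv _ => by rw [od_gu D (hsep v hv)]; exact dvd_zero _, ← hg,
      map_smul, LinearMap.smul_apply, smul_eq_mul]
  rw [C.ctx.hs.mul_left, sl_inv C.ctx.hs, sv_tor D C.ctx.hs, hδ, sl_pow C.ctx.hs, e5, e4, e1,
    e2] at e3
  have s1 : ∑ j, ((a₀ : ZMod ℓ) * (c i : ZMod ℓ) - (a₀ : ZMod ℓ) * (c j : ZMod ℓ)) *
      ψ (g i j : V) (cl (P q)) =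
      - ∑ j, ((c i : ZMod ℓ) - (c j : ZMod ℓ)) * sv q (gu D i j) (P q) := by
    rw [← Finset.sum_neg_distrib]
    refine Finset.sum_congr rfl fun j _ => ?_
    rw [e7]
    ring
  have s2 : ∑ p ∈ B, ((m p : ZMod ℓ) - (a₀ : ZMod ℓ) * (c i : ZMod ℓ)) * sv q (P p) (P q) =
      ∑ p ∈ B, (m p : ZMod ℓ) * sv q (P p) (P q) -
        ((a₀ : ZMod ℓ) * (c i : ZMod ℓ)) * ∑ p ∈ B, sv q (P p) (P q) := by
    rw [Finset.mul_sum, ← Finset.sum_sub_distrib]
    refine Finset.sum_congr rfl fun p hp => ?_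
    ring
  rw [s1, s2]
  linear_combination e3

/-- the first component of the torsion elements of the model -/
def tw (u : L0) (g : Fin n → Fin n → L0) (hg : ∀ i j, g i j = g j i) (c : Sz ℓ n (ZMod ℓ)) :
    Sz ℓ n L0 :=
  ⟨fun i => (c : Fin n → ZMod ℓ) i • u +
      ∑ j, ((c : Fin n → ZMod ℓ) i - (c : Fin n → ZMod ℓ) j) • g i j, by
    show ∑ i, ((c : Fin n → ZMod ℓ) i • u +
      ∑ j, ((c : Fin n → ZMod ℓ) i - (c : Fin n → ZMod ℓ) j) • g i j) = 0
    have h0 : ∑ i, (c : Fin n → ZMod ℓ) i = 0 := c.2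
    have h1 : ∑ i, ∑ j, ((c : Fin n → ZMod ℓ) i - (c : Fin n → ZMod ℓ) j) • g i j =
        ∑ i, ∑ j, (c : Fin n → ZMod ℓ) i • g i j - ∑ i, ∑ j, (c : Fin n → ZMod ℓ) j • g i j := by
      rw [← Finset.sum_sub_distrib]
      refine Finset.sum_congr rfl fun i _ => ?_
      rw [← Finset.sum_sub_distrib]
      refine Finset.sum_congr rfl fun j _ => ?_
      rw [sub_smul]
    have h2 : ∑ i, ∑ j, (c : Fin n → ZMod ℓ) j • g i j =
        ∑ i, ∑ j, (c : Fin n → ZMod ℓ) i • g i j := by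
      rw [Finset.sum_comm]
      refine Finset.sum_congr rfl fun i _ => Finset.sum_congr rfl fun j _ => ?_
      rw [hg]
    rw [Finset.sum_add_distrib, ← Finset.sum_smul, h0, zero_smul, h1, h2, sub_self, add_zero]⟩

end

theorem sz_sum {ℓ n : ℕ} {M : Type} [AddCommGroup M] [Module (ZMod ℓ) M] {ι : Type}
    (s : Finset ι) (f : ι → Sz ℓ n M) (i : Fin n) :
    ((∑ q ∈ s, f q : Sz ℓ n M) : Fin n → M) i = ∑ q ∈ s, (f q : Fin n → M) i := by
  rw [Submodule.coe_sum, Finset.sum_apply]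

theorem t_DICW : S_DICW := by
  classical
  intro ℓ n hfact hℓ2 hn2 K _ _ sv S V _ _ _ ψ cl η L0 L1 P u d1 C δ a₀ ha1 ha2 D hD hsep g hg LL
    H1 H2 B hB hηS hBδ' hout' hne hcard
  have hpr : ℓ.Prime := hfact.out
  have hpos : 0 < ℓ := hpr.pos
  have hodd : Odd ℓ := hpr.odd_of_ne_two hℓ2
  haveI : NeZero ℓ := ⟨hpr.ne_zero⟩
  have hmul := C.ctx.mul
  have hBS : ∀ v ∈ B, v ∉ S := fun v hv => Finset.disjoint_left.1 hB hv
  have h2 : ∀ v ∈ B, (ℓ : ℤ) ∣ od v δ + 1 := by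
    intro v hv
    have h := hBδ' v hv
    rw [val_od, ← WithZero.exp_add, pw_exp' hpos] at h
    exact h
  have h3 : ∀ v, v ∉ S → v ∉ B → (ℓ : ℤ) ∣ od v δ := fun v hv hvB =>
    (pw_od hpos v δ).1 (hout' v hv hvB)
  have hℓZ : Prime (ℓ : ℤ) := Nat.prime_iff_prime_int.1 hpr
  have hndB : ∀ v ∈ B, ¬ (ℓ : ℤ) ∣ od v δ := by
    intro v hv h
    have h4 : (ℓ : ℤ) ∣ 1 := (dvd_add_right h).1 (h2 v hv)
    exact hℓZ.not_dvd_one h4
  have hna : ¬ (ℓ : ℤ) ∣ (a₀ : ℤ) := by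
    intro h
    have h4 : ℓ ∣ a₀ := by exact_mod_cast h
    exact absurd (Nat.le_of_dvd (by omega) h4) (by omega)
  have hδ : δu D = δ ^ a₀ := by
    apply Units.ext
    rw [Units.val_pow_eq_pow_val, ← hD]
    rfl
  have hoD : ∀ v, od v (δu D) = a₀ * od v δ := by
    intro v
    rw [hδ, od_pow]
  have hpwD : ∀ v : Pl K, Pw ℓ (v.valuation K D.δ) ↔ (ℓ : ℤ) ∣ (a₀ : ℤ) * od v δ := by
    intro v
    have h : v.valuation K D.δ = v.valuation K (δu D : K) := rfl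
    rw [h, pw_od hpos, hoD]
  have ha0 : (a₀ : ZMod ℓ) ≠ 0 := by
    intro h
    rw [ZMod.natCast_eq_zero_iff] at h
    exact absurd (Nat.le_of_dvd (by omega) h) (by omega)
  obtain ⟨hs1, hs2⟩ := C.sum δ B hηS h2 h3
  have hδ'o : ∀ v, v ∉ S → (ℓ : ℤ) ∣ od v (δ * (∏ q ∈ B, P q)⁻¹) := C.delta' δ B h2 h3
  have hclδ : cl δ = (u : V) + d1 := by
    rw [C.ctx.cl_eq hηS, C.e]
  have hgs : ∀ i j, g i j = g j i := by
    intro i j
    apply Subtype.ext
    have h : (a₀ : ZMod ℓ) • (g i j : V) = (a₀ : ZMod ℓ) • (g j i : V) := by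
      rw [hg, hg, cl_gu_symm hodd D hmul]
    have h' := congrArg (fun z => (a₀ : ZMod ℓ)⁻¹ • z) h
    simp only [smul_smul, inv_mul_cancel₀ ha0, one_smul] at h'
    exact h'
  -- the lift of the colours
  have hlift : ∀ c : Fin n → ZMod ℓ, ∃ c' : Fin n → ℤ, (∀ i, (c' i : ZMod ℓ) * (a₀ : ZMod ℓ) = c i) := by
    intro c
    refine ⟨fun i => ((((a₀ : ZMod ℓ)⁻¹ * c i).val : ℕ) : ℤ), fun i => ?_⟩
    rw [Int.cast_natCast, ZMod.natCast_zmod_val, mul_comm, mul_inv_cancel_left₀ ha0]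
  have hlift0 : ∀ (c : Sz ℓ n (ZMod ℓ)) (c' : Fin n → ℤ),
      (∀ i, (c' i : ZMod ℓ) * (a₀ : ZMod ℓ) = (c : Fin n → ZMod ℓ) i) → (ℓ : ℤ) ∣ ∑ i, c' i := by
    intro c c' hc'
    rw [← ZMod.intCast_zmod_eq_zero_iff_dvd, Int.cast_sum]
    have h0 : ∑ i, (c : Fin n → ZMod ℓ) i = 0 := c.2
    have h5 : (∑ i, (c' i : ZMod ℓ)) * (a₀ : ZMod ℓ) = 0 := by
      rw [Finset.sum_mul, ← h0]
      exact Finset.sum_congr rfl fun i _ => hc' i
    exact (mul_eq_zero.1 h5).resolve_right ha0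
  refine ⟨?_, ?_⟩
  · intro x hxP hxS hxo hxi
    -- outside `S` and `B`
    have hxo' : ∀ v, v ∉ S → v ∉ B → ∀ i, (ℓ : ℤ) ∣ od v (x i) := by
      intro v hv hvB i
      rw [← pw_od hpos]
      exact hxo v hv ((hpwD v).2 (Dvd.dvd.mul_left (h3 v hv hvB) _)) i
    have hxB : ∀ q, ∃ c : Fin n → ℤ, q ∈ B → (ℓ : ℤ) ∣ ∑ i, c i ∧
        ∀ i, IsP ℓ (loc q (x i * (tor D c i)⁻¹)) := by
      intro q
      by_cases hq : q ∈ B
      · obtain ⟨c, hc⟩ := hxi q (hBS q hq) (by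
          rw [hpwD]
          intro h
          rcases hℓZ.dvd_or_dvd h with h | h
          · exact hna h
          · exact hndB q hq h)
        exact ⟨c, fun _ => hc⟩
      · exact ⟨fun _ => 0, fun h => absurd h hq⟩
    choose c hcB using hxB
    obtain ⟨w, hw⟩ : ∃ w : Fin n → Kˣ,
        w = fun i => x i * (∏ q ∈ B, P q ^ ((a₀ : ℤ) * c q i))⁻¹ := ⟨_, rfl⟩
    have hxw : ∀ i, x i = w i * ∏ q ∈ B, P q ^ ((a₀ : ℤ) * c q i) := by
      intro i
      rw [hw]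
      simp only
      rw [inv_mul_cancel_right]
    have hxBo : ∀ v, ∀ hv : v ∈ B, ∀ i, (ℓ : ℤ) ∣ od v (x i) + a₀ * c v i := by
      intro v hv i
      have h4 := dvd_of_isP hpos ((hcB v hv).2 i)
      rw [od_mul, od_inv, od_tor D (hsep v (hBS v hv)), hoD] at h4
      have h5 : od v (x i) + a₀ * c v i =
          (od v (x i) + -(c v i * (a₀ * od v δ))) + c v i * a₀ * (od v δ + 1) := by ring
      rw [h5]
      exact dvd_add h4 (Dvd.dvd.mul_left (h2 v hv) _)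
    have hwo : ∀ i, ∀ v, v ∉ S → (ℓ : ℤ) ∣ od v (w i) := by
      intro i v hv
      rw [hw]
      simp only
      rw [od_mul, od_inv]
      by_cases hvB : v ∈ B
      · rw [C.od_mem B _ v hv hvB, neg_neg]
        exact hxBo v hvB i
      · rw [C.od_not B _ v hv hvB, neg_zero, add_zero]
        exact hxo' v hv hvB i
    have hclx : ∀ i, cl (x i) = cl (w i) +
        ∑ q ∈ B, ((a₀ : ZMod ℓ) * (c q i : ZMod ℓ)) • cl (P q) := by
      intro i
      conv_lhs => rw [hxw i]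
      rw [hmul, Pool.Agent.T3h73.SD.MDL.cl_prod hmul]
      congr 1
      refine Finset.sum_congr rfl fun q hq => ?_
      rw [cl_zpow (ℓ := ℓ) hmul, Int.cast_mul, Int.cast_natCast]
    have hcs : ∀ q ∈ B, ∑ i, ((a₀ : ZMod ℓ) * (c q i : ZMod ℓ)) = 0 := by
      intro q hq
      rw [← Finset.mul_sum, ← Int.cast_sum, (ZMod.intCast_zmod_eq_zero_iff_dvd _ ℓ).2 (hcB q hq).1,
        mul_zero]
    have hwsum : ∑ i, cl (w i) = 0 := by
      have h4 : ∑ i, cl (x i) = 0 := by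
        rw [← Pool.Agent.T3h73.SD.MDL.cl_prod hmul]
        obtain ⟨z, hz⟩ := hxP
        rw [hz, cl_pow_ell (ℓ := ℓ) hmul]
      simp only [hclx] at h4
      rw [Finset.sum_add_distrib, Finset.sum_comm, Finset.sum_eq_zero (s := B) fun q hq => by
        rw [← Finset.sum_smul, hcs q hq, zero_smul], add_zero] at h4
      exact h4
    -- the element of the model
    let W : Sz ℓ n L0 := ⟨fun i => ⟨cl (w i), (C.z0 _).2 ⟨w i, hwo i, rfl⟩⟩, by
      show ∑ i, (⟨cl (w i), (C.z0 _).2 ⟨w i, hwo i, rfl⟩⟩ : L0) = 0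
      apply Subtype.ext
      rw [Submodule.coe_sum]
      exact hwsum⟩
    have hW : ∀ i, (((W : Fin n → L0) i : L0) : V) = cl (w i) := fun i => rfl
    let cb : Pl K → Sz ℓ n (ZMod ℓ) := fun q =>
      if h : q ∈ B then ⟨fun i => (a₀ : ZMod ℓ) * (c q i : ZMod ℓ), hcs q h⟩ else 0
    have hcb : ∀ q, q ∈ B → ∀ i, (cb q : Fin n → ZMod ℓ) i = (a₀ : ZMod ℓ) * (c q i : ZMod ℓ) := by
      intro q hq i
      show ((if h : q ∈ B then ⟨fun i => (a₀ : ZMod ℓ) * (c q i : ZMod ℓ), hcs q h⟩ else 0 :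
        Sz ℓ n (ZMod ℓ)) : Fin n → ZMod ℓ) i = _
      rw [dif_pos hq]
    have hmem : (W, cb) ∈ MSelW ψ L0 LL u g (fun q => cl (P q)) (fun p q => sv q (P p) (P q)) B := by
      refine ⟨fun q hq => dif_neg hq, ?_, fun q hq i => ?_⟩
      · refine H1 x hxS _ fun i => ?_
        rw [Submodule.coe_add, Pi.add_apply, sz_sum, hclx]
        congr 1
        refine Finset.sum_congr rfl fun q hq => ?_
        show (cb q : Fin n → ZMod ℓ) i • cl (P q) = _
        rw [hcb q hq]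
      · show - ψ (cl (w i)) (cl (P q)) + (cb q : Fin n → ZMod ℓ) i * ψ (u : V) (cl (P q)) +
          ∑ j, ((cb q : Fin n → ZMod ℓ) i - (cb q : Fin n → ZMod ℓ) j) * ψ (g i j : V) (cl (P q)) +
          ∑ p ∈ B.erase q, ((cb p : Fin n → ZMod ℓ) i - (cb q : Fin n → ZMod ℓ) i) *
            sv q (P p) (P q) = 0
        rw [Finset.sum_erase B (by rw [sub_self, zero_mul])]
        have h4 := eqn C D hδ hsep g hg B hs2 hδ'o q (hBS q hq) (x i) (w i)
          (fun p => (a₀ : ℤ) * c p i) (hxw i) (hwo i) (c q) i ((hcB q hq).2 i)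
        rw [← h4]
        congr 1
        · congr 1
          · rw [hcb q hq]
          · refine Finset.sum_congr rfl fun j _ => ?_
            rw [hcb q hq, hcb q hq]
        · refine Finset.sum_congr rfl fun p hp => ?_
          rw [hcb q hq, hcb p hp, Int.cast_mul, Int.cast_natCast]
    -- the torsion elements
    have htor : ∀ e : Sz ℓ n (ZMod ℓ), (tw u g hgs e, fun q => if q ∈ B then e else 0) ∈
        MSelW ψ L0 LL u g (fun q => cl (P q)) (fun p q => sv q (P p) (P q)) B := by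
      intro e
      refine ⟨fun q hq => if_neg hq, ?_, fun q hq i => ?_⟩
      · obtain ⟨c', hc'⟩ := hlift (e : Fin n → ZMod ℓ)
        refine H1 (tor D c') (H2 c' (hlift0 e c' hc')) _ fun i => ?_
        rw [cl_tor' hmul D hδ g hg hclδ _ c' hc', Submodule.coe_add, Pi.add_apply, sz_sum]
        have h4 : ∑ q ∈ B, ((tens (if q ∈ B then e else 0) (cl (P q)) : Sz ℓ n V) : Fin n → V) i =
            (e : Fin n → ZMod ℓ) i • d1 := by
          rw [← hs1, Finset.smul_sum]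
          refine Finset.sum_congr rfl fun q hq => ?_
          rw [if_pos hq]
          rfl
        have h5 : ((inc (tw u g hgs e) : Sz ℓ n V) : Fin n → V) i = (e : Fin n → ZMod ℓ) i • (u : V) +
            ∑ j, ((e : Fin n → ZMod ℓ) i - (e : Fin n → ZMod ℓ) j) • (g i j : V) := by
          show (((e : Fin n → ZMod ℓ) i • u +
            ∑ j, ((e : Fin n → ZMod ℓ) i - (e : Fin n → ZMod ℓ) j) • g i j : L0) : V) = _
          rw [Submodule.coe_add, Submodule.coe_smul, Submodule.coe_sum]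
          rfl
        show ((inc (tw u g hgs e) : Sz ℓ n V) : Fin n → V) i + ∑ q ∈ B,
          ((tens (if q ∈ B then e else 0) (cl (P q)) : Sz ℓ n V) : Fin n → V) i = _
        rw [h4, h5, smul_add]
        abel
      · show - ψ (((e : Fin n → ZMod ℓ) i • u +
            ∑ j, ((e : Fin n → ZMod ℓ) i - (e : Fin n → ZMod ℓ) j) • g i j : L0) : V) (cl (P q)) +
          ((if q ∈ B then e else 0 : Sz ℓ n (ZMod ℓ)) : Fin n → ZMod ℓ) i * ψ (u : V) (cl (P q)) +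
          ∑ j, (((if q ∈ B then e else 0 : Sz ℓ n (ZMod ℓ)) : Fin n → ZMod ℓ) i -
            ((if q ∈ B then e else 0 : Sz ℓ n (ZMod ℓ)) : Fin n → ZMod ℓ) j) *
              ψ (g i j : V) (cl (P q)) +
          ∑ p ∈ B.erase q, (((if p ∈ B then e else 0 : Sz ℓ n (ZMod ℓ)) : Fin n → ZMod ℓ) i -
            ((if q ∈ B then e else 0 : Sz ℓ n (ZMod ℓ)) : Fin n → ZMod ℓ) i) *
              sv q (P p) (P q) = 0
        rw [if_pos hq, Finset.sum_eq_zero (s := B.erase q) fun p hp => by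
          rw [if_pos (Finset.mem_of_mem_erase hp), sub_self, zero_mul], add_zero,
          Submodule.coe_add, Submodule.coe_smul, Submodule.coe_sum, map_add, map_smul,
          LinearMap.add_apply, LinearMap.smul_apply, smul_eq_mul, map_sum, LinearMap.sum_apply]
        have h6 : ∑ j, ψ ((((e : Fin n → ZMod ℓ) i - (e : Fin n → ZMod ℓ) j) • g i j : L0) : V)
            (cl (P q)) = ∑ j, ((e : Fin n → ZMod ℓ) i - (e : Fin n → ZMod ℓ) j) *
              ψ (g i j : V) (cl (P q)) := by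
          refine Finset.sum_congr rfl fun j _ => ?_
          rw [Submodule.coe_smul, map_smul, LinearMap.smul_apply, smul_eq_mul]
        rw [h6]
        ring
    -- all elements of the model are torsion elements
    obtain ⟨M, hM⟩ : ∃ M, M = MSelW ψ L0 LL u g (fun q => cl (P q)) (fun p q => sv q (P p) (P q)) B :=
      ⟨_, rfl⟩
    have hcM : Nat.card M = ℓ ^ (n - 1) := by
      rw [hM]
      exact hcard
    rw [← hM] at hmem
    simp only [← hM] at htor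
    haveI : Finite M := Nat.finite_of_card_ne_zero (by
      rw [hcM]
      exact pow_ne_zero _ hpr.ne_zero)
    have hinj : Function.Injective (fun e : Sz ℓ n (ZMod ℓ) => (⟨_, htor e⟩ : M)) := by
      intro e e' h
      obtain ⟨q, hq⟩ := hne
      have h4 := congrFun (congrArg (fun z : M => (z : Sz ℓ n L0 × (Pl K → Sz ℓ n (ZMod ℓ))).2) h) q
      simp only [if_pos hq] at h4
      exact h4
    have hsurj : Function.Surjective (fun e : Sz ℓ n (ZMod ℓ) => (⟨_, htor e⟩ : M)) := by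
      haveI : Finite (Sz ℓ n (ZMod ℓ)) := Finite.of_injective _ hinj
      haveI : Fintype (Sz ℓ n (ZMod ℓ)) := Fintype.ofFinite _
      haveI : Fintype M := Fintype.ofFinite _
      refine ((Fintype.bijective_iff_injective_and_card _).2 ⟨hinj, ?_⟩).2
      rw [← Nat.card_eq_fintype_card, ← Nat.card_eq_fintype_card, hcM, card_Sz ℓ n (by omega)]
    obtain ⟨e, he⟩ := hsurj ⟨_, hmem⟩
    have he' : (tw u g hgs e, fun q => if q ∈ B then e else 0) = (W, cb) :=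
      congrArg (fun z : M => (z : Sz ℓ n L0 × (Pl K → Sz ℓ n (ZMod ℓ)))) he
    have he1 : tw u g hgs e = W := congrArg Prod.fst he'
    have he2 : ∀ q ∈ B, e = cb q := by
      intro q hq
      have h4 := congrFun (congrArg Prod.snd he') q
      simp only [if_pos hq] at h4
      exact h4
    have he3 : ∀ q ∈ B, ∀ i, (e : Fin n → ZMod ℓ) i = (a₀ : ZMod ℓ) * (c q i : ZMod ℓ) := by
      intro q hq i
      rw [← hcb q hq, ← he2 q hq]
    have hclw : ∀ i, cl (w i) = (e : Fin n → ZMod ℓ) i • (u : V) +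
        ∑ j, ((e : Fin n → ZMod ℓ) i - (e : Fin n → ZMod ℓ) j) • (g i j : V) := by
      intro i
      rw [← hW i, ← he1]
      show (((e : Fin n → ZMod ℓ) i • u +
        ∑ j, ((e : Fin n → ZMod ℓ) i - (e : Fin n → ZMod ℓ) j) • g i j : L0) : V) = _
      rw [Submodule.coe_add, Submodule.coe_smul, Submodule.coe_sum]
      rfl
    obtain ⟨c', hc'⟩ := hlift (e : Fin n → ZMod ℓ)
    refine ⟨c', hlift0 e c' hc', fun i => ?_⟩
    refine C.ctx.inj _ ?_ fun v hv => ?_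
    · rw [← C.ctx.ker, hmul, cl_inv hmul, cl_tor' hmul D hδ g hg hclδ _ c' hc', hclx, hclw]
      have h4 : ∑ q ∈ B, ((a₀ : ZMod ℓ) * (c q i : ZMod ℓ)) • cl (P q) =
          (e : Fin n → ZMod ℓ) i • d1 := by
        rw [← hs1, Finset.smul_sum]
        refine Finset.sum_congr rfl fun q hq => ?_
        rw [he3 q hq]
      rw [h4, smul_add]
      abel
    · rw [pw_od hpos, od_mul, od_inv, od_tor D (hsep v hv), hoD]
      by_cases hvB : v ∈ B
      · have h4 := hxBo v hvB i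
        have h5 : (ℓ : ℤ) ∣ c' i * a₀ - a₀ * c v i := by
          rw [← ZMod.intCast_zmod_eq_zero_iff_dvd, Int.cast_sub, Int.cast_mul, Int.cast_mul,
            Int.cast_natCast, hc', he3 v hvB, sub_self]
        have h6 : od v (x i) + -(c' i * (a₀ * od v δ)) =
            (od v (x i) + a₀ * c v i) + (c' i * a₀ - a₀ * c v i) - c' i * a₀ * (od v δ + 1) := by
          ring
        rw [h6]
        exact dvd_sub (dvd_add h4 h5) (Dvd.dvd.mul_left (h2 v hvB) _)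
      · exact dvd_add (hxo' v hv hvB i)
          ((dvd_neg).2 (Dvd.dvd.mul_left (Dvd.dvd.mul_left (h3 v hv hvB) _) _))
  · intro c hc i j
    obtain ⟨q, hq⟩ := hne
    obtain ⟨z, hz⟩ := hc i j
    have h4 : (ℓ : ℤ) ∣ od q (tor D c i * (tor D c j)⁻¹) := by
      rw [hz, od_pow]
      exact dvd_mul_right _ _
    rw [od_mul, od_inv, od_tor D (hsep q (hBS q hq)), od_tor D (hsep q (hBS q hq)), hoD] at h4
    have h5 : c i * (a₀ * od q δ) + -(c j * (a₀ * od q δ)) = (c i - c j) * (a₀ * od q δ) := by ring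
    rw [h5] at h4
    rcases hℓZ.dvd_or_dvd h4 with h | h
    · exact h
    · rcases hℓZ.dvd_or_dvd h with h | h
      · exact absurd h hna
      · exact absurd h (hndB q hq)

end Pool.Agent.T3h73.SN.DICW
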