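import Pool.Agent.T3h73.SN.Stm2

/-!
LLW: the local conditions at the places of `S` are contained in a Lagrangian subspace of `V ⊗ W`.
-/

set_option autoImplicit false
set_option linter.all false

open NumberField IsDedekindDomain

namespace Pool.Agent.T3h73.SN.LLW

open Pool.Agent.T3h73.SL (Pl IsP Pk loc)
open Pool.Agent.T3h73.SD (Sv LN S_LAG)
open Pool.Agent.Y713.SE Pool.Agent.Y713.SE.Dat

section
variable {ℓ n : ℕ} {V : Type} [AddCommGroup V] [Module (ZMod ℓ) V]

/-- the form on the families -/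
noncomputable def Psi (ψ : V →ₗ[ZMod ℓ] V →ₗ[ZMod ℓ] ZMod ℓ) :
    Sz ℓ n V →ₗ[ZMod ℓ] Sz ℓ n V →ₗ[ZMod ℓ] ZMod ℓ :=
  LinearMap.mk₂ (ZMod ℓ) (fun x y => ∑ i, ψ ((x : Fin n → V) i) ((y : Fin n → V) i))
    (by
      intro a b c
      rw [← Finset.sum_add_distrib]
      refine Finset.sum_congr rfl fun i _ => ?_
      show ψ ((a : Fin n → V) i + (b : Fin n → V) i) _ = _
      rw [map_add, LinearMap.add_apply])
    (by
      intro r a c
      rw [Finset.smul_sum]
      refine Finset.sum_congr rfl fun i _ => ?_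
      show ψ (r • (a : Fin n → V) i) _ = _
      rw [map_smul, LinearMap.smul_apply])
    (by
      intro a b c
      rw [← Finset.sum_add_distrib]
      refine Finset.sum_congr rfl fun i _ => ?_
      show ψ _ ((b : Fin n → V) i + (c : Fin n → V) i) = _
      rw [map_add])
    (by
      intro r a c
      rw [Finset.smul_sum]
      refine Finset.sum_congr rfl fun i _ => ?_
      show ψ _ (r • (c : Fin n → V) i) = _
      rw [map_smul])

lemma Psi_apply (ψ : V →ₗ[ZMod ℓ] V →ₗ[ZMod ℓ] ZMod ℓ) (x y : Sz ℓ n V) :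
    Psi ψ x y = ∑ i, ψ ((x : Fin n → V) i) ((y : Fin n → V) i) := rfl

/-- the order of the space of the families -/
lemma card_Sz [Finite V] (m : ℕ) : Nat.card (Sz ℓ (m + 1) V) = Nat.card V ^ m := by
  have e : Sz ℓ (m + 1) V ≃ (Fin m → V) :=
    { toFun := fun x i => (x : Fin (m + 1) → V) i.castSucc
      invFun := fun f => ⟨Fin.snoc (α := fun _ => V) f (-∑ i, f i), by
        show ∑ i, Fin.snoc (α := fun _ => V) f (-∑ i, f i) i = 0
        rw [Fin.sum_univ_castSucc]
        simp only [Fin.snoc_castSucc, Fin.snoc_last]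
        rw [add_neg_cancel]⟩
      left_inv := by
        intro x
        apply Subtype.ext
        funext i
        have hx : ∑ i, (x : Fin (m + 1) → V) i = 0 := x.2
        rw [Fin.sum_univ_castSucc] at hx
        refine Fin.lastCases ?_ (fun j => ?_) i
        · simp only [Fin.snoc_last]
          exact (eq_neg_of_add_eq_zero_right hx).symm
        · simp only [Fin.snoc_castSucc]
      right_inv := by
        intro f
        funext i
        simp only [Fin.snoc_castSucc] }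
  rw [Nat.card_congr e, Nat.card_fun, Nat.card_fin]

/-- the element with `v` at `i` and `-v` at `j` -/
def two (i j : Fin n) (v : V) : Sz ℓ n V :=
  ⟨fun k => (if k = i then v else 0) - (if k = j then v else 0), by
    show ∑ k, ((if k = i then v else 0) - (if k = j then v else 0)) = 0
    rw [Finset.sum_sub_distrib]
    simp⟩

lemma Psi_nd [Fact ℓ.Prime] (hn : ¬ ℓ ∣ n) (ψ : V →ₗ[ZMod ℓ] V →ₗ[ZMod ℓ] ZMod ℓ)
    (nd : ∀ x, (∀ y, ψ x y = 0) → x = 0) (x : Sz ℓ n V) (h : ∀ y, Psi ψ x y = 0) : x = 0 := by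
  have h1 : ∀ i j, (x : Fin n → V) i = (x : Fin n → V) j := by
    intro i j
    rw [← sub_eq_zero]
    refine nd _ fun v => ?_
    have h2 := h (two i j v)
    rw [Psi_apply] at h2
    have h3 : ∀ k, ψ ((x : Fin n → V) k) (((two i j v : Sz ℓ n V) : Fin n → V) k) =
        (if k = i then ψ ((x : Fin n → V) k) v else 0) - (if k = j then ψ ((x : Fin n → V) k) v else 0) := by
      intro k
      show ψ ((x : Fin n → V) k) ((if k = i then v else 0) - (if k = j then v else 0)) = _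
      rw [map_sub]
      split_ifs <;> simp
    rw [Finset.sum_congr rfl fun k _ => h3 k, Finset.sum_sub_distrib] at h2
    simp at h2
    rw [map_sub, LinearMap.sub_apply]
    exact h2
  apply Subtype.ext
  funext i
  have hx : ∑ k, (x : Fin n → V) k = 0 := x.2
  have h2 : ∑ k, (x : Fin n → V) k = (n : ZMod ℓ) • (x : Fin n → V) i := by
    rw [Finset.sum_congr rfl fun k _ => h1 k i, Finset.sum_const, Finset.card_univ, Fintype.card_fin,
      Nat.cast_smul_eq_nsmul]
  rw [hx] at h2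
  have h3 : (n : ZMod ℓ) ≠ 0 := by
    rw [Ne, ZMod.natCast_eq_zero_iff]
    exact hn
  exact (smul_eq_zero.1 h2.symm).resolve_left h3

lemma core [Fact ℓ.Prime] (hℓ : ℓ ≠ 2) [Finite V] (hn : ¬ ℓ ∣ n) (hn2 : 2 ≤ n)
    (ψ : V →ₗ[ZMod ℓ] V →ₗ[ZMod ℓ] ZMod ℓ) (alt : ∀ x, ψ x x = 0)
    (nd : ∀ x, (∀ y, ψ x y = 0) → x = 0) (hLAG : S_LAG) (I : Submodule (ZMod ℓ) (Sz ℓ n V))
    (hI : ∀ x ∈ I, ∀ y ∈ I, ∑ i, ψ ((x : Fin n → V) i) ((y : Fin n → V) i) = 0) :
    ∃ LL : Submodule (ZMod ℓ) (Sz ℓ n V), I ≤ LL ∧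
      (∀ x ∈ LL, ∀ y ∈ LL, ∑ i, ψ ((x : Fin n → V) i) ((y : Fin n → V) i) = 0) ∧
      Nat.card LL ^ 2 = Nat.card V ^ (n - 1) := by
  obtain ⟨h1, _⟩ := hLAG ℓ hℓ (Sz ℓ n V) (Psi ψ) (fun x => by
    rw [Psi_apply]
    exact Finset.sum_eq_zero fun i _ => alt _) (Psi_nd hn ψ nd)
  obtain ⟨L, h2, h3, h4⟩ := h1 I hI
  refine ⟨L, h2, h3, ?_⟩
  obtain ⟨m, rfl⟩ : ∃ m, n = m + 1 := ⟨n - 1, by omega⟩
  rw [h4, card_Sz, Nat.add_sub_cancel]

end

theorem t_LLW (hISE : S_ISE) (hSYM : S_SYM) (hLCV : S_LCV)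
    (hLAG : Pool.Agent.T3h73.SD.S_LAG) : S_LLW := by
  intro ℓ n _ hℓ K _ _ D hn2 sv hsv S V _ _ _ ψ cl hmul hsurj hker alt nd hψ
  have hp : ℓ.Prime := Fact.out
  have hcl1 : cl 1 = 0 := by
    have h := hmul 1 1
    rw [mul_one] at h
    exact left_eq_add.1 h
  have hclp : ∀ (x : Kˣ) (k : ℕ), cl (x ^ k) = k • cl x := by
    intro x k
    induction k with
    | zero => rw [pow_zero, zero_smul, hcl1]
    | succ k ih => rw [pow_succ, hmul, ih, succ_nsmul]
  have hL1 : ∀ (v : Pl K) (x y : Fin n → Kˣ),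
      (fun i => loc v (x i)) ∈ Lcv (D.base (v.adicCompletion K)) →
      (fun i => loc v (y i)) ∈ Lcv (D.base (v.adicCompletion K)) →
      (fun i => loc v (x i * y i)) ∈ Lcv (D.base (v.adicCompletion K)) := by
    intro v x y hx hy
    have h := (hLCV ℓ n hℓ (v.adicCompletion K) (D.base (v.adicCompletion K))).1 _ hx _ hy
    have e : (fun i => loc v (x i * y i)) = (fun i => loc v (x i)) * (fun i => loc v (y i)) := by
      funext i
      rw [map_mul]
      rfl
    rw [e]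
    exact h
  have hL0 : ∀ v : Pl K, (fun _ : Fin n => loc v (1 : Kˣ)) ∈ Lcv (D.base (v.adicCompletion K)) := by
    intro v
    refine (hLCV ℓ n hℓ (v.adicCompletion K) (D.base (v.adicCompletion K))).2.1 _ fun i => ?_
    refine ⟨1, ?_⟩
    show loc v (1 : Kˣ) = 1 ^ ℓ
    rw [map_one, one_pow]
  have hLp : ∀ (v : Pl K) (x : Fin n → Kˣ) (k : ℕ),
      (fun i => loc v (x i)) ∈ Lcv (D.base (v.adicCompletion K)) →
      (fun i => loc v (x i ^ k)) ∈ Lcv (D.base (v.adicCompletion K)) := by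
    intro v x k hx
    induction k with
    | zero =>
      simp only [pow_zero]
      exact hL0 v
    | succ k ih =>
      simp only [pow_succ]
      exact hL1 v (fun i => x i ^ k) x ih hx
  let I : Submodule (ZMod ℓ) (Sz ℓ n V) :=
    { carrier := {y | ∃ x : Fin n → Kˣ,
        (∀ v ∈ S, (fun i => loc v (x i)) ∈ Lcv (D.base (v.adicCompletion K))) ∧
        ∀ i, (y : Fin n → V) i = cl (x i)}
      add_mem' := by
        rintro y y' ⟨x, hx, hy⟩ ⟨x', hx', hy'⟩
        refine ⟨fun i => x i * x' i, fun v hv => hL1 v x x' (hx v hv) (hx' v hv), fun i => ?_⟩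
        show (y : Fin n → V) i + (y' : Fin n → V) i = _
        rw [hy, hy', hmul]
      zero_mem' := ⟨fun _ => 1, fun v _ => hL0 v, fun i => hcl1.symm⟩
      smul_mem' := by
        rintro c y ⟨x, hx, hy⟩
        refine ⟨fun i => x i ^ c.val, fun v hv => hLp v x c.val (hx v hv), fun i => ?_⟩
        show c • (y : Fin n → V) i = _
        rw [hy, hclp, ← Nat.cast_smul_eq_nsmul (ZMod ℓ), ZMod.natCast_zmod_val] }
  have hI : ∀ y ∈ I, ∀ y' ∈ I, ∑ i, ψ ((y : Fin n → V) i) ((y' : Fin n → V) i) = 0 := by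
    rintro y ⟨x, hx, hy⟩ y' ⟨x', hx', hy'⟩
    have h1 : ∀ i, ψ ((y : Fin n → V) i) ((y' : Fin n → V) i) = ∑ v ∈ S, sv v (x i) (x' i) := by
      intro i
      rw [hy, hy', hψ]
    rw [Finset.sum_congr rfl fun i _ => h1 i, Finset.sum_comm]
    refine Finset.sum_eq_zero fun v hv => ?_
    have hc : CharZero (v.adicCompletion K) := charZero_of_injective_algebraMap
      (algebraMap K (v.adicCompletion K)).injective
    exact hSYM ℓ hp hℓ K D.ζ D.hζ sv hsv v n x x'
      (hISE ℓ n hℓ (v.adicCompletion K) (D.base (v.adicCompletion K)) _ (hx v hv) _ (hx' v hv))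
  obtain ⟨LL, h1, h2, h3⟩ := core hℓ D.hn hn2 ψ alt nd hLAG I hI
  exact ⟨LL, h2, h3, fun x hx y hy => h1 ⟨x, hx, hy⟩⟩

end Pool.Agent.T3h73.SN.LLW
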