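import Pool.Agent.T3h73.SN.Stm2

/-!
# Project SN, task MAINW (helper46): the contribution of a coset of `W ⊗ Y`

By a substitution of the variables the sum becomes the one of `S_MAINU` for the space `V ⊗ W` of the
families of sum zero, with `u = 0`, `d1 = 0` and the set of colours `Y`.
-/

set_option autoImplicit false
set_option linter.all false

namespace Pool.Agent.T3h73.SN.MAINW

open Pool.Agent.T3h73.SN
open Pool.Agent.T3h73.SD (Lin ee Cl Rc hc S_MAINU)

section alg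

variable {F M : Type} [Field F] [AddCommGroup M] [Module F M] {n : ℕ}

/-- `c_i u + ∑_j (c_i - c_j) g_ij` -/
def sg (u : M) (g : Fin n → Fin n → M) (c : Fin n → F) (i : Fin n) : M :=
  c i • u + ∑ j, (c i - c j) • g i j

/-- one summand of the characters -/
def HH (u : M) (g : Fin n → Fin n → M) (c κ : Fin n → F) (p w : Fin n → M) : M :=
  ∑ i, c i • p i - ∑ i, κ i • w i + (∑ i, κ i * c i) • u + ∑ i, ∑ j, (κ i * (c i - c j)) • g i j

lemma swap (g : Fin n → Fin n → M) (hg : ∀ i j, g i j = g j i) (c κ : Fin n → F) :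
    ∑ i, ∑ j, (κ i * (c i - c j)) • g i j = ∑ i, ∑ j, (c i * (κ i - κ j)) • g i j := by
  have h1 : ∑ i, ∑ j, (κ i * c j) • g i j = ∑ i, ∑ j, (c i * κ j) • g i j := by
    rw [Finset.sum_comm]
    refine Finset.sum_congr rfl fun i _ => Finset.sum_congr rfl fun j _ => ?_
    rw [hg j i, mul_comm]
  have h2 : ∀ a b : Fin n → F, ∑ i, ∑ j, (a i * (b i - b j)) • g i j =
      ∑ i, ∑ j, (a i * b i) • g i j - ∑ i, ∑ j, (a i * b j) • g i j := by
    intro a b
    rw [← Finset.sum_sub_distrib]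
    refine Finset.sum_congr rfl fun i _ => ?_
    rw [← Finset.sum_sub_distrib]
    refine Finset.sum_congr rfl fun j _ => ?_
    rw [← sub_smul]
    congr 1; ring
  rw [h2, h2, h1]
  congr 1
  refine Finset.sum_congr rfl fun i _ => Finset.sum_congr rfl fun j _ => ?_
  rw [mul_comm]

lemma swap2 (g : Fin n → Fin n → M) (hg : ∀ i j, g i j = g j i) (c κ : Fin n → F) :
    (2 : F) • ∑ i, ∑ j, (κ i * (c i - c j)) • g i j =
      ∑ i, ∑ j, ((κ i - κ j) * (c i - c j)) • g i j := by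
  have h1 : ∑ i, ∑ j, (κ i * (c i - c j)) • g i j = ∑ i, ∑ j, (κ j * (c j - c i)) • g i j := by
    rw [Finset.sum_comm]
    refine Finset.sum_congr rfl fun i _ => Finset.sum_congr rfl fun j _ => ?_
    rw [hg j i]
  rw [two_smul]
  nth_rewrite 2 [h1]
  rw [← Finset.sum_add_distrib]
  refine Finset.sum_congr rfl fun i _ => ?_
  rw [← Finset.sum_add_distrib]
  refine Finset.sum_congr rfl fun j _ => ?_
  rw [← add_smul]
  congr 1; ring

lemma sum_sg (u : M) (g : Fin n → Fin n → M) (c κ : Fin n → F) :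
    ∑ i, κ i • sg u g c i = (∑ i, κ i * c i) • u + ∑ i, ∑ j, (κ i * (c i - c j)) • g i j := by
  unfold sg
  simp_rw [smul_add, smul_smul, Finset.smul_sum, smul_smul]
  rw [Finset.sum_add_distrib, Finset.sum_smul]

lemma HH_eq (u : M) (g : Fin n → Fin n → M) (c κ : Fin n → F) (p w : Fin n → M) :
    HH u g c κ p w = ∑ i, (c i • p i - κ i • w i + κ i • sg u g c i) := by
  rw [Finset.sum_add_distrib, Finset.sum_sub_distrib, sum_sg]
  unfold HH
  abel

/-- the expansion around `(c0, κ0)` -/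
lemma HH_add (u : M) (g : Fin n → Fin n → M) (hg : ∀ i j, g i j = g j i)
    (c0 κ0 c κ : Fin n → F) (p w : Fin n → M) :
    HH u g (fun i => c0 i + c i) (fun i => κ0 i + κ i) p w = HH u g c0 κ0 p w +
      ∑ i, (c i • (p i + sg u g κ0 i) - κ i • (w i - sg u g c0 i)) + ∑ i, κ i • sg u g c i := by
  have hsg : ∀ i, sg u g (fun i => c0 i + c i) i = sg u g c0 i + sg u g c i := by
    intro i
    unfold sg
    rw [add_smul]
    have : ∀ j, ((c0 i + c i) - (c0 j + c j)) • g i j = (c0 i - c0 j) • g i j + (c i - c j) • g i j := by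
      intro j
      rw [← add_smul]
      congr 1; ring
    simp_rw [this]
    rw [Finset.sum_add_distrib]
    abel
  have hsw : ∑ i, κ0 i • sg u g c i = ∑ i, c i • sg u g κ0 i := by
    rw [sum_sg, sum_sg, swap g hg c κ0]
    congr 2
    exact Finset.sum_congr rfl fun i _ => mul_comm _ _
  rw [HH_eq, HH_eq]
  have e : ∑ i, (c i • (p i + sg u g κ0 i) - κ i • (w i - sg u g c0 i)) =
      ∑ i, (c i • p i - κ i • w i + κ i • sg u g c0 i) + ∑ i, κ0 i • sg u g c i := by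
    rw [hsw, ← Finset.sum_add_distrib]
    refine Finset.sum_congr rfl fun i _ => ?_
    rw [smul_add, smul_sub]
    abel
  rw [e, ← Finset.sum_add_distrib, ← Finset.sum_add_distrib, ← Finset.sum_add_distrib]
  refine Finset.sum_congr rfl fun i _ => ?_
  rw [hsg, add_smul, add_smul, add_smul, smul_add, smul_add]
  abel

end alg

section main

variable {ℓ n : ℕ} [Fact ℓ.Prime] {V : Type} [AddCommGroup V] [Module (ZMod ℓ) V]

/-- the form on the families of sum zero -/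
def psW (n : ℕ) (ψ : V →ₗ[ZMod ℓ] V →ₗ[ZMod ℓ] ZMod ℓ) :
    Sz ℓ n V →ₗ[ZMod ℓ] Sz ℓ n V →ₗ[ZMod ℓ] ZMod ℓ :=
  LinearMap.mk₂ (ZMod ℓ) (fun x y => ∑ i, ψ ((x : Fin n → V) i) ((y : Fin n → V) i))
    (by
      intro a b c
      rw [← Finset.sum_add_distrib]
      refine Finset.sum_congr rfl fun i _ => ?_
      show ψ ((a : Fin n → V) i + (b : Fin n → V) i) _ = _
      rw [map_add, LinearMap.add_apply])
    (by
      intro r a b
      rw [Finset.smul_sum]
      refine Finset.sum_congr rfl fun i _ => ?_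
      show ψ (r • (a : Fin n → V) i) _ = _
      rw [map_smul, LinearMap.smul_apply])
    (by
      intro a b c
      rw [← Finset.sum_add_distrib]
      refine Finset.sum_congr rfl fun i _ => ?_
      show ψ _ ((b : Fin n → V) i + (c : Fin n → V) i) = _
      rw [map_add])
    (by
      intro r a b
      rw [Finset.smul_sum]
      refine Finset.sum_congr rfl fun i _ => ?_
      show ψ _ (r • (b : Fin n → V) i) = _
      rw [map_smul])

lemma psW_apply (ψ : V →ₗ[ZMod ℓ] V →ₗ[ZMod ℓ] ZMod ℓ) (x y : Sz ℓ n V) :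
    psW n ψ x y = ∑ i, ψ ((x : Fin n → V) i) ((y : Fin n → V) i) := rfl

/-- families of sum zero in a subspace -/
def L0W (n : ℕ) (L : Submodule (ZMod ℓ) V) : Submodule (ZMod ℓ) (Sz ℓ n V) where
  carrier := {x | ∀ i, (x : Fin n → V) i ∈ L}
  add_mem' := fun ha hb i => L.add_mem (ha i) (hb i)
  zero_mem' := fun i => L.zero_mem
  smul_mem' := fun c x hx i => L.smul_mem c (hx i)

lemma sum_coe {L : Submodule (ZMod ℓ) V} (f : Fin n → L) :
    ∑ i, ((f i : L) : V) = ((∑ i, f i : L) : V) := by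
  rw [Submodule.coe_sum]

/-- the projection of the families -/
def piW (n : ℕ) {L0 : Submodule (ZMod ℓ) V} (π : V →ₗ[ZMod ℓ] L0) : Sz ℓ n V →ₗ[ZMod ℓ] L0W n L0 where
  toFun x := ⟨⟨fun i => (π ((x : Fin n → V) i) : V), by
    show ∑ i, (π ((x : Fin n → V) i) : V) = 0
    rw [sum_coe, ← map_sum, show ∑ i, (x : Fin n → V) i = 0 from x.2, map_zero, Submodule.coe_zero]⟩,
    fun i => (π ((x : Fin n → V) i)).2⟩
  map_add' := by
    intro x y
    apply Subtype.ext
    apply Subtype.ext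
    funext i
    show ((π ((x : Fin n → V) i + (y : Fin n → V) i) : L0) : V) = _
    rw [map_add]
    rfl
  map_smul' := by
    intro c x
    apply Subtype.ext
    apply Subtype.ext
    funext i
    show ((π (c • (x : Fin n → V) i) : L0) : V) = _
    rw [map_smul]
    rfl

lemma piW_apply {L0 : Submodule (ZMod ℓ) V} (π : V →ₗ[ZMod ℓ] L0) (x : Sz ℓ n V) (i : Fin n) :
    (((piW n π x : L0W n L0) : Sz ℓ n V) : Fin n → V) i = (π ((x : Fin n → V) i) : V) := rfl

/-- the identification `L0 ⊗ W` = families in `L0` -/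
def EE (n : ℕ) (L0 : Submodule (ZMod ℓ) V) : Sz ℓ n L0 ≃ L0W n L0 where
  toFun w := ⟨inc w, fun i => ((w : Fin n → L0) i).2⟩
  invFun x := ⟨fun i => ⟨((x : Sz ℓ n V) : Fin n → V) i, x.2 i⟩, by
    show ∑ i, (⟨((x : Sz ℓ n V) : Fin n → V) i, x.2 i⟩ : L0) = 0
    apply Subtype.ext
    rw [Submodule.coe_sum, Submodule.coe_zero]
    exact (x : Sz ℓ n V).2⟩
  left_inv := fun w => rfl
  right_inv := fun x => rfl

lemma EE_apply (L0 : Submodule (ZMod ℓ) V) (w : Sz ℓ n L0) (i : Fin n) :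
    (((EE n L0 w : L0W n L0) : Sz ℓ n V) : Fin n → V) i = (((w : Fin n → L0) i : L0) : V) := rfl

/-- the number of families of sum zero -/
lemma card_Sz (hn : 1 ≤ n) (M : Type) [AddCommGroup M] [Module (ZMod ℓ) M] :
    Nat.card (Sz ℓ n M) = Nat.card M ^ (n - 1) := by
  obtain ⟨m, rfl⟩ : ∃ m, n = m + 1 := ⟨n - 1, by omega⟩
  have e : Sz ℓ (m + 1) M ≃ (Fin m → M) :=
    { toFun := fun x j => (x : Fin (m + 1) → M) j.succ
      invFun := fun f => ⟨Fin.cons (-∑ j, f j) f, by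
        show ∑ i, (Fin.cons (-∑ j, f j) f : Fin (m + 1) → M) i = 0
        rw [Fin.sum_univ_succ]
        simp⟩
      left_inv := by
        intro x
        apply Subtype.ext
        funext i
        refine Fin.cases ?_ (fun j => ?_) i
        · show -∑ j : Fin m, (x : Fin (m + 1) → M) j.succ = (x : Fin (m + 1) → M) 0
          have h : ∑ i, (x : Fin (m + 1) → M) i = 0 := x.2
          rw [Fin.sum_univ_succ] at h
          rw [neg_eq_iff_add_eq_zero, add_comm]
          exact h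
        · rfl
      right_inv := by
        intro f
        funext j
        rfl }
  rw [Nat.card_congr e, Nat.card_fun, Nat.card_eq_fintype_card (α := Fin m), Fintype.card_fin,
    Nat.add_sub_cancel]

lemma card_L0W (hn : 1 ≤ n) (L0 : Submodule (ZMod ℓ) V) :
    Nat.card (L0W n L0) = Nat.card L0 ^ (n - 1) := by
  rw [← Nat.card_congr (EE n L0), card_Sz hn]

variable [Finite V] {ψ : V →ₗ[ZMod ℓ] V →ₗ[ZMod ℓ] ZMod ℓ}
  {L0 L1 : Submodule (ZMod ℓ) V} {LL : Submodule (ZMod ℓ) (Sz ℓ n V)} {π : V →ₗ[ZMod ℓ] L0}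
  {u : L0} {d1 : V} {g : Fin n → Fin n → L0}

lemma pi0 (h : LinW ℓ n V ψ L0 L1 LL π u d1 g) {x : V} (hx : x ∈ L0) : (π x : V) = x := by
  have h1 : x - (π x : V) ∈ L0 ⊓ L1 := ⟨L0.sub_mem hx (π x).2, h.proj x⟩
  rw [h.compl.inf_eq_bot, Submodule.mem_bot, sub_eq_zero] at h1
  exact h1.symm

lemma pi1 (h : LinW ℓ n V ψ L0 L1 LL π u d1 g) {x : V} (hx : x ∈ L1) : π x = 0 := by
  have h1 : (π x : V) ∈ L0 ⊓ L1 := by
    refine ⟨(π x).2, ?_⟩
    have := L1.sub_mem hx (h.proj x)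
    rwa [sub_sub_cancel] at this
  rw [h.compl.inf_eq_bot, Submodule.mem_bot] at h1
  exact Subtype.ext h1

lemma skew (h : LinW ℓ n V ψ L0 L1 LL π u d1 g) (x y : V) : ψ x y = - ψ y x := by
  have h1 := h.alt (x + y)
  rw [map_add, map_add, LinearMap.add_apply, LinearMap.add_apply, h.alt, h.alt, zero_add, add_zero] at h1
  rw [add_comm] at h1
  exact eq_neg_of_add_eq_zero_left h1

/-- the linear algebra data for the families -/
lemma linW (h : LinW ℓ n V ψ L0 L1 LL π u d1 g) :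
    Lin ℓ (Sz ℓ n V) (psW n ψ) (L0W n L0) (L0W n L1) LL (piW n π) 0 0 where
  alt := fun x => by
    rw [psW_apply]
    exact Finset.sum_eq_zero fun i _ => h.alt _
  nd := by
    intro x hx
    have h1 : ∀ i j : Fin n, (x : Fin n → V) i = (x : Fin n → V) j := by
      intro i j
      by_cases hij : i = j
      · rw [hij]
      · have h2 : (x : Fin n → V) i - (x : Fin n → V) j = 0 := by
          apply h.nd
          intro v
          have h3 := hx ⟨fun m => (if m = i then v else 0) - (if m = j then v else 0), by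
            show ∑ m, ((if m = i then v else 0) - (if m = j then v else 0)) = 0
            rw [Finset.sum_sub_distrib, Finset.sum_ite_eq', Finset.sum_ite_eq']
            simp⟩
          rw [psW_apply] at h3
          have h4 : ∀ m : Fin n, ψ ((x : Fin n → V) m) ((if m = i then v else 0) - (if m = j then v else 0)) =
              (if m = i then ψ ((x : Fin n → V) m) v else 0) - (if m = j then ψ ((x : Fin n → V) m) v else 0) := by
            intro m
            rw [map_sub]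
            congr 1 <;> split_ifs <;> simp
          have h5 : ∑ m : Fin n, ψ ((x : Fin n → V) m) ((if m = i then v else 0) - (if m = j then v else 0)) = 0 := h3
          rw [Finset.sum_congr rfl fun m _ => h4 m, Finset.sum_sub_distrib, Finset.sum_ite_eq',
            Finset.sum_ite_eq'] at h5
          simp only [Finset.mem_univ, if_true] at h5
          rw [map_sub, LinearMap.sub_apply]
          exact h5
        exact sub_eq_zero.1 h2
    have h0 : ∀ i : Fin n, (x : Fin n → V) i = 0 := by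
      intro i
      have h2 : ∑ j, (x : Fin n → V) j = 0 := x.2
      rw [Finset.sum_congr rfl fun j _ => h1 j i, Finset.sum_const, Finset.card_univ, Fintype.card_fin] at h2
      have h3 : ((n : ℕ) : ZMod ℓ) • (x : Fin n → V) i = 0 := by
        rw [Nat.cast_smul_eq_nsmul]; exact h2
      have h4 : ((n : ℕ) : ZMod ℓ) ≠ 0 := by
        rw [Ne, ZMod.natCast_eq_zero_iff]
        exact h.hn
      exact (smul_eq_zero.1 h3).resolve_left h4
    apply Subtype.ext
    funext i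
    exact h0 i
  compl := by
    constructor
    · rw [disjoint_iff, eq_bot_iff]
      intro x hx
      rw [Submodule.mem_bot]
      apply Subtype.ext
      funext i
      have h1 : (x : Fin n → V) i ∈ L0 ⊓ L1 := ⟨hx.1 i, hx.2 i⟩
      rw [h.compl.inf_eq_bot, Submodule.mem_bot] at h1
      exact h1
    · rw [codisjoint_iff, eq_top_iff]
      intro x _
      rw [Submodule.mem_sup]
      refine ⟨((piW n π x : L0W n L0) : Sz ℓ n V), (piW n π x).2, x - ((piW n π x : L0W n L0) : Sz ℓ n V), ?_, ?_⟩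
      · intro i
        exact h.proj _
      · abel
  iso0 := fun x hx y hy => by
    rw [psW_apply]
    exact Finset.sum_eq_zero fun i _ => h.iso0 _ (hx i) _ (hy i)
  iso1 := fun x hx y hy => by
    rw [psW_apply]
    exact Finset.sum_eq_zero fun i _ => h.iso1 _ (hx i) _ (hy i)
  isoL := fun x hx y hy => h.isoL x hx y hy
  card := by
    rw [h.card, card_L0W (by have := h.hn2; omega)]
  proj := fun x i => h.proj _
  d1_mem := Submodule.zero_mem _
  d_mem := by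
    rw [Submodule.coe_zero, add_zero]
    exact Submodule.zero_mem _

/-- `σ(c)` in `L0 ⊗ W` -/
def sgW (h : LinW ℓ n V ψ L0 L1 LL π u d1 g) (c : Sz ℓ n (ZMod ℓ)) : Sz ℓ n L0 :=
  ⟨sg u g (c : Fin n → ZMod ℓ), by
    show ∑ i, (((c : Fin n → ZMod ℓ) i) • u + ∑ j, ((c : Fin n → ZMod ℓ) i - (c : Fin n → ZMod ℓ) j) • g i j) = 0
    rw [Finset.sum_add_distrib, ← Finset.sum_smul, show ∑ i, (c : Fin n → ZMod ℓ) i = 0 from c.2, zero_smul,
      zero_add]
    have h1 : ∑ i, ∑ j, ((c : Fin n → ZMod ℓ) i - (c : Fin n → ZMod ℓ) j) • g i j =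
        ∑ i, ∑ j, ((c : Fin n → ZMod ℓ) j - (c : Fin n → ZMod ℓ) i) • g i j := by
      rw [Finset.sum_comm]
      refine Finset.sum_congr rfl fun i _ => Finset.sum_congr rfl fun j _ => ?_
      rw [h.gsymm j i]
    have h2 : ∑ i, ∑ j, ((c : Fin n → ZMod ℓ) i - (c : Fin n → ZMod ℓ) j) • g i j =
        ∑ i, ∑ j, (c : Fin n → ZMod ℓ) i • g i j - ∑ i, ∑ j, (c : Fin n → ZMod ℓ) j • g i j := by
      rw [← Finset.sum_sub_distrib]
      refine Finset.sum_congr rfl fun i _ => ?_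
      rw [← Finset.sum_sub_distrib]
      exact Finset.sum_congr rfl fun j _ => sub_smul _ _ _
    rw [h2, sub_eq_zero, Finset.sum_comm]
    refine Finset.sum_congr rfl fun i _ => Finset.sum_congr rfl fun j _ => ?_
    rw [h.gsymm j i]⟩

/-- `τ(c)` in `LL` -/
def taW (h : LinW ℓ n V ψ L0 L1 LL π u d1 g) (c : Sz ℓ n (ZMod ℓ)) : LL :=
  ⟨⟨fun i => ((sg u g (c : Fin n → ZMod ℓ) i : L0) : V) + (c : Fin n → ZMod ℓ) i • d1, by
    show ∑ i, (((sg u g (c : Fin n → ZMod ℓ) i : L0) : V) + (c : Fin n → ZMod ℓ) i • d1) = 0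
    rw [Finset.sum_add_distrib, ← Finset.sum_smul, show ∑ i, (c : Fin n → ZMod ℓ) i = 0 from c.2, zero_smul,
      add_zero, sum_coe, show ∑ i, sg u g (c : Fin n → ZMod ℓ) i = 0 from (sgW h c).2, Submodule.coe_zero]⟩,
    h.tor c _ (fun i => by
      show ((sg u g (c : Fin n → ZMod ℓ) i : L0) : V) + (c : Fin n → ZMod ℓ) i • d1 = _
      unfold sg
      rw [Submodule.coe_add, Submodule.coe_smul, Submodule.coe_sum, smul_add]
      simp only [Submodule.coe_smul]
      abel)⟩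

lemma taW_apply (h : LinW ℓ n V ψ L0 L1 LL π u d1 g) (c : Sz ℓ n (ZMod ℓ)) (i : Fin n) :
    ((taW h c : Sz ℓ n V) : Fin n → V) i =
      ((sg u g (c : Fin n → ZMod ℓ) i : L0) : V) + (c : Fin n → ZMod ℓ) i • d1 := rfl

lemma pi_ta (h : LinW ℓ n V ψ L0 L1 LL π u d1 g) (c : Sz ℓ n (ZMod ℓ)) (i : Fin n) :
    π (((taW h c : Sz ℓ n V) : Fin n → V) i) = sg u g (c : Fin n → ZMod ℓ) i := by
  rw [taW_apply, map_add, map_smul, pi1 h h.d1_mem, smul_zero, add_zero]
  exact Subtype.ext (pi0 h (Subtype.prop _))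

/-- `ψ(π x, d1) = ψ(x, d1)` -/
lemma psi_pi (h : LinW ℓ n V ψ L0 L1 LL π u d1 g) (x : V) : ψ (π x : V) d1 = ψ x d1 := by
  have h1 := h.iso1 _ (h.proj x) _ h.d1_mem
  rw [map_sub, LinearMap.sub_apply, sub_eq_zero] at h1
  exact h1.symm

/-- the phases -/
lemma phase (h : LinW ℓ n V ψ L0 L1 LL π u d1 g) (c0 κ0 : Sz ℓ n (ZMod ℓ)) (z : LL) (w : Sz ℓ n L0) :
    ψ ((HH u g (c0 : Fin n → ZMod ℓ) (κ0 : Fin n → ZMod ℓ) (fun i => π (((z : Sz ℓ n V) : Fin n → V) i))
        (w : Fin n → L0) : L0) : V) d1 +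
      ∑ i, ψ (((z : Sz ℓ n V) : Fin n → V) i) (((w : Fin n → L0) i : L0) : V) =
    ∑ i, ψ ((((z + taW h κ0 : LL) : Sz ℓ n V) : Fin n → V) i)
      ((((w - sgW h c0 : Sz ℓ n L0) : Fin n → L0) i : L0) : V) := by
  have hL : ∑ i, ψ (((z : Sz ℓ n V) : Fin n → V) i) (((taW h c0 : Sz ℓ n V) : Fin n → V) i) = 0 :=
    h.isoL _ z.2 _ (taW h c0).2
  have hz : ∀ x y : L0, ψ (x : V) (y : V) = 0 := fun x y => h.iso0 _ x.2 _ y.2
  rw [← sub_eq_zero, ← hL, HH_eq, Submodule.coe_sum, map_sum, LinearMap.sum_apply, ← Finset.sum_add_distrib,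
    ← Finset.sum_sub_distrib]
  refine Finset.sum_congr rfl fun i _ => ?_
  have e1 : (((z + taW h κ0 : LL) : Sz ℓ n V) : Fin n → V) i =
      ((z : Sz ℓ n V) : Fin n → V) i + (((sg u g (κ0 : Fin n → ZMod ℓ) i : L0) : V) +
        (κ0 : Fin n → ZMod ℓ) i • d1) := rfl
  have e2 : ((((w - sgW h c0 : Sz ℓ n L0) : Fin n → L0) i : L0) : V) =
      (((w : Fin n → L0) i : L0) : V) - ((sg u g (c0 : Fin n → ZMod ℓ) i : L0) : V) := rfl
  rw [e1, e2, taW_apply]
  simp only [Submodule.coe_add, Submodule.coe_sub, Submodule.coe_smul, map_add, map_sub, map_smul,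
    LinearMap.add_apply, LinearMap.sub_apply, LinearMap.smul_apply, psi_pi h, hz, smul_eq_mul,
    skew h d1]
  ring

/-- the part of the characters linear in `x` -/
def TT {k : ℕ} (w : Fin k → Sz ℓ n L0) (z : Fin k → LL) (π : V →ₗ[ZMod ℓ] L0) (y : Cl ℓ k) (i : Fin n) : L0 :=
  ∑ s, (y.1 s • π (((z s : Sz ℓ n V) : Fin n → V) i) - y.2 s • (w s : Fin n → L0) i)

lemma hcW_eq {k : ℕ} (w : Fin k → Sz ℓ n L0) (α : L0) (z : Fin k → LL) (a : ClW ℓ n k) :
    hcW π u g w α z a = α + ∑ s, HH u g (a.1 s : Fin n → ZMod ℓ) (a.2 s : Fin n → ZMod ℓ)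
      (fun i => π (((z s : Sz ℓ n V) : Fin n → V) i)) (w s : Fin n → L0) := by
  unfold hcW HH slc
  simp only [Finset.sum_add_distrib, Finset.sum_sub_distrib, Finset.sum_smul]
  abel

lemma TT_sub {k : ℕ} (w : Fin k → Sz ℓ n L0) (z : Fin k → LL) (y y' : Cl ℓ k) (i : Fin n) :
    TT w z π (y - y') i = TT w z π y i - TT w z π y' i := by
  unfold TT
  rw [← Finset.sum_sub_distrib]
  refine Finset.sum_congr rfl fun s _ => ?_
  show (y.1 s - y'.1 s) • _ - (y.2 s - y'.2 s) • _ = _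
  rw [sub_smul, sub_smul]
  abel

lemma TT_zero {k : ℕ} (w : Fin k → Sz ℓ n L0) (z : Fin k → LL) (i : Fin n) :
    TT w z π (0 : Cl ℓ k) i = 0 := by
  unfold TT
  refine Finset.sum_eq_zero fun s _ => ?_
  show (0 : ZMod ℓ) • _ - (0 : ZMod ℓ) • _ = _
  rw [zero_smul, zero_smul, sub_zero]

lemma TT_sum {k : ℕ} (w : Fin k → Sz ℓ n L0) (z : Fin k → LL) (y : Cl ℓ k) :
    ∑ i, TT w z π y i = 0 := by
  unfold TT
  rw [Finset.sum_comm]
  refine Finset.sum_eq_zero fun s _ => ?_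
  rw [Finset.sum_sub_distrib, ← Finset.smul_sum, ← Finset.smul_sum, ← map_sum,
    show ∑ i, ((z s : Sz ℓ n V) : Fin n → V) i = 0 from (z s : Sz ℓ n V).2,
    show ∑ i, (w s : Fin n → L0) i = 0 from (w s).2, map_zero, smul_zero, smul_zero, sub_zero]

/-- the characters at `x₀ + x` -/
lemma hcW_add (h : LinW ℓ n V ψ L0 L1 LL π u d1 g) {k : ℕ} (w : Fin k → Sz ℓ n L0) (α : L0)
    (z : Fin k → LL) (x₀ x : ClW ℓ n k) :
    hcW π u g w α z (x₀ + x) = (α + ∑ s, HH u g (x₀.1 s : Fin n → ZMod ℓ) (x₀.2 s : Fin n → ZMod ℓ)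
      (fun i => π (((z s : Sz ℓ n V) : Fin n → V) i)) (w s : Fin n → L0)) +
      ∑ i, TT (fun s => w s - sgW h (x₀.1 s)) (fun s => z s + taW h (x₀.2 s)) π (slc x i) i +
      ∑ s, ∑ i, (x.2 s : Fin n → ZMod ℓ) i • sg u g (x.1 s : Fin n → ZMod ℓ) i := by
  rw [hcW_eq]
  have h1 : ∀ s, HH u g ((x₀ + x).1 s : Fin n → ZMod ℓ) ((x₀ + x).2 s : Fin n → ZMod ℓ)
      (fun i => π (((z s : Sz ℓ n V) : Fin n → V) i)) (w s : Fin n → L0) =
      HH u g (x₀.1 s : Fin n → ZMod ℓ) (x₀.2 s : Fin n → ZMod ℓ)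
        (fun i => π (((z s : Sz ℓ n V) : Fin n → V) i)) (w s : Fin n → L0) +
      ∑ i, ((x.1 s : Fin n → ZMod ℓ) i • (π (((z s : Sz ℓ n V) : Fin n → V) i) +
          sg u g (x₀.2 s : Fin n → ZMod ℓ) i) -
        (x.2 s : Fin n → ZMod ℓ) i • ((w s : Fin n → L0) i - sg u g (x₀.1 s : Fin n → ZMod ℓ) i)) +
      ∑ i, (x.2 s : Fin n → ZMod ℓ) i • sg u g (x.1 s : Fin n → ZMod ℓ) i := fun s =>
    HH_add u g h.gsymm (x₀.1 s : Fin n → ZMod ℓ) (x₀.2 s : Fin n → ZMod ℓ) (x.1 s : Fin n → ZMod ℓ)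
      (x.2 s : Fin n → ZMod ℓ) (fun i => π (((z s : Sz ℓ n V) : Fin n → V) i)) (w s : Fin n → L0)
  rw [Finset.sum_congr rfl fun s _ => h1 s, Finset.sum_add_distrib, Finset.sum_add_distrib]
  have h2 : ∑ i, TT (fun s => w s - sgW h (x₀.1 s)) (fun s => z s + taW h (x₀.2 s)) π (slc x i) i =
      ∑ s, ∑ i, ((x.1 s : Fin n → ZMod ℓ) i • (π (((z s : Sz ℓ n V) : Fin n → V) i) +
          sg u g (x₀.2 s : Fin n → ZMod ℓ) i) -
        (x.2 s : Fin n → ZMod ℓ) i • ((w s : Fin n → L0) i - sg u g (x₀.1 s : Fin n → ZMod ℓ) i)) := by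
    unfold TT
    rw [Finset.sum_comm]
    refine Finset.sum_congr rfl fun s _ => Finset.sum_congr rfl fun i _ => ?_
    have e : π ((((z s + taW h (x₀.2 s) : LL) : Sz ℓ n V) : Fin n → V) i) =
        π (((z s : Sz ℓ n V) : Fin n → V) i) + sg u g (x₀.2 s : Fin n → ZMod ℓ) i := by
      rw [← pi_ta h, ← map_add]
      rfl
    rw [e]
    rfl
  rw [h2]
  abel

/-- the quadratic part vanishes -/
lemma quad (h : LinW ℓ n V ψ L0 L1 LL π u d1 g) (hℓ : ℓ ≠ 2) {k : ℕ} (Y : Submodule (ZMod ℓ) (Cl ℓ k))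
    (hY : ∀ x ∈ Y, ∀ y ∈ Y, ∑ s, (x.1 s * y.2 s + y.1 s * x.2 s) = 0) (x : ClW ℓ n k)
    (hx : ∀ i, slc x i ∈ Y) :
    ∑ s, ∑ i, (x.2 s : Fin n → ZMod ℓ) i • sg u g (x.1 s : Fin n → ZMod ℓ) i = 0 := by
  have h2 : (2 : ZMod ℓ) ≠ 0 := by
    intro h0
    have h1 : ((2 : ℕ) : ZMod ℓ) = 0 := by exact_mod_cast h0
    rw [ZMod.natCast_eq_zero_iff] at h1
    exact hℓ ((Nat.prime_dvd_prime_iff_eq (Fact.out) Nat.prime_two).1 h1)
  have hself : ∀ y ∈ Y, ∑ s, y.2 s * y.1 s = 0 := by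
    intro y hy
    have h1 := hY y hy y hy
    have h3 : ∑ s, (y.1 s * y.2 s + y.1 s * y.2 s) = 2 * ∑ s, y.2 s * y.1 s := by
      rw [Finset.mul_sum]
      refine Finset.sum_congr rfl fun s _ => ?_
      ring
    rw [h3] at h1
    exact (mul_eq_zero.1 h1).resolve_left h2
  simp_rw [sum_sg]
  rw [Finset.sum_add_distrib, ← Finset.sum_smul]
  have e1 : ∑ s, ∑ i, (x.2 s : Fin n → ZMod ℓ) i * (x.1 s : Fin n → ZMod ℓ) i = 0 := by
    rw [Finset.sum_comm]
    exact Finset.sum_eq_zero fun i _ => hself _ (hx i)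
  rw [e1, zero_smul, zero_add]
  have e2 : (2 : ZMod ℓ) • ∑ s, ∑ i, ∑ j, ((x.2 s : Fin n → ZMod ℓ) i *
      ((x.1 s : Fin n → ZMod ℓ) i - (x.1 s : Fin n → ZMod ℓ) j)) • g i j = 0 := by
    rw [Finset.smul_sum, Finset.sum_congr rfl fun s _ =>
      swap2 g h.gsymm (x.1 s : Fin n → ZMod ℓ) (x.2 s : Fin n → ZMod ℓ), Finset.sum_comm]
    refine Finset.sum_eq_zero fun i _ => ?_
    rw [Finset.sum_comm]
    refine Finset.sum_eq_zero fun j _ => ?_
    rw [← Finset.sum_smul]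
    have := hself _ (Y.sub_mem (hx i) (hx j))
    have e3 : ∑ s, ((x.2 s : Fin n → ZMod ℓ) i - (x.2 s : Fin n → ZMod ℓ) j) *
        ((x.1 s : Fin n → ZMod ℓ) i - (x.1 s : Fin n → ZMod ℓ) j) = 0 := this
    rw [e3, zero_smul]
  exact (smul_eq_zero.1 e2).resolve_left h2

/-- the condition of vanishing on `U` -/
lemma cond (h : LinW ℓ n V ψ L0 L1 LL π u d1 g) (hℓ : ℓ ≠ 2) {k : ℕ} (Y : Submodule (ZMod ℓ) (Cl ℓ k))
    (hY : ∀ x ∈ Y, ∀ y ∈ Y, ∑ s, (x.1 s * y.2 s + y.1 s * x.2 s) = 0) (x₀ : ClW ℓ n k)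
    (U : Finset (ClW ℓ n k)) (hU : ∀ a, a ∈ U ↔ ∀ i, slc (a - x₀) i ∈ Y)
    (w : Fin k → Sz ℓ n L0) (α : L0) (z : Fin k → LL) :
    (∀ a ∈ U, hcW π u g w α z a = 0) ↔
    (α = -∑ s, HH u g (x₀.1 s : Fin n → ZMod ℓ) (x₀.2 s : Fin n → ZMod ℓ)
      (fun i => π (((z s : Sz ℓ n V) : Fin n → V) i)) (w s : Fin n → L0)) ∧
    ∀ y ∈ Y, ∀ i, TT (fun s => w s - sgW h (x₀.1 s)) (fun s => z s + taW h (x₀.2 s)) π y i = 0 := by
  have hval : ∀ x : ClW ℓ n k, (∀ i, slc x i ∈ Y) → hcW π u g w α z (x₀ + x) =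
      (α + ∑ s, HH u g (x₀.1 s : Fin n → ZMod ℓ) (x₀.2 s : Fin n → ZMod ℓ)
      (fun i => π (((z s : Sz ℓ n V) : Fin n → V) i)) (w s : Fin n → L0)) +
      ∑ i, TT (fun s => w s - sgW h (x₀.1 s)) (fun s => z s + taW h (x₀.2 s)) π (slc x i) i := by
    intro x hx
    rw [hcW_add h, quad h hℓ Y hY x hx, add_zero]
  constructor
  · intro H
    have h0 : α + ∑ s, HH u g (x₀.1 s : Fin n → ZMod ℓ) (x₀.2 s : Fin n → ZMod ℓ)
        (fun i => π (((z s : Sz ℓ n V) : Fin n → V) i)) (w s : Fin n → L0) = 0 := by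
      have h1 := H x₀ ((hU x₀).2 (fun i => by
        rw [sub_self]
        exact Y.zero_mem))
      have h2 := hval 0 (fun i => Y.zero_mem)
      rw [add_zero, h1] at h2
      have h3 : ∀ i : Fin n, TT (fun s => w s - sgW h (x₀.1 s)) (fun s => z s + taW h (x₀.2 s)) π
          (slc (0 : ClW ℓ n k) i) i = 0 := fun i => TT_zero _ _ i
      rw [Finset.sum_eq_zero fun i _ => h3 i, add_zero] at h2
      exact h2.symm
    refine ⟨eq_neg_of_add_eq_zero_left h0, ?_⟩
    intro y hy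
    have hall : ∀ i j : Fin n, TT (fun s => w s - sgW h (x₀.1 s)) (fun s => z s + taW h (x₀.2 s)) π y i =
        TT (fun s => w s - sgW h (x₀.1 s)) (fun s => z s + taW h (x₀.2 s)) π y j := by
      intro i j
      let x : ClW ℓ n k := (fun s => ⟨fun m => (if m = i then y.1 s else 0) - (if m = j then y.1 s else 0), by
          show ∑ m, ((if m = i then y.1 s else 0) - (if m = j then y.1 s else 0)) = 0
          rw [Finset.sum_sub_distrib, Finset.sum_ite_eq', Finset.sum_ite_eq']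
          simp⟩,
        fun s => ⟨fun m => (if m = i then y.2 s else 0) - (if m = j then y.2 s else 0), by
          show ∑ m, ((if m = i then y.2 s else 0) - (if m = j then y.2 s else 0)) = 0
          rw [Finset.sum_sub_distrib, Finset.sum_ite_eq', Finset.sum_ite_eq']
          simp⟩)
      have hslc : ∀ m, slc x m = (if m = i then y else 0) - (if m = j then y else 0) := by
        intro m
        apply Prod.ext
        · funext s
          show (if m = i then y.1 s else 0) - (if m = j then y.1 s else 0) = _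
          split_ifs <;> rfl
        · funext s
          show (if m = i then y.2 s else 0) - (if m = j then y.2 s else 0) = _
          split_ifs <;> rfl
      have hxY : ∀ m, slc x m ∈ Y := by
        intro m
        rw [hslc]
        apply Y.sub_mem
        · split_ifs
          · exact hy
          · exact Y.zero_mem
        · split_ifs
          · exact hy
          · exact Y.zero_mem
      have h1 := H (x₀ + x) ((hU _).2 (fun m => by rw [add_sub_cancel_left]; exact hxY m))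
      rw [hval x hxY, h0, zero_add] at h1
      have h2 : ∀ m : Fin n, TT (fun s => w s - sgW h (x₀.1 s)) (fun s => z s + taW h (x₀.2 s)) π (slc x m) m =
          (if m = i then TT (fun s => w s - sgW h (x₀.1 s)) (fun s => z s + taW h (x₀.2 s)) π y m else 0) -
          (if m = j then TT (fun s => w s - sgW h (x₀.1 s)) (fun s => z s + taW h (x₀.2 s)) π y m else 0) := by
        intro m
        rw [hslc, TT_sub]
        congr 1
        · split_ifs
          · rfl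
          · exact TT_zero _ _ _
        · split_ifs
          · rfl
          · exact TT_zero _ _ _
      rw [Finset.sum_congr rfl fun m _ => h2 m, Finset.sum_sub_distrib, Finset.sum_ite_eq',
        Finset.sum_ite_eq'] at h1
      simp only [Finset.mem_univ, if_true] at h1
      exact sub_eq_zero.1 h1
    intro i
    have h1 := TT_sum (π := π) (fun s => w s - sgW h (x₀.1 s)) (fun s => z s + taW h (x₀.2 s)) y
    rw [Finset.sum_congr rfl fun j _ => hall j i, Finset.sum_const, Finset.card_univ, Fintype.card_fin] at h1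
    have h3 : ((n : ℕ) : ZMod ℓ) • TT (fun s => w s - sgW h (x₀.1 s)) (fun s => z s + taW h (x₀.2 s)) π y i = 0 := by
      rw [Nat.cast_smul_eq_nsmul]; exact h1
    have h4 : ((n : ℕ) : ZMod ℓ) ≠ 0 := by
      rw [Ne, ZMod.natCast_eq_zero_iff]
      exact h.hn
    exact (smul_eq_zero.1 h3).resolve_left h4
  · rintro ⟨h0, h1⟩ a ha
    have h2 := (hU a).1 ha
    have h3 := hval (a - x₀) h2
    have h4 : α + ∑ s, HH u g (x₀.1 s : Fin n → ZMod ℓ) (x₀.2 s : Fin n → ZMod ℓ)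
        (fun i => π (((z s : Sz ℓ n V) : Fin n → V) i)) (w s : Fin n → L0) = 0 := by
      rw [h0]; exact neg_add_cancel _
    rw [add_sub_cancel, h4, zero_add] at h3
    rw [h3]
    exact Finset.sum_eq_zero fun i _ => h1 _ (h2 i) i

lemma two_ne (hℓ : ℓ ≠ 2) : (2 : ZMod ℓ) ≠ 0 := by
  intro h0
  have h1 : ((2 : ℕ) : ZMod ℓ) = 0 := by exact_mod_cast h0
  rw [ZMod.natCast_eq_zero_iff] at h1
  exact hℓ ((Nat.prime_dvd_prime_iff_eq (Fact.out) Nat.prime_two).1 h1)

lemma coeW_add (L : Submodule (ZMod ℓ) V) (x y : L0W n L) (i : Fin n) :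
    (((x + y : L0W n L) : Sz ℓ n V) : Fin n → V) i =
        ((x : Sz ℓ n V) : Fin n → V) i + ((y : Sz ℓ n V) : Fin n → V) i := rfl

lemma coeW_sub (L : Submodule (ZMod ℓ) V) (x y : L0W n L) (i : Fin n) :
    (((x - y : L0W n L) : Sz ℓ n V) : Fin n → V) i =
        ((x : Sz ℓ n V) : Fin n → V) i - ((y : Sz ℓ n V) : Fin n → V) i := rfl

lemma coeW_smul (L : Submodule (ZMod ℓ) V) (c : ZMod ℓ) (x : L0W n L) (i : Fin n) :
    (((c • x : L0W n L) : Sz ℓ n V) : Fin n → V) i = c • ((x : Sz ℓ n V) : Fin n → V) i := rfl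

lemma coeW_sum (L : Submodule (ZMod ℓ) V) {k : ℕ} (f : Fin k → L0W n L) (i : Fin n) :
    (((∑ s, f s : L0W n L) : Sz ℓ n V) : Fin n → V) i = ∑ s, ((f s : Sz ℓ n V) : Fin n → V) i := by
  rw [Submodule.coe_sum, Submodule.coe_sum, Finset.sum_apply]

lemma hcomp {k : ℕ} (w : Fin k → Sz ℓ n L0) (z : Fin k → LL) (α : L0W n L0) (a : Cl ℓ k) (i : Fin n) :
    ((((hc (piW n π) 0 (fun s => EE n L0 (w s)) α z a : L0W n L0) : Sz ℓ n V) : Fin n → V) i) =
      (((α : Sz ℓ n V) : Fin n → V) i) + ((TT w z π a i : L0) : V) := by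
  have e0 : hc (piW n π) 0 (fun s => EE n L0 (w s)) α z a =
      α + ∑ s, (a.1 s • piW n π (z s : Sz ℓ n V) - a.2 s • EE n L0 (w s)) := by
    unfold hc
    rw [smul_zero, add_zero, add_sub_assoc, ← Finset.sum_sub_distrib]
  rw [e0, coeW_add, coeW_sum]
  congr 1
  unfold TT
  rw [Submodule.coe_sum]
  refine Finset.sum_congr rfl fun s _ => ?_
  rw [coeW_sub, coeW_smul, coeW_smul, piW_apply, EE_apply, Submodule.coe_sub, Submodule.coe_smul,
    Submodule.coe_smul]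

lemma hcc {k : ℕ} (Y : Submodule (ZMod ℓ) (Cl ℓ k)) (U' : Finset (Cl ℓ k)) (hU' : ∀ a, a ∈ U' ↔ a ∈ Y)
    (w : Fin k → Sz ℓ n L0) (z : Fin k → LL) (α : L0W n L0) :
    (∀ a ∈ U', hc (piW n π) 0 (fun s => EE n L0 (w s)) α z a = 0) ↔
      α = 0 ∧ ∀ y ∈ Y, ∀ i, TT w z π y i = 0 := by
  constructor
  · intro H
    have h0 : α = 0 := by
      have h1 := H 0 ((hU' 0).2 Y.zero_mem)
      apply Subtype.ext
      apply Subtype.ext
      funext i
      have h2 := hcomp (π := π) w z α 0 i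
      rw [h1, TT_zero] at h2
      have h3 : (0 : V) = ((α : Sz ℓ n V) : Fin n → V) i + 0 := h2
      rw [add_zero] at h3
      exact h3.symm
    refine ⟨h0, fun y hy i => ?_⟩
    have h1 := H y ((hU' y).2 hy)
    have h2 := hcomp (π := π) w z α y i
    rw [h1, h0] at h2
    apply Subtype.ext
    have h3 : (0 : V) = 0 + ((TT w z π y i : L0) : V) := h2
    rw [zero_add] at h3
    exact h3.symm
  · rintro ⟨h0, h1⟩ a ha
    apply Subtype.ext
    apply Subtype.ext
    funext i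
    rw [hcomp w z α a i, h1 a ((hU' a).1 ha) i, h0]
    show (0 : V) + ((0 : L0) : V) = 0
    rw [Submodule.coe_zero, add_zero]

open Classical in
/-- the summand after the substitution -/
noncomputable def GG {k : ℕ} (ψ : V →ₗ[ZMod ℓ] V →ₗ[ZMod ℓ] ZMod ℓ) (Y : Submodule (ZMod ℓ) (Cl ℓ k))
    (π : V →ₗ[ZMod ℓ] L0) (w : Fin k → Sz ℓ n L0) (z : Fin k → LL) : ℂ :=
  if ∀ y ∈ Y, ∀ i, TT w z π y i = 0 then
    ee ℓ (∑ r, ∑ i, ψ (((z r : Sz ℓ n V) : Fin n → V) i) ((w r : Fin n → L0) i : V)) else 0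

open Classical in
lemma step1 (h : LinW ℓ n V ψ L0 L1 LL π u d1 g) (hℓ : ℓ ≠ 2) {k : ℕ} (Y : Submodule (ZMod ℓ) (Cl ℓ k))
    (hY : ∀ x ∈ Y, ∀ y ∈ Y, ∑ s, (x.1 s * y.2 s + y.1 s * x.2 s) = 0) (x₀ : ClW ℓ n k)
    (U : Finset (ClW ℓ n k)) (hU : ∀ a, a ∈ U ↔ ∀ i, slc (a - x₀) i ∈ Y)
    (w : Fin k → Sz ℓ n L0) (α : L0) (z : Fin k → LL) :
    (if ∀ a ∈ U, hcW π u g w α z a = 0 then
      ee ℓ (- ψ (α : V) d1 +
        ∑ r, ∑ i, ψ (((z r : Sz ℓ n V) : Fin n → V) i) ((w r : Fin n → L0) i : V)) else 0) =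
      if α = -∑ s, HH u g (x₀.1 s : Fin n → ZMod ℓ) (x₀.2 s : Fin n → ZMod ℓ)
        (fun i => π (((z s : Sz ℓ n V) : Fin n → V) i)) (w s : Fin n → L0) then
        GG ψ Y π (fun s => w s - sgW h (x₀.1 s)) (fun s => z s + taW h (x₀.2 s)) else 0 := by
  have hc := cond h hℓ Y hY x₀ U hU w α z
  by_cases h1 : α = -∑ s, HH u g (x₀.1 s : Fin n → ZMod ℓ) (x₀.2 s : Fin n → ZMod ℓ)
      (fun i => π (((z s : Sz ℓ n V) : Fin n → V) i)) (w s : Fin n → L0)
  · rw [if_pos h1]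
    by_cases h2 : ∀ y ∈ Y, ∀ i, TT (fun s => w s - sgW h (x₀.1 s)) (fun s => z s + taW h (x₀.2 s)) π y i = 0
    · rw [if_pos (hc.2 ⟨h1, h2⟩)]
      unfold GG
      rw [if_pos h2]
      congr 1
      rw [h1, Submodule.coe_neg, map_neg, LinearMap.neg_apply, neg_neg, Submodule.coe_sum, map_sum,
        LinearMap.sum_apply, ← Finset.sum_add_distrib]
      refine Finset.sum_congr rfl fun s _ => ?_
      exact phase h (x₀.1 s) (x₀.2 s) (z s) (w s)
    · rw [if_neg (fun H => h2 (hc.1 H).2)]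
      unfold GG
      rw [if_neg h2]
  · rw [if_neg (fun H => h1 (hc.1 H).1), if_neg h1]

lemma hfin {k : ℕ} (ψ : V →ₗ[ZMod ℓ] V →ₗ[ZMod ℓ] ZMod ℓ) (Y : Submodule (ZMod ℓ) (Cl ℓ k))
    (U' : Finset (Cl ℓ k)) (hU' : ∀ a, a ∈ U' ↔ a ∈ Y)
    (w : Fin k → Sz ℓ n L0) (z : Fin k → LL) (α : L0W n L0)
    {D : Decidable (∀ a ∈ U', hc (piW n π) 0 (fun s => EE n L0 (w s)) α z a = 0)}
    {D' : Decidable (α = 0)} :
    (@ite ℂ (∀ a ∈ U', hc (piW n π) 0 (fun s => EE n L0 (w s)) α z a = 0) D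
      (ee ℓ (- psW n ψ (α : Sz ℓ n V) (0 : Sz ℓ n V) +
        ∑ i, psW n ψ (z i : Sz ℓ n V) ((EE n L0 (w i) : L0W n L0) : Sz ℓ n V))) 0) =
      @ite ℂ (α = 0) D' (GG ψ Y π w z) 0 := by
  by_cases h1 : α = 0
  · rw [if_pos h1]
    by_cases h2 : ∀ y ∈ Y, ∀ i, TT w z π y i = 0
    · rw [if_pos ((hcc Y U' hU' w z α).2 ⟨h1, h2⟩)]
      unfold GG
      rw [if_pos h2]
      congr 1
      rw [map_zero, neg_zero, zero_add]
      rfl
    · rw [if_neg (fun H => h2 ((hcc Y U' hU' w z α).1 H).2)]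
      unfold GG
      rw [if_neg h2]
  · rw [if_neg (fun H => h1 ((hcc Y U' hU' w z α).1 H).1), if_neg h1]

/-- the colours in `Y` are unlinked -/
lemma unl (hℓ : ℓ ≠ 2) {k : ℕ} (Y : Submodule (ZMod ℓ) (Cl ℓ k))
    (hY : ∀ x ∈ Y, ∀ y ∈ Y, ∑ s, (x.1 s * y.2 s + y.1 s * x.2 s) = 0) (a b : Cl ℓ k)
    (ha : a ∈ Y) (hb : b ∈ Y) : Rc ℓ k a b + Rc ℓ k b a = 0 := by
  have h1 := hY a ha b hb
  have h2 := hY a ha a ha
  have h3 := hY b hb b hb
  unfold Rc
  rw [← Finset.sum_add_distrib]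
  have h4 : (2 : ZMod ℓ) * ∑ i, (b.2 i * (a.1 i - b.1 i) + a.2 i * (b.1 i - a.1 i)) =
      2 * ∑ s, (a.1 s * b.2 s + b.1 s * a.2 s) - ∑ s, (a.1 s * a.2 s + a.1 s * a.2 s) -
        ∑ s, (b.1 s * b.2 s + b.1 s * b.2 s) := by
    rw [Finset.mul_sum, Finset.mul_sum, ← Finset.sum_sub_distrib, ← Finset.sum_sub_distrib]
    refine Finset.sum_congr rfl fun s _ => ?_
    ring
  rw [h1, h2, h3] at h4
  have h5 : (2 : ZMod ℓ) * ∑ i, (b.2 i * (a.1 i - b.1 i) + a.2 i * (b.1 i - a.1 i)) = 0 := by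
    rw [h4]; ring
  exact (mul_eq_zero.1 h5).resolve_left (two_ne hℓ)

lemma cardY {k : ℕ} (Y : Submodule (ZMod ℓ) (Cl ℓ k)) (hYr : Module.finrank (ZMod ℓ) Y = k)
    (U' : Finset (Cl ℓ k)) (hU' : ∀ a, a ∈ U' ↔ a ∈ Y) : U'.card = ℓ ^ k := by
  have h1 : U'.card = Nat.card Y := by
    haveI : Fintype Y := Fintype.ofFinite _
    rw [Nat.card_eq_fintype_card]
    exact (Fintype.card_of_subtype U' hU').symm
  rw [h1, Module.natCard_eq_pow_finrank (K := ZMod ℓ), hYr, Nat.card_zmod]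

end main

end Pool.Agent.T3h73.SN.MAINW
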