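import Pool.Agent.T3h73.SN.Stm2

/-!
# SN/ORDW (helper26): the order of the Selmer group of the model
-/

set_option autoImplicit false
set_option linter.all false

open NumberField IsDedekindDomain Filter Topology Finset

namespace Pool.Agent.T3h73.SN.ORDW

open Pool.Agent.T3h73.SL (Pl IsP Pk loc)
open Pool.Agent.T3h73.SD (Sv LN SymSys Lin ee NA T0 Mh SP Cl kap TYPQ VT S_SV S_CHS S_VSP S_LZ S_LAG)
open Pool.Agent.Y713.SE Pool.Agent.Y713.SE.Dat

section

variable {ℓ n : ℕ} {V : Type} [AddCommGroup V] [Module (ZMod ℓ) V]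

theorem inc_add {L0 : Submodule (ZMod ℓ) V} (x y : Sz ℓ n L0) : inc (x + y) = inc x + inc y := by
  apply Subtype.ext
  funext i
  rfl

theorem inc_smul {L0 : Submodule (ZMod ℓ) V} (a : ZMod ℓ) (x : Sz ℓ n L0) :
    inc (a • x) = a • inc x := by
  apply Subtype.ext
  funext i
  rfl

theorem tens_add (c c' : Sz ℓ n (ZMod ℓ)) (v : V) : tens (c + c') v = tens c v + tens c' v := by
  apply Subtype.ext
  funext i
  show ((c : Fin n → ZMod ℓ) i + (c' : Fin n → ZMod ℓ) i) • v = _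
  rw [add_smul]
  rfl

theorem tens_smul (a : ZMod ℓ) (c : Sz ℓ n (ZMod ℓ)) (v : V) : tens (a • c) v = a • tens c v := by
  apply Subtype.ext
  funext i
  show (a • (c : Fin n → ZMod ℓ) i) • v = _
  rw [smul_assoc]
  rfl

theorem tens_zero (v : V) : tens (0 : Sz ℓ n (ZMod ℓ)) v = 0 := by
  apply Subtype.ext
  funext i
  show (0 : ZMod ℓ) • v = _
  rw [zero_smul]
  rfl

theorem inc_zero {L0 : Submodule (ZMod ℓ) V} : inc (0 : Sz ℓ n L0) = 0 := by
  apply Subtype.ext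
  funext i
  rfl

end

section

variable {ℓ n : ℕ} {K : Type} [Field K] [NumberField K] {V : Type} [AddCommGroup V]
  [Module (ZMod ℓ) V] (ψ : V →ₗ[ZMod ℓ] V →ₗ[ZMod ℓ] ZMod ℓ) (L0 : Submodule (ZMod ℓ) V)
  (LL : Submodule (ZMod ℓ) (Sz ℓ n V)) (u : L0) (g : Fin n → Fin n → L0) (t : Pl K → V)
  (sy : Pl K → Pl K → ZMod ℓ)

open Classical in
/-- the left-hand side of the equation at `q` -/
noncomputable def eqn (P : Finset (Pl K)) (q : Pl K) (i : Fin n) (x : Sz ℓ n L0 × (Pl K → Sz ℓ n (ZMod ℓ))) :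
    ZMod ℓ :=
  - ψ ((x.1 : Fin n → L0) i : V) (t q) +
      (x.2 q : Fin n → ZMod ℓ) i * ψ (u : V) (t q) +
      ∑ j, ((x.2 q : Fin n → ZMod ℓ) i - (x.2 q : Fin n → ZMod ℓ) j) * ψ (g i j : V) (t q) +
      ∑ p ∈ P.erase q, ((x.2 p : Fin n → ZMod ℓ) i - (x.2 q : Fin n → ZMod ℓ) i) * sy p q

theorem eqn_add (P : Finset (Pl K)) (q : Pl K) (i : Fin n)
    (x y : Sz ℓ n L0 × (Pl K → Sz ℓ n (ZMod ℓ))) :
    eqn ψ L0 u g t sy P q i (x + y) = eqn ψ L0 u g t sy P q i x + eqn ψ L0 u g t sy P q i y := by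
  classical
  unfold eqn
  have h0 : ψ ((((x + y).1 : Sz ℓ n L0) : Fin n → L0) i : V) (t q) =
      ψ ((x.1 : Fin n → L0) i : V) (t q) + ψ ((y.1 : Fin n → L0) i : V) (t q) := by
    show ψ (((x.1 : Fin n → L0) i + (y.1 : Fin n → L0) i : L0) : V) (t q) = _
    rw [Submodule.coe_add, map_add, LinearMap.add_apply]
  have h1 : ∑ j, ((((x + y).2 q : Sz ℓ n (ZMod ℓ)) : Fin n → ZMod ℓ) i -
      (((x + y).2 q : Sz ℓ n (ZMod ℓ)) : Fin n → ZMod ℓ) j) * ψ (g i j : V) (t q) =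
      ∑ j, ((x.2 q : Fin n → ZMod ℓ) i - (x.2 q : Fin n → ZMod ℓ) j) * ψ (g i j : V) (t q) +
      ∑ j, ((y.2 q : Fin n → ZMod ℓ) i - (y.2 q : Fin n → ZMod ℓ) j) * ψ (g i j : V) (t q) := by
    rw [← Finset.sum_add_distrib]
    refine sum_congr rfl fun j _ => ?_
    show (((x.2 q : Fin n → ZMod ℓ) i + (y.2 q : Fin n → ZMod ℓ) i) -
      ((x.2 q : Fin n → ZMod ℓ) j + (y.2 q : Fin n → ZMod ℓ) j)) * _ = _
    ring
  have h2 : ∑ p ∈ P.erase q, ((((x + y).2 p : Sz ℓ n (ZMod ℓ)) : Fin n → ZMod ℓ) i -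
      (((x + y).2 q : Sz ℓ n (ZMod ℓ)) : Fin n → ZMod ℓ) i) * sy p q =
      ∑ p ∈ P.erase q, ((x.2 p : Fin n → ZMod ℓ) i - (x.2 q : Fin n → ZMod ℓ) i) * sy p q +
      ∑ p ∈ P.erase q, ((y.2 p : Fin n → ZMod ℓ) i - (y.2 q : Fin n → ZMod ℓ) i) * sy p q := by
    rw [← Finset.sum_add_distrib]
    refine sum_congr rfl fun j _ => ?_
    show (((x.2 j : Fin n → ZMod ℓ) i + (y.2 j : Fin n → ZMod ℓ) i) -
      ((x.2 q : Fin n → ZMod ℓ) i + (y.2 q : Fin n → ZMod ℓ) i)) * _ = _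
    ring
  have h3 : (((x + y).2 q : Sz ℓ n (ZMod ℓ)) : Fin n → ZMod ℓ) i =
      (x.2 q : Fin n → ZMod ℓ) i + (y.2 q : Fin n → ZMod ℓ) i := rfl
  rw [h0, h1, h2, h3]
  ring

theorem eqn_smul (P : Finset (Pl K)) (q : Pl K) (i : Fin n) (a : ZMod ℓ)
    (x : Sz ℓ n L0 × (Pl K → Sz ℓ n (ZMod ℓ))) :
    eqn ψ L0 u g t sy P q i (a • x) = a * eqn ψ L0 u g t sy P q i x := by
  classical
  unfold eqn
  have h0 : ψ ((((a • x).1 : Sz ℓ n L0) : Fin n → L0) i : V) (t q) =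
      a * ψ ((x.1 : Fin n → L0) i : V) (t q) := by
    show ψ ((a • (x.1 : Fin n → L0) i : L0) : V) (t q) = _
    rw [Submodule.coe_smul, map_smul, LinearMap.smul_apply, smul_eq_mul]
  have h1 : ∑ j, ((((a • x).2 q : Sz ℓ n (ZMod ℓ)) : Fin n → ZMod ℓ) i -
      (((a • x).2 q : Sz ℓ n (ZMod ℓ)) : Fin n → ZMod ℓ) j) * ψ (g i j : V) (t q) =
      a * ∑ j, ((x.2 q : Fin n → ZMod ℓ) i - (x.2 q : Fin n → ZMod ℓ) j) * ψ (g i j : V) (t q) := by
    rw [Finset.mul_sum]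
    refine sum_congr rfl fun j _ => ?_
    show ((a * (x.2 q : Fin n → ZMod ℓ) i) - (a * (x.2 q : Fin n → ZMod ℓ) j)) * _ = _
    ring
  have h2 : ∑ p ∈ P.erase q, ((((a • x).2 p : Sz ℓ n (ZMod ℓ)) : Fin n → ZMod ℓ) i -
      (((a • x).2 q : Sz ℓ n (ZMod ℓ)) : Fin n → ZMod ℓ) i) * sy p q =
      a * ∑ p ∈ P.erase q, ((x.2 p : Fin n → ZMod ℓ) i - (x.2 q : Fin n → ZMod ℓ) i) * sy p q := by
    rw [Finset.mul_sum]
    refine sum_congr rfl fun j _ => ?_
    show ((a * (x.2 j : Fin n → ZMod ℓ) i) - (a * (x.2 q : Fin n → ZMod ℓ) i)) * _ = _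
    ring
  have h3 : (((a • x).2 q : Sz ℓ n (ZMod ℓ)) : Fin n → ZMod ℓ) i =
      a * (x.2 q : Fin n → ZMod ℓ) i := rfl
  rw [h0, h1, h2, h3]
  ring

/-- the Selmer group as a submodule -/
def MG (P : Finset (Pl K)) : Submodule (ZMod ℓ) (Sz ℓ n L0 × (Pl K → Sz ℓ n (ZMod ℓ))) where
  carrier := MSelW ψ L0 LL u g t sy P
  add_mem' := by
    rintro x y ⟨hx1, hx2, hx3⟩ ⟨hy1, hy2, hy3⟩
    refine ⟨fun q hq => ?_, ?_, fun q hq i => ?_⟩
    · show x.2 q + y.2 q = 0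
      rw [hx1 q hq, hy1 q hq, add_zero]
    · have h1 : inc (x + y).1 + ∑ q ∈ P, tens ((x + y).2 q) (t q) =
          (inc x.1 + ∑ q ∈ P, tens (x.2 q) (t q)) + (inc y.1 + ∑ q ∈ P, tens (y.2 q) (t q)) := by
        have h2 : ∑ q ∈ P, tens ((x + y).2 q) (t q) =
            ∑ q ∈ P, tens (x.2 q) (t q) + ∑ q ∈ P, tens (y.2 q) (t q) := by
          rw [← Finset.sum_add_distrib]
          exact sum_congr rfl fun q _ => tens_add (x.2 q) (y.2 q) (t q)
        have h3 : inc (x + y).1 = inc x.1 + inc y.1 := inc_add x.1 y.1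
        rw [h2, h3]
        abel
      rw [h1]
      exact LL.add_mem hx2 hy2
    · have h1 := eqn_add ψ L0 u g t sy P q i x y
      have h2 : eqn ψ L0 u g t sy P q i x = 0 := hx3 q hq i
      have h3 : eqn ψ L0 u g t sy P q i y = 0 := hy3 q hq i
      rw [h2, h3, add_zero] at h1
      exact h1
  zero_mem' := by
    refine ⟨fun q _ => rfl, ?_, fun q hq i => ?_⟩
    · have h1 : inc (0 : Sz ℓ n L0 × (Pl K → Sz ℓ n (ZMod ℓ))).1 +
          ∑ q ∈ P, tens ((0 : Sz ℓ n L0 × (Pl K → Sz ℓ n (ZMod ℓ))).2 q) (t q) = 0 := by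
        rw [show (0 : Sz ℓ n L0 × (Pl K → Sz ℓ n (ZMod ℓ))).1 = 0 from rfl, inc_zero, zero_add]
        exact sum_eq_zero fun q _ => tens_zero (t q)
      rw [h1]
      exact LL.zero_mem
    · have h1 := eqn_smul ψ L0 u g t sy P q i 0 0
      rw [smul_zero, zero_mul] at h1
      exact h1
  smul_mem' := by
    rintro a x ⟨hx1, hx2, hx3⟩
    refine ⟨fun q hq => ?_, ?_, fun q hq i => ?_⟩
    · show a • x.2 q = 0
      rw [hx1 q hq, smul_zero]
    · have h1 : inc (a • x).1 + ∑ q ∈ P, tens ((a • x).2 q) (t q) =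
          a • (inc x.1 + ∑ q ∈ P, tens (x.2 q) (t q)) := by
        rw [smul_add, Finset.smul_sum]
        congr 1
        exact sum_congr rfl fun q _ => tens_smul a (x.2 q) (t q)
      rw [h1]
      exact LL.smul_mem a hx2
    · have h1 := eqn_smul ψ L0 u g t sy P q i a x
      have h2 : eqn ψ L0 u g t sy P q i x = 0 := hx3 q hq i
      rw [h2, mul_zero] at h1
      exact h1

theorem coe_MG (P : Finset (Pl K)) :
    (MG ψ L0 LL u g t sy P : Set (Sz ℓ n L0 × (Pl K → Sz ℓ n (ZMod ℓ)))) =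
      MSelW ψ L0 LL u g t sy P := rfl

theorem nSW_eq (P : Finset (Pl K)) : nSW ψ L0 LL u g t sy P = Nat.card (MG ψ L0 LL u g t sy P) := rfl

/-- the injection in a finite set -/
def inj (P : Finset (Pl K)) (x : MG ψ L0 LL u g t sy P) : (Fin n → V) × (P → Fin n → ZMod ℓ) :=
  (fun i => ((x.1.1 : Fin n → L0) i : V), fun q i => (x.1.2 q : Fin n → ZMod ℓ) i)

theorem inj_inj (P : Finset (Pl K)) : Function.Injective (inj ψ L0 LL u g t sy P) := by
  intro x y h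
  have h1 : (fun i => ((x.1.1 : Fin n → L0) i : V)) = fun i => ((y.1.1 : Fin n → L0) i : V) :=
    congrArg Prod.fst h
  have h2 : (fun (q : P) i => (x.1.2 q : Fin n → ZMod ℓ) i) =
      fun (q : P) i => (y.1.2 q : Fin n → ZMod ℓ) i := congrArg Prod.snd h
  apply Subtype.ext
  apply Prod.ext
  · apply Subtype.ext
    funext i
    exact Subtype.ext (congrFun h1 i)
  · funext q
    by_cases hq : q ∈ P
    · apply Subtype.ext
      funext i
      exact congrFun (congrFun h2 ⟨q, hq⟩) i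
    · rw [x.2.1 q hq, y.2.1 q hq]

theorem card_cod [Fact ℓ.Prime] [Finite V] (P : Finset (Pl K)) :
    Nat.card ((Fin n → V) × (P → Fin n → ZMod ℓ)) = Nat.card V ^ n * ℓ ^ (n * P.card) := by
  rw [Nat.card_prod, Nat.card_fun, Nat.card_fun, Nat.card_fun, Nat.card_eq_fintype_card (α := Fin n),
    Fintype.card_fin, Nat.card_zmod, Nat.card_eq_fintype_card (α := P), Fintype.card_coe, pow_mul]

end

theorem finrank_Sz (ℓ n : ℕ) [Fact ℓ.Prime] (hn : 2 ≤ n) :
    Module.finrank (ZMod ℓ) (Sz ℓ n (ZMod ℓ)) = n - 1 := by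
  obtain ⟨f, hf⟩ : ∃ f : (Fin n → ZMod ℓ) →ₗ[ZMod ℓ] ZMod ℓ, ∀ x, f x = ∑ i, x i :=
    ⟨∑ i, LinearMap.proj i, fun x => by simp⟩
  have h1 : LinearMap.ker f = Sz ℓ n (ZMod ℓ) := by
    ext x
    rw [LinearMap.mem_ker, hf]
    exact Iff.rfl
  have h2 : LinearMap.range f = ⊤ := by
    rw [LinearMap.range_eq_top]
    intro a
    refine ⟨Pi.single ⟨0, by omega⟩ a, ?_⟩
    rw [hf, Finset.sum_pi_single']
    simp
  have h3 := LinearMap.finrank_range_add_finrank_ker f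
  rw [h1, h2, finrank_top, Module.finrank_self, Module.finrank_fin_fun] at h3
  omega

section tors

variable {ℓ n : ℕ} {K : Type} [Field K] [NumberField K] {V : Type} [AddCommGroup V]
  [Module (ZMod ℓ) V] {ψ : V →ₗ[ZMod ℓ] V →ₗ[ZMod ℓ] ZMod ℓ} {L0 L1 : Submodule (ZMod ℓ) V}
  {LL : Submodule (ZMod ℓ) (Sz ℓ n V)} {π : V →ₗ[ZMod ℓ] L0} {u : L0} {d1 : V}
  {g : Fin n → Fin n → L0} {t : Pl K → V} {sy : Pl K → Pl K → ZMod ℓ}

/-- the first component of the torsion element -/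
def tv (u : L0) (g : Fin n → Fin n → L0) (c : Fin n → ZMod ℓ) (i : Fin n) : L0 :=
  c i • u + ∑ j, (c i - c j) • g i j

theorem tv_sum (hs : ∀ i j, g i j = g j i) (c : Sz ℓ n (ZMod ℓ)) : ∑ i, tv u g c i = 0 := by
  unfold tv
  rw [Finset.sum_add_distrib, ← Finset.sum_smul,
    show ∑ i, (c : Fin n → ZMod ℓ) i = 0 from c.2, zero_smul, zero_add]
  have h1 : ∑ i, ∑ j, ((c : Fin n → ZMod ℓ) i - (c : Fin n → ZMod ℓ) j) • g i j =
      ∑ i, ∑ j, (c : Fin n → ZMod ℓ) i • g i j - ∑ i, ∑ j, (c : Fin n → ZMod ℓ) j • g i j := by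
    rw [← Finset.sum_sub_distrib]
    refine sum_congr rfl fun i _ => ?_
    rw [← Finset.sum_sub_distrib]
    exact sum_congr rfl fun j _ => sub_smul _ _ _
  rw [h1, sub_eq_zero]
  conv_rhs => rw [Finset.sum_comm]
  exact sum_congr rfl fun i _ => sum_congr rfl fun j _ => by rw [hs i j]

theorem tv_add (c c' : Fin n → ZMod ℓ) (i : Fin n) :
    tv u g (c + c') i = tv u g c i + tv u g c' i := by
  unfold tv
  have h1 : ∑ j, ((c + c') i - (c + c') j) • g i j =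
      ∑ j, (c i - c j) • g i j + ∑ j, (c' i - c' j) • g i j := by
    rw [← Finset.sum_add_distrib]
    refine sum_congr rfl fun j _ => ?_
    rw [← add_smul]
    congr 1
    show c i + c' i - (c j + c' j) = _
    ring
  rw [h1, Pi.add_apply, add_smul]
  abel

theorem tv_smul (a : ZMod ℓ) (c : Fin n → ZMod ℓ) (i : Fin n) :
    tv u g (a • c) i = a • tv u g c i := by
  unfold tv
  have h1 : ∑ j, ((a • c) i - (a • c) j) • g i j = a • ∑ j, (c i - c j) • g i j := by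
    rw [Finset.smul_sum]
    refine sum_congr rfl fun j _ => ?_
    rw [smul_smul]
    congr 1
    show a * c i - a * c j = _
    ring
  rw [h1, Pi.smul_apply, smul_add, smul_assoc]

open Classical in
/-- the torsion elements -/
noncomputable def tl (u : L0) (hs : ∀ i j, g i j = g j i) (P : Finset (Pl K)) :
    Sz ℓ n (ZMod ℓ) →ₗ[ZMod ℓ] (Sz ℓ n L0 × (Pl K → Sz ℓ n (ZMod ℓ))) where
  toFun c := (⟨fun i => tv u g c i, tv_sum hs c⟩, fun q => if q ∈ P then c else 0)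
  map_add' := by
    intro c c'
    apply Prod.ext
    · apply Subtype.ext
      funext i
      exact tv_add (c : Fin n → ZMod ℓ) c' i
    · funext q
      show (if q ∈ P then c + c' else 0) = (if q ∈ P then c else 0) + (if q ∈ P then c' else 0)
      split_ifs
      · rfl
      · rw [add_zero]
  map_smul' := by
    intro a c
    apply Prod.ext
    · apply Subtype.ext
      funext i
      exact tv_smul a (c : Fin n → ZMod ℓ) i
    · funext q
      show (if q ∈ P then a • c else 0) = a • (if q ∈ P then c else 0)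
      split_ifs
      · rfl
      · rw [smul_zero]

theorem tl_inj (u : L0) (hs : ∀ i j, g i j = g j i) {P : Finset (Pl K)} (hP : P.Nonempty) :
    Function.Injective (tl u hs P) := by
  classical
  intro c c' h
  obtain ⟨q, hq⟩ := hP
  have h1 := congrFun (congrArg Prod.snd h) q
  have h2 : ∀ c, (tl u hs P c).2 q = c := by
    intro c
    show (if q ∈ P then c else 0) = c
    rw [if_pos hq]
  rw [h2, h2] at h1
  exact h1

theorem tl_mem (hL : LinW ℓ n V ψ L0 L1 LL π u d1 g) {P : Finset (Pl K)}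
    (hd : ∑ q ∈ P, t q = d1) (c : Sz ℓ n (ZMod ℓ)) :
    tl u hL.gsymm P c ∈ MG ψ L0 LL u g t sy P := by
  classical
  have hc : ∀ q ∈ P, (tl u hL.gsymm P c).2 q = c := by
    intro q hq
    show (if q ∈ P then c else 0) = c
    rw [if_pos hq]
  refine ⟨fun q hq => ?_, ?_, fun q hq i => ?_⟩
  · show (if q ∈ P then c else 0) = 0
    rw [if_neg hq]
  · apply hL.tor c
    intro i
    have h1 : ∑ q ∈ P, tens ((tl u hL.gsymm P c).2 q) (t q) = ∑ q ∈ P, tens c (t q) :=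
      sum_congr rfl fun q hq => by rw [hc q hq]
    rw [h1]
    have h2 : ((∑ q ∈ P, tens c (t q) : Sz ℓ n V) : Fin n → V) i =
        (c : Fin n → ZMod ℓ) i • d1 := by
      rw [← hd, Finset.smul_sum, Submodule.coe_sum, Finset.sum_apply]
      rfl
    show ((tv u g c i : L0) : V) + ((∑ q ∈ P, tens c (t q) : Sz ℓ n V) : Fin n → V) i = _
    rw [h2]
    unfold tv
    rw [Submodule.coe_add, Submodule.coe_smul, Submodule.coe_sum, smul_add]
    have h3 : ∑ j, ((((c : Fin n → ZMod ℓ) i - (c : Fin n → ZMod ℓ) j) • g i j : L0) : V) =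
        ∑ j, ((c : Fin n → ZMod ℓ) i - (c : Fin n → ZMod ℓ) j) • (g i j : V) :=
      sum_congr rfl fun j _ => Submodule.coe_smul _ _
    rw [h3]
    abel
  · have h4 : ∑ p ∈ P.erase q, (((tl u hL.gsymm P c).2 p : Fin n → ZMod ℓ) i -
        ((tl u hL.gsymm P c).2 q : Fin n → ZMod ℓ) i) * sy p q = 0 := by
      refine sum_eq_zero fun p hp => ?_
      rw [hc q hq, hc p (Finset.mem_of_mem_erase hp), sub_self, zero_mul]
    rw [h4, hc q hq, add_zero]
    show - ψ ((tv u g c i : L0) : V) (t q) + (c : Fin n → ZMod ℓ) i * ψ (u : V) (t q) +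
      ∑ j, ((c : Fin n → ZMod ℓ) i - (c : Fin n → ZMod ℓ) j) * ψ (g i j : V) (t q) = 0
    unfold tv
    rw [Submodule.coe_add, Submodule.coe_smul, Submodule.coe_sum, map_add, map_smul, map_sum,
      LinearMap.add_apply, LinearMap.smul_apply, smul_eq_mul, LinearMap.sum_apply]
    have h3 : ∑ j, ψ ((((c : Fin n → ZMod ℓ) i - (c : Fin n → ZMod ℓ) j) • g i j : L0) : V) (t q) =
        ∑ j, ((c : Fin n → ZMod ℓ) i - (c : Fin n → ZMod ℓ) j) * ψ (g i j : V) (t q) :=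
      sum_congr rfl fun j _ => by
        rw [Submodule.coe_smul, map_smul, LinearMap.smul_apply, smul_eq_mul]
    rw [h3]
    ring

end tors

/-- ORDW -/
theorem t_ORDW : S_ORDW := by
  intro ℓ n _ hℓ2 K _ _ S 𝔪 V _ _ _ ψ L0 L1 LL π u d1 g t sy hM P
  haveI hfin : Finite (MG ψ L0 LL u g t sy P) := Finite.of_injective _ (inj_inj ψ L0 LL u g t sy P)
  constructor
  · intro hPS hd hP
    rw [nSW_eq, Module.natCard_eq_pow_finrank (K := ZMod ℓ), Nat.card_zmod]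
    have h1 : LinearMap.range (tl u hM.lin.gsymm P) ≤ MG ψ L0 LL u g t sy P := by
      rintro _ ⟨c, rfl⟩
      exact tl_mem hM.lin hd c
    have h2 : Module.finrank (ZMod ℓ) (LinearMap.range (tl u hM.lin.gsymm P)) = n - 1 := by
      rw [LinearMap.finrank_range_of_inj (tl_inj u hM.lin.gsymm hP), finrank_Sz ℓ n hM.lin.hn2]
    have h3 := Submodule.finrank_mono h1
    rw [h2] at h3
    obtain ⟨r, hr⟩ := Nat.exists_eq_add_of_le h3
    exact ⟨r, by rw [hr, pow_add]⟩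
  · rw [nSW_eq, ← card_cod]
    exact Nat.card_le_card_of_injective _ (inj_inj ψ L0 LL u g t sy P)

end Pool.Agent.T3h73.SN.ORDW
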