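import Pool.Agent.T3h73.SN.TorB
import Pool.Agent.T3h73.SL.D.Adj

/-! Project SN, task ADJ (helper55): the change of the Kummer classes under the adjustment of a cocycle,
and the existence of the family `x`. -/

set_option autoImplicit false
set_option linter.all false

open Polynomial IsDedekindDomain

namespace Pool.Agent.T3h73.SN.ADJ

open Pool.Agent.Y713.SE Pool.Agent.Y713.SE.Dat
open Pool.Agent.T3h73.SL (IsP Pk zeta_tw cl_PT_sub locA')

variable {ℓ n : ℕ} {E : Type} [Field E] {D : Dat ℓ n E} {L : Type} [Field L] [Algebra E L]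
  [IsGalois E L]

theorem first (h2 : ℓ ≠ 2) {m : Fin n → ℕ} {χ χ' : (L ≃ₐ[E] L) → Fin n → ℕ}
    {Q : ClassGroup (D.base L).A} (hQ : cl ((D.base L).PT m) * (D.base L).sC Q = Q)
    (hχ' : ∀ σ, cl ((D.base L).PT (χ' σ)) = cl ((D.base L).PT (χ σ)) / (D.mC (au σ) Q / Q))
    (kd : D.KD χ) (kd' : D.KD χ') (i j : Fin n) : ∃ z : Eˣ,
      kd.d i j * (tor D (fun k => (m k : ℤ)) j : E) =
        kd'.d i j * (tor D (fun k => (m k : ℤ)) i : E) * (z : E) ^ ℓ := by
  set ψ : (L ≃ₐ[E] L) → Fin n → ℕ := fun σ i => χ σ i + (ℓ - 1) * χ' σ i with hψ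
  have hR : ∀ τ : L ≃ₐ[E] L, D.mC (rs E τ) Q = Q * cl ((D.base L).PT (ψ τ)) := by
    intro τ
    have e1 : cl ((D.base L).PT (ψ τ)) = cl ((D.base L).PT (χ τ)) / cl ((D.base L).PT (χ' τ)) :=
      cl_PT_sub (D.base L) _ _
    have e2 : D.mC (rs E τ) Q / Q = cl ((D.base L).PT (χ τ)) / cl ((D.base L).PT (χ' τ)) := by
      rw [hχ' τ, div_div_cancel]; rfl
    rw [e1, ← e2, mul_comm, div_mul_cancel]
  have hθ0 : kd.θ i j / kd'.θ i j ≠ 0 := div_ne_zero (kd.h0 i j) (kd'.h0 i j)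
  have hθ : ∀ τ : L ≃ₐ[E] L, (D.base L).ζ ^ ψ τ j * τ (kd.θ i j / kd'.θ i j) =
      (D.base L).ζ ^ ψ τ i * (kd.θ i j / kd'.θ i j) := by
    intro τ
    have a1 := kd.hθ τ i j
    have a2 := kd'.hθ τ i j
    have z0 := zeta_tw (D.base L) (χ' τ i)
    have z1 := zeta_tw (D.base L) (χ' τ j)
    rw [hψ]
    simp only
    rw [pow_add, pow_add, map_div₀, mul_div_assoc', mul_div_assoc']
    have t0 : τ (kd'.θ i j) ≠ 0 := (_root_.map_ne_zero _).2 (kd'.h0 i j)
    rw [div_eq_div_iff t0 (kd'.h0 i j)]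
    have hz : (D.base L).ζ ^ χ' τ i * (D.base L).ζ ^ χ' τ j ≠ 0 :=
      mul_ne_zero (pow_ne_zero _ (D.base L).ζ_ne) (pow_ne_zero _ (D.base L).ζ_ne)
    apply mul_left_cancel₀ hz
    generalize (D.base L).ζ ^ χ τ i = p0 at *
    generalize (D.base L).ζ ^ χ τ j = p1 at *
    generalize (D.base L).ζ ^ χ' τ i = q0 at *
    generalize (D.base L).ζ ^ χ' τ j = q1 at *
    generalize (D.base L).ζ ^ ((ℓ - 1) * χ' τ i) = r0 at *
    generalize (D.base L).ζ ^ ((ℓ - 1) * χ' τ j) = r1 at *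
    generalize τ (kd.θ i j) = T at *
    generalize τ (kd'.θ i j) = T' at *
    generalize kd.θ i j = t at *
    generalize kd'.θ i j = t' at *
    calc q0 * q1 * (p1 * r1 * T * t') = (q1 * r1) * (p1 * T) * (q0 * t') := by ring
      _ = 1 * (p0 * t) * (q1 * T') := by rw [z1, a1, a2]
      _ = (q0 * r0) * (p0 * t) * (q1 * T') := by rw [z0]
      _ = _ := by ring
  obtain ⟨x, hx, hrel⟩ := locA' D h2 (F := E) (Ω := L) (χ := ψ) (R := Q) hR (i := i) (j := j)
    hθ0 hθ (B1 := (D.base L).PT m) (B2 := ⊤) ((D.base L).PT_ne m)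
    (by rw [← Ideal.one_eq_top]; exact one_ne_zero) (fun τ => D.mI_PT _ m)
    (fun τ => Ideal.map_top _) (by
      rw [hQ, ← Ideal.one_eq_top]
      have : cl (1 : Ideal (D.base L).A) = 1 := by
        have := cl_PT_of_modEq (D.base L) (m := fun _ => 0) (fun _ _ => rfl)
        rwa [show (D.base L).PT (fun _ => 0) = 1 by unfold PT; simp] at this
      rw [this, one_mul])
  have ti := TorB.lam_tor (D.base L) m i
  have tj := TorB.lam_tor (D.base L) m j
  rw [TorB.tor_base] at ti tj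
  rw [U_top, lam_one, lam_one, mul_one, mul_one, div_pow, kd.hd, kd'.hd] at hrel
  refine ⟨Units.mk0 x hx, ?_⟩
  apply (algebraMap E L).injective
  have d0 : algebraMap E L (kd'.d i j) ≠ 0 := by
    rw [← kd'.hd]; exact pow_ne_zero _ (kd'.h0 i j)
  rw [Units.val_mk0]
  simp only [map_mul, map_pow]
  generalize algebraMap E L (kd'.d i j) = d' at *
  generalize algebraMap E L (kd.d i j) = d at *
  generalize algebraMap E L (tor D (fun k => (m k : ℤ)) i : E) = Ti at *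
  generalize algebraMap E L (tor D (fun k => (m k : ℤ)) j : E) = Tj at *
  generalize algebraMap E L x = y at *
  generalize (D.base L).lam i ((D.base L).U ((D.base L).PT m)) = li at *
  generalize (D.base L).lam j ((D.base L).U ((D.base L).PT m)) = lj at *
  -- hrel : d / d' * li = y ^ ℓ * lj ; ti : li * Ti = 1 ; tj : lj * Tj = 1
  have hrel' : d * li = d' * (y ^ ℓ * lj) := by
    rw [div_mul_eq_mul_div, div_eq_iff d0] at hrel
    rw [hrel]; ring
  calc d * Tj = (d * li) * Ti * Tj := by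
        rw [mul_assoc d li Ti, ti, mul_one]
    _ = d' * (y ^ ℓ * lj) * Ti * Tj := by rw [hrel']
    _ = d' * Ti * y ^ ℓ * (lj * Tj) := by ring
    _ = _ := by rw [tj, mul_one]

/-- the cocycle relation of the Kummer classes -/
theorem d_mul {χ : (L ≃ₐ[E] L) → Fin n → ℕ} (kd : D.KD χ) (i j k : Fin n) :
    ∃ z : Eˣ, kd.d i j * kd.d j k = kd.d i k * (z : E) ^ ℓ := by
  have hfix : ∀ τ : L ≃ₐ[E] L, τ (kd.θ i j * kd.θ j k / kd.θ i k) =
      kd.θ i j * kd.θ j k / kd.θ i k := by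
    intro τ
    have a1 := kd.hθ τ i j
    have a2 := kd.hθ τ j k
    have a3 := kd.hθ τ i k
    have h3 : τ (kd.θ i k) ≠ 0 := (_root_.map_ne_zero _).2 (kd.h0 i k)
    have h3' := kd.h0 i k
    rw [map_div₀, map_mul, div_eq_div_iff h3 h3']
    have hz : (D.base L).ζ ^ χ τ i * (D.base L).ζ ^ χ τ j * (D.base L).ζ ^ χ τ k ≠ 0 :=
      mul_ne_zero (mul_ne_zero (pow_ne_zero _ (D.base L).ζ_ne) (pow_ne_zero _ (D.base L).ζ_ne))
        (pow_ne_zero _ (D.base L).ζ_ne)
    apply mul_left_cancel₀ hz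
    generalize (D.base L).ζ ^ χ τ i = zi at *
    generalize (D.base L).ζ ^ χ τ j = zj at *
    generalize (D.base L).ζ ^ χ τ k = zk at *
    generalize τ (kd.θ i j) = A at *
    generalize τ (kd.θ j k) = B at *
    generalize τ (kd.θ i k) = C at *
    generalize kd.θ i j = a at *
    generalize kd.θ j k = b at *
    generalize kd.θ i k = c at *
    -- a1 : zj * A = zi * a; a2 : zk * B = zj * b; a3 : zk * C = zi * c
    calc zi * zj * zk * (A * B * c) = (zj * A) * (zk * B) * (zi * c) := by ring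
      _ = (zi * a) * (zj * b) * (zk * C) := by rw [a1, a2, a3]
      _ = _ := by ring
  obtain ⟨w, hw⟩ := exists_F (F := E) hfix
  have hw0 : w ≠ 0 := by
    rintro rfl
    rw [map_zero] at hw
    exact div_ne_zero (mul_ne_zero (kd.h0 i j) (kd.h0 j k)) (kd.h0 i k) hw.symm
  refine ⟨Units.mk0 w hw0, ?_⟩
  apply (algebraMap E L).injective
  rw [Units.val_mk0, map_mul, map_mul, map_pow, hw, ← kd.hd, ← kd.hd, ← kd.hd, ← mul_pow,
    ← mul_pow, mul_div_cancel₀ _ (kd.h0 i k)]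

theorem d_ne {χ : (L ≃ₐ[E] L) → Fin n → ℕ} (kd : D.KD χ) (i j : Fin n) : kd.d i j ≠ 0 := by
  intro h
  have := kd.hd i j
  rw [h, map_zero] at this
  exact pow_ne_zero _ (kd.h0 i j) this

/-- a multiplicative cocycle modulo `ℓ`-th powers is a coboundary with product one -/
theorem split {G : Type} [CommGroup G] (h2 : ℓ ≠ 2) (hp : ℓ.Prime) (hn : ¬ ℓ ∣ n)
    (d : Fin n → Fin n → G) (hd : ∀ i j k, ∃ z : G, d i j * d j k = d i k * z ^ ℓ) :
    ∃ x : Fin n → G, IsP ℓ (∏ i, x i) ∧ ∀ i j, ∃ z : G, d i j * x j = x i * z ^ ℓ := by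
  classical
  let N : Subgroup G := Pk ℓ G
  let q : G →* G ⧸ N := QuotientGroup.mk' N
  have hq : ∀ a b : G, q a = q b ↔ ∃ z, a = b * z ^ ℓ := by
    intro a b
    have : q a = q b ↔ b⁻¹ * a ∈ N := by
      rw [eq_comm]
      exact QuotientGroup.eq
    rw [this]
    constructor
    · rintro ⟨z, hz⟩
      refine ⟨z, ?_⟩
      have hz' : z ^ ℓ = b⁻¹ * a := hz
      rw [hz', mul_inv_cancel_left]
    · rintro ⟨z, rfl⟩
      refine ⟨z, ?_⟩
      show z ^ ℓ = _
      rw [inv_mul_cancel_left]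
  have hq1 : ∀ a : G, q a = 1 ↔ IsP ℓ a := by
    intro a
    rw [← map_one q, hq]
    constructor
    · rintro ⟨z, hz⟩
      exact ⟨z, by rw [hz, one_mul]⟩
    · rintro ⟨z, hz⟩
      exact ⟨z, by rw [hz, one_mul]⟩
  have hqℓ : ∀ a : G ⧸ N, a ^ ℓ = 1 := by
    intro a
    obtain ⟨b, rfl⟩ := QuotientGroup.mk'_surjective N a
    show q b ^ ℓ = 1
    rw [← map_pow, hq1]
    exact ⟨b, rfl⟩
  have hD : ∀ i j k, q (d i j) * q (d j k) = q (d i k) := by
    intro i j k
    rw [← map_mul, hq]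
    exact hd i j k
  have hDii : ∀ i, q (d i i) = 1 := by
    intro i
    have := hD i i i
    exact mul_eq_left.1 this
  have hcop : Nat.Coprime n ℓ := ((Nat.Prime.coprime_iff_not_dvd hp).2 hn).symm
  obtain ⟨n', hn'⟩ : ∃ n', n * n' ≡ 1 [MOD ℓ] := by
    obtain ⟨m, hm⟩ := Nat.exists_mul_mod_eq_one_of_coprime hcop hp.one_lt
    exact ⟨m, by rw [Nat.ModEq, hm.2, Nat.mod_eq_of_lt hp.one_lt]⟩
  have hpow : ∀ (a : G ⧸ N) (u v : ℕ), u ≡ v [MOD ℓ] → a ^ u = a ^ v := by
    intro a u v huv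
    have h : ∀ w : ℕ, a ^ w = a ^ (w % ℓ) := fun w => by
      conv_lhs => rw [← Nat.div_add_mod w ℓ, pow_add, pow_mul, hqℓ, one_pow, one_mul]
    rw [h u, h v, huv]
  refine ⟨fun i => (∏ j, d i j) ^ n', ?_, ?_⟩
  · rw [← hq1, map_prod]
    simp only [map_pow, map_prod]
    rw [Finset.prod_pow]
    set P := ∏ i, ∏ j, q (d i j) with hP
    have hPP : P * P = 1 := by
      conv_lhs => rw [hP]
      conv_lhs =>
        congr
        rfl
        rw [Finset.prod_comm]
      rw [← Finset.prod_mul_distrib]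
      refine Finset.prod_eq_one fun i _ => ?_
      rw [← Finset.prod_mul_distrib]
      refine Finset.prod_eq_one fun j _ => ?_
      rw [hD, hDii]
    have hP1 : P = 1 := by
      obtain ⟨k, hk⟩ := hp.odd_of_ne_two h2
      have h1 := hqℓ P
      rw [hk, pow_succ, pow_mul, pow_two, hPP, one_pow, one_mul] at h1
      exact h1
    rw [hP1, one_pow]
  · intro i j
    rw [← hq, map_mul, map_pow, map_pow, map_prod, map_prod]
    have h1 : ∏ k, q (d i k) = q (d i j) ^ n * ∏ k, q (d j k) := by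
      have : ∏ k, q (d i k) = ∏ k, (q (d i j) * q (d j k)) :=
        Finset.prod_congr rfl fun k _ => (hD i j k).symm
      rw [this, Finset.prod_mul_distrib, Finset.prod_const, Finset.card_univ, Fintype.card_fin]
    rw [h1, mul_pow, ← pow_mul, hpow _ _ _ hn', pow_one]

theorem t_ADJ : S_ADJ := by
  intro ℓ n h2 E _ D L _ _ _
  refine ⟨fun m χ χ' Q hQ hχ' kd kd' i j => first h2 hQ hχ' kd kd' i j, ?_⟩
  intro χ kd
  obtain ⟨x, hx1, hx2⟩ := split (G := Eˣ) h2 D.hp D.hn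
    (fun i j => Units.mk0 (kd.d i j) (d_ne kd i j)) (by
      intro i j k
      obtain ⟨z, hz⟩ := d_mul kd i j k
      refine ⟨z, ?_⟩
      ext
      simpa using hz)
  refine ⟨x, hx1, fun i j => ?_⟩
  obtain ⟨z, hz⟩ := hx2 i j
  refine ⟨z, ?_⟩
  have := congrArg (fun u : Eˣ => (u : E)) hz
  simpa using this

end Pool.Agent.T3h73.SN.ADJ
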