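import Pool.Agent.T3h73.SN.Stm2
import Pool.Agent.T3h73.SD.T_UNL

/-!
# CLSW: a maximal unlinked set with a nonzero contribution is a coset of `W ⊗ Y` (helper1)
-/

set_option autoImplicit false
set_option linter.all false

open Filter Topology

namespace Pool.Agent.T3h73.SN.CLSW

open Pool.Agent.T3h73.SD (Cl)
open Pool.Agent.T3h73.SD.UNL (B B_apply B_symm two_ne finrank_le)

section

variable {ℓ n k : ℕ} [Fact ℓ.Prime]

/-- the slices as linear maps -/
def sl (ℓ n k : ℕ) [Fact ℓ.Prime] (i : Fin n) : ClW ℓ n k →ₗ[ZMod ℓ] Cl ℓ k where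
  toFun x := slc x i
  map_add' x y := rfl
  map_smul' c x := rfl

lemma sl_apply (i : Fin n) (x : ClW ℓ n k) : sl ℓ n k i x = slc x i := rfl

lemma slc_add (x y : ClW ℓ n k) (i : Fin n) : slc (x + y) i = slc x i + slc y i := rfl

lemma slc_sub (x y : ClW ℓ n k) (i : Fin n) : slc (x - y) i = slc x i - slc y i := rfl

lemma sum1 (x : ClW ℓ n k) (s : Fin k) : ∑ i, (slc x i).1 s = 0 := (x.1 s).2

lemma sum2 (x : ClW ℓ n k) (s : Fin k) : ∑ i, (slc x i).2 s = 0 := (x.2 s).2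

lemma slc_sum (x : ClW ℓ n k) : ∑ i, slc x i = 0 := by
  apply Prod.ext
  · rw [Prod.fst_sum]
    funext s
    rw [Finset.sum_apply]
    exact sum1 x s
  · rw [Prod.snd_sum]
    funext s
    rw [Finset.sum_apply]
    exact sum2 x s

lemma slc_ext {x y : ClW ℓ n k} (h : ∀ i, slc x i = slc y i) : x = y := by
  apply Prod.ext
  · funext s
    apply Subtype.ext
    funext i
    exact congrFun (congrArg Prod.fst (h i)) s
  · funext s
    apply Subtype.ext
    funext i
    exact congrFun (congrArg Prod.snd (h i)) s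

/-- an element with given slices -/
lemma exists_mk (a : Fin n → Cl ℓ k) (h : ∑ i, a i = 0) : ∃ x : ClW ℓ n k, ∀ i, slc x i = a i := by
  refine ⟨(fun s => ⟨fun i => (a i).1 s, ?_⟩, fun s => ⟨fun i => (a i).2 s, ?_⟩), fun i => rfl⟩
  · show ∑ i, (a i).1 s = 0
    have h1 := congrFun (congrArg Prod.fst h) s
    rwa [Prod.fst_sum, Finset.sum_apply] at h1
  · show ∑ i, (a i).2 s = 0
    have h1 := congrFun (congrArg Prod.snd h) s
    rwa [Prod.snd_sum, Finset.sum_apply] at h1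

/-- the quadratic form of the slices -/
def qf (a : Cl ℓ k) : ZMod ℓ := ∑ s, a.2 s * a.1 s

lemma qf_add (a b : Cl ℓ k) : qf (a + b) = qf a + qf b + B ℓ k a b := by
  rw [B_apply]
  unfold qf
  rw [← Finset.sum_add_distrib, ← Finset.sum_add_distrib]
  refine Finset.sum_congr rfl fun i _ => ?_
  simp only [Prod.fst_add, Prod.snd_add, Pi.add_apply]
  ring

lemma n_ne (hn : ¬ ℓ ∣ n) : (n : ZMod ℓ) ≠ 0 := by
  rwa [Ne, ZMod.natCast_eq_zero_iff]

/-! ### linear algebra -/

/-- the subspace of the differences -/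
def Yj (X : Submodule (ZMod ℓ) (ClW ℓ n k)) (i0 j : Fin n) : Submodule (ZMod ℓ) (Cl ℓ k) :=
  X.map (sl ℓ n k i0 - sl ℓ n k j)

lemma mem_Yj {X : Submodule (ZMod ℓ) (ClW ℓ n k)} {i0 j : Fin n} {a : Cl ℓ k} :
    a ∈ Yj X i0 j ↔ ∃ x ∈ X, slc x i0 - slc x j = a := Iff.rfl

lemma Yj_self {X : Submodule (ZMod ℓ) (ClW ℓ n k)} {i0 : Fin n} {a : Cl ℓ k}
    (h : a ∈ Yj X i0 i0) : a = 0 := by
  obtain ⟨x, _, hx⟩ := mem_Yj.1 h
  rw [← hx, sub_self]

/-- the elements with differences in the given subspaces -/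
def TT (X : Submodule (ZMod ℓ) (ClW ℓ n k)) (i0 : Fin n) : Submodule (ZMod ℓ) (ClW ℓ n k) :=
  ⨅ j, (Yj X i0 j).comap (sl ℓ n k i0 - sl ℓ n k j)

lemma mem_TT {X : Submodule (ZMod ℓ) (ClW ℓ n k)} {i0 : Fin n} {x : ClW ℓ n k} :
    x ∈ TT X i0 ↔ ∀ j, slc x i0 - slc x j ∈ Yj X i0 j := by
  unfold TT
  rw [Submodule.mem_iInf]
  rfl

lemma le_TT (X : Submodule (ZMod ℓ) (ClW ℓ n k)) (i0 : Fin n) : X ≤ TT X i0 := by
  intro x hx
  rw [mem_TT]
  intro j
  exact mem_Yj.2 ⟨x, hx, rfl⟩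

lemma smul_slc (hn : ¬ ℓ ∣ n) (x : ClW ℓ n k) (i0 : Fin n) :
    slc x i0 = (n : ZMod ℓ)⁻¹ • ∑ j, (slc x i0 - slc x j) := by
  rw [Finset.sum_sub_distrib, slc_sum, sub_zero, Finset.sum_const, Finset.card_univ,
    Fintype.card_fin, ← Nat.cast_smul_eq_nsmul (ZMod ℓ), smul_smul, inv_mul_cancel₀ (n_ne hn),
    one_smul]

lemma finrank_TT (hn : ¬ ℓ ∣ n) (X : Submodule (ZMod ℓ) (ClW ℓ n k)) (i0 : Fin n) :
    Module.finrank (ZMod ℓ) (TT X i0) ≤
      ∑ j : {j : Fin n // j ≠ i0}, Module.finrank (ZMod ℓ) (Yj X i0 j) := by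
  rw [← Module.finrank_pi_fintype]
  let Φ : TT X i0 →ₗ[ZMod ℓ] ((j : {j : Fin n // j ≠ i0}) → Yj X i0 j) :=
    LinearMap.pi fun j => LinearMap.codRestrict (Yj X i0 j)
      ((sl ℓ n k i0 - sl ℓ n k j).comp (TT X i0).subtype) (fun x => mem_TT.1 x.2 j)
  refine LinearMap.finrank_le_finrank_of_injective (f := Φ) ?_
  rw [← LinearMap.ker_eq_bot, LinearMap.ker_eq_bot']
  intro x hx
  have h1 : ∀ j, slc (x : ClW ℓ n k) i0 - slc (x : ClW ℓ n k) j = 0 := by
    intro j
    by_cases hj : j = i0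
    · rw [hj, sub_self]
    · exact congrArg Subtype.val (congrFun hx ⟨j, hj⟩)
  have h2 : slc (x : ClW ℓ n k) i0 = 0 := by
    rw [smul_slc hn, Finset.sum_eq_zero fun j _ => h1 j, smul_zero]
  apply Subtype.ext
  apply slc_ext
  intro j
  have h3 := h1 j
  rw [h2, zero_sub, neg_eq_zero] at h3
  rw [h3]
  rfl

theorem main (hn : ¬ ℓ ∣ n) (hn2 : 2 ≤ n) {X : Submodule (ZMod ℓ) (ClW ℓ n k)}
    (hd : Module.finrank (ZMod ℓ) X = (n - 1) * k)
    (hX : ∀ x ∈ X, ∀ y ∈ X, ∀ i j, B ℓ k (slc x i - slc x j) (slc y i - slc y j) = 0) :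
    ∃ Y : Submodule (ZMod ℓ) (Cl ℓ k), (∀ x ∈ Y, ∀ y ∈ Y, B ℓ k x y = 0) ∧
      Module.finrank (ZMod ℓ) Y = k ∧ ∀ x, x ∈ X ↔ ∀ i, slc x i ∈ Y := by
  classical
  have hn0 := n_ne hn
  let i0 : Fin n := ⟨0, by omega⟩
  let i1 : Fin n := ⟨1, by omega⟩
  have h10 : i1 ≠ i0 := by
    intro h
    have := congrArg Fin.val h
    exact absurd this one_ne_zero
  have hle : ∀ j, Module.finrank (ZMod ℓ) (Yj X i0 j) ≤ k := by
    intro j
    apply finrank_le
    intro a ha b hb
    obtain ⟨x, hx, rfl⟩ := mem_Yj.1 ha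
    obtain ⟨y, hy, rfl⟩ := mem_Yj.1 hb
    exact hX x hx y hy i0 j
  have hle' : ∀ j ∈ (Finset.univ : Finset {j : Fin n // j ≠ i0}),
      Module.finrank (ZMod ℓ) (Yj X i0 (j : Fin n)) ≤ k := fun j _ => hle j
  have hcard : Fintype.card {j : Fin n // j ≠ i0} = n - 1 := by
    rw [Fintype.card_subtype_compl, Fintype.card_fin, Fintype.card_subtype_eq]
  have hsum : ∑ j : {j : Fin n // j ≠ i0}, Module.finrank (ZMod ℓ) (Yj X i0 j) ≤ (n - 1) * k := by
    refine (Finset.sum_le_sum hle').trans ?_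
    rw [Finset.sum_const, Finset.card_univ, hcard, smul_eq_mul]
  have hT := finrank_TT hn X i0
  have hXT : X = TT X i0 := by
    apply Submodule.eq_of_le_of_finrank_le (le_TT X i0)
    rw [hd]
    exact hT.trans hsum
  have hTd : Module.finrank (ZMod ℓ) (TT X i0) = (n - 1) * k := by rw [← hXT, hd]
  have hfr : ∀ j, j ≠ i0 → Module.finrank (ZMod ℓ) (Yj X i0 j) = k := by
    intro j hj
    have h1 : ∑ j : {j : Fin n // j ≠ i0}, Module.finrank (ZMod ℓ) (Yj X i0 j) =
        ∑ j : {j : Fin n // j ≠ i0}, k := by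
      rw [Finset.sum_const, Finset.card_univ, hcard, smul_eq_mul]
      omega
    exact (Finset.sum_eq_sum_iff_of_le hle').1 h1 ⟨j, hj⟩ (Finset.mem_univ _)
  -- elements with one nonzero difference
  have hel : ∀ j, j ≠ i0 → ∀ a ∈ Yj X i0 j, ∃ x ∈ X, ∀ i, slc x i0 - slc x i =
      if i = j then a else 0 := by
    intro j hj a ha
    obtain ⟨x, hx⟩ := exists_mk (ℓ := ℓ) (fun i : Fin n => (n : ZMod ℓ)⁻¹ • a - if i = j then a else 0)
      (by
        rw [Finset.sum_sub_distrib, Finset.sum_const, Finset.card_univ, Fintype.card_fin,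
          ← Nat.cast_smul_eq_nsmul (ZMod ℓ), smul_smul, mul_inv_cancel₀ hn0, one_smul,
          Finset.sum_ite_eq' Finset.univ j (fun _ => a), if_pos (Finset.mem_univ _), sub_self])
    have hx' : ∀ i, slc x i0 - slc x i = if i = j then a else 0 := by
      intro i
      rw [hx i0, hx i, if_neg (Ne.symm hj), sub_zero, sub_sub_cancel]
    refine ⟨x, ?_, hx'⟩
    rw [hXT, mem_TT]
    intro i
    rw [hx' i]
    split_ifs with h
    · rw [h]
      exact ha
    · exact Submodule.zero_mem _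
  have horth : ∀ i j, ∀ a ∈ Yj X i0 i, ∀ b ∈ Yj X i0 j, B ℓ k a b = 0 := by
    intro i j a ha b hb
    by_cases hi : i = i0
    · rw [hi] at ha
      rw [Yj_self ha, map_zero, LinearMap.zero_apply]
    by_cases hj : j = i0
    · rw [hj] at hb
      rw [Yj_self hb, map_zero]
    by_cases hij : i = j
    · subst hij
      obtain ⟨x, hx, rfl⟩ := mem_Yj.1 ha
      obtain ⟨y, hy, rfl⟩ := mem_Yj.1 hb
      exact hX x hx y hy i0 i
    · obtain ⟨x, hx, hx'⟩ := hel i hi a ha
      obtain ⟨y, hy, hy'⟩ := hel j hj b hb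
      have h1 := hX x hx y hy i j
      have e1 : slc x i - slc x j = -a := by
        have h2 := hx' i
        have h3 := hx' j
        rw [if_pos rfl] at h2
        rw [if_neg (Ne.symm hij)] at h3
        rw [← h2, ← sub_eq_zero]
        have : slc x i - slc x j - -(slc x i0 - slc x i) = slc x i0 - slc x j := by abel
        rw [this, h3]
      have e2 : slc y i - slc y j = b := by
        have h2 := hy' i
        have h3 := hy' j
        rw [if_neg hij] at h2
        rw [if_pos rfl] at h3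
        rw [← h3]
        have : slc y i - slc y j = (slc y i0 - slc y j) - (slc y i0 - slc y i) := by abel
        rw [this, h2, sub_zero]
      rw [e1, e2, map_neg, LinearMap.neg_apply, neg_eq_zero] at h1
      exact h1
  set Y : Submodule (ZMod ℓ) (Cl ℓ k) := ⨆ j, Yj X i0 j with hY
  have hYle : ∀ j, Yj X i0 j ≤ Y := fun j => le_iSup (fun j => Yj X i0 j) j
  have hYiso : ∀ x ∈ Y, ∀ y ∈ Y, B ℓ k x y = 0 := by
    intro x hx
    refine Submodule.iSup_induction (fun j => Yj X i0 j)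
      (motive := fun x => ∀ y ∈ Y, B ℓ k x y = 0) hx ?_ ?_ ?_
    · intro i a ha y hy
      refine Submodule.iSup_induction (fun j => Yj X i0 j)
        (motive := fun y => B ℓ k a y = 0) hy ?_ ?_ ?_
      · intro j b hb
        exact horth i j a ha b hb
      · exact map_zero _
      · intro y y' h h'
        rw [map_add, h, h', add_zero]
    · intro y _
      rw [map_zero, LinearMap.zero_apply]
    · intro x x' h h' y hy
      rw [map_add, LinearMap.add_apply, h y hy, h' y hy, add_zero]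
  have hYk := finrank_le Y hYiso
  have hYeq : ∀ j, j ≠ i0 → Yj X i0 j = Y := by
    intro j hj
    apply Submodule.eq_of_le_of_finrank_le (hYle j)
    rw [hfr j hj]
    exact hYk
  refine ⟨Y, hYiso, ?_, fun x => ⟨fun hx => ?_, fun hx => ?_⟩⟩
  · rw [← hYeq i1 h10]
    exact hfr i1 h10
  · have h1 : ∀ j, slc x i0 - slc x j ∈ Y := fun j => hYle j (mem_Yj.2 ⟨x, hx, rfl⟩)
    have h2 : slc x i0 ∈ Y := by
      rw [smul_slc hn x i0]
      exact Submodule.smul_mem _ _ (Submodule.sum_mem _ fun j _ => h1 j)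
    intro i
    have h3 := Submodule.sub_mem _ h2 (h1 i)
    rwa [sub_sub_cancel] at h3
  · rw [hXT, mem_TT]
    intro j
    by_cases hj : j = i0
    · rw [hj, sub_self]
      exact Submodule.zero_mem _
    · rw [hYeq j hj]
      exact Submodule.sub_mem _ (hx i0) (hx j)

end

/-! ### the quadratic part -/

section

variable {ℓ n k : ℕ} [Fact ℓ.Prime] {V : Type} [AddCommGroup V] [Module (ZMod ℓ) V]
  {L0 : Submodule (ZMod ℓ) V} {LL : Submodule (ZMod ℓ) (Sz ℓ n V)}

/-- the quadratic part -/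
def Gq (g : Fin n → Fin n → L0) (a : ClW ℓ n k) : L0 :=
  ∑ s, ∑ i, ∑ j, ((slc a i).2 s * ((slc a i).1 s - (slc a j).1 s)) • g i j

/-- the quadratic form -/
def qQ (a : ClW ℓ n k) : ZMod ℓ := ∑ s, ∑ i, (slc a i).2 s * (slc a i).1 s

lemma par_lin (f : ClW ℓ n k → Fin k → Fin n → ZMod ℓ)
    (hf : ∀ x y s i, f (x + y) s i = f x s i + f y s i)
    (hf' : ∀ x y s i, f (x - y) s i = f x s i - f y s i) (p : Fin k → Fin n → L0)
    (a x : ClW ℓ n k) :
    ∑ s, ∑ i, f (a + x) s i • p s i + ∑ s, ∑ i, f (a - x) s i • p s i =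
      (2 : ZMod ℓ) • ∑ s, ∑ i, f a s i • p s i := by
  rw [← Finset.sum_add_distrib, Finset.smul_sum]
  refine Finset.sum_congr rfl fun s _ => ?_
  rw [← Finset.sum_add_distrib, Finset.smul_sum]
  refine Finset.sum_congr rfl fun i _ => ?_
  rw [hf, hf', ← add_smul, smul_smul]
  congr 1
  ring

lemma par_Q (a x : ClW ℓ n k) : qQ (a + x) + qQ (a - x) = 2 * qQ a + 2 * qQ x := by
  unfold qQ
  rw [← Finset.sum_add_distrib, Finset.mul_sum, Finset.mul_sum, ← Finset.sum_add_distrib]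
  refine Finset.sum_congr rfl fun s _ => ?_
  rw [← Finset.sum_add_distrib, Finset.mul_sum, Finset.mul_sum, ← Finset.sum_add_distrib]
  refine Finset.sum_congr rfl fun i _ => ?_
  simp only [slc_add, slc_sub, Prod.fst_add, Prod.snd_add, Prod.fst_sub, Prod.snd_sub, Pi.add_apply,
    Pi.sub_apply]
  ring

lemma par_G (g : Fin n → Fin n → L0) (a x : ClW ℓ n k) :
    Gq g (a + x) + Gq g (a - x) = (2 : ZMod ℓ) • Gq g a + (2 : ZMod ℓ) • Gq g x := by
  unfold Gq
  rw [← Finset.sum_add_distrib, Finset.smul_sum, Finset.smul_sum, ← Finset.sum_add_distrib]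
  refine Finset.sum_congr rfl fun s _ => ?_
  rw [← Finset.sum_add_distrib, Finset.smul_sum, Finset.smul_sum, ← Finset.sum_add_distrib]
  refine Finset.sum_congr rfl fun i _ => ?_
  rw [← Finset.sum_add_distrib, Finset.smul_sum, Finset.smul_sum, ← Finset.sum_add_distrib]
  refine Finset.sum_congr rfl fun j _ => ?_
  simp only [slc_add, slc_sub, Prod.fst_add, Prod.snd_add, Prod.fst_sub, Prod.snd_sub, Pi.add_apply,
    Pi.sub_apply]
  rw [← add_smul, smul_smul, smul_smul, ← add_smul]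
  congr 1
  ring

lemma hcW_eq (π : V →ₗ[ZMod ℓ] L0) (u : L0) (g : Fin n → Fin n → L0) (w : Fin k → Sz ℓ n L0)
    (α : L0) (z : Fin k → LL) (a : ClW ℓ n k) :
    hcW π u g w α z a = α + ∑ s, ∑ i, (slc a i).1 s • π (((z s : Sz ℓ n V) : Fin n → V) i) -
    ∑ s, ∑ i, (slc a i).2 s • (w s : Fin n → L0) i + qQ a • u + Gq g a := rfl

lemma par_h (π : V →ₗ[ZMod ℓ] L0) (u : L0) (g : Fin n → Fin n → L0) (w : Fin k → Sz ℓ n L0)
    (α : L0) (z : Fin k → LL) (a x : ClW ℓ n k) :
    hcW π u g w α z (a + x) + hcW π u g w α z (a - x) =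
      (2 : ZMod ℓ) • hcW π u g w α z a + (2 : ZMod ℓ) • (qQ x • u + Gq g x) := by
  rw [hcW_eq, hcW_eq, hcW_eq]
  have e1 := par_lin (L0 := L0) (fun (a : ClW ℓ n k) s i => (slc a i).1 s) (fun _ _ _ _ => rfl)
    (fun _ _ _ _ => rfl) (fun s i => π (((z s : Sz ℓ n V) : Fin n → V) i)) a x
  have e2 := par_lin (L0 := L0) (fun (a : ClW ℓ n k) s i => (slc a i).2 s) (fun _ _ _ _ => rfl)
    (fun _ _ _ _ => rfl) (fun s i => (w s : Fin n → L0) i) a x
  have e3 : (qQ (a + x) + qQ (a - x)) • u = (2 * qQ a + 2 * qQ x) • u := by rw [par_Q]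
  have e4 := par_G g a x
  rw [add_smul, add_smul, mul_smul, mul_smul] at e3
  linear_combination (norm := module) e1 - e2 + e3 + e4

/-- the symmetric form -/
def bt (x : ClW ℓ n k) (i j : Fin n) : ZMod ℓ := qf (slc x i - slc x j)

lemma bt_sum (x : ClW ℓ n k) : ∑ i, ∑ j, bt x i j = 2 * (n : ZMod ℓ) * qQ x := by
  have h1 : ∀ s : Fin k, ∑ i : Fin n, ∑ j : Fin n, ((slc x i).2 s - (slc x j).2 s) *
      ((slc x i).1 s - (slc x j).1 s) = 2 * (n : ZMod ℓ) * ∑ i, (slc x i).2 s * (slc x i).1 s := by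
    intro s
    have a1 : ∀ i : Fin n, ∑ j : Fin n, ((slc x i).2 s - (slc x j).2 s) *
      ((slc x i).1 s - (slc x j).1 s) = (n : ZMod ℓ) * ((slc x i).2 s * (slc x i).1 s) +
        ∑ j, (slc x j).2 s * (slc x j).1 s := by
      intro i
      have e : ∀ j : Fin n, ((slc x i).2 s - (slc x j).2 s) * ((slc x i).1 s - (slc x j).1 s) =
          (slc x i).2 s * (slc x i).1 s + (slc x j).2 s * (slc x j).1 s -
            (slc x i).2 s * (slc x j).1 s - (slc x i).1 s * (slc x j).2 s := fun j => by ring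
      have s1 : ∑ j : Fin n, (slc x i).2 s * (slc x i).1 s =
          (n : ZMod ℓ) * ((slc x i).2 s * (slc x i).1 s) := by
        rw [Finset.sum_const, Finset.card_univ, Fintype.card_fin, nsmul_eq_mul]
      have s3 : ∑ j : Fin n, (slc x i).2 s * (slc x j).1 s = 0 := by
        rw [← Finset.mul_sum, sum1, mul_zero]
      have s4 : ∑ j : Fin n, (slc x i).1 s * (slc x j).2 s = 0 := by
        rw [← Finset.mul_sum, sum2, mul_zero]
      rw [Finset.sum_congr rfl fun j _ => e j, Finset.sum_sub_distrib, Finset.sum_sub_distrib,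
        Finset.sum_add_distrib, s1, s3, s4]
      ring
    rw [Finset.sum_congr rfl fun i _ => a1 i, Finset.sum_add_distrib, ← Finset.mul_sum,
      Finset.sum_const, Finset.card_univ, Fintype.card_fin, nsmul_eq_mul]
    ring
  unfold qQ
  rw [Finset.mul_sum, ← Finset.sum_congr rfl fun s _ => h1 s]
  unfold bt qf
  have e2 : ∀ i : Fin n, ∑ j : Fin n, ∑ s : Fin k, (slc x i - slc x j).2 s * (slc x i - slc x j).1 s =
      ∑ s : Fin k, ∑ j : Fin n, (slc x i - slc x j).2 s * (slc x i - slc x j).1 s :=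
    fun i => Finset.sum_comm
  rw [Finset.sum_congr rfl fun i _ => e2 i, Finset.sum_comm]
  rfl

lemma bt_G {g : Fin n → Fin n → L0} (hg : ∀ i j, g i j = g j i) (x : ClW ℓ n k) :
    ∑ i, ∑ j, bt x i j • g i j = (2 : ZMod ℓ) • Gq g x := by
  have h1 : Gq g x = ∑ s, ∑ i, ∑ j, ((slc x j).2 s * ((slc x j).1 s - (slc x i).1 s)) • g i j := by
    unfold Gq
    refine Finset.sum_congr rfl fun s _ => ?_
    rw [Finset.sum_comm]
    refine Finset.sum_congr rfl fun i _ => Finset.sum_congr rfl fun j _ => ?_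
    rw [hg j i]
  have h2 : (2 : ZMod ℓ) • Gq g x = Gq g x + Gq g x := two_smul _ _
  rw [h2]
  nth_rewrite 2 [h1]
  unfold Gq
  rw [← Finset.sum_add_distrib]
  have e1 : ∀ s : Fin k, ∑ i, ∑ j, ((slc x i).2 s * ((slc x i).1 s - (slc x j).1 s)) • g i j +
      ∑ i, ∑ j, ((slc x j).2 s * ((slc x j).1 s - (slc x i).1 s)) • g i j =
      ∑ i, ∑ j, ((slc x i - slc x j).2 s * (slc x i - slc x j).1 s) • g i j := by
    intro s
    rw [← Finset.sum_add_distrib]
    refine Finset.sum_congr rfl fun i _ => ?_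
    rw [← Finset.sum_add_distrib]
    refine Finset.sum_congr rfl fun j _ => ?_
    rw [← add_smul]
    congr 1
    simp only [Prod.fst_sub, Prod.snd_sub, Pi.sub_apply]
    ring
  rw [Finset.sum_congr rfl fun s _ => e1 s]
  symm
  rw [Finset.sum_comm]
  refine Finset.sum_congr rfl fun i _ => ?_
  rw [Finset.sum_comm]
  refine Finset.sum_congr rfl fun j _ => ?_
  rw [← Finset.sum_smul]
  rfl

end

theorem t_CLSW (hUNLW : S_UNLW) : S_CLSW := by
  intro ℓ n _ hℓ V _ _ _ ψ L0 L1 LL π u d1 g hlin k w α z U hU hUc hh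
  obtain ⟨-, h2⟩ := hUNLW ℓ n hℓ hlin.hn k U hU
  obtain ⟨x₀, X, hX, hXd, hXU⟩ := h2 hUc
  have h20 : (2 : ZMod ℓ) ≠ 0 := two_ne hℓ
  have hhX : ∀ x ∈ X, hcW π u g w α z (x₀ + x) = 0 := by
    intro x hx
    apply hh
    rw [hXU, add_sub_cancel_left]
    exact hx
  have hQ : ∀ x ∈ X, qQ x = 0 := by
    intro x hx
    have h3 := hX x hx x hx
    have h4 : (2 : ZMod ℓ) * qQ x = 0 := by
      rw [← h3]
      unfold qQ
      rw [Finset.mul_sum]
      refine Finset.sum_congr rfl fun s _ => ?_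
      rw [Finset.mul_sum]
      refine Finset.sum_congr rfl fun i _ => ?_
      ring
    exact (mul_eq_zero.1 h4).resolve_left h20
  have hG : ∀ x ∈ X, Gq g x = 0 := by
    intro x hx
    have h3 := par_h π u g w α z x₀ x
    have h5 : hcW π u g w α z (x₀ - x) = 0 := by
      rw [sub_eq_add_neg]
      exact hhX _ (Submodule.neg_mem _ hx)
    have h6 : hcW π u g w α z x₀ = 0 := by
      have := hhX 0 (Submodule.zero_mem _)
      rwa [add_zero] at this
    rw [hhX x hx, h5, h6, hQ x hx] at h3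
    simp only [zero_smul, smul_zero, zero_add, add_zero] at h3
    exact (smul_eq_zero.1 h3.symm).resolve_left h20
  have hbt : ∀ x ∈ X, ∀ i j, qf (slc x i - slc x j) = 0 := by
    intro x hx
    refine hlin.ind (bt x) ?_ ?_ ?_ ?_
    · intro i j
      unfold bt qf
      refine Finset.sum_congr rfl fun s _ => ?_
      simp only [Prod.fst_sub, Prod.snd_sub, Pi.sub_apply]
      ring
    · intro i
      unfold bt qf
      rw [sub_self]
      simp
    · rw [bt_sum, hQ x hx, mul_zero]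
    · rw [bt_G hlin.gsymm, hG x hx, smul_zero]
  have hB : ∀ x ∈ X, ∀ y ∈ X, ∀ i j, B ℓ k (slc x i - slc x j) (slc y i - slc y j) = 0 := by
    intro x hx y hy i j
    have h3 := hbt (x + y) (Submodule.add_mem _ hx hy) i j
    have e : slc (x + y) i - slc (x + y) j = (slc x i - slc x j) + (slc y i - slc y j) := by
      rw [slc_add, slc_add]
      abel
    rw [e, qf_add, hbt x hx i j, hbt y hy i j, zero_add, zero_add] at h3
    exact h3
  obtain ⟨Y, hY1, hY2, hY3⟩ := main hlin.hn hlin.hn2 hXd hB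
  refine ⟨x₀, Y, fun x hx y hy => hY1 x hx y hy, hY2, fun a => ?_⟩
  rw [hXU, hY3]

end Pool.Agent.T3h73.SN.CLSW
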