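import Pool.Agent.T3h73.SN.Stm2
import Pool.Agent.T3h73.SD.T_DIST

/-!
# Task DISTA of project SN (board t73c_tasks of helper73), by helper64

The abstract form of `Pool/Agent/T3h73/SD/T_DIST.lean`.
-/

set_option autoImplicit false

open NumberField IsDedekindDomain Filter Topology Polynomial

namespace Pool.Agent.T3h73.SN.DISTA

open Pool.Agent.T3h73.SL (Pl IsP Pk loc Good2 LC)
open Pool.Agent.T3h73.SD
open Pool.Agent.T3h73.SD.DIST (mm Lf Lf_monomial Lf_BB BB BB_le summable_ite')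

open Classical in
theorem t_DISTA (hKAP : S_KAP) (hT0L : S_T0L) (hMASS : S_MASS) : S_DISTA := by
  intro ℓ _ hℓ2 K _ _ S V _ t d1 n cN A hcN hA hpow hgrow hmom ε hε
  have hℓ : ℓ.Prime := Fact.out
  have hℓR : (0 : ℝ) < ℓ := by exact_mod_cast hℓ.pos
  have hcR : (0 : ℝ) < cN := by exact_mod_cast hcN
  obtain ⟨D, m0, hgrow⟩ := hgrow
  set m : ℕ := max m0 1 with hm
  have hm1 : 1 ≤ m := le_max_right _ _
  have hnle : ∀ P, n P ≤ D * m ^ P.card := fun P =>
    (hgrow P).trans (Nat.mul_le_mul_left _ (Nat.pow_le_pow_left (le_max_left _ _) _))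
  -- summability
  have hsum : ∀ (k : ℕ) (s : ℝ), 1 < s → s ≤ 2 →
      Summable (fun P : Finset (Pl K) => (NA P : ℝ) ^ (-s) * (n P : ℝ) ^ k) := by
    intro k s hs1 hs2
    obtain ⟨C, hC, h1, -⟩ := hMASS K (m ^ k) 0 (Nat.one_le_pow _ _ hm1) le_rfl
    have h2 := ((h1 s hs1 hs2).1).mul_left ((D : ℝ) ^ k)
    refine Summable.of_nonneg_of_le (fun P => by positivity) (fun P => ?_) h2
    have h3 : (n P : ℝ) ≤ D * (m : ℝ) ^ P.card := by
      exact_mod_cast hnle P
    have h4 : (n P : ℝ) ^ k ≤ (D : ℝ) ^ k * ((m ^ k : ℕ) : ℝ) ^ P.card := by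
      refine (pow_le_pow_left₀ (by positivity) h3 k).trans (le_of_eq ?_)
      push_cast
      rw [mul_pow, ← pow_mul, ← pow_mul, mul_comm k]
    calc (NA P : ℝ) ^ (-s) * (n P : ℝ) ^ k
        ≤ (NA P : ℝ) ^ (-s) * ((D : ℝ) ^ k * ((m ^ k : ℕ) : ℝ) ^ P.card) :=
          mul_le_mul_of_nonneg_left h4 (by positivity)
      _ = (D : ℝ) ^ k * (((m ^ k : ℕ) : ℝ) ^ P.card * (NA P : ℝ) ^ (-s) *
            gA P ^ (0 : ℝ)) := by
          rw [Real.rpow_zero]
          ring
  have hsumf : ∀ (f : ℝ[X]) (s : ℝ), 1 < s → s ≤ 2 →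
      Summable (fun P : Finset (Pl K) => (NA P : ℝ) ^ (-s) * f.eval ((n P : ℝ) / cN)) := by
    intro f s hs1 hs2
    induction f using Polynomial.induction_on' with
    | add p q hp hq =>
      refine (hp.add hq).congr fun P => ?_
      rw [eval_add]
      ring
    | monomial k a =>
      refine ((hsum k s hs1 hs2).mul_left (a / (cN : ℝ) ^ k)).congr fun P => ?_
      rw [eval_monomial, div_pow]
      ring
  have hev : ∀ᶠ s : ℝ in 𝓝[>] 1, 1 < s ∧ s ≤ 2 := by
    have h1 : Set.Ioc (1 : ℝ) 2 ∈ 𝓝[>] (1 : ℝ) := Ioc_mem_nhdsGT (by norm_num)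
    exact Filter.mem_of_superset h1 fun s hs => hs
  -- the limits
  have hlim : ∀ f : ℝ[X], Tendsto (fun s =>
      SP (ℓ := ℓ) S t d1 (fun P => f.eval ((n P : ℝ) / cN)) s / T0 S s) (𝓝[>] 1)
      (𝓝 (A * Lf ℓ f)) := by
    intro f
    induction f using Polynomial.induction_on' with
    | add p q hp hq =>
      rw [map_add, mul_add]
      refine (hp.add hq).congr' ?_
      filter_upwards [hev] with s hs
      rw [← add_div]
      congr 1
      unfold SP
      rw [← (summable_ite' (hsumf p s hs.1 hs.2)).tsum_add (summable_ite' (hsumf q s hs.1 hs.2))]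
      refine tsum_congr fun P => ?_
      by_cases hP : Disjoint P S ∧ ∑ q ∈ P, t q = d1
      · rw [if_pos hP, if_pos hP, if_pos hP]
        change _ = (NA P : ℝ) ^ (-s) * eval ((n P : ℝ) / cN) (p + q)
        rw [eval_add]
        ring
      · rw [if_neg hP, if_neg hP, if_neg hP, add_zero]
    | monomial k a =>
      rw [Lf_monomial]
      have h1 := (hmom k).const_mul (a / (cN : ℝ) ^ k)
      have h2 : a / (cN : ℝ) ^ k * (A *
          ((cN : ℝ) ^ k * ∏ i ∈ Finset.range k, (1 + (ℓ : ℝ) ^ i))) =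
          A * (mm ℓ k * a) := by
        unfold mm
        field_simp
      rw [h2] at h1
      refine h1.congr fun s => ?_
      rw [← mul_div_assoc]
      congr 1
      unfold SP
      rw [← tsum_mul_left]
      refine tsum_congr fun P => ?_
      by_cases hP : Disjoint P S ∧ ∑ q ∈ P, t q = d1
      · rw [if_pos hP, if_pos hP]
        change a / (cN : ℝ) ^ k * ((NA P : ℝ) ^ (-s) * (n P : ℝ) ^ k) =
          (NA P : ℝ) ^ (-s) * eval ((n P : ℝ) / cN) (monomial k a)
        rw [eval_monomial, div_pow]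
        ring
      · rw [if_neg hP, if_neg hP, mul_zero]
  have hlim1 : Tendsto (fun s => SP (ℓ := ℓ) S t d1 (fun _ => 1) s / T0 S s) (𝓝[>] 1)
      (𝓝 (A)) := by
    have h1 := hmom 0
    simp only [pow_zero, Finset.range_zero, Finset.prod_empty, mul_one] at h1
    exact h1
  -- `T0` tends to infinity
  obtain ⟨c, s₀, hc, hs₀, hT⟩ := hT0L K S
  have hevT : ∀ᶠ s : ℝ in 𝓝[>] 1, c / (s - 1) ≤ T0 S s ∧ 0 < c / (s - 1) := by
    have h1 : Set.Ioo (1 : ℝ) s₀ ∈ 𝓝[>] (1 : ℝ) := Ioo_mem_nhdsGT hs₀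
    exact Filter.mem_of_superset h1 fun s hs => ⟨(hT s hs.1 hs.2).2,
      div_pos hc (sub_pos.2 hs.1)⟩
  have hTinf : Tendsto (fun s : ℝ => T0 S s) (𝓝[>] 1) atTop := by
    have h1 : Tendsto (fun s : ℝ => c / (s - 1)) (𝓝[>] 1) atTop := by
      have h2 : Tendsto (fun s : ℝ => s - 1) (𝓝[>] 1) (𝓝[>] 0) := by
        refine tendsto_nhdsWithin_iff.2 ⟨?_, ?_⟩
        · have h3 : Tendsto (fun s : ℝ => s - 1) (𝓝 1) (𝓝 (1 - 1)) :=
            (continuous_id.sub continuous_const).tendsto 1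
          rw [sub_self] at h3
          exact h3.mono_left nhdsWithin_le_nhds
        · filter_upwards [self_mem_nhdsWithin] with s hs
          exact sub_pos.2 (Set.mem_Ioi.1 hs)
      have h3 := (tendsto_inv_nhdsGT_zero.comp h2).const_mul_atTop hc
      refine h3.congr fun s => ?_
      rw [Function.comp, div_eq_mul_inv]
    exact tendsto_atTop_mono' _ (hevT.mono fun s hs => hs.1) h1
  -- the choice of `J`
  obtain ⟨-, -, hK⟩ := hKAP ℓ hℓ.two_le
  have hJ : ∃ J, Odd J ∧ kap ℓ - ε / 2 < Lf ℓ (BB ℓ J) := by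
    have h1 := hK.eventually (lt_mem_nhds (show kap ℓ - ε / 2 < kap ℓ by linarith))
    obtain ⟨N, hN⟩ := Filter.eventually_atTop.1 h1
    refine ⟨2 * N + 1, ⟨N, rfl⟩, ?_⟩
    rw [Lf_BB]
    exact hN (2 * N + 1) (by omega)
  obtain ⟨J, hJo, hJk⟩ := hJ
  set c0 : ℝ := |(BB ℓ J).eval ((n ∅ : ℝ) / cN)| with hc0
  -- the lower bound
  have hlow : ∀ s : ℝ, 1 < s → s ≤ 2 →
      SP (ℓ := ℓ) S t d1 (fun P => (BB ℓ J).eval ((n P : ℝ) / cN)) s - c0 ≤
      SP (ℓ := ℓ) S t d1 (fun P => if P.Nonempty ∧ n P = cN then 1 else 0) s := by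
    intro s hs1 hs2
    rw [sub_le_iff_le_add]
    have hs3 : Summable (fun P : Finset (Pl K) => if P = ∅ then c0 else 0) :=
      summable_of_ne_finset_zero (s := {∅}) fun P hP => by
        rw [Finset.mem_singleton] at hP
        rw [if_neg hP]
    have hs4 : Summable (fun P : Finset (Pl K) => if Disjoint P S ∧ ∑ q ∈ P, t q = d1 then
        (NA P : ℝ) ^ (-s) * (if P.Nonempty ∧ n P = cN then (1 : ℝ) else 0) else 0) := by
      refine summable_ite' ?_
      refine Summable.of_nonneg_of_le (fun P => ?_) (fun P => ?_) (hsum 0 s hs1 hs2)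
      · positivity
      · rw [pow_zero]
        refine mul_le_mul_of_nonneg_left ?_ (by positivity)
        split_ifs <;> norm_num
    have h5 : (∑' P : Finset (Pl K), if P = ∅ then c0 else 0) = c0 := tsum_ite_eq _ _
    rw [← h5]
    unfold SP
    rw [← hs4.tsum_add hs3]
    refine (summable_ite' (hsumf (BB ℓ J) s hs1 hs2)).tsum_le_tsum (fun P => ?_) (hs4.add hs3)
    by_cases hP : Disjoint P S ∧ ∑ q ∈ P, t q = d1
    · rw [if_pos hP, if_pos hP]
      by_cases hP0 : P = ∅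
      · subst hP0
        rw [if_pos rfl, if_neg (by simp), mul_zero, zero_add]
        have h6 : ((NA (∅ : Finset (Pl K)) : ℕ) : ℝ) ^ (-s) = 1 := by
          unfold NA
          simp
        rw [h6, one_mul]
        exact le_abs_self _
      · have hPn : P.Nonempty := Finset.nonempty_iff_ne_empty.2 hP0
        rw [if_neg hP0, add_zero]
        refine mul_le_mul_of_nonneg_left ?_ (by positivity)
        obtain ⟨r, hr'⟩ := hpow P hP.1 hP.2 hPn
        have h6 : (n P : ℝ) / cN = (ℓ : ℝ) ^ r := by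
          rw [hr']
          push_cast
          field_simp
        change eval ((n P : ℝ) / cN) (BB ℓ J) ≤ _
        rw [h6]
        refine (BB_le hℓ.two_le hJo r).trans (le_of_eq ?_)
        by_cases hr0 : r = 0
        · rw [if_pos hr0, if_pos]
          refine ⟨hPn, ?_⟩
          rw [hr', hr0, pow_zero, mul_one]
        · rw [if_neg hr0, if_neg]
          rintro ⟨-, h7⟩
          rw [hr'] at h7
          have h8 : ℓ ^ r = ℓ ^ 0 := by
            rw [pow_zero]
            exact Nat.eq_of_mul_eq_mul_left hcN (by rw [h7, mul_one])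
          have h9 := Nat.pow_right_injective hℓ.two_le h8
          omega
    · rw [if_neg hP, if_neg hP, zero_add]
      split_ifs
      · exact abs_nonneg _
      · exact le_rfl
  -- the limit of the difference
  have hfin : Tendsto (fun s => (SP (ℓ := ℓ) S t d1 (fun P => (BB ℓ J).eval ((n P : ℝ) / cN)) s /
      T0 S s - c0 / T0 S s) - (kap ℓ - ε) * (SP (ℓ := ℓ) S t d1 (fun _ => 1) s / T0 S s)) (𝓝[>] 1)
      (𝓝 ((A * Lf ℓ (BB ℓ J) - 0) - (kap ℓ - ε) * A)) :=
    ((hlim _).sub (tendsto_const_nhds.div_atTop hTinf)).sub (hlim1.const_mul _)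
  have hpos : 0 < (A * Lf ℓ (BB ℓ J) - 0) -
      (kap ℓ - ε) * A := by
    have h1 : (0 : ℝ) < A := hA
    have h2 : (A * Lf ℓ (BB ℓ J) - 0) - (kap ℓ - ε) * A =
        A * (Lf ℓ (BB ℓ J) - (kap ℓ - ε)) := by ring
    rw [h2]
    exact mul_pos h1 (by linarith)
  filter_upwards [hfin.eventually (lt_mem_nhds hpos), hev, hevT] with s h1 h2 h3
  have hT0 : 0 < T0 S s := h3.2.trans_le h3.1
  have h4 := hlow s h2.1 h2.2
  have h5 : (SP (ℓ := ℓ) S t d1 (fun P => (BB ℓ J).eval ((n P : ℝ) / cN)) s /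
      T0 S s - c0 / T0 S s) - (kap ℓ - ε) * (SP (ℓ := ℓ) S t d1 (fun _ => 1) s / T0 S s) =
      ((SP (ℓ := ℓ) S t d1 (fun P => (BB ℓ J).eval ((n P : ℝ) / cN)) s - c0) -
        (kap ℓ - ε) * SP (ℓ := ℓ) S t d1 (fun _ => 1) s) / T0 S s := by
    ring
  rw [h5] at h1
  have h6 := (div_pos_iff_of_pos_right hT0).1 h1
  linarith

end Pool.Agent.T3h73.SN.DISTA
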