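import Pool.Agent.T3h73.SN.Stm
import Pool.Agent.T3h73.SL.D.Main

/-! Project SN, task DSA (helper33): the descent. -/

set_option autoImplicit false
set_option linter.all false

open Polynomial IsDedekindDomain NumberField

namespace Pool.Agent.T3h73.SN.DSA

open Pool.Agent.T3h73.SL (Pl IsP Pk loc class_descent mC_inj)
open Pool.Agent.Y713.SE Pool.Agent.Y713.SE.Dat
open Pool.Agent.Y713 (Jac.Gal)

/-- the torsion classes depend on the exponents modulo `ℓ` -/
lemma tor_mod {ℓ n : ℕ} {E : Type} [Field E] (D : Dat ℓ n E) (c m k : Fin n → ℤ)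
    (h : ∀ i, c i = m i + ℓ * k i) (i : Fin n) : ∃ w : Eˣ, tor D c i = tor D m i * w ^ ℓ := by
  refine ⟨δu D ^ k i * ∏ j, gu D i j ^ (k i - k j), ?_⟩
  unfold tor
  rw [mul_pow, ← Finset.prod_pow]
  have e1 : δu D ^ c i = δu D ^ m i * (δu D ^ k i) ^ ℓ := by
    rw [h i, zpow_add, mul_comm (ℓ : ℤ), zpow_mul, zpow_natCast]
  have e2 : ∏ j, gu D i j ^ (c i - c j) =
      (∏ j, gu D i j ^ (m i - m j)) * ∏ j, (gu D i j ^ (k i - k j)) ^ ℓ := by
    rw [← Finset.prod_mul_distrib]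
    refine Finset.prod_congr rfl fun j _ => ?_
    have e3 : c i - c j = (m i - m j) + (k i - k j) * ℓ := by rw [h i, h j]; ring
    rw [e3, zpow_add, zpow_mul, zpow_natCast]
  rw [e1, e2]
  exact mul_mul_mul_comm _ _ _ _

section
variable {ℓ n : ℕ} {K : Type} [Field K] [NumberField K] {D : Dat ℓ n K}

/-- the main result on locally trivial cocycles with values in the kernel of `1 - s` -/
theorem coc_main (hADJ : S_ADJ) (hLCC : S_LCC) (h2 : ℓ ≠ 2) {S : Finset (Pl K)}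
    (hsep : ∀ v, v ∉ S → D.Sep1 v ∧ v.valuation K (ℓ : K) = 1) (hS : SelMin D S) {p : ℕ}
    [ExpChar (SeparableClosure K) p]
    {χ : (SeparableClosure K ≃ₐ[K] SeparableClosure K) → Fin n → ℕ}
    (hc : D.Coc (fun σ => cl ((D.base (SeparableClosure K)).PT (χ σ))))
    (ht : ∀ v : Pl K, D.Triv (v.adicCompletion K) (SeparableClosure (v.adicCompletion K))
      (fun σ => cl ((D.base (SeparableClosure K)).PT (χ σ)))) :
    ∃ (m : Fin n → ℕ) (Q : ClassGroup (D.base (SeparableClosure K)).A),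
      cl ((D.base (SeparableClosure K)).PT m) * (D.base (SeparableClosure K)).sC Q = Q ∧
      ∀ σ, cl ((D.base (SeparableClosure K)).PT (χ σ)) = D.mC (au σ) Q / Q := by
  obtain ⟨kd⟩ := D.exists_KD hc
  obtain ⟨hA1, hA2⟩ := hADJ ℓ n h2 K D (SeparableClosure K)
  obtain ⟨x, hx⟩ := hA2 χ kd
  obtain ⟨c, hcs, hxc⟩ := hS x hx.1
    (fun v _ => (hLCC ℓ n h2 K D v χ hc (ht v) kd x hx).1)
    (fun v hv => ((hLCC ℓ n h2 K D v χ hc (ht v) kd x hx).2 (hsep v hv).1 (hsep v hv).2).1)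
    (fun v hv => ((hLCC ℓ n h2 K D v χ hc (ht v) kd x hx).2 (hsep v hv).1 (hsep v hv).2).2)
  have hℓ : (0 : ℤ) < ℓ := by exact_mod_cast D.pos
  set m : Fin n → ℕ := fun i => (c i % ℓ).toNat with hm
  have hmc : ∀ i, c i = (m i : ℤ) + ℓ * (c i / ℓ) := by
    intro i
    have h1 : (m i : ℤ) = c i % ℓ := Int.toNat_of_nonneg (Int.emod_nonneg _ hℓ.ne')
    rw [h1, Int.emod_add_mul_ediv]
  -- `x` is the class of `m`
  have hxm : ∀ i, ∃ w : Kˣ, x i = tor D (fun k => (m k : ℤ)) i * w ^ ℓ := by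
    intro i
    obtain ⟨w, hw⟩ := tor_mod D c (fun k => (m k : ℤ)) (fun k => c k / ℓ) hmc i
    obtain ⟨z, hz⟩ := hxc i
    refine ⟨w * z, ?_⟩
    have h3 : x i = tor D c i * z ^ ℓ := by
      rw [← hz, mul_comm (tor D c i), inv_mul_cancel_right]
    rw [h3, hw, mul_pow, mul_assoc]
  obtain ⟨Q, χ', hQ, hχ', hc'⟩ := D.exists_adj (p := p) m hc
  obtain ⟨kd'⟩ := D.exists_KD hc'
  refine ⟨m, Q, hQ, fun σ => ?_⟩
  have hall : ∀ i j, χ' σ i ≡ χ' σ j [MOD ℓ] := by
    intro i j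
    obtain ⟨z, hz⟩ := hA1 m χ χ' Q hQ hχ' kd kd' i j
    obtain ⟨z', hz'⟩ := hx.2 i j
    obtain ⟨wi, hwi⟩ := hxm i
    obtain ⟨wj, hwj⟩ := hxm j
    refine D.modEq_of_pow kd' (y := (wi : K) * z' / (z * wj)) ?_ σ
    have ti : (tor D (fun k => (m k : ℤ)) i : K) ≠ 0 := Units.ne_zero _
    have e1 : kd.d i j * ((tor D (fun k => (m k : ℤ)) j : K) * (wj : K) ^ ℓ) =
        (tor D (fun k => (m k : ℤ)) i : K) * (wi : K) ^ ℓ * (z' : K) ^ ℓ := by
      rw [hwi, hwj] at hz'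
      push_cast at hz'
      exact hz'
    rw [div_pow, mul_pow, mul_pow, eq_div_iff (mul_ne_zero (pow_ne_zero _ (Units.ne_zero _))
      (pow_ne_zero _ (Units.ne_zero _)))]
    apply mul_left_cancel₀ ti
    calc (tor D (fun k => (m k : ℤ)) i : K) * (kd'.d i j * ((z : K) ^ ℓ * (wj : K) ^ ℓ)) =
        (kd'.d i j * (tor D (fun k => (m k : ℤ)) i : K) * (z : K) ^ ℓ) * (wj : K) ^ ℓ := by ring
      _ = (kd.d i j * (tor D (fun k => (m k : ℤ)) j : K)) * (wj : K) ^ ℓ := by rw [← hz]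
      _ = kd.d i j * ((tor D (fun k => (m k : ℤ)) j : K) * (wj : K) ^ ℓ) := by ring
      _ = _ := by rw [e1]; ring
  have h3 := hχ' σ
  rw [(D.base _).cl_PT_of_modEq hall] at h3
  exact (div_eq_one.1 h3.symm)

theorem sha_main (hADJ : S_ADJ) (hLCC : S_LCC) (h2 : ℓ ≠ 2) {S : Finset (Pl K)}
    (hsep : ∀ v, v ∉ S → D.Sep1 v ∧ v.valuation K (ℓ : K) = 1) (hS : SelMin D S) :
    Pool.Agent.Y713.Jac.ShaPrimaryTrivial ℓ D.f (𝓞 K) := by
  obtain ⟨p, hexp⟩ := ExpChar.exists K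
  haveI := hexp
  haveI : ExpChar (SeparableClosure K) p :=
    expChar_of_injective_algebraMap (algebraMap K (SeparableClosure K)).injective p
  apply D.sha_primary (R := 𝓞 K)
  intro χ hc ht
  obtain ⟨m, Q, -, hQ⟩ := coc_main hADJ hLCC h2 hsep hS (p := p) hc ht
  exact ⟨Q, hQ⟩

/-- the quotient of the Mordell-Weil group by the image of `1 - s` -/
theorem mw_phi (hADJ : S_ADJ) (hLCC : S_LCC) (h2 : ℓ ≠ 2) {S : Finset (Pl K)}
    (hsep : ∀ v, v ∉ S → D.Sep1 v ∧ v.valuation K (ℓ : K) = 1) (hS : SelMin D S)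
    (c : ClassGroup (D.base K).A) : ∃ (m : Fin n → ℕ) (c' : ClassGroup (D.base K).A),
      c = cl ((D.base K).PT m) * (D.base K).phi c' := by
  obtain ⟨p, hexp⟩ := ExpChar.exists K
  haveI := hexp
  set L := SeparableClosure K
  haveI : ExpChar L p :=
    expChar_of_injective_algebraMap (algebraMap K L).injective p
  set cL : ClassGroup (D.base L).A := D.mC (Algebra.ofId K L) c with hcL
  have hinv : ∀ σ : L ≃ₐ[K] L, D.mC (au σ) cL = cL := by
    intro σ
    rw [hcL, mC_mC]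
    congr 1
    congr 1
    exact AlgHom.ext fun x => σ.commutes x
  obtain ⟨R, hR⟩ := (D.base L).phi_surj (p := p) cL
  have hφR : (D.base L).phi R = cL := by
    rw [phi_apply, div_eq_iff_eq_mul]
    exact hR.symm
  have h3 : ∀ σ : L ≃ₐ[K] L, ∃ m : Fin n → ℕ, D.mC (au σ) R / R = cl ((D.base L).PT m) := by
    intro σ
    have h4 : (D.base L).phi (D.mC (au σ) R / R) = 1 := by
      rw [_root_.map_div, ← mC_phi, hφR, hinv, div_self']
    rw [phi_apply, div_eq_one] at h4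
    obtain ⟨m, hm⟩ := (D.base L).phi_ker (p := p) h4.symm
    exact ⟨m, by rw [hm, cl_PT]⟩
  choose χ hχ using h3
  have hfun : (fun σ => cl ((D.base L).PT (χ σ))) = fun σ : L ≃ₐ[K] L => D.mC (au σ) R / R :=
    funext fun σ => (hχ σ).symm
  have hc : D.Coc (fun σ => cl ((D.base L).PT (χ σ))) := by
    rw [hfun]
    refine ⟨?_, fun σ τ => ?_⟩
    · exact (D.mC_locConst R).comp (fun x => x / R)
    · show D.mC (au (σ * τ)) R / R = D.mC (au σ) R / R * D.mC (au σ) (D.mC (au τ) R / R)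
      rw [mC_mul_au, _root_.map_div, div_mul_div_comm, mul_comm R, mul_div_mul_left_eq_div]
  have ht : ∀ v : Pl K, D.Triv (v.adicCompletion K) (SeparableClosure (v.adicCompletion K))
      (fun σ => cl ((D.base L).PT (χ σ))) := by
    intro v
    rw [hfun]
    let ι : L →ₐ[K] SeparableClosure (v.adicCompletion K) := by
      haveI : CharZero (v.adicCompletion K) :=
        charZero_of_injective_algebraMap (algebraMap K (v.adicCompletion K)).injective
      exact IsSepClosed.lift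
    refine ⟨ι, D.mC ι R, fun τ σ hτσ => ?_⟩
    have h1 : (rs K τ).comp ι = ι.comp (au σ) := AlgHom.ext hτσ
    rw [_root_.map_div, mC_mC, mC_mC, h1]
  obtain ⟨m, Q, hQ, hQ2⟩ := coc_main hADJ hLCC h2 hsep hS (p := p) hc ht
  have hφQ : (D.base L).phi Q = cl ((D.base L).PT m) := by
    rw [phi_apply, div_eq_iff_eq_mul]
    exact hQ.symm
  obtain ⟨c', hc'⟩ := class_descent D (c := R / Q) (fun σ => by
    have h5 : D.mC (au σ) R / R = D.mC (au σ) Q / Q := by rw [hχ, hQ2]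
    rw [_root_.map_div, div_eq_div_iff_mul_eq_mul]
    rw [div_eq_div_iff_mul_eq_mul] at h5
    rw [h5, mul_comm])
  refine ⟨m, c', ?_⟩
  have key : D.mC (Algebra.ofId K L) (c / (cl ((D.base K).PT m) * (D.base K).phi c')) = 1 := by
    rw [_root_.map_div, map_mul, D.mC_PT, mC_phi, hc', ← hcL, _root_.map_div, hφR, hφQ,
      mul_div_cancel, div_self']
  exact div_eq_one.1 (mC_inj D key)

end

theorem t_DSA (hADJ : S_ADJ) (hLCC : S_LCC) : S_DSA := by
  intro ℓ n h2 K _ _ D S hsep hS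
  exact ⟨sha_main hADJ hLCC h2 hsep hS, fun c => mw_phi hADJ hLCC h2 hsep hS c⟩

end Pool.Agent.T3h73.SN.DSA
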