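import Pool.Agent.T3h73.SN.Stm
import Pool.Agent.T3h73.SL.D.Adj
import Pool.Agent.T3h73.SL.D.Dsc2

/-!
DSB: descent, second part: the conclusion on the points (generalisation of `SL/D/Fin.lean`).
-/

set_option autoImplicit false
set_option linter.all false

open NumberField IsDedekindDomain Polynomial

namespace Pool.Agent.T3h73.SN.DSB

open Pool.Agent.T3h73.SL (Pl IsP Pk loc locA' mC_inj)
open Pool.Agent.Y713.SE Pool.Agent.Y713.SE.Dat

section
variable {ℓ n : ℕ} {E : Type} [Field E] (D : Dat ℓ n E)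

lemma phi_PT (m : Fin n → ℕ) : D.phi (cl (D.PT m)) = 1 := by
  rw [phi_apply, sC_cl _ (D.PT_ne _), sI_PT, div_self']

lemma cl_zero : cl (D.PT (fun _ => 0)) = 1 :=
  cl_PT_of_modEq D (m := fun _ => 0) (fun _ _ => rfl)

/-- the subgroup of the classes `PT m` -/
noncomputable def TG : Subgroup (ClassGroup D.A) where
  carrier := {c | ∃ m : Fin n → ℕ, c = cl (D.PT m)}
  mul_mem' := by
    rintro a b ⟨m, rfl⟩ ⟨m', rfl⟩
    exact ⟨m + m', (Pool.Agent.T3h73.SL.cl_PT_add D m m').symm⟩
  one_mem' := ⟨fun _ => 0, (cl_zero D).symm⟩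
  inv_mem' := by
    rintro a ⟨m, rfl⟩
    refine ⟨fun i => (ℓ - 1) * m i, ?_⟩
    have h1 : cl (D.PT (fun i => (ℓ - 1) * m i)) = cl (D.PT m) ^ (ℓ - 1) := by
      rw [D.cl_PT, D.cl_PT, ← Finset.prod_pow]
      exact Finset.prod_congr rfl fun k _ => by rw [← pow_mul, mul_comm (ℓ - 1)]
    rw [h1, inv_eq_iff_mul_eq_one, ← pow_succ', Nat.sub_add_cancel D.pos,
      Pool.Agent.T3h73.SL.cl_PT_pow]

lemma mem_TG {c : ClassGroup D.A} : c ∈ TG D ↔ ∃ m : Fin n → ℕ, c = cl (D.PT m) := Iff.rfl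

/-- equality of two classes -/
lemma cl_eq_of {m m' : Fin n → ℕ} (h : ∀ i j, m i + m' j ≡ m j + m' i [MOD ℓ]) :
    cl (D.PT m) = cl (D.PT m') := by
  have h1 : cl (D.PT (fun i => m i + (ℓ - 1) * m' i)) = 1 := by
    refine cl_PT_of_modEq D fun i j => ?_
    have h2 := h i j
    have hp : 1 ≤ ℓ := D.pos
    -- add `(ℓ - 1) m' i + (ℓ - 1) m' j` to both sides
    have h3 : m i + (ℓ - 1) * m' i + ℓ * m' j ≡ m j + (ℓ - 1) * m' j + ℓ * m' i [MOD ℓ] := by
      have h4 : m i + (ℓ - 1) * m' i + ℓ * m' j =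
          (m i + m' j) + ((ℓ - 1) * m' i + (ℓ - 1) * m' j) := by
        obtain ⟨k, rfl⟩ : ∃ k, ℓ = k + 1 := ⟨ℓ - 1, by omega⟩
        rw [Nat.add_sub_cancel]
        ring
      have h5 : m j + (ℓ - 1) * m' j + ℓ * m' i =
          (m j + m' i) + ((ℓ - 1) * m' i + (ℓ - 1) * m' j) := by
        obtain ⟨k, rfl⟩ : ∃ k, ℓ = k + 1 := ⟨ℓ - 1, by omega⟩
        rw [Nat.add_sub_cancel]
        ring
      rw [h4, h5]
      exact Nat.ModEq.add_right _ h2
    have h6 : m i + (ℓ - 1) * m' i + ℓ * m' j ≡ m i + (ℓ - 1) * m' i [MOD ℓ] := by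
      simp [Nat.ModEq]
    have h7 : m j + (ℓ - 1) * m' j + ℓ * m' i ≡ m j + (ℓ - 1) * m' j [MOD ℓ] := by
      simp [Nat.ModEq]
    exact (h6.symm.trans h3).trans h7
  rw [Pool.Agent.T3h73.SL.cl_PT_sub, div_eq_one] at h1
  exact h1

/-- the order of the group of the classes `PT m` -/
lemma card_TG : Nat.card (TG D) = ℓ ^ (n - 1) := by
  obtain ⟨k, hk⟩ : ∃ k, n = k + 1 := ⟨n - 1, by have := D.n_pos; omega⟩
  subst hk
  haveI : NeZero ℓ := ⟨by have := D.pos; omega⟩
  let f : (Fin k → ZMod ℓ) → TG D := fun a =>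
    ⟨cl (D.PT (Fin.cons (α := fun _ => ℕ) 0 (fun i => (a i).val))), ⟨_, rfl⟩⟩
  have hf : Function.Bijective f := by
    constructor
    · intro a a' h
      have h1 : cl (D.PT (Fin.cons (α := fun _ => ℕ) 0 (fun i => (a i).val))) =
          cl (D.PT (Fin.cons (α := fun _ => ℕ) 0 (fun i => (a' i).val))) := congrArg Subtype.val h
      funext i
      have h2 := D.PT_indep h1 i.succ 0
      simp only [Fin.cons_succ, Fin.cons_zero, add_zero, zero_add] at h2
      have h3 := (ZMod.natCast_eq_natCast_iff _ _ _).2 h2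
      rwa [ZMod.natCast_zmod_val, ZMod.natCast_zmod_val] at h3
    · rintro ⟨c, m, rfl⟩
      refine ⟨fun i => (m i.succ : ZMod ℓ) - (m 0 : ZMod ℓ), ?_⟩
      apply Subtype.ext
      show cl (D.PT (Fin.cons (α := fun _ => ℕ) 0
        (fun i => ((m i.succ : ZMod ℓ) - (m 0 : ZMod ℓ)).val))) = cl (D.PT m)
      have h0 : ∀ i : Fin (k + 1), (((Fin.cons (α := fun _ => ℕ) 0
          (fun i => ((m i.succ : ZMod ℓ) - (m 0 : ZMod ℓ)).val) : Fin (k + 1) → ℕ) i : ℕ) : ZMod ℓ) =
          (m i : ZMod ℓ) - (m 0 : ZMod ℓ) := by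
        intro i
        refine Fin.cases ?_ (fun j => ?_) i
        · rw [Fin.cons_zero]
          simp
        · rw [Fin.cons_succ, ZMod.natCast_zmod_val]
      refine cl_eq_of D fun i j => ?_
      rw [← ZMod.natCast_eq_natCast_iff]
      push_cast
      rw [h0, h0]
      ring
  rw [← Nat.card_congr (Equiv.ofBijective f hf), Nat.card_fun, Nat.card_fin, Nat.card_zmod,
    Nat.add_sub_cancel]

end

section
variable {ℓ n : ℕ} {K : Type} [Field K]

/-- base change of the torsion classes -/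
lemma tor_base (D : Dat ℓ n K) (L : Type) [Field L] [Algebra K L] (c : Fin n → ℤ) (i : Fin n) :
    tor (D.base L) c i = Units.map (algebraMap K L : K →* L) (tor D c i) := by
  unfold tor
  rw [map_mul, map_zpow, map_prod]
  have h1 : δu (D.base L) = Units.map (algebraMap K L : K →* L) (δu D) := Units.ext rfl
  have h2 : ∀ i j, gu (D.base L) i j = Units.map (algebraMap K L : K →* L) (gu D i j) := by
    intro i j
    unfold gu
    by_cases h : i = j
    · rw [dif_pos h, dif_pos h, map_one]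
    · rw [dif_neg h, dif_neg h]
      apply Units.ext
      show algebraMap K L (D.e i) - algebraMap K L (D.e j) = algebraMap K L (D.e i - D.e j)
      rw [map_sub]
  rw [h1]
  congr 1
  refine Finset.prod_congr rfl fun j _ => ?_
  rw [h2, map_zpow]

end

section
variable {ℓ n : ℕ} {K : Type} [Field K] [NumberField K] {D : Dat ℓ n K}

/-- the kernel of `1 - s` over the base field -/
lemma ker_base {c : ClassGroup (D.base K).A} (h : (D.base K).phi c = 1) :
    ∃ m : Fin n → ℕ, c = cl ((D.base K).PT m) := by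
  obtain ⟨p, hexp⟩ := ExpChar.exists K
  haveI := hexp
  set L := SeparableClosure K
  haveI : ExpChar L p :=
    expChar_of_injective_algebraMap (algebraMap K L).injective p
  have h1 : (D.base L).phi (D.mC (Algebra.ofId K L) c) = 1 := by
    rw [← mC_phi, h, map_one]
  rw [phi_apply, div_eq_one] at h1
  obtain ⟨m, hm⟩ := (D.base L).phi_ker (p := p) h1.symm
  refine ⟨m, ?_⟩
  have key : D.mC (Algebra.ofId K L) (c / cl ((D.base K).PT m)) = 1 := by
    rw [_root_.map_div, D.mC_PT, hm, cl_PT, div_self']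
  exact div_eq_one.1 (mC_inj D key)

/-- the torsion classes are not divisible by `1 - s` -/
lemma not_div (hLCV : S_LCV) (h2 : ℓ ≠ 2)
    (hind : ∀ c : Fin n → ℤ, (∀ i j, IsP ℓ (tor D c i * (tor D c j)⁻¹)) → ∀ i j, (ℓ : ℤ) ∣ c i - c j)
    {c : ClassGroup (D.base K).A} {m : Fin n → ℕ} (hc : (D.base K).phi c = cl ((D.base K).PT m)) :
    cl ((D.base K).PT m) = 1 := by
  set L := SeparableClosure K
  set cL : ClassGroup (D.base L).A := D.mC (Algebra.ofId K L) c with hcL
  have hinv : ∀ σ : L ≃ₐ[K] L, D.mC (rs K σ) cL = cL := by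
    intro σ
    rw [hcL, mC_mC]
    congr 1
    congr 1
    exact AlgHom.ext fun x => σ.commutes x
  have hcl : cl ((D.base L).PT m) * (D.base L).sC cL = cL := by
    have h1 : (D.base L).phi cL = cl ((D.base L).PT m) := by
      rw [hcL, ← mC_phi, hc, D.mC_PT]
    rw [phi_apply, div_eq_iff_eq_mul] at h1
    exact h1.symm
  have h10 : cl (D.base L |>.PT (fun _ => 0)) = 1 :=
    cl_PT_of_modEq (D.base L) (m := fun _ => 0) (fun _ _ => rfl)
  have hdiv : ∀ i j, (ℓ : ℤ) ∣ (fun k => (m k : ℤ)) i - (fun k => (m k : ℤ)) j := by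
    refine hind (fun k => (m k : ℤ)) fun i j => ?_
    obtain ⟨x, hx, hrel⟩ := locA' D h2 (F := K) (Ω := L) (χ := fun _ _ => 0) (R := cL)
      (fun τ => by rw [hinv, h10, mul_one]) (i := i) (j := j) (θ := 1)
      one_ne_zero (fun τ => by rw [map_one]) (B1 := (D.base L).PT m) (B2 := ⊤) ((D.base L).PT_ne m)
      (by rw [← Ideal.one_eq_top]; exact one_ne_zero) (fun τ => D.mI_PT _ m)
      (fun τ => Ideal.map_top _) (by
        rw [hcl, ← Ideal.one_eq_top]
        have : cl (1 : Ideal (D.base L).A) = 1 := by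
          rwa [show (D.base L).PT (fun _ => 0) = 1 by unfold PT; simp] at h10
        rw [this, one_mul])
    rw [U_top, lam_one, lam_one, mul_one, mul_one, one_pow, one_mul] at hrel
    have h3 := (hLCV ℓ n h2 L (D.base L)).2.2.1 m
    have h4 : (tor D (fun k => (m k : ℤ)) j : K) = x ^ ℓ * (tor D (fun k => (m k : ℤ)) i : K) := by
      apply (algebraMap K L).injective
      rw [map_mul, map_pow]
      have hi := h3 i
      have hj := h3 j
      rw [tor_base] at hi hj
      change _ * algebraMap K L (tor D (fun k => (m k : ℤ)) i : K) = 1 at hi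
      change _ * algebraMap K L (tor D (fun k => (m k : ℤ)) j : K) = 1 at hj
      rw [hrel] at hi
      generalize algebraMap K L (tor D (fun k => (m k : ℤ)) i : K) = ti at *
      generalize algebraMap K L (tor D (fun k => (m k : ℤ)) j : K) = tj at *
      generalize (D.base L).lam j ((D.base L).U ((D.base L).PT m)) = lj at *
      calc tj = tj * (algebraMap K L x ^ ℓ * lj * ti) := by rw [hi, mul_one]
        _ = (lj * tj) * (algebraMap K L x ^ ℓ * ti) := by ring
        _ = _ := by rw [hj, one_mul]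
    refine ⟨(Units.mk0 x hx)⁻¹, ?_⟩
    rw [inv_pow, eq_inv_iff_mul_eq_one, mul_assoc, mul_comm ((tor D (fun k => (m k : ℤ)) j)⁻¹),
      ← mul_assoc, mul_inv_eq_one]
    apply Units.ext
    rw [Units.val_mul, Units.val_pow_eq_pow_val, Units.val_mk0, h4, mul_comm]
  refine (D.base K).cl_PT_of_modEq fun i j => ?_
  exact ((Nat.modEq_iff_dvd).2 (hdiv j i))

end

theorem t_DSB (hLCV : S_LCV) (hDSA : S_DSA) : S_DSB := by
  intro ℓ n h2 K _ _ D S hS hmin hind
  obtain ⟨h1, hdes⟩ := hDSA ℓ n h2 K D S hS hmin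
  refine ⟨h1, (TG (D.base K)).map (D.Te K).toMonoidHom, ?_, ?_, ?_, ?_⟩
  · rw [natDegree_f, ← card_TG (D.base K)]
    exact (Nat.card_congr ((TG (D.base K)).equivMapOfInjective (D.Te K).toMonoidHom
      (D.Te K).injective).toEquiv).symm
  · rintro P ⟨c, ⟨m, rfl⟩, rfl⟩
    rw [← map_pow, Pool.Agent.T3h73.SL.cl_PT_pow, map_one]
  · intro P
    have key : ∀ k : ℕ, ∃ (m : Fin n → ℕ) (q : ClassGroup (D.base K).A),
        (D.Te K).symm P = cl ((D.base K).PT m) * ((D.base K).phi)^[k + 1] q := by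
      intro k
      induction k with
      | zero =>
        obtain ⟨m, c', hc'⟩ := hdes ((D.Te K).symm P)
        exact ⟨m, c', hc'⟩
      | succ k ih =>
        obtain ⟨b, q, hq⟩ := ih
        obtain ⟨m, q', hq'⟩ := hdes q
        refine ⟨b, q', ?_⟩
        rw [hq]
        congr 1
        rw [Function.iterate_succ_apply, Function.iterate_succ_apply (f := (D.base K).phi),
          Function.iterate_succ_apply (f := (D.base K).phi)]
        congr 1
        rw [hq', map_mul, phi_PT, one_mul]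
    obtain ⟨w, hw1, hw2⟩ := (D.base K).phi_pow 1
    obtain ⟨m, q, hq⟩ := key (ℓ - 2)
    have hℓ : ℓ - 2 + 1 = (ℓ - 1) * 1 := by
      have := D.hp.two_le
      omega
    refine ⟨D.Te K (cl ((D.base K).PT m)), ⟨_, ⟨m, rfl⟩, rfl⟩, D.Te K (w q), ?_⟩
    rw [← map_pow, ← map_mul, ← map_pow]
    have h3 : (D.Te K).symm P = cl ((D.base K).PT m) * w (q ^ ℓ) := by
      rw [hq, hℓ, hw2, pow_one]
    rw [← h3, MulEquiv.apply_symm_apply]
  · rintro P ⟨c, ⟨m, rfl⟩, hc⟩
    obtain ⟨w, hw1, hw2⟩ := (D.base K).phi_pow 1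
    have hcP : ((D.Te K).symm P) ^ ℓ = cl ((D.base K).PT m) := by
      apply (D.Te K).injective
      rw [map_pow, MulEquiv.apply_symm_apply]
      exact hc.symm
    have h3 : ((D.base K).phi)^[(ℓ - 1) * 1 + 1] ((D.Te K).symm P) = 1 := by
      rw [Function.iterate_succ_apply', hw2, pow_one, hcP]
      have h4 : (D.base K).phi (w (cl ((D.base K).PT m))) = 1 := by
        have hcomm : ∀ x, (D.base K).phi ((D.base K).sC x) = (D.base K).sC ((D.base K).phi x) := by
          intro x
          rw [phi_apply, phi_apply, _root_.map_div]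
        rw [hw1 _ hcomm, phi_PT, map_one]
      exact h4
    have key : ∀ k : ℕ, ∀ x : ClassGroup (D.base K).A, ((D.base K).phi)^[k] x = 1 →
        ∃ m : Fin n → ℕ, x = cl ((D.base K).PT m) := by
      intro k
      induction k with
      | zero =>
        intro x hx
        refine ⟨fun _ => 0, ?_⟩
        rw [cl_PT_of_modEq (D.base K) (m := fun _ => 0) (fun _ _ => rfl)]
        exact hx
      | succ k ih =>
        intro x hx
        rw [Function.iterate_succ_apply] at hx
        obtain ⟨m, hm⟩ := ih _ hx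
        exact ker_base (hm.trans (not_div hLCV h2 hind hm))
    obtain ⟨m', hm'⟩ := key _ _ h3
    exact ⟨(D.Te K).symm P, ⟨m', hm'⟩, (D.Te K).apply_symm_apply P⟩

end Pool.Agent.T3h73.SN.DSB
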