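import Pool.Agent.T3h73.SN.Stm

/-!
# Task EVJ: evaluation of functions at an ideal
-/

set_option autoImplicit false
set_option linter.all false

open NumberField IsDedekindDomain Polynomial

namespace Pool.Agent.T3h73.SN.EVJ

open Pool.Agent.Y713.SE Pool.Agent.Y713.SE.Dat
open Pool.Agent.Y713 (Jac.Gal)
open UniqueFactorizationMonoid

section
variable {ℓ n : ℕ} {F : Type} [Field F] (D : Dat ℓ n F)

/-- every nonzero prime is a point -/
theorem pt [CharZero F] [IsSepClosed F] {P : Ideal D.A} (hP : P.IsPrime) (h0 : P ≠ ⊥) :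
    ∃ a b : F, algebraMap F[X] D.A (X - C a) ∈ P ∧ D.y - algebraMap F[X] D.A (C b) ∈ P ∧
      D.U P = X - C a := by
  by_cases hy : D.y ∈ P
  · obtain ⟨i, rfl⟩ := D.eq_PP_of_y_mem hP hy
    refine ⟨D.e i, 0, D.X_mem_PP i, ?_, D.U_PP i⟩
    rw [C_0, map_zero, sub_zero]
    exact hy
  · haveI : ExpChar F 1 := ExpChar.zero
    obtain ⟨m, a, b, h1, -, h3, h4, -⟩ := D.prime_struct (p := 1) hP h0 hy
    rw [one_pow, pow_one] at h1 h4
    rw [one_pow, pow_one] at h3
    exact ⟨a, b, (h3 _).2 dvd_rfl, h4, h1⟩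

/-- the evaluation at a point -/
theorem hom [CharZero F] [IsSepClosed F] {P : Ideal D.A} (hP : P.IsPrime) (h0 : P ≠ ⊥) :
    ∃ φ : D.A →+* F, (∀ c : F, φ (algebraMap F[X] D.A (C c)) = c) ∧
      (∀ z, φ z = 0 ↔ z ∈ P) ∧ D.U P = X - C (φ (algebraMap F[X] D.A X)) := by
  obtain ⟨a, b, h1, h2, h3⟩ := pt D hP h0
  have hc : ∀ c : F, algebraMap F[X] D.A (C c) ∈ P → c = 0 := by
    intro c hc
    by_contra hc0
    exact hP.ne_top (Ideal.eq_top_of_isUnit_mem _ hc
      ((isUnit_C.2 (isUnit_iff_ne_zero.2 hc0)).map (algebraMap F[X] D.A)))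
  have hg : ∀ g : F[X], algebraMap F[X] D.A (g - C (g.eval a)) ∈ P := by
    intro g
    obtain ⟨q, hq⟩ := X_sub_C_dvd_sub_C_eval (a := a) (p := g)
    rw [hq, map_mul]
    exact P.mul_mem_right _ h1
  have hb : b ^ ℓ = D.f.eval a := by
    have e1 : D.y ^ ℓ - (algebraMap F[X] D.A (C b)) ^ ℓ ∈ P := by
      obtain ⟨q, hq⟩ := sub_dvd_pow_sub_pow D.y (algebraMap F[X] D.A (C b)) ℓ
      rw [hq]
      exact P.mul_mem_right _ h2
    have e2 := P.sub_mem (hg D.f) e1
    rw [D.y_pow, ← map_pow, ← map_sub, ← map_sub] at e2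
    have e3 : D.f - C (D.f.eval a) - (D.f - C b ^ ℓ) = C (b ^ ℓ - D.f.eval a) := by
      rw [C_sub, C_pow]; ring
    rw [e3] at e2
    exact sub_eq_zero.1 (hc _ e2)
  let φ : D.A →+* F := AdjoinRoot.lift (evalRingHom a) b (by
    rw [eval₂_sub, eval₂_pow, eval₂_X, eval₂_C, coe_evalRingHom, hb, sub_self])
  have hφ : ∀ g : F[X], φ (algebraMap F[X] D.A g) = g.eval a := fun g => AdjoinRoot.lift_of _
  have hφy : φ D.y = b := AdjoinRoot.lift_root _
  have hz : ∀ z : D.A, z - algebraMap F[X] D.A (C (φ z)) ∈ P := by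
    intro z
    rw [← D.sum_c z, map_sum, map_sum, map_sum, ← Finset.sum_sub_distrib]
    refine Ideal.sum_mem _ fun j _ => ?_
    rw [Algebra.smul_def, map_mul, map_pow, hφ, hφy, C_mul, C_pow, map_mul, map_pow]
    obtain ⟨q, hq⟩ := sub_dvd_pow_sub_pow D.y (algebraMap F[X] D.A (C b)) (j : ℕ)
    have e1 : algebraMap F[X] D.A (D.c j z) * D.y ^ (j : ℕ) -
        algebraMap F[X] D.A (C (eval a (D.c j z))) * algebraMap F[X] D.A (C b) ^ (j : ℕ) =
        algebraMap F[X] D.A (D.c j z - C (eval a (D.c j z))) * D.y ^ (j : ℕ) +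
        algebraMap F[X] D.A (C (eval a (D.c j z))) *
          (D.y ^ (j : ℕ) - algebraMap F[X] D.A (C b) ^ (j : ℕ)) := by
      rw [map_sub]; ring
    rw [e1]
    refine P.add_mem (P.mul_mem_right _ (hg _)) (P.mul_mem_left _ ?_)
    rw [hq]
    exact P.mul_mem_right _ h2
  refine ⟨φ, fun c => by rw [hφ, eval_C], fun z => ⟨fun h => ?_, fun h => ?_⟩, ?_⟩
  · have := hz z
    rwa [h, C_0, map_zero, sub_zero] at this
  · have e1 := P.sub_mem h (hz z)
    rw [sub_sub_cancel] at e1
    exact hc _ e1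
  · rw [h3, hφ, eval_X]

/-- an evaluation is determined by its kernel -/
theorem hom_ext {φ ψ : D.A →+* F} (h1 : ∀ c : F, φ (algebraMap F[X] D.A (C c)) = c)
    (h2 : ∀ c : F, ψ (algebraMap F[X] D.A (C c)) = c) (h : ∀ z, φ z = 0 → ψ z = 0) (z : D.A) :
    φ z = ψ z := by
  have e1 : φ (z - algebraMap F[X] D.A (C (φ z))) = 0 := by
    rw [map_sub, h1, sub_self]
  have e2 := h _ e1
  rw [map_sub, h2] at e2
  exact (sub_eq_zero.1 e2).symm

theorem U_multiset (s : Multiset (Ideal D.A)) (hs : ∀ P ∈ s, P ≠ ⊥) :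
    s.prod ≠ ⊥ ∧ D.U s.prod = (s.map D.U).prod := by
  induction s using Multiset.induction_on with
  | empty =>
    rw [Multiset.prod_zero, Multiset.map_zero, Multiset.prod_zero, Ideal.one_eq_top]
    exact ⟨top_ne_bot, D.U_top⟩
  | cons P s ih =>
    obtain ⟨h1, h2⟩ := ih fun Q hQ => hs Q (Multiset.mem_cons_of_mem hQ)
    have h3 := hs P (Multiset.mem_cons_self _ _)
    rw [Multiset.prod_cons, Multiset.map_cons, Multiset.prod_cons]
    exact ⟨D.mul_ne h3 h1, by rw [D.U_mul h3 h1, h2]⟩

open Classical in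
/-- the evaluation at a prime -/
noncomputable def eP [CharZero F] [IsSepClosed F] (P : Ideal D.A) (a : D.A) : F :=
  if h : P.IsPrime ∧ P ≠ ⊥ then (hom D h.1 h.2).choose a else 1

theorem eP_spec [CharZero F] [IsSepClosed F] {P : Ideal D.A} (hP : P.IsPrime) (h0 : P ≠ ⊥) :
    ∃ φ : D.A →+* F, (∀ a, eP D P a = φ a) ∧ (∀ c : F, φ (algebraMap F[X] D.A (C c)) = c) ∧
      (∀ z, φ z = 0 ↔ z ∈ P) ∧ D.U P = X - C (φ (algebraMap F[X] D.A X)) := by
  refine ⟨(hom D hP h0).choose, fun a => ?_, (hom D hP h0).choose_spec⟩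
  unfold eP
  rw [dif_pos ⟨hP, h0⟩]

end

section
variable {ℓ n : ℕ} {E : Type} [Field E] [CharZero E] (D : Dat ℓ n E)

/-- the automorphism of the coordinate ring -/
noncomputable def mpE (σ : Jac.Gal E) : (D.base (SeparableClosure E)).A ≃+* (D.base (SeparableClosure E)).A :=
  RingEquiv.ofRingHom (D.mp (au σ)) (D.mp (au σ.symm))
    (by
      rw [D.mp_comp]
      have : (au σ).comp (au σ.symm) = AlgHom.id E (SeparableClosure E) := by
        exact AlgHom.ext fun x => σ.apply_symm_apply x
      rw [this, D.mp_idr])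
    (by
      rw [D.mp_comp]
      have : (au σ.symm).comp (au σ) = AlgHom.id E (SeparableClosure E) := by
        exact AlgHom.ext fun x => σ.symm_apply_apply x
      rw [this, D.mp_idr])

theorem mpE_apply (σ : Jac.Gal E) (a : (D.base (SeparableClosure E)).A) : mpE D σ a = D.mp (au σ) a := rfl

theorem mp_C (σ : Jac.Gal E) (c : SeparableClosure E) :
    D.mp (au σ) (algebraMap (SeparableClosure E)[X] (D.base (SeparableClosure E)).A (C c)) =
      algebraMap (SeparableClosure E)[X] (D.base (SeparableClosure E)).A (C (σ c)) := by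
  rw [D.mp_alg, map_C]
  rfl

theorem main (J : Ideal D.A) (hJ : J ≠ ⊥) : ∃ ev : (D.base (SeparableClosure E)).A →* SeparableClosure E,
    (∀ a, Ideal.span {a} ⊔ D.mI (Algebra.ofId E (SeparableClosure E)) (show Ideal (D.base E).A from J) = ⊤ →
      ev a ≠ 0) ∧
    (∀ (σ : Jac.Gal E) a, ev (D.mp (au σ) a) = σ (ev a)) ∧
    (∀ c : SeparableClosure E,
      ev (algebraMap (SeparableClosure E)[X] (D.base (SeparableClosure E)).A (C c)) =
        c ^ (D.U J).natDegree) ∧
    ∀ e : E, ev (algebraMap (SeparableClosure E)[X] (D.base (SeparableClosure E)).A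
        (X - C (algebraMap E (SeparableClosure E) e))) =
      (-1) ^ (D.U J).natDegree * algebraMap E (SeparableClosure E) ((D.U J).eval e) := by
  classical
  haveI : CharZero (SeparableClosure E) := charZero_of_injective_algebraMap (algebraMap E _).injective
  set B := D.base (SeparableClosure E) with hB
  set J' : Ideal (D.base E).A := J with hJ'
  have hJ0 : J' ≠ ⊥ := hJ
  set M : Ideal B.A := D.mI (Algebra.ofId E (SeparableClosure E)) J' with hM
  have hM0 : M ≠ ⊥ := D.mI_ne _ hJ0
  set S := normalizedFactors M with hS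
  have hSp : ∀ P ∈ S, P.IsPrime ∧ P ≠ ⊥ := fun P hP =>
    ⟨Ideal.isPrime_of_prime (prime_of_normalized_factor _ hP), (prime_of_normalized_factor _ hP).ne_zero⟩
  have hprod : S.prod = M := associated_iff_eq.1 (prod_normalizedFactors hM0)
  have hU : B.U M = (S.map B.U).prod := by
    rw [← hprod]
    exact (U_multiset B S fun P hP => (hSp P hP).2).2
  have hUJ : B.U M = (D.U J).map (algebraMap E (SeparableClosure E)) := D.U_mI _ hJ0
  have hone : ∀ P ∈ S, B.U P = X - C (eP B P (algebraMap (SeparableClosure E)[X] B.A X)) := by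
    intro P hP
    obtain ⟨φ, h1, h2, h3, h4⟩ := eP_spec B (hSp P hP).1 (hSp P hP).2
    rw [h4, h1]
  have hU2 : (D.U J).map (algebraMap E (SeparableClosure E)) =
      (S.map fun P => (X - C (eP B P (algebraMap (SeparableClosure E)[X] B.A X)))).prod := by
    rw [← hUJ, hU]
    congr 1
    exact Multiset.map_congr rfl hone
  have hcard : (D.U J).natDegree = Multiset.card S := by
    rw [← natDegree_map (algebraMap E (SeparableClosure E)) , hU2, natDegree_multiset_prod_of_monic]
    · rw [Multiset.map_map]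
      rw [Multiset.map_congr rfl (g := fun _ => 1) fun P _ => by
        rw [Function.comp_apply, natDegree_X_sub_C]]
      simp
    · intro f hf
      obtain ⟨P, -, rfl⟩ := Multiset.mem_map.1 hf
      exact monic_X_sub_C _
  let ev : B.A →* SeparableClosure E :=
    { toFun := fun a => (S.map fun P => eP B P a).prod
      map_one' := by
        rw [Multiset.map_congr rfl (g := fun _ => (1 : SeparableClosure E)) fun P hP => by
          obtain ⟨φ, h1, -⟩ := eP_spec B (hSp P hP).1 (hSp P hP).2
          rw [h1, map_one]]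
        simp
      map_mul' := fun a b => by
        rw [← Multiset.prod_map_mul]
        congr 1
        refine Multiset.map_congr rfl fun P hP => ?_
        obtain ⟨φ, h1, -⟩ := eP_spec B (hSp P hP).1 (hSp P hP).2
        rw [h1, h1, h1, map_mul] }
  have hev : ∀ a, ev a = (S.map fun P => eP B P a).prod := fun a => rfl
  refine ⟨ev, fun a ha h0 => ?_, fun σ a => ?_, fun c => ?_, fun e => ?_⟩
  · rw [hev, Multiset.prod_eq_zero_iff, Multiset.mem_map] at h0
    obtain ⟨P, hP, h⟩ := h0
    obtain ⟨φ, h1, -, h3, -⟩ := eP_spec B (hSp P hP).1 (hSp P hP).2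
    rw [h1, h3] at h
    apply (hSp P hP).1.ne_top
    rw [eq_top_iff, ← ha]
    refine sup_le ((Ideal.span_singleton_le_iff_mem _).2 h) ?_
    exact Ideal.le_of_dvd (dvd_of_mem_normalizedFactors hP)
  · set S' := S.map fun P => P.map (mpE D σ).symm with hS'
    have hp' : S'.prod = M := by
      have e1 : S'.prod = (S.prod).map (mpE D σ).symm := by
        rw [hS', show (fun P : Ideal B.A => P.map (mpE D σ).symm) = Ideal.mapHom (mpE D σ).symm from rfl,
          ← map_multiset_prod]
        rfl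
      rw [e1, hprod]
      have e2 : M.map (mpE D σ).symm = D.mI (au σ.symm) M := rfl
      rw [e2, hM, D.mI_mI]
      congr 1
      exact AlgHom.ext fun x => σ.symm.commutes x
    have hS2 : S' = S := by
      rw [hS, ← hp']
      symm
      apply normalizedFactors_prod_of_prime
      intro Q hQ
      obtain ⟨P, hP, rfl⟩ := Multiset.mem_map.1 hQ
      haveI := (hSp P hP).1
      rw [Ideal.prime_iff_isPrime]
      · exact Ideal.map_isPrime_of_equiv _
      · intro h
        exact (hSp P hP).2 ((Ideal.map_eq_bot_iff_of_injective (mpE D σ).symm.injective).1 h)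
    have e1 : ∀ P ∈ S, eP B P (D.mp (au σ) a) = σ (eP B (P.map (mpE D σ).symm) a) := by
      intro P hP
      haveI := (hSp P hP).1
      have h0 : P.map (mpE D σ).symm ≠ ⊥ := fun h =>
        (hSp P hP).2 ((Ideal.map_eq_bot_iff_of_injective (mpE D σ).symm.injective).1 h)
      have hpr : (P.map (mpE D σ).symm).IsPrime := Ideal.map_isPrime_of_equiv _
      obtain ⟨φ, h1, h2, h3, -⟩ := eP_spec B (hSp P hP).1 (hSp P hP).2
      obtain ⟨ψ, k1, k2, k3, -⟩ := eP_spec B hpr h0
      rw [h1, k1]
      have key := hom_ext B (φ := ((σ.symm : SeparableClosure E ≃+* SeparableClosure E) :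
          SeparableClosure E →+* SeparableClosure E).comp (φ.comp (D.mp (au σ)))) (ψ := ψ) (fun c => by
        rw [RingHom.comp_apply, RingHom.comp_apply, mp_C, h2]
        exact σ.symm_apply_apply c) k2 (fun z hz => by
        rw [RingHom.comp_apply, RingHom.comp_apply] at hz
        have hz' : φ (D.mp (au σ) z) = 0 := by
          have := congrArg σ hz
          rw [map_zero] at this
          rw [← this]
          exact (σ.apply_symm_apply _).symm
        rw [h3] at hz'
        rw [k3]
        have : z = (mpE D σ).symm (mpE D σ z) := ((mpE D σ).symm_apply_apply z).symm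
        rw [this]
        exact Ideal.mem_map_of_mem _ hz') a
      rw [← key]
      exact (σ.apply_symm_apply _).symm
    rw [hev, hev, Multiset.map_congr rfl e1]
    conv_rhs => rw [← hS2, hS', Multiset.map_map]
    rw [map_multiset_prod, Multiset.map_map]
    rfl
  · rw [hev, hcard]
    rw [Multiset.map_congr rfl (g := fun _ => c) fun P hP => by
      obtain ⟨φ, h1, h2, -⟩ := eP_spec B (hSp P hP).1 (hSp P hP).2
      rw [h1, h2]]
    simp
  · rw [hev, hcard]
    have e1 : ∀ P ∈ S, eP B P (algebraMap (SeparableClosure E)[X] B.A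
        (X - C (algebraMap E (SeparableClosure E) e))) =
        (-1) * eval (algebraMap E (SeparableClosure E) e)
          (X - C (eP B P (algebraMap (SeparableClosure E)[X] B.A X))) := by
      intro P hP
      obtain ⟨φ, h1, h2, -⟩ := eP_spec B (hSp P hP).1 (hSp P hP).2
      rw [h1, h1, map_sub, map_sub, h2, eval_sub, eval_X, eval_C]
      ring
    rw [Multiset.map_congr rfl e1, Multiset.prod_map_mul, Multiset.map_const', Multiset.prod_replicate]
    congr 1
    rw [← eval_map_apply, hU2, eval_multiset_prod, Multiset.map_map]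
    rfl

end

theorem t_EVJ : S_EVJ := fun ℓ n E _ _ D J hJ => main D J hJ

end Pool.Agent.T3h73.SN.EVJ
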