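import Pool.Agent.T3h73.SN.Stm2
import Pool.Agent.T3h73.SD.T_EXP

/-!
Project SN (helper73, MP_a43263), task EXPW (helper2): expansion of the moments of the order of the
Selmer group of the model in additive characters. Generalisation of `T3h73/SD/T_EXP.lean`.
-/

set_option autoImplicit false
set_option linter.all false

open NumberField IsDedekindDomain Filter Topology

namespace Pool.Agent.T3h73.SN.EXPW

open Pool.Agent.T3h73.SL (Pl)
open Pool.Agent.T3h73.SD (ee NA T0 Mh SP Cl gA S_MASS SymSys)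
open Pool.Agent.T3h73.SD.EXP (ee_eq ee_add ee_zero ee_sum sum_char sum_char_pos sum_char_neg self_dual
  sum_L0 sum_LL norm_ee)

variable {ℓ : ℕ} [Fact ℓ.Prime] {n : ℕ}

section sz
variable {M : Type} [AddCommGroup M] [Module (ZMod ℓ) M]

lemma sz_sum (x : Sz ℓ n M) : ∑ i, (x : Fin n → M) i = 0 := x.2

/-- a family of sum zero with equal entries is zero -/
lemma const_zero (hn : ¬ ℓ ∣ n) (x : Fin n → M) (hx : ∑ i, x i = 0) (h : ∀ i j, x i = x j)
    (i : Fin n) : x i = 0 := by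
  have h1 : ∑ j, x j = (n : ZMod ℓ) • x i := by
    rw [Finset.sum_congr rfl (fun j _ => h j i), Finset.sum_const, Finset.card_univ,
      Fintype.card_fin, Nat.cast_smul_eq_nsmul]
  rw [h1] at hx
  have h2 : (n : ZMod ℓ) ≠ 0 := by
    rwa [Ne, ZMod.natCast_eq_zero_iff]
  exact (smul_eq_zero.1 hx).resolve_left h2

/-- the element `v` at `i`, `-v` at `j` -/
def dij (i j : Fin n) (v : M) : Sz ℓ n M :=
  ⟨fun k => (if k = i then v else 0) - (if k = j then v else 0), by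
    show ∑ k, ((if k = i then v else 0) - (if k = j then v else 0)) = 0
    rw [Finset.sum_sub_distrib, Finset.sum_ite_eq' Finset.univ i, Finset.sum_ite_eq' Finset.univ j]
    simp⟩

lemma dij_apply (i j k : Fin n) (v : M) : ((dij (ℓ := ℓ) i j v : Sz ℓ n M) : Fin n → M) k =
    (if k = i then v else 0) - (if k = j then v else 0) := rfl

lemma card_Sz [Finite M] (hn : 1 ≤ n) : Nat.card (Sz ℓ n M) = Nat.card M ^ (n - 1) := by
  obtain ⟨m, rfl⟩ : ∃ m, n = m + 1 := ⟨n - 1, by omega⟩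
  have h1 : Nat.card (Sz ℓ (m + 1) M) = Nat.card (Fin m → M) := by
    refine Nat.card_eq_of_bijective (fun x i => (x : Fin (m + 1) → M) i.castSucc) ⟨?_, ?_⟩
    · intro x y hxy
      have h2 : ∀ i : Fin m, (x : Fin (m + 1) → M) i.castSucc = (y : Fin (m + 1) → M) i.castSucc :=
        fun i => congrFun hxy i
      refine Subtype.ext (funext fun i => ?_)
      refine Fin.lastCases ?_ h2 i
      have hx := sz_sum x
      have hy := sz_sum y
      rw [Fin.sum_univ_castSucc] at hx hy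
      rw [Finset.sum_congr rfl (fun i _ => h2 i)] at hx
      rw [← hy] at hx
      exact add_left_cancel hx
    · intro y
      refine ⟨⟨Fin.snoc (α := fun _ => M) y (- ∑ i, y i), ?_⟩, ?_⟩
      · show ∑ i, Fin.snoc (α := fun _ => M) y (- ∑ i, y i) i = 0
        rw [Fin.sum_univ_castSucc]
        simp
      · funext i
        simp
  rw [h1, Nat.card_fun, Nat.card_eq_fintype_card (α := Fin m), Fintype.card_fin]
  simp

end sz

section lin
variable {V : Type} [AddCommGroup V] [Module (ZMod ℓ) V]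
  (ψ : V →ₗ[ZMod ℓ] V →ₗ[ZMod ℓ] ZMod ℓ)

/-- the form on `V ⊗ W` -/
def Psi (n : ℕ) : Sz ℓ n V →ₗ[ZMod ℓ] Sz ℓ n V →ₗ[ZMod ℓ] ZMod ℓ :=
  LinearMap.mk₂ (ZMod ℓ) (fun x y => ∑ i, ψ ((x : Fin n → V) i) ((y : Fin n → V) i))
    (fun x y z => by
      simp only [Submodule.coe_add, Pi.add_apply, map_add, LinearMap.add_apply,
        Finset.sum_add_distrib])
    (fun c x y => by
      simp only [Submodule.coe_smul, Pi.smul_apply, map_smul, LinearMap.smul_apply,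
        Finset.smul_sum])
    (fun x y z => by
      simp only [Submodule.coe_add, Pi.add_apply, map_add, Finset.sum_add_distrib])
    (fun c x y => by
      simp only [Submodule.coe_smul, Pi.smul_apply, map_smul, Finset.smul_sum])

lemma Psi_apply (x y : Sz ℓ n V) :
    Psi ψ n x y = ∑ i, ψ ((x : Fin n → V) i) ((y : Fin n → V) i) := rfl

lemma Psi_alt (alt : ∀ x, ψ x x = 0) (x : Sz ℓ n V) : Psi ψ n x x = 0 := by
  rw [Psi_apply]; exact Finset.sum_eq_zero (fun i _ => alt _)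

lemma Psi_nd (hn : ¬ ℓ ∣ n) (nd : ∀ x, (∀ y, ψ x y = 0) → x = 0) (x : Sz ℓ n V)
    (hx : ∀ y, Psi ψ n x y = 0) : x = 0 := by
  have h1 : ∀ i j, (x : Fin n → V) i = (x : Fin n → V) j := by
    intro i j
    rw [← sub_eq_zero]
    refine nd _ (fun v => ?_)
    have h2 := hx (dij i j v)
    rw [Psi_apply] at h2
    simp only [dij_apply, map_sub, Finset.sum_sub_distrib] at h2
    have h3 : ∀ j : Fin n, ∑ k, ψ ((x : Fin n → V) k) (if k = j then v else 0) =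
        ψ ((x : Fin n → V) j) v := by
      intro j
      rw [Finset.sum_eq_single j]
      · rw [if_pos rfl]
      · intro b _ hb
        rw [if_neg hb, map_zero]
      · intro h; exact absurd (Finset.mem_univ j) h
    rw [h3, h3] at h2
    rw [map_sub, LinearMap.sub_apply, h2]
  refine Subtype.ext (funext fun i => ?_)
  exact const_zero hn _ (sz_sum x) h1 i

/-- the families with entries in a subspace -/
def SzL (L : Submodule (ZMod ℓ) V) (n : ℕ) : Submodule (ZMod ℓ) (Sz ℓ n V) where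
  carrier := {x | ∀ i, (x : Fin n → V) i ∈ L}
  add_mem' := fun ha hb i => L.add_mem (ha i) (hb i)
  zero_mem' := fun i => L.zero_mem
  smul_mem' := fun c x hx i => L.smul_mem c (hx i)

lemma mem_SzL (L : Submodule (ZMod ℓ) V) (x : Sz ℓ n V) :
    x ∈ SzL L n ↔ ∀ i, (x : Fin n → V) i ∈ L := Iff.rfl

lemma card_SzL [Finite V] (L : Submodule (ZMod ℓ) V) (hn : 1 ≤ n) :
    Nat.card (SzL L n) = Nat.card L ^ (n - 1) := by
  rw [← card_Sz (ℓ := ℓ) (M := L) hn]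
  refine (Nat.card_eq_of_bijective (fun x : Sz ℓ n L => (⟨inc x, fun i => ?_⟩ : SzL L n))
    ⟨?_, ?_⟩).symm
  · exact ((x : Fin n → L) i).2
  · intro x y hxy
    refine Subtype.ext (funext fun i => Subtype.ext ?_)
    have h1 : inc x = inc y := congrArg Subtype.val hxy
    exact congrFun (congrArg Subtype.val h1) i
  · rintro ⟨x, hx⟩
    refine ⟨⟨fun i => ⟨(x : Fin n → V) i, hx i⟩, ?_⟩, ?_⟩
    · show ∑ i, (⟨(x : Fin n → V) i, hx i⟩ : L) = 0
      refine Subtype.ext ?_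
      rw [Submodule.coe_sum, Submodule.coe_zero]
      exact sz_sum x
    · rfl

/-- `LL` is its own orthogonal -/
lemma self_dualW [Fintype V] (hn : ¬ ℓ ∣ n) (hn1 : 1 ≤ n) (alt : ∀ x, ψ x x = 0)
    (nd : ∀ x, (∀ y, ψ x y = 0) → x = 0) (L0 L1 : Submodule (ZMod ℓ) V)
    (LL : Submodule (ZMod ℓ) (Sz ℓ n V)) (π : V →ₗ[ZMod ℓ] L0) (hc : IsCompl L0 L1)
    (iso0 : ∀ x ∈ L0, ∀ y ∈ L0, ψ x y = 0) (iso1 : ∀ x ∈ L1, ∀ y ∈ L1, ψ x y = 0)
    (proj : ∀ x : V, x - (π x : V) ∈ L1)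
    (isoL : ∀ x ∈ LL, ∀ y ∈ LL, Psi ψ n x y = 0) (card : Nat.card LL = Nat.card L0 ^ (n - 1))
    (y : Sz ℓ n V) (hy : ∀ z ∈ LL, Psi ψ n z y = 0) : y ∈ LL := by
  have hcompl : IsCompl (SzL L0 n) (SzL L1 n) := by
    constructor
    · rw [Submodule.disjoint_def]
      intro x h0 h1
      refine Subtype.ext (funext fun i => ?_)
      exact Submodule.disjoint_def.1 hc.disjoint _ (h0 i) (h1 i)
    · rw [codisjoint_iff, eq_top_iff]
      intro x _
      rw [Submodule.mem_sup]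
      have hs0 : ∑ i, ((π ((x : Fin n → V) i) : L0) : V) = 0 := by
        rw [← Submodule.coe_sum, ← map_sum, sz_sum x, map_zero, Submodule.coe_zero]
      refine ⟨⟨fun i => (π ((x : Fin n → V) i) : V), hs0⟩, fun i => (π ((x : Fin n → V) i)).2,
        ⟨fun i => (x : Fin n → V) i - (π ((x : Fin n → V) i) : V), ?_⟩, fun i => proj _, ?_⟩
      · show ∑ i, ((x : Fin n → V) i - (π ((x : Fin n → V) i) : V)) = 0
        rw [Finset.sum_sub_distrib, hs0, sz_sum x, sub_zero]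
      · refine Subtype.ext (funext fun i => ?_)
        show (π ((x : Fin n → V) i) : V) + ((x : Fin n → V) i - (π ((x : Fin n → V) i) : V)) = _
        rw [add_sub_cancel]
  have hfin : Fintype (Sz ℓ n V) := inferInstance
  refine self_dual (V := Sz ℓ n V) (Psi ψ n) (Psi_alt ψ alt) (Psi_nd ψ hn nd) (SzL L0 n) (SzL L1 n)
    LL hcompl (fun x hx y hy => ?_) (fun x hx y hy => ?_) isoL (by rw [card, card_SzL L0 hn1]) y hy
  · rw [Psi_apply]; exact Finset.sum_eq_zero (fun i _ => iso0 _ (hx i) _ (hy i))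
  · rw [Psi_apply]; exact Finset.sum_eq_zero (fun i _ => iso1 _ (hx i) _ (hy i))

/-- the condition at `q` -/
def XXW {ι : Type} [Fintype ι] [DecidableEq ι] (u : V) (g : Fin n → Fin n → V) (t : ι → V)
    (sy : ι → ι → ZMod ℓ) (w : Fin n → V) (c : ι → Fin n → ZMod ℓ) (q : ι) (i : Fin n) : ZMod ℓ :=
  - ψ (w i) (t q) + c q i * ψ u (t q) + ∑ j, (c q i - c q j) * ψ (g i j) (t q) +
    ∑ p, if p = q then 0 else (c p i - c q i) * sy p q

lemma XXW_sum {ι : Type} [Fintype ι] [DecidableEq ι] (u : V) (g : Fin n → Fin n → V) (t : ι → V)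
    (sy : ι → ι → ZMod ℓ) (w : Fin n → V) (c : ι → Fin n → ZMod ℓ) (hg : ∀ i j, g i j = g j i)
    (hw : ∑ i, w i = 0) (hcs : ∀ q, ∑ i, c q i = 0) (q : ι) :
    ∑ i, XXW ψ u g t sy w c q i = 0 := by
  have h1 : ∑ i, ∑ j, (c q i - c q j) * ψ (g i j) (t q) = 0 := by
    have h2 : ∑ i, ∑ j, c q i * ψ (g i j) (t q) = ∑ i, ∑ j, c q j * ψ (g i j) (t q) := by
      rw [Finset.sum_comm]
      refine Finset.sum_congr rfl (fun i _ => Finset.sum_congr rfl (fun j _ => ?_))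
      rw [hg]
    simp_rw [sub_mul, Finset.sum_sub_distrib]
    rw [h2, sub_self]
  have h3 : ∑ i, ∑ p, (if p = q then 0 else (c p i - c q i) * sy p q) = 0 := by
    rw [Finset.sum_comm]
    refine Finset.sum_eq_zero (fun p _ => ?_)
    split_ifs with hpq
    · simp
    · rw [← Finset.sum_mul, Finset.sum_sub_distrib, hcs, hcs, sub_zero, zero_mul]
  simp only [XXW, Finset.sum_add_distrib]
  rw [h1, h3, ← Finset.sum_mul, hcs, Finset.sum_neg_distrib, ← LinearMap.sum_apply, ← map_sum, hw]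
  simp

open Classical in
lemma sum_kapW {ι : Type} [Fintype ι] [DecidableEq ι] (hn : ¬ ℓ ∣ n) (hn1 : 1 ≤ n)
    (X : ι → Fin n → ZMod ℓ) (hX : ∀ q, ∑ i, X q i = 0) :
    ∑ κ : ι → Sz ℓ n (ZMod ℓ), ee ℓ (∑ q, ∑ i, (κ q : Fin n → ZMod ℓ) i * X q i) =
      if ∀ q i, X q i = 0 then ((ℓ : ℂ) ^ (n - 1)) ^ Fintype.card ι else 0 := by
  have h := sum_char (ℓ := ℓ) (G := ι → Sz ℓ n (ZMod ℓ))
    { toFun := fun κ => ∑ q, ∑ i, (κ q : Fin n → ZMod ℓ) i * X q i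
      map_zero' := by simp
      map_add' := fun a b => by simp [add_mul, Finset.sum_add_distrib] }
  simp only [AddMonoidHom.coe_mk, ZeroHom.coe_mk] at h
  rw [h]
  have h2 : (∀ κ : ι → Sz ℓ n (ZMod ℓ), ∑ q, ∑ i, (κ q : Fin n → ZMod ℓ) i * X q i = 0) ↔
      ∀ q i, X q i = 0 := by
    constructor
    · intro h3 q
      refine const_zero (ℓ := ℓ) (M := ZMod ℓ) hn (X q) (hX q) (fun i j => ?_)
      have h4 := h3 (Pi.single q (dij i j 1))
      rw [Finset.sum_eq_single q] at h4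
      · rw [Pi.single_eq_same] at h4
        simp only [dij_apply, sub_mul, Finset.sum_sub_distrib, ite_mul, one_mul, zero_mul,
          Finset.sum_ite_eq', Finset.mem_univ, if_true] at h4
        exact sub_eq_zero.1 h4
      · intro b _ hb
        rw [Pi.single_eq_of_ne hb]
        simp
      · intro h5; exact absurd (Finset.mem_univ q) h5
    · intro h3 κ
      simp [h3]
  by_cases h3 : ∀ q i, X q i = 0
  · rw [if_pos (h2.2 h3), if_pos h3, Fintype.card_pi, Finset.prod_const, Finset.card_univ]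
    have h4 : Fintype.card (Sz ℓ n (ZMod ℓ)) = ℓ ^ (n - 1) := by
      rw [← Nat.card_eq_fintype_card, card_Sz hn1, Nat.card_zmod]
    rw [h4]
    push_cast
    rfl
  · rw [if_neg (fun h4 => h3 (h2.1 h4)), if_neg h3]

/-- the phase of one factor -/
noncomputable def FFW {ι : Type} [Fintype ι] [DecidableEq ι] (u : V) (g : Fin n → Fin n → V)
    (t : ι → V) (sy : ι → ι → ZMod ℓ) (w z : Sz ℓ n V) (c κ : ι → Sz ℓ n (ZMod ℓ)) : ℂ :=
  ee ℓ (Psi ψ n z (w + ∑ q, tens (c q) (t q)) + ∑ q, ∑ i, (κ q : Fin n → ZMod ℓ) i *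
    XXW ψ u g t sy (w : Fin n → V) (fun q => (c q : Fin n → ZMod ℓ)) q i)

open Classical in
lemma sum_FFW [Fintype V] {ι : Type} [Fintype ι] [DecidableEq ι] (hn : ¬ ℓ ∣ n) (hn1 : 1 ≤ n)
    (u : V) (g : Fin n → Fin n → V) (hg : ∀ i j, g i j = g j i) (t : ι → V)
    (sy : ι → ι → ZMod ℓ) (L0 : Submodule (ZMod ℓ) V) (LL : Submodule (ZMod ℓ) (Sz ℓ n V))
    (isoL : ∀ x ∈ LL, ∀ y ∈ LL, Psi ψ n x y = 0)
    (hsd : ∀ y : Sz ℓ n V, (∀ z ∈ LL, Psi ψ n z y = 0) → y ∈ LL) :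
    ∑ a : Sz ℓ n L0 × LL × (ι → Sz ℓ n (ZMod ℓ)) × (ι → Sz ℓ n (ZMod ℓ)),
      FFW ψ u g t sy (inc a.1) (a.2.1 : Sz ℓ n V) a.2.2.1 a.2.2.2 =
    (Nat.card LL : ℂ) * ((ℓ : ℂ) ^ (n - 1)) ^ Fintype.card ι *
      (Nat.card {x : Sz ℓ n L0 × (ι → Sz ℓ n (ZMod ℓ)) //
      inc x.1 + ∑ q, tens (x.2 q) (t q) ∈ LL ∧ ∀ q i, XXW ψ u g t sy (inc x.1 : Sz ℓ n V)
        (fun q => (x.2 q : Fin n → ZMod ℓ)) q i = 0} : ℂ) := by
  have h1 : ∑ a : Sz ℓ n L0 × LL × (ι → Sz ℓ n (ZMod ℓ)) × (ι → Sz ℓ n (ZMod ℓ)),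
      FFW ψ u g t sy (inc a.1) (a.2.1 : Sz ℓ n V) a.2.2.1 a.2.2.2 =
      ∑ w : Sz ℓ n L0, ∑ c : ι → Sz ℓ n (ZMod ℓ),
        ((∑ z : LL, ee ℓ (Psi ψ n (z : Sz ℓ n V) (inc w + ∑ q, tens (c q) (t q)))) *
        ∑ κ : ι → Sz ℓ n (ZMod ℓ), ee ℓ (∑ q, ∑ i, (κ q : Fin n → ZMod ℓ) i *
          XXW ψ u g t sy (inc w : Sz ℓ n V) (fun q => (c q : Fin n → ZMod ℓ)) q i)) := by
    rw [Fintype.sum_prod_type]
    refine Finset.sum_congr rfl (fun w _ => ?_)
    rw [Fintype.sum_prod_type]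
    simp_rw [Fintype.sum_prod_type]
    rw [Finset.sum_comm]
    refine Finset.sum_congr rfl (fun c _ => ?_)
    rw [Finset.sum_mul_sum]
    refine Finset.sum_congr rfl (fun z _ => Finset.sum_congr rfl (fun κ _ => ?_))
    rw [FFW, ee_add]
  rw [h1]
  have h2 : ∀ y : Sz ℓ n V, ∑ z : LL, ee ℓ (Psi ψ n (z : Sz ℓ n V) y) =
      if y ∈ LL then (Nat.card LL : ℂ) else 0 := by
    intro y
    have := sum_LL (V := Sz ℓ n V) (Psi ψ n) LL isoL hsd y
    convert this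
  have h3 : ∀ (w : Sz ℓ n L0) (c : ι → Sz ℓ n (ZMod ℓ)),
      ∑ κ : ι → Sz ℓ n (ZMod ℓ), ee ℓ (∑ q, ∑ i, (κ q : Fin n → ZMod ℓ) i *
          XXW ψ u g t sy (inc w : Sz ℓ n V) (fun q => (c q : Fin n → ZMod ℓ)) q i) =
      if ∀ q i, XXW ψ u g t sy (inc w : Sz ℓ n V) (fun q => (c q : Fin n → ZMod ℓ)) q i = 0 then
        ((ℓ : ℂ) ^ (n - 1)) ^ Fintype.card ι else 0 := by
    intro w c
    exact sum_kapW hn hn1 _ (fun q => XXW_sum ψ u g t sy _ _ hg (sz_sum _) (fun q => sz_sum _) q)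
  simp_rw [h2, h3]
  rw [Nat.card_eq_fintype_card (α := {x : Sz ℓ n L0 × (ι → Sz ℓ n (ZMod ℓ)) //
      inc x.1 + ∑ q, tens (x.2 q) (t q) ∈ LL ∧ ∀ q i, XXW ψ u g t sy (inc x.1 : Sz ℓ n V)
        (fun q => (x.2 q : Fin n → ZMod ℓ)) q i = 0}), Fintype.card_subtype,
    Finset.card_filter, Nat.cast_sum, Finset.mul_sum, Fintype.sum_prod_type]
  refine Finset.sum_congr rfl (fun w _ => Finset.sum_congr rfl (fun c _ => ?_))
  by_cases h2 : inc w + ∑ q, tens (c q) (t q) ∈ LL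
  · by_cases h3 : ∀ q i, XXW ψ u g t sy (inc w : Sz ℓ n V) (fun q => (c q : Fin n → ZMod ℓ)) q i = 0
    · simp [h2, h3]
    · simp [h2, h3]
  · simp [h2]

open Classical in
lemma expoW {ι : Type} [Fintype ι] [DecidableEq ι] (L0 L1 : Submodule (ZMod ℓ) V)
    (LL : Submodule (ZMod ℓ) (Sz ℓ n V)) (π : V →ₗ[ZMod ℓ] L0)
    (iso1 : ∀ x ∈ L1, ∀ y ∈ L1, ψ x y = 0) (proj : ∀ x : V, x - (π x : V) ∈ L1)
    (u : L0) (d1 : V) (g : Fin n → Fin n → L0) (t : ι → V) (ht : ∀ q, t q ∈ L1)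
    (sy : ι → ι → ZMod ℓ) {k : ℕ}
    (w : Fin k → Sz ℓ n L0) (α : L0) (z : Fin k → LL) (col : ι → ClW ℓ n k) :
    (- ψ (α : V) d1 + ∑ r, ∑ i, ψ (((z r : Sz ℓ n V) : Fin n → V) i) ((w r : Fin n → L0) i : V)) +
      (∑ q : ι, ψ ((hcW π u g w α z (col q) : L0) : V) (t q) +
        ∑ p : ι, ∑ q : ι, if p = q then 0 else RcW ℓ n k (col p) (col q) * sy p q) =
    ψ (α : V) ((∑ q, t q) - d1) + ∑ r, (Psi ψ n (z r : Sz ℓ n V) (inc (w r) +
      ∑ q, tens ((col q).1 r) (t q)) + ∑ q, ∑ i, ((col q).2 r : Fin n → ZMod ℓ) i *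
        XXW ψ (u : V) (fun i j => (g i j : V)) t sy (inc (w r) : Sz ℓ n V)
          (fun q => ((col q).1 r : Fin n → ZMod ℓ)) q i) := by
  have h1 : ∀ (r : Fin k) (i : Fin n) q, ψ (π (((z r : Sz ℓ n V) : Fin n → V) i) : V) (t q) =
      ψ (((z r : Sz ℓ n V) : Fin n → V) i) (t q) := by
    intro r i q
    have := iso1 _ (proj (((z r : Sz ℓ n V) : Fin n → V) i)) (t q) (ht q)
    rw [map_sub, LinearMap.sub_apply, sub_eq_zero] at this
    exact this.symm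
  have h2 : ∀ q, ψ ((hcW π u g w α z (col q) : L0) : V) (t q) =
      ψ (α : V) (t q) + ∑ s, ∑ i, ((col q).1 s : Fin n → ZMod ℓ) i *
        ψ (((z s : Sz ℓ n V) : Fin n → V) i) (t q) -
      ∑ s, ∑ i, ((col q).2 s : Fin n → ZMod ℓ) i * ψ ((w s : Fin n → L0) i : V) (t q) +
      ∑ s, ∑ i, ((col q).2 s : Fin n → ZMod ℓ) i *
        (((col q).1 s : Fin n → ZMod ℓ) i * ψ (u : V) (t q)) +
      ∑ s, ∑ i, ((col q).2 s : Fin n → ZMod ℓ) i * ∑ j,
        (((col q).1 s : Fin n → ZMod ℓ) i - ((col q).1 s : Fin n → ZMod ℓ) j) *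
          ψ (g i j : V) (t q) := by
    intro q
    unfold hcW slc
    push_cast
    simp only [map_add, map_sub, map_sum, map_smul, LinearMap.add_apply, LinearMap.sub_apply,
      LinearMap.sum_apply, LinearMap.smul_apply, smul_eq_mul, h1, Finset.sum_mul, Finset.mul_sum,
      mul_assoc]
  have h3 : (∑ p : ι, ∑ q : ι, if p = q then 0 else RcW ℓ n k (col p) (col q) * sy p q) =
      ∑ r, ∑ q, ∑ i, ((col q).2 r : Fin n → ZMod ℓ) i * ∑ p, if p = q then 0 else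
        (((col p).1 r : Fin n → ZMod ℓ) i - ((col q).1 r : Fin n → ZMod ℓ) i) * sy p q := by
    rw [Finset.sum_comm]
    rw [Finset.sum_comm (s := (Finset.univ : Finset (Fin k)))]
    refine Finset.sum_congr rfl (fun q _ => ?_)
    have h4 : ∀ p, (if p = q then 0 else RcW ℓ n k (col p) (col q) * sy p q) =
        ∑ r, ∑ i, ((col q).2 r : Fin n → ZMod ℓ) i * (if p = q then 0 else
        (((col p).1 r : Fin n → ZMod ℓ) i - ((col q).1 r : Fin n → ZMod ℓ) i) * sy p q) := by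
      intro p
      split_ifs with hpq
      · simp
      · rw [RcW, Finset.sum_mul]
        refine Finset.sum_congr rfl (fun r _ => ?_)
        rw [Finset.sum_mul]
        exact Finset.sum_congr rfl (fun i _ => by ring)
    simp_rw [h4, Finset.mul_sum]
    rw [Finset.sum_comm]
    refine Finset.sum_congr rfl (fun r _ => ?_)
    rw [Finset.sum_comm]
  have h5 : ∀ r, Psi ψ n (z r : Sz ℓ n V) (inc (w r) + ∑ q, tens ((col q).1 r) (t q)) =
      ∑ i, ψ (((z r : Sz ℓ n V) : Fin n → V) i) ((w r : Fin n → L0) i : V) +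
      ∑ q, ∑ i, ((col q).1 r : Fin n → ZMod ℓ) i *
        ψ (((z r : Sz ℓ n V) : Fin n → V) i) (t q) := by
    intro r
    rw [map_add, map_sum]
    congr 1
    refine Finset.sum_congr rfl (fun q _ => ?_)
    rw [Psi_apply]
    refine Finset.sum_congr rfl (fun i _ => ?_)
    show ψ _ (((col q).1 r : Fin n → ZMod ℓ) i • t q) = _
    rw [map_smul, smul_eq_mul]
  rw [h3]
  simp_rw [h2, h5, XXW, mul_add]
  have h6 : ∀ r i, ((inc (w r) : Sz ℓ n V) : Fin n → V) i = ((w r : Fin n → L0) i : V) :=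
    fun _ _ => rfl
  simp_rw [h6]
  simp only [map_sub, map_sum, Finset.sum_add_distrib, Finset.sum_sub_distrib, mul_neg,
    Finset.sum_neg_distrib]
  rw [Finset.sum_comm (f := fun q s => ∑ i, ((col q).1 s : Fin n → ZMod ℓ) i *
        ψ (((z s : Sz ℓ n V) : Fin n → V) i) (t q)),
    Finset.sum_comm (f := fun q s => ∑ i, ((col q).2 s : Fin n → ZMod ℓ) i *
      ψ ((w s : Fin n → L0) i : V) (t q)),
    Finset.sum_comm (f := fun q s => ∑ i, ((col q).2 s : Fin n → ZMod ℓ) i *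
        (((col q).1 s : Fin n → ZMod ℓ) i * ψ (u : V) (t q))),
    Finset.sum_comm (f := fun q s => ∑ i, ((col q).2 s : Fin n → ZMod ℓ) i * ∑ j,
        (((col q).1 s : Fin n → ZMod ℓ) i - ((col q).1 s : Fin n → ZMod ℓ) j) *
          ψ (g i j : V) (t q))]
  ring

open Classical in
/-- the whole sum for one set -/
lemma wholeW [Fintype V] {ι : Type} [Fintype ι] [DecidableEq ι] (hn : ¬ ℓ ∣ n) (hn1 : 1 ≤ n)
    (L0 L1 : Submodule (ZMod ℓ) V) (LL : Submodule (ZMod ℓ) (Sz ℓ n V)) (π : V →ₗ[ZMod ℓ] L0)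
    (alt : ∀ x, ψ x x = 0) (nd : ∀ x, (∀ y, ψ x y = 0) → x = 0) (hc : IsCompl L0 L1)
    (iso0 : ∀ x ∈ L0, ∀ y ∈ L0, ψ x y = 0)
    (iso1 : ∀ x ∈ L1, ∀ y ∈ L1, ψ x y = 0) (isoL : ∀ x ∈ LL, ∀ y ∈ LL, Psi ψ n x y = 0)
    (card : Nat.card LL = Nat.card L0 ^ (n - 1)) (proj : ∀ x : V, x - (π x : V) ∈ L1)
    (u : L0) (d1 : V) (hd1 : d1 ∈ L1) (g : Fin n → Fin n → L0) (hg : ∀ i j, g i j = g j i)
    (t : ι → V) (ht : ∀ q, t q ∈ L1) (sy : ι → ι → ZMod ℓ) (k : ℕ) :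
    ∑ w : Fin k → Sz ℓ n L0, ∑ α : L0, ∑ z : Fin k → LL,
      ee ℓ (- ψ (α : V) d1 +
        ∑ r, ∑ i, ψ (((z r : Sz ℓ n V) : Fin n → V) i) ((w r : Fin n → L0) i : V)) *
        ∑ col : ι → ClW ℓ n k,
          ee ℓ (∑ q : ι, ψ ((hcW π u g w α z (col q) : L0) : V) (t q) +
        ∑ p : ι, ∑ q : ι, if p = q then 0 else RcW ℓ n k (col p) (col q) * sy p q) =
    (if ∑ q, t q = d1 then (Nat.card L0 : ℂ) ^ ((n - 1) * k + 1) *
      ((ℓ : ℂ) ^ ((n - 1) * k)) ^ Fintype.card ι *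
      (Nat.card {x : Sz ℓ n L0 × (ι → Sz ℓ n (ZMod ℓ)) //
      inc x.1 + ∑ q, tens (x.2 q) (t q) ∈ LL ∧ ∀ q i, XXW ψ (u : V) (fun i j => (g i j : V)) t sy
        (inc x.1 : Sz ℓ n V) (fun q => (x.2 q : Fin n → ZMod ℓ)) q i = 0} : ℂ) ^ k else 0) := by
  have hsd := self_dualW ψ hn hn1 alt nd L0 L1 LL π hc iso0 iso1 proj isoL card
  have h1 : ∑ w : Fin k → Sz ℓ n L0, ∑ α : L0, ∑ z : Fin k → LL,
      ee ℓ (- ψ (α : V) d1 +
        ∑ r, ∑ i, ψ (((z r : Sz ℓ n V) : Fin n → V) i) ((w r : Fin n → L0) i : V)) *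
        ∑ col : ι → ClW ℓ n k,
          ee ℓ (∑ q : ι, ψ ((hcW π u g w α z (col q) : L0) : V) (t q) +
        ∑ p : ι, ∑ q : ι, if p = q then 0 else RcW ℓ n k (col p) (col q) * sy p q) =
      ∑ w : Fin k → Sz ℓ n L0, ∑ α : L0, ∑ z : Fin k → LL,
        ∑ col : ι → ClW ℓ n k, ee ℓ (ψ (α : V) ((∑ q, t q) - d1)) *
          ∏ r, FFW ψ (u : V) (fun i j => (g i j : V)) t sy (inc (w r)) (z r : Sz ℓ n V)
            (fun q => (col q).1 r) (fun q => (col q).2 r) := by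
    refine Finset.sum_congr rfl (fun w _ => Finset.sum_congr rfl (fun α _ =>
      Finset.sum_congr rfl (fun z _ => ?_)))
    rw [Finset.mul_sum]
    refine Finset.sum_congr rfl (fun col _ => ?_)
    rw [← ee_add, expoW ψ L0 L1 LL π iso1 proj u d1 g t ht sy w α z col, ee_add, ee_sum]
    rfl
  rw [h1, Finset.sum_comm]
  have h2 : ∀ α : L0, ∑ w : Fin k → Sz ℓ n L0, ∑ z : Fin k → LL,
        ∑ col : ι → ClW ℓ n k, ee ℓ (ψ (α : V) ((∑ q, t q) - d1)) *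
          ∏ r, FFW ψ (u : V) (fun i j => (g i j : V)) t sy (inc (w r)) (z r : Sz ℓ n V)
            (fun q => (col q).1 r) (fun q => (col q).2 r) =
      ee ℓ (ψ (α : V) ((∑ q, t q) - d1)) *
        (∑ a : Sz ℓ n L0 × LL × (ι → Sz ℓ n (ZMod ℓ)) × (ι → Sz ℓ n (ZMod ℓ)),
      FFW ψ (u : V) (fun i j => (g i j : V)) t sy (inc a.1) (a.2.1 : Sz ℓ n V)
        a.2.2.1 a.2.2.2) ^ k := by
    intro α
    simp_rw [← Finset.mul_sum]
    congr 1
    rw [Fintype.sum_pow]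
    symm
    rw [← Fintype.sum_prod_type', ← Fintype.sum_prod_type']
    let E : (Fin k → Sz ℓ n L0 × LL × (ι → Sz ℓ n (ZMod ℓ)) × (ι → Sz ℓ n (ZMod ℓ))) ≃
        ((Fin k → Sz ℓ n L0) × (Fin k → LL)) × (ι → ClW ℓ n k) :=
      { toFun := fun p => ((fun i => (p i).1, fun i => (p i).2.1),
          fun q => (fun i => (p i).2.2.1 q, fun i => (p i).2.2.2 q))
        invFun := fun x i => (x.1.1 i, x.1.2 i, fun q => (x.2 q).1 i, fun q => (x.2 q).2 i)
        left_inv := fun p => rfl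
        right_inv := fun x => rfl }
    exact Fintype.sum_equiv E _ _ (fun p => rfl)
  simp_rw [h2]
  rw [← Finset.sum_mul, sum_FFW ψ hn hn1 (u : V) (fun i j => (g i j : V))
    (fun i j => by rw [hg]) t sy L0 LL isoL hsd, sum_L0 ψ nd alt L0 L1 hc iso1 _
    (Submodule.sub_mem _ (Submodule.sum_mem _ (fun q _ => ht q)) hd1), card]
  by_cases h3 : ∑ q, t q = d1
  · rw [if_pos h3, if_pos (sub_eq_zero.2 h3)]
    push_cast
    rw [mul_pow, mul_pow, ← pow_mul, ← pow_mul, ← pow_mul, ← pow_mul]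
    rw [show (n - 1) * (Fintype.card ι * k) = (n - 1) * k * Fintype.card ι by ring]
    ring
  · rw [if_neg h3, if_neg (fun h4 => h3 (sub_eq_zero.1 h4)), zero_mul]

open Classical in
/-- the Selmer group of the model, on the finite type `P` -/
lemma card_selW {K : Type} [Field K] [NumberField K] (L0 : Submodule (ZMod ℓ) V)
    (LL : Submodule (ZMod ℓ) (Sz ℓ n V)) (u : L0) (g : Fin n → Fin n → L0)
    (t : Pl K → V) (sy : Pl K → Pl K → ZMod ℓ) (P : Finset (Pl K)) :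
    nSW ψ L0 LL u g t sy P =
    Nat.card {x : Sz ℓ n L0 × (P → Sz ℓ n (ZMod ℓ)) //
      inc x.1 + ∑ q : P, tens (x.2 q) (t q) ∈ LL ∧ ∀ (q : P) i, XXW ψ (u : V)
        (fun i j => (g i j : V)) (fun q : P => t q) (fun p q : P => sy p q)
        (inc x.1 : Sz ℓ n V) (fun q => (x.2 q : Fin n → ZMod ℓ)) q i = 0} := by
  have hXX : ∀ (w : Sz ℓ n L0) (c : Pl K → Sz ℓ n (ZMod ℓ)) (q : P) (i : Fin n),
      XXW ψ (u : V) (fun i j => (g i j : V)) (fun q : P => t q) (fun p q : P => sy p q)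
        (inc w : Sz ℓ n V) (fun q => (c q : Fin n → ZMod ℓ)) q i =
      - ψ ((w : Fin n → L0) i : V) (t q) + (c q : Fin n → ZMod ℓ) i * ψ (u : V) (t q) +
      ∑ j, ((c q : Fin n → ZMod ℓ) i - (c q : Fin n → ZMod ℓ) j) * ψ (g i j : V) (t q) +
      ∑ p ∈ P.erase q, ((c p : Fin n → ZMod ℓ) i - (c q : Fin n → ZMod ℓ) i) * sy p q := by
    intro w c q i
    unfold XXW
    congr 1
    have h1 : ∑ p : P, (if p = q then 0 else
        ((c p : Fin n → ZMod ℓ) i - (c q : Fin n → ZMod ℓ) i) * sy p q) =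
        ∑ p ∈ P, (if p = (q : Pl K) then 0 else
          ((c p : Fin n → ZMod ℓ) i - (c q : Fin n → ZMod ℓ) i) * sy p q) := by
      rw [← Finset.sum_coe_sort P (fun p => if p = (q : Pl K) then 0 else
          ((c p : Fin n → ZMod ℓ) i - (c q : Fin n → ZMod ℓ) i) * sy p q)]
      refine Finset.sum_congr rfl (fun p _ => ?_)
      simp only [Subtype.ext_iff]
    rw [h1, ← Finset.sum_erase_add P _ q.2, if_pos rfl, add_zero]
    refine Finset.sum_congr rfl (fun p hp => ?_)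
    rw [if_neg (Finset.ne_of_mem_erase hp)]
  have hsum : ∀ c : Pl K → Sz ℓ n (ZMod ℓ), ∑ q : P, tens (c q) (t q) =
      ∑ q ∈ P, tens (c q) (t q) := fun c => Finset.sum_coe_sort P (fun q => tens (c q) (t q))
  unfold nSW
  refine Nat.card_eq_of_bijective (fun x => ⟨(x.1.1, fun q => x.1.2 q), ?_, ?_⟩) ⟨?_, ?_⟩
  · have := x.2.2.1
    rw [← hsum] at this
    exact this
  · intro q i
    rw [hXX x.1.1 x.1.2 q i]
    have := x.2.2.2 q q.2 i
    convert this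
  · intro x y hxy
    simp only [Subtype.mk.injEq, Prod.mk.injEq] at hxy
    refine Subtype.ext (Prod.ext hxy.1 (funext fun q => ?_))
    by_cases hq : q ∈ P
    · exact congrFun hxy.2 ⟨q, hq⟩
    · rw [x.2.1 q hq, y.2.1 q hq]
  · rintro ⟨⟨w, c⟩, h1, h2⟩
    let c' : Pl K → Sz ℓ n (ZMod ℓ) := fun q => if h : q ∈ P then c ⟨q, h⟩ else 0
    have hc' : (fun q : P => c' q) = c := by
      funext q
      simp [c']
    have hc'' : ∀ q : P, c' q = c q := fun q => congrFun hc' q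
    refine ⟨⟨(w, c'), fun q hq => by simp [c', hq], ?_, ?_⟩, ?_⟩
    · rw [← hsum]
      simp only [hc'']
      exact h1
    · intro q hq i
      have h3 : XXW ψ (u : V) (fun i j => (g i j : V)) (fun q : P => t q)
          (fun p q : P => sy p q) (inc w : Sz ℓ n V)
          (fun q : P => (c' q : Fin n → ZMod ℓ)) ⟨q, hq⟩ i = 0 := by
        simp only [hc'']
        exact h2 ⟨q, hq⟩ i
      rw [hXX w c' ⟨q, hq⟩ i] at h3
      convert h3
    · refine Subtype.ext (Prod.ext rfl ?_)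
      exact hc'

end lin

open Classical in
/-- the term of one set `P` -/
lemma term_oneW (ℓ n : ℕ) [Fact ℓ.Prime] (K : Type) [Field K] [NumberField K]
    (S : Finset (Pl K)) (𝔪 : Ideal (𝓞 K)) (V : Type) [AddCommGroup V] [Module (ZMod ℓ) V] [Fintype V]
    (ψ : V →ₗ[ZMod ℓ] V →ₗ[ZMod ℓ] ZMod ℓ) (L0 L1 : Submodule (ZMod ℓ) V)
    (LL : Submodule (ZMod ℓ) (Sz ℓ n V))
    (π : V →ₗ[ZMod ℓ] L0) (u : L0) (d1 : V) (g : Fin n → Fin n → L0) (t : Pl K → V)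
    (sy : Pl K → Pl K → ZMod ℓ)
    (hM : ModelW ℓ n K S 𝔪 V ψ L0 L1 LL π u d1 g t sy) (k : ℕ) (s : ℝ) (P : Finset (Pl K))
    (hP : Disjoint P S) :
    (((if ∑ q ∈ P, t q = d1 then (NA P : ℝ) ^ (-s) * (nSW ψ L0 LL u g t sy P : ℝ) ^ k else 0 : ℝ)) : ℂ) *
      (Nat.card L0 : ℂ) ^ ((n - 1) * k + 1) =
    ∑ w : Fin k → Sz ℓ n L0, ∑ α : L0, ∑ z : Fin k → LL,
      ee ℓ (- ψ (α : V) d1 +
        ∑ r, ∑ i, ψ (((z r : Sz ℓ n V) : Fin n → V) i) ((w r : Fin n → L0) i : V)) *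
        ((((((ℓ ^ ((n - 1) * k) : ℕ) : ℝ) ^ P.card)⁻¹ * (NA P : ℝ) ^ (-s) : ℝ) : ℂ) *
          ∑ col : P → ClW ℓ n k,
      ee ℓ (∑ q : P, ψ ((hcW π u g w α z (col q) : L0) : V) (t q) +
        ∑ p : P, ∑ q : P, if p = q then 0 else RcW ℓ n k (col p) (col q) * sy p q)) := by
  have hl : (ℓ : ℂ) ≠ 0 := by exact_mod_cast (Fact.out : ℓ.Prime).ne_zero
  have ht : ∀ q : P, t q ∈ L1 := fun q => hM.t_mem q (Finset.disjoint_left.1 hP q.2)
  have h1 := wholeW ψ (ι := P) hM.lin.hn (by have := hM.lin.hn2; omega) L0 L1 LL π hM.lin.alt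
    hM.lin.nd hM.lin.compl hM.lin.iso0 hM.lin.iso1
    hM.lin.isoL hM.lin.card hM.lin.proj u d1 hM.lin.d1_mem g hM.lin.gsymm (fun q : P => t q) ht
    (fun p q : P => sy p q) k
  have h2 : ∑ w : Fin k → Sz ℓ n L0, ∑ α : L0, ∑ z : Fin k → LL,
      ee ℓ (- ψ (α : V) d1 +
        ∑ r, ∑ i, ψ (((z r : Sz ℓ n V) : Fin n → V) i) ((w r : Fin n → L0) i : V)) *
        ((((((ℓ ^ ((n - 1) * k) : ℕ) : ℝ) ^ P.card)⁻¹ * (NA P : ℝ) ^ (-s) : ℝ) : ℂ) *
          ∑ col : P → ClW ℓ n k,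
      ee ℓ (∑ q : P, ψ ((hcW π u g w α z (col q) : L0) : V) (t q) +
        ∑ p : P, ∑ q : P, if p = q then 0 else RcW ℓ n k (col p) (col q) * sy p q)) =
      (((((ℓ ^ ((n - 1) * k) : ℕ) : ℝ) ^ P.card)⁻¹ * (NA P : ℝ) ^ (-s) : ℝ) : ℂ) *
      ∑ w : Fin k → Sz ℓ n L0, ∑ α : L0, ∑ z : Fin k → LL,
      ee ℓ (- ψ (α : V) d1 +
        ∑ r, ∑ i, ψ (((z r : Sz ℓ n V) : Fin n → V) i) ((w r : Fin n → L0) i : V)) *
          ∑ col : P → ClW ℓ n k,
      ee ℓ (∑ q : P, ψ ((hcW π u g w α z (col q) : L0) : V) (t q) +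
        ∑ p : P, ∑ q : P, if p = q then 0 else RcW ℓ n k (col p) (col q) * sy p q) := by
    simp_rw [Finset.mul_sum]
    refine Finset.sum_congr rfl (fun w _ => Finset.sum_congr rfl (fun α _ =>
      Finset.sum_congr rfl (fun z _ => Finset.sum_congr rfl (fun col _ => ?_))))
    ring
  rw [h2]
  have h3 : ∑ w : Fin k → Sz ℓ n L0, ∑ α : L0, ∑ z : Fin k → LL,
      ee ℓ (- ψ (α : V) d1 +
        ∑ r, ∑ i, ψ (((z r : Sz ℓ n V) : Fin n → V) i) ((w r : Fin n → L0) i : V)) *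
          ∑ col : P → ClW ℓ n k,
      ee ℓ (∑ q : P, ψ ((hcW π u g w α z (col q) : L0) : V) (t q) +
        ∑ p : P, ∑ q : P, if p = q then 0 else RcW ℓ n k (col p) (col q) * sy p q) =
      (if ∑ q : P, t q = d1 then (Nat.card L0 : ℂ) ^ ((n - 1) * k + 1) *
      ((ℓ : ℂ) ^ ((n - 1) * k)) ^ Fintype.card P *
      (Nat.card {x : Sz ℓ n L0 × (P → Sz ℓ n (ZMod ℓ)) //
      inc x.1 + ∑ q : P, tens (x.2 q) (t q) ∈ LL ∧ ∀ (q : P) i, XXW ψ (u : V)
        (fun i j => (g i j : V)) (fun q : P => t q) (fun p q : P => sy p q)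
        (inc x.1 : Sz ℓ n V) (fun q => (x.2 q : Fin n → ZMod ℓ)) q i = 0} : ℂ) ^ k else 0) := h1
  rw [h3]
  rw [← card_selW ψ L0 LL u g t sy P, Finset.sum_coe_sort P t]
  by_cases h5 : ∑ q ∈ P, t q = d1
  · rw [if_pos h5, if_pos h5]
    push_cast
    rw [Fintype.card_coe]
    have h6 : ((ℓ : ℂ) ^ ((n - 1) * k)) ^ P.card ≠ 0 := pow_ne_zero _ (pow_ne_zero _ hl)
    field_simp
  · rw [if_neg h5, if_neg h5]
    simp

open Classical in
lemma summable_termW (hMASS : S_MASS) (ℓ : ℕ) [Fact ℓ.Prime] (K : Type) [Field K] [NumberField K]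
    (S : Finset (Pl K)) {Λ : Type} (χ : Λ → Pl K → ZMod ℓ) (sy : Pl K → Pl K → ZMod ℓ)
    {C : Type} [Fintype C] (m : ℕ) (hm : 1 ≤ m) (hC : Fintype.card C = m * m)
    (R : C → C → ZMod ℓ) (h : C → Λ) (s : ℝ) (hs : 1 < s) (hs2 : s ≤ 2) :
    Summable (fun P : Finset (Pl K) => if Disjoint P S then
      (((((m : ℕ) : ℝ) ^ P.card)⁻¹ * (NA P : ℝ) ^ (-s) : ℝ) : ℂ) * ∑ col : P → C,
      ee ℓ (∑ q : P, χ (h (col q)) q +
        ∑ p : P, ∑ q : P, if p = q then 0 else R (col p) (col q) * sy p q) else 0) := by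
  obtain ⟨C', hC', hC1, -⟩ := hMASS K m 0 hm le_rfl
  have h1 := (hC1 s hs hs2).1
  refine Summable.of_norm_bounded h1 (fun P => ?_)
  have hl0 : (0 : ℝ) < (m : ℝ) := by exact_mod_cast hm
  have hNA : 0 ≤ (NA P : ℝ) ^ (-s) := Real.rpow_nonneg (Nat.cast_nonneg _) _
  rw [Real.rpow_zero, mul_one]
  split_ifs with hP
  · rw [norm_mul, Complex.norm_real, Real.norm_eq_abs, abs_of_nonneg (by positivity)]
    have h2 : ‖∑ col : P → C, ee ℓ (∑ q : P, χ (h (col q)) q +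
        ∑ p : P, ∑ q : P, if p = q then 0 else R (col p) (col q) * sy p q)‖ ≤
        ((m : ℝ) ^ P.card) * ((m : ℝ) ^ P.card) := by
      refine (norm_sum_le _ _).trans ?_
      simp_rw [norm_ee]
      rw [Finset.sum_const, Finset.card_univ, nsmul_eq_mul, mul_one, Fintype.card_pi,
        Finset.prod_const, Finset.card_univ, Fintype.card_coe, hC]
      push_cast
      rw [mul_pow]
    calc _ ≤ ((m : ℝ) ^ P.card)⁻¹ * (NA P : ℝ) ^ (-s) *
          (((m : ℝ) ^ P.card) * ((m : ℝ) ^ P.card)) :=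
        mul_le_mul_of_nonneg_left h2 (by positivity)
      _ = _ := by field_simp
  · rw [norm_zero]
    positivity

open Classical in
theorem t_EXPW (hMASS : Pool.Agent.T3h73.SD.S_MASS) : S_EXPW := by
  intro ℓ n _ hl2 K _ _ S 𝔪 V _ _ _ ψ L0 L1 LL π u d1 g t sy hM k s hs hs2
  have hcard : (Nat.card L0 : ℂ) ≠ 0 := by
    have : 0 < Nat.card L0 := Nat.card_pos
    exact_mod_cast this.ne'
  have hn1 : 1 ≤ n := by have := hM.lin.hn2; omega
  have hm : 1 ≤ ℓ ^ ((n - 1) * k) := Nat.one_le_pow _ _ (Fact.out : ℓ.Prime).pos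
  have hC : Fintype.card (ClW ℓ n k) = ℓ ^ ((n - 1) * k) * ℓ ^ ((n - 1) * k) := by
    have h4 : Fintype.card (Sz ℓ n (ZMod ℓ)) = ℓ ^ (n - 1) := by
      rw [← Nat.card_eq_fintype_card, card_Sz hn1, Nat.card_zmod]
    rw [Fintype.card_prod, Fintype.card_pi, Finset.prod_const, h4, Finset.card_univ,
      Fintype.card_fin, ← pow_mul]
  rw [SP, Complex.ofReal_tsum]
  have h1 : ∀ (w : Fin k → Sz ℓ n L0) (α : L0) (z : Fin k → LL),
      ee ℓ (- ψ (α : V) d1 +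
        ∑ r, ∑ i, ψ (((z r : Sz ℓ n V) : Fin n → V) i) ((w r : Fin n → L0) i : V)) *
        Mh S (fun (h : L0) q => ψ (h : V) (t q)) sy (RcW ℓ n k) (ℓ ^ ((n - 1) * k))
          (hcW π u g w α z) s =
      ∑' P : Finset (Pl K), ee ℓ (- ψ (α : V) d1 +
        ∑ r, ∑ i, ψ (((z r : Sz ℓ n V) : Fin n → V) i) ((w r : Fin n → L0) i : V)) *
        (if Disjoint P S then
      (((((ℓ ^ ((n - 1) * k) : ℕ) : ℝ) ^ P.card)⁻¹ * (NA P : ℝ) ^ (-s) : ℝ) : ℂ) *
        ∑ col : P → ClW ℓ n k,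
      ee ℓ (∑ q : P, ψ ((hcW π u g w α z (col q) : L0) : V) (t q) +
        ∑ p : P, ∑ q : P, if p = q then 0 else RcW ℓ n k (col p) (col q) * sy p q) else 0) := by
    intro w α z
    rw [tsum_mul_left]
    rfl
  have h2 : ∀ (w : Fin k → Sz ℓ n L0) (α : L0) (z : Fin k → LL),
      Summable (fun P : Finset (Pl K) => ee ℓ (- ψ (α : V) d1 +
        ∑ r, ∑ i, ψ (((z r : Sz ℓ n V) : Fin n → V) i) ((w r : Fin n → L0) i : V)) *
        (if Disjoint P S then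
      (((((ℓ ^ ((n - 1) * k) : ℕ) : ℝ) ^ P.card)⁻¹ * (NA P : ℝ) ^ (-s) : ℝ) : ℂ) *
        ∑ col : P → ClW ℓ n k,
      ee ℓ (∑ q : P, ψ ((hcW π u g w α z (col q) : L0) : V) (t q) +
        ∑ p : P, ∑ q : P, if p = q then 0 else RcW ℓ n k (col p) (col q) * sy p q) else 0)) := by
    intro w α z
    exact (summable_termW hMASS ℓ K S (fun (h : L0) q => ψ (h : V) (t q)) sy
      (ℓ ^ ((n - 1) * k)) hm hC (RcW ℓ n k) (hcW π u g w α z) s hs hs2).mul_left _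
  simp_rw [h1]
  simp_rw [← Summable.tsum_finsetSum (fun z _ => h2 _ _ z)]
  simp_rw [← Summable.tsum_finsetSum (fun α _ => summable_sum (fun z _ => h2 _ α z))]
  rw [← Summable.tsum_finsetSum (fun w _ => summable_sum (fun α _ =>
    summable_sum (fun z _ => h2 w α z)))]
  rw [← tsum_mul_left]
  refine tsum_congr (fun P => ?_)
  by_cases hP : Disjoint P S
  · have h3 := term_oneW ℓ n K S 𝔪 V ψ L0 L1 LL π u d1 g t sy hM k s P hP
    simp only [hP, true_and, if_true]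
    rw [← h3, mul_comm _ ((Nat.card L0 : ℂ) ^ ((n - 1) * k + 1)), ← mul_assoc,
      inv_mul_cancel₀ (pow_ne_zero _ hcard), one_mul]
  · simp [hP]

end Pool.Agent.T3h73.SN.EXPW
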