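import Pool.Agent.T3h73.SN.Stm2

/-!
# Project SN, task GDUW (helper25): the cosets of `W ⊗ Y` are maximal unlinked sets; their number
-/

set_option autoImplicit false

namespace Pool.Agent.T3h73.SN.GDUW

open Pool.Agent.T3h73.SN Pool.Agent.T3h73.SD

/-- counting the cosets of a family of submodules -/
lemma count_cosets {ℓ : ℕ} {E ι : Type} [AddCommGroup E] [Module (ZMod ℓ) E] [Finite E] [Finite ι]
    (X : ι → Submodule (ZMod ℓ) E) (hinj : Function.Injective X) (m m' : ℕ) (hm0 : 0 < m)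
    (hm : ∀ i, Nat.card (X i) = m) (hE : Nat.card E = m * m') :
    Nat.card {U : Finset E // ∃ (x₀ : E) (i : ι), ∀ a, a ∈ U ↔ a - x₀ ∈ X i} = Nat.card ι * m' := by
  classical
  have := Fintype.ofFinite E
  have := Fintype.ofFinite ι
  let f : (Σ i, E ⧸ X i) → {U : Finset E // ∃ (x₀ : E) (i : ι), ∀ a, a ∈ U ↔ a - x₀ ∈ X i} :=
    fun p => ⟨Finset.univ.filter (fun a => (X p.1).mkQ a = p.2), by
      obtain ⟨x₀, hx₀⟩ := Submodule.mkQ_surjective _ p.2
      refine ⟨x₀, p.1, fun a => ?_⟩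
      rw [Finset.mem_filter, ← hx₀, Submodule.mkQ_apply, Submodule.mkQ_apply,
        Submodule.Quotient.eq]
      simp⟩
  have hf : Function.Bijective f := by
    constructor
    · rintro ⟨i, p⟩ ⟨j, q⟩ hpq
      obtain ⟨x, rfl⟩ := Submodule.mkQ_surjective _ p
      obtain ⟨y, rfl⟩ := Submodule.mkQ_surjective _ q
      have h1 : ∀ a, a - x ∈ X i ↔ a - y ∈ X j := by
        intro a
        have h2 := Finset.ext_iff.mp (congrArg Subtype.val hpq) a
        simp only [f, Finset.mem_filter, Finset.mem_univ, true_and, Submodule.mkQ_apply,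
          Submodule.Quotient.eq] at h2
        exact h2
      have hxy : x - y ∈ X j := (h1 x).mp (by simp)
      have h3 : X i = X j := by
        ext a
        have h4 := h1 (a + x)
        rw [add_sub_cancel_right] at h4
        rw [h4, show a + x - y = a + (x - y) by abel]
        exact Submodule.add_mem_iff_left _ hxy
      have h5 := hinj h3
      subst h5
      congr 1
      rw [Submodule.mkQ_apply, Submodule.mkQ_apply, Submodule.Quotient.eq]
      exact hxy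
    · rintro ⟨U, x₀, i, hU⟩
      refine ⟨⟨i, (X i).mkQ x₀⟩, ?_⟩
      apply Subtype.ext
      ext a
      simp only [f, Finset.mem_filter, Finset.mem_univ, true_and, Submodule.mkQ_apply,
          Submodule.Quotient.eq]
      exact (hU a).symm
  rw [← Nat.card_eq_of_bijective f hf, Nat.card_sigma]
  have h6 : ∀ i, Nat.card (E ⧸ X i) = m' := by
    intro i
    have h7 := Submodule.card_eq_card_quotient_mul_card (X i)
    rw [hm i, hE] at h7
    exact Nat.eq_of_mul_eq_mul_left hm0 h7.symm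
  rw [Finset.sum_congr rfl fun i _ => h6 i, Finset.sum_const, smul_eq_mul,
    Nat.card_eq_fintype_card, Finset.card_univ]

lemma card_coset {ℓ : ℕ} {E : Type} [AddCommGroup E] [Module (ZMod ℓ) E]
    (X : Submodule (ZMod ℓ) E) (x₀ : E) (U : Finset E) (hU : ∀ a, a ∈ U ↔ a - x₀ ∈ X) :
    U.card = Nat.card X := by
  have e : {a // a ∈ U} ≃ X :=
    { toFun := fun a => ⟨a.1 - x₀, (hU a.1).mp a.2⟩
      invFun := fun x => ⟨x.1 + x₀, (hU _).mpr (by rw [add_sub_cancel_right]; exact x.2)⟩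
      left_inv := fun a => Subtype.ext (sub_add_cancel _ _)
      right_inv := fun x => Subtype.ext (add_sub_cancel_right _ _) }
  rw [← Nat.card_congr e, Nat.card_eq_fintype_card, Fintype.card_coe]

section
variable {ℓ : ℕ} [Fact ℓ.Prime]

/-- maximal isotropic subspaces -/
def Lag (ℓ k : ℕ) [Fact ℓ.Prime] : Type :=
  {Y : Submodule (ZMod ℓ) (Cl ℓ k) // (∀ x ∈ Y, ∀ y ∈ Y, ∑ s, (x.1 s * y.2 s + y.1 s * x.2 s) = 0) ∧
    Module.finrank (ZMod ℓ) Y = k}

instance (k : ℕ) : Finite (Lag ℓ k) := by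
  have : Finite (Submodule (ZMod ℓ) (Cl ℓ k)) :=
    Finite.of_injective (fun Y => (Y : Set (Cl ℓ k))) SetLike.coe_injective
  exact Subtype.finite

lemma two_ne (h2 : ℓ ≠ 2) : (2 : ZMod ℓ) ≠ 0 := by
  intro h
  have h3 : ((2 : ℕ) : ZMod ℓ) = 0 := by exact_mod_cast h
  rw [ZMod.natCast_eq_zero_iff] at h3
  exact h2 ((Nat.prime_dvd_prime_iff_eq (Fact.out) Nat.prime_two).mp h3)

lemma q_zero (h2 : ℓ ≠ 2) {k : ℕ} (Y : Lag ℓ k) {x : Cl ℓ k} (hx : x ∈ Y.1) :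
    ∑ s, x.2 s * x.1 s = 0 := by
  have h := Y.2.1 x hx x hx
  have h3 : (2 : ZMod ℓ) * ∑ s, x.2 s * x.1 s = 0 := by
    rw [← h, Finset.mul_sum]
    exact Finset.sum_congr rfl fun s _ => by ring
  exact (mul_eq_zero.mp h3).resolve_left (two_ne h2)

lemma card_lag {k : ℕ} (Y : Lag ℓ k) : Nat.card Y.1 = ℓ ^ k := by
  have := Fintype.ofFinite Y.1
  have h := Module.card_eq_pow_finrank (K := ZMod ℓ) (V := Y.1)
  rw [Y.2.2, ZMod.card] at h
  rw [Nat.card_eq_fintype_card, h]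

lemma card_Cl (k : ℕ) : Nat.card (Cl ℓ k) = ℓ ^ k * ℓ ^ k := by
  rw [Nat.card_prod]
  simp [ZMod.card]

lemma Rc_add {k : ℕ} (a b : Cl ℓ k) :
    Rc ℓ k a b + Rc ℓ k b a = - ∑ s, (a - b).2 s * (a - b).1 s := by
  rw [Rc, Rc, ← Finset.sum_add_distrib, ← Finset.sum_neg_distrib]
  refine Finset.sum_congr rfl fun s _ => ?_
  simp only [Prod.fst_sub, Prod.snd_sub, Pi.sub_apply]
  ring

/-- the number of the maximal isotropic subspaces -/
lemma card_Lag (h2 : ℓ ≠ 2) (hUNL : S_UNL) (hCNTU : S_CNTU) (k : ℕ) :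
    Nat.card (Lag ℓ k) = ∏ i ∈ Finset.range k, (1 + ℓ ^ i) := by
  classical
  have h0 : 0 < ℓ ^ k := pow_pos (Fact.out : ℓ.Prime).pos k
  have h1 := count_cosets (fun Y : Lag ℓ k => Y.1) Subtype.val_injective (ℓ ^ k) (ℓ ^ k) h0
    (fun Y => card_lag Y) (card_Cl k)
  have h3 : ∀ U : Finset (Cl ℓ k), ((∀ a ∈ U, ∀ b ∈ U, Rc ℓ k a b + Rc ℓ k b a = 0) ∧
      U.card = ℓ ^ k) ↔ ∃ (x₀ : Cl ℓ k) (i : Lag ℓ k), ∀ a, a ∈ U ↔ a - x₀ ∈ i.1 := by
    intro U
    constructor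
    · rintro ⟨hU1, hU2⟩
      obtain ⟨x₀, X, hX1, -, hX2, hX3⟩ := (hUNL ℓ h2 k U hU1).2 hU2
      exact ⟨x₀, ⟨X, hX1, hX2⟩, hX3⟩
    · rintro ⟨x₀, Y, hY⟩
      constructor
      · intro a ha b hb
        have h4 : a - b ∈ Y.1 := by
          have := Y.1.sub_mem ((hY a).mp ha) ((hY b).mp hb)
          rwa [sub_sub_sub_cancel_right] at this
        rw [Rc_add, q_zero h2 Y h4, neg_zero]
      · rw [card_coset Y.1 x₀ U hY, card_lag Y]
  have h4 := hCNTU ℓ h2 k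
  rw [Nat.card_congr (Equiv.subtypeEquivRight h3), h1, mul_comm] at h4
  exact Nat.eq_of_mul_eq_mul_left h0 h4

/-- `W ⊗ Y` -/
def XW (ℓ n k : ℕ) [Fact ℓ.Prime] (Y : Submodule (ZMod ℓ) (Cl ℓ k)) :
    Submodule (ZMod ℓ) (ClW ℓ n k) where
  carrier := {x | ∀ i, slc x i ∈ Y}
  add_mem' := fun {a b} ha hb i => Y.add_mem (ha i) (hb i)
  zero_mem' := fun i => Y.zero_mem
  smul_mem' := fun c a ha i => Y.smul_mem c (ha i)

lemma slc_sub {n k : ℕ} (a b : ClW ℓ n k) (i : Fin n) : slc (a - b) i = slc a i - slc b i := rfl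

lemma mem_XW {n k : ℕ} {Y : Submodule (ZMod ℓ) (Cl ℓ k)} {x : ClW ℓ n k} :
    x ∈ XW ℓ n k Y ↔ ∀ i, slc x i ∈ Y := Iff.rfl

/-- families of sum zero: their number -/
lemma card_Sz {n : ℕ} (hn : 1 ≤ n) (M : Type) [AddCommGroup M] [Module (ZMod ℓ) M] [Finite M] :
    Nat.card (Sz ℓ n M) = Nat.card M ^ (n - 1) := by
  obtain ⟨m, rfl⟩ : ∃ m, n = m + 1 := ⟨n - 1, by omega⟩
  have e : Sz ℓ (m + 1) M ≃ (Fin m → M) :=
    { toFun := fun x i => (x : Fin (m + 1) → M) i.succ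
      invFun := fun y => ⟨Fin.cons (- ∑ i, y i) y, by
        show ∑ i, (Fin.cons (- ∑ i, y i) y : Fin (m + 1) → M) i = 0
        rw [Fin.sum_univ_succ]
        simp⟩
      left_inv := fun x => by
        apply Subtype.ext
        have h : ∑ i, (x : Fin (m + 1) → M) i = 0 := x.2
        rw [Fin.sum_univ_succ] at h
        funext i
        refine Fin.cases ?_ (fun j => ?_) i
        · show - ∑ i, (x : Fin (m + 1) → M) (Fin.succ i) = _
          exact (eq_neg_of_add_eq_zero_left h).symm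
        · rfl
      right_inv := fun y => by
        funext i
        rfl }
  rw [Nat.card_congr e, Nat.card_fun, Nat.card_fin, Nat.add_sub_cancel]

lemma card_XW {n k : ℕ} (hn : 1 ≤ n) (Y : Submodule (ZMod ℓ) (Cl ℓ k)) :
    Nat.card (XW ℓ n k Y) = Nat.card Y ^ (n - 1) := by
  rw [← card_Sz (ℓ := ℓ) hn Y]
  have hy : ∀ y : Sz ℓ n Y, ∑ i, ((y : Fin n → Y) i : Cl ℓ k) = 0 := by
    intro y
    have h : ∑ i, (y : Fin n → Y) i = 0 := y.2
    have h2 := congrArg (Subtype.val) h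
    rwa [Submodule.coe_sum, Submodule.coe_zero] at h2
  refine Nat.card_congr
    { toFun := fun x => ⟨fun i => ⟨slc x.1 i, x.2 i⟩, ?_⟩
      invFun := fun y => ⟨(fun s => ⟨fun i => ((y : Fin n → Y) i : Cl ℓ k).1 s, ?_⟩,
        fun s => ⟨fun i => ((y : Fin n → Y) i : Cl ℓ k).2 s, ?_⟩), ?_⟩
      left_inv := fun x => rfl
      right_inv := fun y => rfl }
  · show ∑ i, (⟨slc x.1 i, x.2 i⟩ : Y) = 0
    apply Subtype.ext
    rw [Submodule.coe_sum, Submodule.coe_zero]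
    apply Prod.ext
    · rw [Prod.fst_sum]
      funext s
      rw [Finset.sum_apply]
      exact (x.1.1 s).2
    · rw [Prod.snd_sum]
      funext s
      rw [Finset.sum_apply]
      exact (x.1.2 s).2
  · show ∑ i, ((y : Fin n → Y) i : Cl ℓ k).1 s = 0
    have h := congrFun (congrArg Prod.fst (hy y)) s
    rw [Prod.fst_sum, Finset.sum_apply] at h
    exact h
  · show ∑ i, ((y : Fin n → Y) i : Cl ℓ k).2 s = 0
    have h := congrFun (congrArg Prod.snd (hy y)) s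
    rw [Prod.snd_sum, Finset.sum_apply] at h
    exact h
  · intro i
    exact ((y : Fin n → Y) i).2

lemma card_ClW {n : ℕ} (hn : 1 ≤ n) (k : ℕ) :
    Nat.card (ClW ℓ n k) = ℓ ^ ((n - 1) * k) * ℓ ^ ((n - 1) * k) := by
  rw [Nat.card_prod, Nat.card_fun, card_Sz hn, Nat.card_zmod, Nat.card_fin, pow_mul]

/-- `y ⊗ (1, -1, 0, ..., 0)` -/
def emb (ℓ k n : ℕ) [Fact ℓ.Prime] (y : Cl ℓ k) : ClW ℓ (n + 2) k :=
  (fun s => ⟨Fin.cons (y.1 s) (Fin.cons (- y.1 s) 0), by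
      show ∑ i, (Fin.cons (y.1 s) (Fin.cons (- y.1 s) 0) : Fin (n + 2) → ZMod ℓ) i = 0
      rw [Fin.sum_univ_succ, Fin.sum_univ_succ]
      simp⟩,
    fun s => ⟨Fin.cons (y.2 s) (Fin.cons (- y.2 s) 0), by
      show ∑ i, (Fin.cons (y.2 s) (Fin.cons (- y.2 s) 0) : Fin (n + 2) → ZMod ℓ) i = 0
      rw [Fin.sum_univ_succ, Fin.sum_univ_succ]
      simp⟩)

lemma emb_mem {n k : ℕ} (Y : Submodule (ZMod ℓ) (Cl ℓ k)) (y : Cl ℓ k) :
    emb ℓ k n y ∈ XW ℓ (n + 2) k Y ↔ y ∈ Y := by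
  rw [mem_XW]
  constructor
  · intro h
    exact h 0
  · intro h i
    refine Fin.cases h (fun j => ?_) i
    refine Fin.cases ?_ (fun j => ?_) j
    · exact Y.neg_mem h
    · exact Y.zero_mem

lemma XW_inj {n k : ℕ} (hn : 2 ≤ n) : Function.Injective (XW ℓ n k) := by
  obtain ⟨m, rfl⟩ : ∃ m, n = m + 2 := ⟨n - 2, by omega⟩
  intro Y Y' h
  ext y
  rw [← emb_mem (n := m) Y y, ← emb_mem (n := m) Y' y, h]

lemma RcW_add {n k : ℕ} (a b : ClW ℓ n k) :
    RcW ℓ n k a b + RcW ℓ n k b a = - ∑ i, ∑ s, (slc (a - b) i).2 s * (slc (a - b) i).1 s := by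
  rw [Finset.sum_comm, RcW, RcW, ← Finset.sum_add_distrib, ← Finset.sum_neg_distrib]
  refine Finset.sum_congr rfl fun s _ => ?_
  rw [← Finset.sum_add_distrib, ← Finset.sum_neg_distrib]
  refine Finset.sum_congr rfl fun i _ => ?_
  rw [slc_sub]
  simp only [Prod.fst_sub, Prod.snd_sub, Pi.sub_apply, slc]
  ring

end

theorem t_GDUW (hUNL : S_UNL) (hCNTU : S_CNTU) : S_GDUW := by
  intro ℓ n hp h2 hln hn k
  have hn1 : 1 ≤ n := by omega
  have hX : ∀ Y : Lag ℓ k, Nat.card (XW ℓ n k Y.1) = ℓ ^ ((n - 1) * k) := by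
    intro Y
    rw [card_XW hn1, card_lag, ← pow_mul, mul_comm]
  have hiff : ∀ U : Finset (ClW ℓ n k), GdU ℓ n k U ↔
      ∃ (x₀ : ClW ℓ n k) (Y : Lag ℓ k), ∀ a, a ∈ U ↔ a - x₀ ∈ XW ℓ n k Y.1 := by
    intro U
    constructor
    · rintro ⟨x₀, Y, h1, h3, h4⟩
      exact ⟨x₀, ⟨Y, h1, h3⟩, h4⟩
    · rintro ⟨x₀, Y, h4⟩
      exact ⟨x₀, Y.1, Y.2.1, Y.2.2, h4⟩
  constructor
  · intro U hU
    obtain ⟨x₀, Y, hY⟩ := (hiff U).mp hU
    constructor
    · intro a ha b hb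
      have h4 : a - b ∈ XW ℓ n k Y.1 := by
        have := (XW ℓ n k Y.1).sub_mem ((hY a).mp ha) ((hY b).mp hb)
        rwa [sub_sub_sub_cancel_right] at this
      rw [RcW_add, Finset.sum_eq_zero fun i _ => q_zero h2 Y (h4 i), neg_zero]
    · rw [card_coset _ x₀ U hY, hX]
  · have h0 : 0 < ℓ ^ ((n - 1) * k) := pow_pos hp.out.pos _
    rw [Nat.card_congr (Equiv.subtypeEquivRight hiff),
      count_cosets (fun Y : Lag ℓ k => XW ℓ n k Y.1)
        (fun Y Y' h => Subtype.ext (XW_inj hn h)) _ (ℓ ^ ((n - 1) * k)) h0 hX (card_ClW hn1 k),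
      card_Lag h2 hUNL hCNTU, mul_comm]

end Pool.Agent.T3h73.SN.GDUW
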