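import Pool.Agent.T3h73.SN.Stm

/-! Task IS1: the division of the class belonging to an element of the image of the descent map. -/

set_option autoImplicit false
set_option linter.all false
set_option maxHeartbeats 1600000

open Polynomial

namespace Pool.Agent.T3h73.SN.IS1

open Pool.Agent.T3h73.SL (IsP lam_rel)
open Pool.Agent.T3h73.SN Pool.Agent.Y713.SE Pool.Agent.Y713.SE.Dat
open Pool.Agent.Y713 (Jac.Gal)

section
variable {ℓ n : ℕ} {E : Type} [Field E] (D : Dat ℓ n E)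

/-- the class of a torsion ideal depends only on the exponents modulo `ℓ` and constant vectors -/
lemma cl_PT_shift (m : Fin n → ℕ) (c : ℕ) : cl (D.PT fun k => (m k + c) % ℓ) = cl (D.PT m) := by
  rw [D.cl_PT, D.cl_PT]
  have h1 : ∀ k, cl (D.PP k) ^ ((m k + c) % ℓ) = cl (D.PP k) ^ m k * cl (D.PP k) ^ c := by
    intro k
    rw [← pow_add]
    conv_rhs => rw [← Nat.div_add_mod (m k + c) ℓ, pow_add, pow_mul, D.cl_PP_pow, one_pow, one_mul]
  rw [Finset.prod_congr rfl fun k _ => h1 k, Finset.prod_mul_distrib, Finset.prod_pow,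
    D.cl_prod_PP, one_pow, mul_one]

variable {L : Type} [Field L] [Algebra E L]

/-- the ratio of the leading coefficients -/
theorem key (τ : L ≃ₐ[E] L) {B I : Ideal (D.base L).A} (hB : B ≠ ⊥) (hI : I ≠ ⊥)
    (hinv : D.mI (au τ) B = B) {b a : (D.base L).A} (hb : b ≠ 0) (ha : a ≠ 0)
    (hab : Ideal.span {b} * (B * (D.base L).sI 1 I) = Ideal.span {a} * I) {m : Fin n → ℕ}
    (hR : cl (D.mI (au τ) I) = cl (I * (D.base L).PT m)) : ∃ κ : L, κ ≠ 0 ∧ ∀ k : Fin n,
      τ ((D.base L).lead k a) * (D.base L).lead k b * (κ * (D.base L).ζ ^ m k) =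
        τ ((D.base L).lead k b) * (D.base L).lead k a := by
  obtain ⟨p, q, hp, hq, hpq⟩ := (cl_eq_iff (D.mI_ne _ hI)
    ((D.base L).mul_ne hI ((D.base L).PT_ne _))).1 hR
  have h2 := congrArg (D.mI (au τ)) hab
  rw [mI_mul, mI_mul, mI_mul, mI_span, mI_span, hinv, mI_sI] at h2
  have h3 := congrArg ((D.base L).sI 1) hpq
  rw [sI_mul, sI_mul, sI_mul, sI_span, sI_span, sI_PT] at h3
  have hta := D.mp_ne (au τ) ha
  have htb := D.mp_ne (au τ) hb
  have hsp : (D.base L).s 1 p ≠ 0 := (map_ne_zero_iff _ ((D.base L).s 1).injective).2 hp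
  have hsq : (D.base L).s 1 q ≠ 0 := (map_ne_zero_iff _ ((D.base L).s 1).injective).2 hq
  have h4 : Ideal.span {D.mp (au τ) a * (D.base L).s 1 p * q * b} =
      Ideal.span {D.mp (au τ) b * p * (D.base L).s 1 q * a} := by
    have hne : (B * (D.base L).sI 1 I) * (D.base L).PT m ≠ ⊥ :=
      (D.base L).mul_ne ((D.base L).mul_ne hB ((D.base L).sI_ne hI)) ((D.base L).PT_ne _)
    apply mul_right_cancel₀ hne
    simp only [← Ideal.span_singleton_mul_span_singleton]
    generalize (D.base L).sI 1 I = sI at *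
    generalize D.mI (au τ) I = tI at *
    generalize (D.base L).PT m = T at *
    generalize (D.base L).sI 1 tI = stI at *
    generalize Ideal.span {D.mp (au τ) a} = ta at *
    generalize Ideal.span {D.mp (au τ) b} = tb at *
    generalize Ideal.span {(D.base L).s 1 p} = sp at *
    generalize Ideal.span {(D.base L).s 1 q} = sq at *
    generalize Ideal.span {a} = a' at *
    generalize Ideal.span {b} = b' at *
    generalize Ideal.span {p} = p' at *
    generalize Ideal.span {q} = q' at *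
    calc ta * sp * q' * b' * (B * sI * T) = ta * sp * q' * (b' * (B * sI)) * T := by ring
      _ = ta * sp * q' * (a' * I) * T := by rw [hab]
      _ = ta * sp * a' * (q' * (I * T)) := by ring
      _ = ta * sp * a' * (p' * tI) := by rw [hpq]
      _ = sp * a' * p' * (ta * tI) := by ring
      _ = sp * a' * p' * (tb * (B * stI)) := by rw [h2]
      _ = a' * p' * tb * B * (sp * stI) := by ring
      _ = a' * p' * tb * B * (sq * (sI * T)) := by rw [h3]
      _ = _ := by ring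
  rw [Ideal.span_singleton_eq_span_singleton] at h4
  obtain ⟨u, hu⟩ := h4
  obtain ⟨κ, hκ, huκ⟩ := (D.base L).unit_const u.isUnit
  rw [huκ] at hu
  have hκA := (D.base L).alg_ne (C_ne_zero.2 hκ)
  refine ⟨κ, hκ, fun k => ?_⟩
  have h5 := congrArg ((D.base L).lead k) hu
  rw [(D.base L).lead_mul k (mul_ne_zero (mul_ne_zero (mul_ne_zero hta hsp) hq) hb) hκA,
    (D.base L).lead_mul k (mul_ne_zero (mul_ne_zero hta hsp) hq) hb,
    (D.base L).lead_mul k (mul_ne_zero hta hsp) hq, (D.base L).lead_mul k hta hsp,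
    (D.base L).lead_mul k (mul_ne_zero (mul_ne_zero htb hp) hsq) ha,
    (D.base L).lead_mul k (mul_ne_zero htb hp) hsq, (D.base L).lead_mul k htb hp,
    (D.base L).lead_C k hκ, (D.base L).lead_s k hp, (D.base L).lead_s k hq,
    D.lead_mp _ k ha, D.lead_mp _ k hb, one_mul, one_mul] at h5
  have h5' : τ ((D.base L).lead k a) * ((D.base L).ζ ^ (D.base L).ord k p * (D.base L).lead k p) *
      (D.base L).lead k q * (D.base L).lead k b * κ =
      τ ((D.base L).lead k b) * (D.base L).lead k p *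
        ((D.base L).ζ ^ (D.base L).ord k q * (D.base L).lead k q) * (D.base L).lead k a := h5
  have h6 : (D.base L).ord k p = (D.base L).ord k q + m k := by
    have h7 := congrArg ((D.base L).oI k) hpq
    rw [(D.base L).oI_mul k ((D.base L).span_ne hp) (D.mI_ne _ hI),
      (D.base L).oI_mul k ((D.base L).span_ne hq) ((D.base L).mul_ne hI ((D.base L).PT_ne _)),
      (D.base L).oI_mul k hI ((D.base L).PT_ne _), (D.base L).oI_span k hp,
      (D.base L).oI_span k hq, D.oI_mI k _ hI, (D.base L).oI_PT] at h7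
    omega
  have h8 : (D.base L).ζ ^ (D.base L).ord k q * (D.base L).lead k p * (D.base L).lead k q ≠ 0 :=
    mul_ne_zero (mul_ne_zero (pow_ne_zero _ (D.base L).ζ_ne) ((D.base L).lead_ne hp))
      ((D.base L).lead_ne hq)
  apply mul_left_cancel₀ h8
  rw [h6, pow_add] at h5'
  linear_combination h5'

end

theorem t_IS1 : S_IS1 := by
  intro ℓ n h2 E _ _ D y hy
  set L := SeparableClosure E with hL
  haveI : CharZero L := charZero_of_injective_algebraMap (algebraMap E L).injective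
  haveI : ExpChar L 1 := ExpChar.zero
  haveI : NeZero (ℓ : L) := ⟨by exact_mod_cast D.pos.ne'⟩
  haveI : NeZero ℓ := ⟨D.pos.ne'⟩
  obtain ⟨⟨w, hw⟩, J0, t, hJ0, hJ⟩ := hy
  choose z hz using hJ
  obtain ⟨B, hB, hlam, hinvB⟩ : ∃ B : Ideal (D.base L).A, B ≠ ⊥ ∧
      (∀ i, (D.base L).lam i ((D.base L).U B) = algebraMap E L (D.lam i (D.U J0))) ∧
      ∀ σ : L ≃ₐ[E] L, D.mI (au σ) B = B := by
    have hJ1 : (show Ideal (D.base E).A from J0) ≠ ⊥ := hJ0
    refine ⟨D.mI (Algebra.ofId E L) (show Ideal (D.base E).A from J0), D.mI_ne _ hJ1,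
      fun i => ?_, fun σ => ?_⟩
    · rw [D.U_mI _ hJ1, D.lam_map _ i ((D.base E).U_ne _)]
      rfl
    · rw [mI_mI]
      congr 1
      exact AlgHom.ext fun x => σ.commutes x
  obtain ⟨R, hR⟩ := (D.base L).phi_surj (p := 1) (cl B)
  have hcB : ∀ σ : L ≃ₐ[E] L, D.mC (au σ) (cl B) = cl B := fun σ => by
    rw [D.mC_cl _ hB, hinvB]
  have h3 : ∀ σ : L ≃ₐ[E] L, ∃ m : Fin n → ℕ, D.mC (au σ) R / R = cl ((D.base L).PT m) := by
    intro σ
    have h4 : (D.base L).sC (D.mC (au σ) R / R) = D.mC (au σ) R / R := by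
      rw [_root_.map_div, ← D.mC_sC]
      have h5 : D.mC (au σ) R = cl B * D.mC (au σ) ((D.base L).sC R) := by
        conv_lhs => rw [← hR]
        rw [map_mul, hcB]
      calc D.mC (au σ) ((D.base L).sC R) / (D.base L).sC R
          = (cl B * D.mC (au σ) ((D.base L).sC R)) / (cl B * (D.base L).sC R) :=
            (mul_div_mul_left_eq_div _ _ _).symm
        _ = D.mC (au σ) R / R := by rw [hR, ← h5]
    obtain ⟨m, hm⟩ := (D.base L).phi_ker (p := 1) h4
    exact ⟨m, by rw [hm, cl_PT]⟩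
  choose χ hχ using h3
  obtain ⟨I, hI, rfl⟩ := exists_cl R
  have hχ' : ∀ σ : L ≃ₐ[E] L, cl (D.mI (au σ) I) = cl (I * (D.base L).PT (χ σ)) := by
    intro σ
    rw [cl_mul hI ((D.base L).PT_ne _), ← hχ σ, D.mC_cl _ hI, mul_div_cancel]
  rw [(D.base L).sC_cl hI, ← cl_mul hB ((D.base L).sI_ne hI)] at hR
  obtain ⟨b, a, hb, ha, hab⟩ := (cl_eq_iff ((D.base L).mul_ne hB ((D.base L).sI_ne hI)) hI).1 hR
  choose κ hκ hκk using fun τ : L ≃ₐ[E] L => key D τ hB hI (hinvB τ) hb ha hab (hχ' τ)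
  obtain ⟨t', ht', hrel⟩ := lam_rel (D.base L) h2 hb ha
    ((D.base L).mul_ne hB ((D.base L).sI_ne hI)) hI hab
  set om : Fin n → L := fun k => (D.base L).lead k b / (D.base L).lead k a with hom
  have hla : ∀ k, (D.base L).lead k a ≠ 0 := fun k => (D.base L).lead_ne ha
  have hlb : ∀ k, (D.base L).lead k b ≠ 0 := fun k => (D.base L).lead_ne hb
  have hom0 : ∀ k, om k ≠ 0 := fun k => div_ne_zero (hlb k) (hla k)
  have homτ : ∀ (τ : L ≃ₐ[E] L) (k : Fin n), τ (om k) = κ τ * (D.base L).ζ ^ χ τ k * om k := by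
    intro τ k
    have h5 := hκk τ k
    have h6 : τ ((D.base L).lead k a) ≠ 0 := (_root_.map_ne_zero _).2 (hla k)
    rw [hom]
    show τ ((D.base L).lead k b / (D.base L).lead k a) = _ * ((D.base L).lead k b / (D.base L).lead k a)
    rw [map_div₀, mul_div_assoc', div_eq_div_iff h6 (hla k), ← h5]
    ring
  have homℓ : ∀ k, om k ^ ℓ * algebraMap E L (D.lam k (D.U J0)) = t' := by
    intro k
    have h5 := hrel k
    rw [(D.base L).U_mul hB ((D.base L).sI_ne hI), (D.base L).U_sI 1 hI,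
      (D.base L).lam_mul k ((D.base L).U_ne _) ((D.base L).U_ne _), hlam] at h5
    have h6 := (D.base L).lam_ne k ((D.base L).U_ne I)
    rw [hom]
    show ((D.base L).lead k b / (D.base L).lead k a) ^ ℓ * _ = t'
    rw [div_pow, div_mul_eq_mul_div, div_eq_iff (pow_ne_zero _ (hla k))]
    apply mul_right_cancel₀ h6
    linear_combination h5
  have ht0 : algebraMap E L (t : E) ≠ 0 := (_root_.map_ne_zero _).2 t.ne_zero
  obtain ⟨s, hs⟩ := IsSepClosed.exists_pow_nat_eq (t' * algebraMap E L (t : E))⁻¹ ℓ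
  have hs0 : s ≠ 0 := by
    rintro rfl
    rw [zero_pow D.pos.ne'] at hs
    exact (inv_ne_zero (mul_ne_zero ht' ht0)) hs.symm
  set θ : Fin n → L := fun k => algebraMap E L (z k : E) * om k * s with hθ
  have hz0 : ∀ k, algebraMap E L (z k : E) ≠ 0 := fun k => (_root_.map_ne_zero _).2 (z k).ne_zero
  have hθ0 : ∀ k, θ k ≠ 0 := fun k => mul_ne_zero (mul_ne_zero (hz0 k) (hom0 k)) hs0
  have hθℓ : ∀ k, θ k ^ ℓ = algebraMap E L (y k : E) := by
    intro k
    show (algebraMap E L (z k : E) * om k * s) ^ ℓ = _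
    rw [mul_pow, mul_pow, hs, ← map_pow, ← hz k, map_mul, map_mul,
      mul_inv_eq_iff_eq_mul₀ (mul_ne_zero ht' ht0), ← homℓ k]
    ring
  -- the root of unity
  have hη : ∀ τ : L ≃ₐ[E] L, ∃ c : ℕ, ∀ k, τ (θ k) = (D.base L).ζ ^ (χ τ k + c) * θ k := by
    intro τ
    have h5 : ∀ k, τ (θ k) = (κ τ * τ s / s) * (D.base L).ζ ^ χ τ k * θ k := by
      intro k
      show τ (algebraMap E L (z k : E) * om k * s) = _ * (algebraMap E L (z k : E) * om k * s)
      rw [map_mul, map_mul, AlgEquiv.commutes, homτ, div_mul_eq_mul_div, div_mul_eq_mul_div,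
        eq_div_iff hs0]
      ring
    have h6 : (κ τ * τ s / s) ^ ℓ = 1 := by
      have i0 : Fin n := ⟨0, D.n_pos⟩
      have h7 : (τ (θ i0)) ^ ℓ = θ i0 ^ ℓ := by
        rw [← map_pow, hθℓ, AlgEquiv.commutes]
      rw [h5 i0, mul_pow, mul_pow, ← pow_mul, mul_comm (χ τ i0) ℓ, pow_mul,
        (D.base L).hζ.pow_eq_one, one_pow, mul_one] at h7
      have h8 : θ i0 ^ ℓ ≠ 0 := pow_ne_zero _ (hθ0 i0)
      exact mul_right_cancel₀ h8 (h7.trans (one_mul _).symm)
    obtain ⟨c, -, hc⟩ := (D.base L).hζ.eq_pow_of_pow_eq_one h6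
    refine ⟨c, fun k => ?_⟩
    rw [h5, ← hc, pow_add, mul_comm ((D.base L).ζ ^ c)]
  choose c hc using hη
  have hr : ∀ (σ : L ≃ₐ[E] L) (k : Fin n),
      σ (θ k) = (D.base L).ζ ^ ((χ σ k + c σ) % ℓ) * θ k := by
    intro σ k
    rw [hc σ k]
    congr 1
    exact (D.base L).ζ_pow_of_modEq (Nat.mod_modEq _ _).symm
  refine ⟨θ, fun σ k => (χ σ k + c σ) % ℓ, I, hI, hθℓ, hr, fun σ k => Nat.mod_lt _ D.pos, ?_, ?_, ?_⟩
  · intro σ
    have h5 : (∏ k, θ k) ^ ℓ = (algebraMap E L (w : E)) ^ ℓ := by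
      rw [← Finset.prod_pow, Finset.prod_congr rfl fun k _ => hθℓ k, ← map_prod, ← map_pow]
      congr 1
      rw [← Units.coe_prod, hw, Units.val_pow_eq_pow_val]
    have hw0 : algebraMap E L (w : E) ≠ 0 := (_root_.map_ne_zero _).2 w.ne_zero
    have h6 : ((∏ k, θ k) / algebraMap E L (w : E)) ^ ℓ = 1 := by
      rw [div_pow, h5, div_self (pow_ne_zero _ hw0)]
    obtain ⟨d, -, hd⟩ := (D.base L).hζ.eq_pow_of_pow_eq_one h6
    have h7 : ∏ k, θ k = (D.base L).ζ ^ d * algebraMap E L (w : E) := by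
      rw [hd, div_mul_cancel₀ _ hw0]
    have h8 : σ (∏ k, θ k) = ∏ k, θ k := by
      rw [h7, map_mul, map_pow, AlgEquiv.commutes]
      congr 2
      exact σ.commutes _
    have h9 : σ (∏ k, θ k) = (D.base L).ζ ^ (∑ k, (χ σ k + c σ) % ℓ) * ∏ k, θ k := by
      rw [map_prod, Finset.prod_congr rfl fun k _ => hr σ k, Finset.prod_mul_distrib,
        Finset.prod_pow_eq_pow_sum]
    have h10 : ∏ k, θ k ≠ 0 := Finset.prod_ne_zero_iff.2 fun k _ => hθ0 k
    apply (D.base L).hζ.dvd_of_pow_eq_one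
    exact mul_right_cancel₀ h10 (h9.symm.trans (h8.trans (one_mul _).symm))
  · rw [IsLocallyConstant.iff_exists_open]
    intro σ
    refine ⟨⋂ k : Fin n, {ρ : L ≃ₐ[E] L | ρ (θ k) = σ (θ k)},
      isOpen_iInter_of_finite fun k => (locConst_apply (K := E) (θ k)).isOpen_fiber _,
      Set.mem_iInter.2 fun k => rfl, fun ρ hρ => ?_⟩
    funext k
    have h5 : ρ (θ k) = σ (θ k) := Set.mem_iInter.1 hρ k
    rw [hr ρ k, hr σ k] at h5
    exact (D.base L).hζ.pow_inj (Nat.mod_lt _ D.pos) (Nat.mod_lt _ D.pos)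
      (mul_right_cancel₀ (hθ0 k) h5)
  · intro σ
    rw [hχ' σ, cl_mul hI ((D.base L).PT_ne _), cl_mul hI ((D.base L).PT_ne _)]
    congr 1
    exact (cl_PT_shift (D.base L) (χ σ) (c σ)).symm

end Pool.Agent.T3h73.SN.IS1
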