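import Pool.Agent.T3h73.SN.Stm
import Pool.Agent.T3h73.SL.D.LA

/-! Project SN, task ISE: the image of the descent map is isotropic. -/

set_option autoImplicit false
set_option linter.all false

open Polynomial

namespace Pool.Agent.T3h73.SN.ISE

open Pool.Agent.T3h73.SL (IsP lam_rel)
open Pool.Agent.Y713.SE Pool.Agent.Y713.SE.Dat
open Pool.Agent.Y713 (Jac.Gal)

attribute [local instance] Polynomial.algebra in
/-- a nonzero ideal over an algebraic extension contains a nonzero polynomial over the base field -/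
lemma exists_poly {ℓ n : ℕ} {E : Type} [Field E] (D : Dat ℓ n E) {L : Type} [Field L] [Algebra E L]
    [Algebra.IsAlgebraic E L] {I : Ideal (D.base L).A} (hI : I ≠ ⊥) : ∃ F : E[X], F ≠ 0 ∧
      algebraMap L[X] (D.base L).A (F.map (algebraMap E L)) ∈ I := by
  obtain ⟨a, ha, ha0⟩ := Submodule.exists_mem_ne_zero_of_ne_bot hI
  set g := (D.base L).Nm a with hg
  have hg0 : g ≠ 0 := (D.base L).Nm_ne ha0
  have hint : IsIntegral E[X] g :=
    Polynomial.isIntegral_iff_isIntegral_coeff.2 fun k => Algebra.IsIntegral.isIntegral _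
  have h1 := Ideal.comap_ne_bot_of_integral_mem (R := E[X]) (I := Ideal.span {g}) hg0
    (Ideal.mem_span_singleton_self g) hint
  obtain ⟨F, hF, hF0⟩ := Submodule.exists_mem_ne_zero_of_ne_bot h1
  refine ⟨F, hF0, ?_⟩
  rw [Ideal.mem_comap, Ideal.mem_span_singleton] at hF
  obtain ⟨q, hq⟩ := hF
  obtain ⟨b, hb⟩ := (D.base L).dvd_Nm a
  have h2 : F.map (algebraMap E L) = g * q := hq
  rw [h2, map_mul, hg, hb]
  exact I.mul_mem_right _ (I.mul_mem_right _ ha)

section cop
variable {A : Type} [CommRing A] [IsDedekindDomain A]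

/-- the choice of the functions -/
lemma exists_pq {M B I2 : Ideal A} (hB : B ≠ ⊥) (hI2 : I2 ≠ ⊥) (hc : cl I2 = cl B)
    (hBM : B ⊔ M = ⊤) (hIM : I2 ⊔ M = ⊤) : ∃ p q : A, p ≠ 0 ∧ q ≠ 0 ∧
      Ideal.span {q} * B = Ideal.span {p} * I2 ∧ Ideal.span {p} ⊔ M = ⊤ ∧
      Ideal.span {q} ⊔ M = ⊤ := by
  obtain ⟨a, b, ha, hb, hab⟩ := (cl_eq_iff hI2 hB).1 hc
  obtain ⟨p, hp0, hpB, hpM⟩ : ∃ p : A, p ≠ 0 ∧ p ∈ B ∧ Ideal.span {p} ⊔ M = ⊤ := by
    by_cases hM : M = ⊤
    · obtain ⟨p, hp, hp0⟩ := Submodule.exists_mem_ne_zero_of_ne_bot hB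
      exact ⟨p, hp0, hp, by rw [hM, sup_top_eq]⟩
    · have h1 : (1 : A) ∈ B ⊔ M := by rw [hBM]; trivial
      obtain ⟨p, hp, m, hm, hpm⟩ := Submodule.mem_sup.1 h1
      refine ⟨p, ?_, hp, ?_⟩
      · rintro rfl
        rw [zero_add] at hpm
        exact hM ((Ideal.eq_top_iff_one M).2 (hpm ▸ hm))
      · rw [Ideal.eq_top_iff_one, ← hpm]
        exact Submodule.add_mem_sup (Ideal.mem_span_singleton_self p) hm
  obtain ⟨Cc, hC⟩ := Ideal.dvd_iff_le.2 ((Ideal.span_singleton_le_iff_mem B).2 hpB)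
  have hbp : Ideal.span {b * p} = Ideal.span {a} * (Cc * I2) := by
    rw [← Ideal.span_singleton_mul_span_singleton, hC]
    calc Ideal.span {b} * (B * Cc) = (Ideal.span {b} * B) * Cc := by ring
      _ = _ := by rw [← hab]; ring
  have hdvd : a ∣ b * p := by
    rw [← Ideal.mem_span_singleton, ← Ideal.span_singleton_le_iff_mem, hbp]
    exact Ideal.mul_le_left (I := Ideal.span {a}) (J := Cc * I2)
  obtain ⟨q, hq⟩ := hdvd
  have hq0 : q ≠ 0 := by
    rintro rfl
    rw [mul_zero] at hq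
    exact (mul_ne_zero hb hp0) hq
  have hqC : Ideal.span {q} = Cc * I2 := by
    have h0 : Ideal.span {a} ≠ (0 : Ideal A) := fun h =>
      ha (Ideal.span_singleton_eq_bot.1 h)
    apply mul_left_cancel₀ h0
    rw [← hbp, hq, Ideal.span_singleton_mul_span_singleton]
  refine ⟨p, q, hp0, hq0, ?_, hpM, ?_⟩
  · rw [hqC, hC]; ring
  · rw [hqC]
    have h1 : Cc ⊔ M = ⊤ := by
      rw [eq_top_iff, ← hpM, hC]
      exact sup_le_sup_right Ideal.mul_le_right M
    rw [sup_comm] at h1 hIM ⊢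
    rw [Ideal.sup_mul_eq_of_coprime_left h1, hIM]

end cop


lemma lam_prod {ℓ n : ℕ} {E : Type} [Field E] (D : Dat ℓ n E) (i : Fin n) {ι : Type} (s : Finset ι)
    (V : ι → E[X]) (hV : ∀ k, V k ≠ 0) (m : ι → ℕ) :
    D.lam i (∏ k ∈ s, V k ^ m k) = ∏ k ∈ s, D.lam i (V k) ^ m k := by
  classical
  induction s using Finset.induction_on with
  | empty => rw [Finset.prod_empty, Finset.prod_empty, lam_one]
  | insert a s ha ih =>
    rw [Finset.prod_insert ha, Finset.prod_insert ha, D.lam_mul i (pow_ne_zero _ (hV a))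
      (Finset.prod_ne_zero_iff.2 fun k _ => pow_ne_zero _ (hV k)), D.lam_pow i (hV a), ih]

/-- the choice of the functions, with equal leading coefficients -/
lemma exists_pq' {ℓ n : ℕ} {E : Type} [Field E] (D : Dat ℓ n E) (i : Fin n) {M B I2 : Ideal D.A}
    (hB : B ≠ ⊥) (hI2 : I2 ≠ ⊥) (hc : cl I2 = cl B)
    (hBM : B ⊔ M = ⊤) (hIM : I2 ⊔ M = ⊤) : ∃ p q : D.A, p ≠ 0 ∧ q ≠ 0 ∧
      Ideal.span {q} * B = Ideal.span {p} * I2 ∧ Ideal.span {p} ⊔ M = ⊤ ∧
      Ideal.span {q} ⊔ M = ⊤ ∧ D.lead i p = D.lead i q := by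
  obtain ⟨p, q, hp, hq, h1, h2, h3⟩ := exists_pq hB hI2 hc hBM hIM
  have hlp := D.lead_ne (i := i) hp
  have hlq := D.lead_ne (i := i) hq
  have hc0 : D.lead i p / D.lead i q ≠ 0 := div_ne_zero hlp hlq
  have hu : IsUnit (algebraMap E[X] D.A (C (D.lead i p / D.lead i q))) :=
    (isUnit_C.2 (isUnit_iff_ne_zero.2 hc0)).map _
  have hspan : Ideal.span {q * algebraMap E[X] D.A (C (D.lead i p / D.lead i q))} =
      Ideal.span {q} := by
    rw [Ideal.span_singleton_eq_span_singleton]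
    exact (associated_mul_isUnit_left_iff hu).2 (Associated.refl _)
  refine ⟨p, q * algebraMap E[X] D.A (C (D.lead i p / D.lead i q)), hp,
    mul_ne_zero hq hu.ne_zero, ?_, h2, ?_, ?_⟩
  · rw [hspan, h1]
  · rw [hspan, h3]
  · rw [D.lead_mul i hq hu.ne_zero, D.lead_C i hc0, mul_div_cancel₀ _ hlq]

lemma PT_mul {ℓ n : ℕ} {E : Type} [Field E] (D : Dat ℓ n E) {a b c m : Fin n → ℕ}
    (h : ∀ i, a i + b i = c i + ℓ * m i) : D.PT a * D.PT b =
      D.PT c * Ideal.span {algebraMap E[X] D.A (∏ i, (X - C (D.e i)) ^ m i)} := by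
  unfold PT
  rw [map_prod, ← Ideal.prod_span_singleton, ← Finset.prod_mul_distrib, ← Finset.prod_mul_distrib]
  refine Finset.prod_congr rfl fun i _ => ?_
  rw [← pow_add, h, pow_add, pow_mul, D.PP_pow, Ideal.span_singleton_pow, map_pow]

/-- the numbers `n i` -/
lemma carry {F : Type} [Field F] {ℓ : ℕ} (hℓ : 0 < ℓ) {ζ : F} (hζ : IsPrimitiveRoot ζ ℓ) {a b c : ℕ}
    (hc : c < ℓ) (h : ζ ^ c = ζ ^ (a + b)) : a + b = c + ℓ * ((a + b - c) / ℓ) := by
  have h1 : ζ ^ (a + b) = ζ ^ ((a + b) % ℓ) := by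
    conv_lhs => rw [← Nat.div_add_mod (a + b) ℓ, pow_add, pow_mul, hζ.pow_eq_one, one_pow, one_mul]
  have h2 : c = (a + b) % ℓ := hζ.pow_inj hc (Nat.mod_lt _ hℓ) (h.trans h1)
  have h3 := Nat.div_add_mod (a + b) ℓ
  have h4 : a + b - c = ℓ * ((a + b) / ℓ) := by omega
  rw [h4, Nat.mul_div_cancel_left _ hℓ]
  omega

/-- the identity in the base field -/
lemma field_id {F : Type} [Field F] {ℓ m : ℕ} {x u s w : Fin m → F} {c : F} {n a b e : Fin m → ℕ}
    {ka kb ke : ℕ} (hs : ∀ i, s i ≠ 0) (hu : ∀ i, u i ≠ 0)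
    (hx : ∀ i, x i * u i = c * w i ^ ℓ) (hn : ∀ i, a i + b i = e i + ℓ * n i)
    (hk : ka + kb = ke + ∑ i, n i) :
    (∏ i, x i ^ n i) * (c ^ ke * ∏ i, (w i / s i) ^ e i) =
      (∏ i, (s i ^ ℓ / u i) ^ n i) * ((c ^ ka * ∏ i, (w i / s i) ^ a i) *
        (c ^ kb * ∏ i, (w i / s i) ^ b i)) := by
  have h1 : (c ^ ka * ∏ i, (w i / s i) ^ a i) * (c ^ kb * ∏ i, (w i / s i) ^ b i) =
      c ^ (∑ i, n i) * (∏ i, ((w i / s i) ^ ℓ) ^ n i) * (c ^ ke * ∏ i, (w i / s i) ^ e i) := by
    calc (c ^ ka * ∏ i, (w i / s i) ^ a i) * (c ^ kb * ∏ i, (w i / s i) ^ b i) =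
        c ^ (ka + kb) * ∏ i, ((w i / s i) ^ a i * (w i / s i) ^ b i) := by
          rw [Finset.prod_mul_distrib, pow_add]; ring
      _ = c ^ (ke + ∑ i, n i) * ∏ i, ((w i / s i) ^ e i * ((w i / s i) ^ ℓ) ^ n i) := by
          rw [hk]
          congr 1
          refine Finset.prod_congr rfl fun i _ => ?_
          rw [← pow_add, hn i, pow_add, pow_mul]
      _ = _ := by
          rw [Finset.prod_mul_distrib, pow_add]; ring
  rw [h1, ← Finset.prod_pow_eq_pow_sum]
  have h2 : ∏ i, x i ^ n i = (∏ i, (s i ^ ℓ / u i) ^ n i) *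
      ((∏ i, c ^ n i) * ∏ i, ((w i / s i) ^ ℓ) ^ n i) := by
    rw [← Finset.prod_mul_distrib, ← Finset.prod_mul_distrib]
    refine Finset.prod_congr rfl fun i _ => ?_
    rw [← mul_pow, ← mul_pow]
    congr 1
    have h3 : x i = c * w i ^ ℓ / u i := by rw [← hx i, mul_div_cancel_right₀ _ (hu i)]
    rw [h3, div_pow]
    have := pow_ne_zero ℓ (hs i)
    have := hu i
    field_simp
  rw [h2]
  ring

theorem t_ISE (hLCV : S_LCV) (hMOV : S_MOV) (hIS1 : S_IS1) (hEVJ : S_EVJ) : S_ISE := by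
  classical
  intro ℓ n h2 E _ _ D x hx y hy
  obtain ⟨θ, r, I, hI, hθ, hθr, hr, hsum, hrl, hcl⟩ := hIS1 ℓ n h2 E D y hy
  obtain ⟨-, Ix, t, hIx, hxz⟩ := hx
  have i0 : Fin n := ⟨0, D.n_pos⟩
  -- the polynomial `F`
  obtain ⟨F, hF0, hFI⟩ := exists_poly D (L := SeparableClosure E) hI
  set G : E[X] := F * ∏ i, (X - C (D.e i)) with hG
  have hG0 : G ≠ 0 := mul_ne_zero hF0 (Finset.prod_ne_zero_iff.2 fun i _ => X_sub_C_ne_zero _)
  -- the ideal `J`
  obtain ⟨J, hJ, hJc, hJf, hJd⟩ := hMOV ℓ n h2 E D Ix (Ideal.span {algebraMap E[X] D.A G}) hIx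
    (D.span_ne (D.alg_ne hG0))
  obtain ⟨ev, hev0, hevs, hevC, hevX⟩ := hEVJ ℓ n E D J hJ
  set M : Ideal (D.base (SeparableClosure E)).A :=
    D.mI (Algebra.ofId E (SeparableClosure E)) (show Ideal (D.base E).A from J) with hM
  have hGM : Ideal.span {algebraMap (SeparableClosure E)[X] (D.base (SeparableClosure E)).A
      (G.map (algebraMap E (SeparableClosure E)))} ⊔ M = ⊤ := by
    have h1 : D.mI (Algebra.ofId E (SeparableClosure E)) (show Ideal (D.base E).A from
        (J ⊔ Ideal.span {algebraMap E[X] D.A G})) = ⊤ := by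
      rw [show (show Ideal (D.base E).A from (J ⊔ Ideal.span {algebraMap E[X] D.A G})) = ⊤ from hJf]
      exact Ideal.map_top _
    have h2 : D.mI (Algebra.ofId E (SeparableClosure E)) (show Ideal (D.base E).A from
        (J ⊔ Ideal.span {algebraMap E[X] D.A G})) = M ⊔ D.mI (Algebra.ofId E (SeparableClosure E))
          (Ideal.span {algebraMap E[X] (D.base E).A G}) := Ideal.map_sup _ _ _
    rw [h2, D.mI_span, D.mp_alg, sup_comm] at h1
    exact h1
  have cop : ∀ B : Ideal (D.base (SeparableClosure E)).A,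
      algebraMap (SeparableClosure E)[X] (D.base (SeparableClosure E)).A
      (G.map (algebraMap E (SeparableClosure E))) ∈ B → B ⊔ M = ⊤ := by
    intro B hB
    rw [eq_top_iff, ← hGM]
    exact sup_le_sup_right ((Ideal.span_singleton_le_iff_mem _).2 hB) M
  have copF : ∀ σ : Jac.Gal E, D.mI (au σ) I ⊔ M = ⊤ := by
    intro σ
    apply cop
    have h1 := D.mem_mI (au σ) hFI
    rw [D.mp_alg, Polynomial.map_map] at h1
    have h3 : (((au σ : SeparableClosure E →ₐ[E] SeparableClosure E) :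
        SeparableClosure E →+* SeparableClosure E).comp (algebraMap E (SeparableClosure E))) =
        algebraMap E (SeparableClosure E) := (au σ : SeparableClosure E →ₐ[E] _).comp_algebraMap
    rw [h3] at h1
    rw [hG, Polynomial.map_mul, map_mul]
    exact Ideal.mul_mem_right _ _ h1
  have copI : I ⊔ M = ⊤ := by
    have h1 := copF 1
    have h3 : D.mI (au (1 : Jac.Gal E)) I = I := D.mI_id I
    rwa [h3] at h1
  have hGx : ∀ i : Fin n, ∃ q, G.map (algebraMap E (SeparableClosure E)) =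
      (X - C ((D.base (SeparableClosure E)).e i)) * q := by
    intro i
    obtain ⟨q, hq⟩ := Finset.dvd_prod_of_mem (fun i => (X - C (D.e i) : E[X])) (Finset.mem_univ i)
    refine ⟨(F * q).map (algebraMap E (SeparableClosure E)), ?_⟩
    rw [hG, hq, base_e]
    have : (X - C (algebraMap E (SeparableClosure E) (D.e i)) : (SeparableClosure E)[X]) =
        (X - C (D.e i) : E[X]).map (algebraMap E (SeparableClosure E)) := by
      rw [Polynomial.map_sub, map_X, map_C]
    rw [this, ← Polynomial.map_mul]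
    congr 1
    ring
  have copX : ∀ i : Fin n, Ideal.span {algebraMap (SeparableClosure E)[X]
      (D.base (SeparableClosure E)).A (X - C ((D.base (SeparableClosure E)).e i))} ⊔ M = ⊤ := by
    intro i
    apply cop
    obtain ⟨q, hq⟩ := hGx i
    rw [hq, map_mul]
    exact Ideal.mul_mem_right _ _ (Ideal.mem_span_singleton_self _)
  have copPT : ∀ m : Fin n → ℕ, (D.base (SeparableClosure E)).PT m ⊔ M = ⊤ := by
    intro m
    unfold PT
    refine Ideal.prod_sup_eq_top fun i _ => Ideal.pow_sup_eq_top ?_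
    apply cop
    obtain ⟨q, hq⟩ := hGx i
    rw [hq, map_mul]
    exact Ideal.mul_mem_right _ _ ((D.base (SeparableClosure E)).X_mem_PP i)
  have copIPT : ∀ m : Fin n → ℕ, (I * (D.base (SeparableClosure E)).PT m) ⊔ M = ⊤ := by
    intro m
    rw [sup_comm, Ideal.sup_mul_eq_of_coprime_left (by rw [sup_comm]; exact copI), sup_comm]
    exact copPT m
  -- the choice of the functions
  have key : ∀ (I2 : Ideal (D.base (SeparableClosure E)).A) (m : Fin n → ℕ),
      ∃ p q : (D.base (SeparableClosure E)).A,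
        I2 ≠ ⊥ → cl I2 = cl (I * (D.base (SeparableClosure E)).PT m) → I2 ⊔ M = ⊤ →
        p ≠ 0 ∧ q ≠ 0 ∧ Ideal.span {q} * (I * (D.base (SeparableClosure E)).PT m) =
          Ideal.span {p} * I2 ∧ Ideal.span {p} ⊔ M = ⊤ ∧ Ideal.span {q} ⊔ M = ⊤ ∧
          (D.base (SeparableClosure E)).lead i0 p = (D.base (SeparableClosure E)).lead i0 q := by
    intro I2 m
    by_cases h : I2 ≠ ⊥ ∧ cl I2 = cl (I * (D.base (SeparableClosure E)).PT m) ∧ I2 ⊔ M = ⊤
    · obtain ⟨p, q, hpq⟩ := exists_pq' (D.base (SeparableClosure E)) i0 (M := M)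
        ((D.base (SeparableClosure E)).mul_ne hI ((D.base (SeparableClosure E)).PT_ne m)) h.1 h.2.1
        (copIPT m) h.2.2
      exact ⟨p, q, fun _ _ _ => hpq⟩
    · exact ⟨0, 0, fun h1 h3 h4 => absurd ⟨h1, h3, h4⟩ h⟩
  choose P Q hPQ using key
  set p : Jac.Gal E → (D.base (SeparableClosure E)).A := fun σ => P (D.mI (au σ) I) (r σ) with hp
  set q : Jac.Gal E → (D.base (SeparableClosure E)).A := fun σ => Q (D.mI (au σ) I) (r σ) with hq
  have hpq : ∀ σ : Jac.Gal E, p σ ≠ 0 ∧ q σ ≠ 0 ∧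
      Ideal.span {q σ} * (I * (D.base (SeparableClosure E)).PT (r σ)) =
        Ideal.span {p σ} * D.mI (au σ) I ∧ Ideal.span {p σ} ⊔ M = ⊤ ∧ Ideal.span {q σ} ⊔ M = ⊤ ∧
          (D.base (SeparableClosure E)).lead i0 (p σ) = (D.base (SeparableClosure E)).lead i0 (q σ) :=
    fun σ => hPQ _ _ (D.mI_ne _ hI) (hcl σ) (copF σ)
  have hevp : ∀ σ, ev (p σ) ≠ 0 := fun σ => hev0 _ (hpq σ).2.2.2.1
  have hevq : ∀ σ, ev (q σ) ≠ 0 := fun σ => hev0 _ (hpq σ).2.2.2.2.1
  -- the exponents
  have hy0 : ∀ i, θ i ≠ 0 := by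
    intro i h
    have h1 := hθ i
    rw [h, zero_pow D.pos.ne'] at h1
    exact (y i).ne_zero ((map_eq_zero_iff _ (algebraMap E (SeparableClosure E)).injective).1 h1.symm)
  have hn : ∀ (σ τ : Jac.Gal E) (i : Fin n), r σ i + r τ i =
      r (σ * τ) i + ℓ * ((r σ i + r τ i - r (σ * τ) i) / ℓ) := by
    intro σ τ i
    have hζ' : IsPrimitiveRoot (algebraMap E (SeparableClosure E) D.ζ) ℓ :=
      D.hζ.map_of_injective (algebraMap E (SeparableClosure E)).injective
    refine carry D.pos hζ' (hr (σ * τ) i) ?_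
    apply mul_right_cancel₀ (hy0 i)
    rw [← hθr, AlgEquiv.mul_apply, hθr τ, map_mul, map_pow, AlgEquiv.commutes, hθr σ, pow_add]
    ring
  -- the relation between the functions
  have hrel : ∀ (σ τ : Jac.Gal E) (m : Fin n → ℕ), (∀ i, r σ i + r τ i = r (σ * τ) i + ℓ * m i) →
      Ideal.span {q σ * D.mp (au σ) (q τ) * p (σ * τ) *
        algebraMap (SeparableClosure E)[X] (D.base (SeparableClosure E)).A
          (∏ i, (X - C ((D.base (SeparableClosure E)).e i)) ^ m i)} =
      Ideal.span {p σ * D.mp (au σ) (p τ) * q (σ * τ)} := by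
    intro σ τ m hm
    have e1 := (hpq σ).2.2.1
    have e2 := congrArg (D.mI (au σ)) (hpq τ).2.2.1
    have e3 := (hpq (σ * τ)).2.2.1
    rw [mI_mul, mI_mul, mI_mul, mI_span, mI_span, mI_PT, mI_mI] at e2
    have e4 : ((au σ : SeparableClosure E →ₐ[E] SeparableClosure E).comp (au τ)) = au (σ * τ) := rfl
    rw [e4] at e2
    have e5 := PT_mul (D.base (SeparableClosure E)) hm
    have hne : (I * (D.base (SeparableClosure E)).PT (r (σ * τ))) * D.mI (au σ) I ≠ ⊥ :=
      (D.base (SeparableClosure E)).mul_ne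
        ((D.base (SeparableClosure E)).mul_ne hI ((D.base (SeparableClosure E)).PT_ne _))
        (D.mI_ne _ hI)
    apply mul_right_cancel₀ hne
    simp only [← Ideal.span_singleton_mul_span_singleton]
    generalize D.mI (au σ) I = sI at *
    generalize D.mI (au (σ * τ)) I = stI at *
    generalize (D.base (SeparableClosure E)).PT (r (σ * τ)) = T' at *
    generalize (D.base (SeparableClosure E)).PT (r σ) = Ts at *
    generalize (D.base (SeparableClosure E)).PT (r τ) = Tt at *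
    generalize Ideal.span {algebraMap (SeparableClosure E)[X] (D.base (SeparableClosure E)).A
          (∏ i, (X - C ((D.base (SeparableClosure E)).e i)) ^ m i)} = N at *
    generalize Ideal.span {q σ} = qs at *
    generalize Ideal.span {p σ} = ps at *
    generalize Ideal.span {D.mp (au σ) (q τ)} = qt at *
    generalize Ideal.span {D.mp (au σ) (p τ)} = pt at *
    generalize Ideal.span {q (σ * τ)} = q' at *
    generalize Ideal.span {p (σ * τ)} = p' at *
    calc qs * qt * p' * N * (I * T' * sI) = (qs * I) * (T' * N) * (qt * sI) * p' := by ring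
      _ = (qs * I) * (Ts * Tt) * (qt * sI) * p' := by rw [e5]
      _ = (qs * (I * Ts)) * (qt * (sI * Tt)) * p' := by ring
      _ = (ps * sI) * (pt * stI) * p' := by rw [e1, e2]
      _ = ps * pt * sI * (p' * stI) := by ring
      _ = ps * pt * sI * (q' * (I * T')) := by rw [e3]
      _ = _ := by ring
  -- the constants
  set kap : Fin n → E := fun i => (D.base E).lam i0 (X - C (D.e i)) with hkap
  have hkap0 : ∀ i, kap i ≠ 0 := fun i => (D.base E).lam_ne i0 (X_sub_C_ne_zero _)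
  have hkapΩ : ∀ i, (D.base (SeparableClosure E)).lam i0
      (X - C ((D.base (SeparableClosure E)).e i)) = algebraMap E (SeparableClosure E) (kap i) := by
    intro i
    have h1 := D.lam_map (Algebra.ofId E (SeparableClosure E)) i0 (X_sub_C_ne_zero (D.e i))
    rw [Polynomial.map_sub, map_X, map_C] at h1
    exact h1
  set u : Fin n → E := fun i => (D.U J).eval (D.e i) with hu
  set d : ℕ := (D.U J).natDegree with hd
  have hevXi : ∀ i, ev (algebraMap (SeparableClosure E)[X] (D.base (SeparableClosure E)).A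
      (X - C ((D.base (SeparableClosure E)).e i))) =
      (-1) ^ d * algebraMap E (SeparableClosure E) (u i) := fun i => hevX (D.e i)
  have hu0 : ∀ i, u i ≠ 0 := by
    intro i h
    apply hev0 _ (copX i)
    rw [hevXi, h, map_zero, mul_zero]
  -- the core relation
  have core : ∀ (σ τ : Jac.Gal E) (m : Fin n → ℕ), (∀ i, r σ i + r τ i = r (σ * τ) i + ℓ * m i) →
      ev (q σ) * σ (ev (q τ)) * ev (p (σ * τ)) * algebraMap E (SeparableClosure E)
        (∏ i, ((-1) ^ d * u i) ^ m i) = ev (p σ) * σ (ev (p τ)) * ev (q (σ * τ)) *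
        algebraMap E (SeparableClosure E) (∏ i, (kap i ^ d) ^ m i) := by
    intro σ τ m hm
    have h1 := hrel σ τ m hm
    rw [Ideal.span_singleton_eq_span_singleton] at h1
    obtain ⟨v, hv⟩ := h1
    obtain ⟨κ, hκ, hvκ⟩ := (D.base (SeparableClosure E)).unit_const v.isUnit
    rw [hvκ] at hv
    have hκA := (D.base (SeparableClosure E)).alg_ne (C_ne_zero.2 hκ)
    have nqs := (hpq σ).2.1
    have nps := (hpq σ).1
    have nqt := D.mp_ne (au σ) (hpq τ).2.1
    have npt := D.mp_ne (au σ) (hpq τ).1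
    have nq' := (hpq (σ * τ)).2.1
    have np' := (hpq (σ * τ)).1
    have hV0 : ∏ i, (X - C ((D.base (SeparableClosure E)).e i)) ^ m i ≠ 0 :=
      Finset.prod_ne_zero_iff.2 fun i _ => pow_ne_zero _ (X_sub_C_ne_zero _)
    have nV := (D.base (SeparableClosure E)).alg_ne hV0
    -- leading coefficients
    have hlead := congrArg ((D.base (SeparableClosure E)).lead i0) hv
    rw [(D.base (SeparableClosure E)).lead_mul i0
        (mul_ne_zero (mul_ne_zero (mul_ne_zero nqs nqt) np') nV) hκA,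
      (D.base (SeparableClosure E)).lead_mul i0 (mul_ne_zero (mul_ne_zero nqs nqt) np') nV,
      (D.base (SeparableClosure E)).lead_mul i0 (mul_ne_zero nqs nqt) np',
      (D.base (SeparableClosure E)).lead_mul i0 nqs nqt,
      (D.base (SeparableClosure E)).lead_mul i0 (mul_ne_zero nps npt) nq',
      (D.base (SeparableClosure E)).lead_mul i0 nps npt,
      (D.base (SeparableClosure E)).lead_C i0 hκ, D.lead_mp _ i0 (hpq τ).1,
      D.lead_mp _ i0 (hpq τ).2.1, (hpq σ).2.2.2.2.2, (hpq τ).2.2.2.2.2,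
      (hpq (σ * τ)).2.2.2.2.2] at hlead
    have hlam : (D.base (SeparableClosure E)).lead i0 (algebraMap (SeparableClosure E)[X]
        (D.base (SeparableClosure E)).A (∏ i, (X - C ((D.base (SeparableClosure E)).e i)) ^ m i)) =
        algebraMap E (SeparableClosure E) (∏ i, kap i ^ m i) := by
      show (D.base (SeparableClosure E)).lam i0 _ = _
      rw [lam_prod _ _ _ _ fun k => X_sub_C_ne_zero _, map_prod]
      exact Finset.prod_congr rfl fun i _ => by rw [hkapΩ, map_pow]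
    rw [hlam] at hlead
    have hκ1 : algebraMap E (SeparableClosure E) (∏ i, kap i ^ m i) * κ = 1 := by
      have n1 := (D.base (SeparableClosure E)).lead_ne (i := i0) nqs
      have n2 : (au σ : SeparableClosure E →ₐ[E] SeparableClosure E)
          ((D.base (SeparableClosure E)).lead i0 (q τ)) ≠ 0 :=
        (_root_.map_ne_zero _).2 ((D.base (SeparableClosure E)).lead_ne (i := i0) (hpq τ).2.1)
      have n3 := (D.base (SeparableClosure E)).lead_ne (i := i0) nq'
      apply mul_left_cancel₀ (mul_ne_zero (mul_ne_zero n1 n2) n3)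
      linear_combination hlead
    -- evaluation
    have hevv := congrArg ev hv
    rw [map_mul, map_mul, map_mul, map_mul, map_mul, map_mul, hevs, hevs, hevC] at hevv
    have hevV : ev (algebraMap (SeparableClosure E)[X] (D.base (SeparableClosure E)).A
        (∏ i, (X - C ((D.base (SeparableClosure E)).e i)) ^ m i)) =
        algebraMap E (SeparableClosure E) (∏ i, ((-1) ^ d * u i) ^ m i) := by
      rw [map_prod (algebraMap (SeparableClosure E)[X] (D.base (SeparableClosure E)).A),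
        map_prod ev, map_prod]
      refine Finset.prod_congr rfl fun i _ => ?_
      rw [map_pow, map_pow ev, hevXi, map_pow, map_mul, map_pow, map_neg, map_one]
    rw [hevV] at hevv
    have hκd : algebraMap E (SeparableClosure E) (∏ i, (kap i ^ d) ^ m i) * κ ^ d = 1 := by
      have h3 : ∏ i, (kap i ^ d) ^ m i = (∏ i, kap i ^ m i) ^ d := by
        rw [← Finset.prod_pow]
        exact Finset.prod_congr rfl fun i _ => by rw [← pow_mul, ← pow_mul, mul_comm]
      rw [h3, map_pow, ← mul_pow, hκ1, one_pow]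
    rw [← hevv]
    generalize algebraMap E (SeparableClosure E) (∏ i, (kap i ^ d) ^ m i) = K1 at *
    generalize algebraMap E (SeparableClosure E) (∏ i, ((-1) ^ d * u i) ^ m i) = K2 at *
    calc _ = ev (q σ) * σ (ev (q τ)) * ev (p (σ * τ)) * K2 * (K1 * κ ^ d) := by
          rw [hκd, mul_one]
      _ = _ := by ring
  -- the element `x`
  obtain ⟨a, a', ha, ha', haa⟩ := (cl_eq_iff hIx hJ).1 hJc.symm
  obtain ⟨t', ht', hlr⟩ := lam_rel D h2 ha ha' hIx hJ haa
  choose z hz using hxz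
  set w : Fin n → E := fun i => (z i : E) * D.lead i a / D.lead i a' with hw
  set c : E := ((t : E) * t')⁻¹ with hc
  have hc0 : c ≠ 0 := inv_ne_zero (mul_ne_zero t.ne_zero ht')
  have hw0 : ∀ i, w i ≠ 0 := fun i =>
    div_ne_zero (mul_ne_zero (z i).ne_zero (D.lead_ne ha)) (D.lead_ne ha')
  have hxu : ∀ i, (x i : E) * u i = c * w i ^ ℓ := by
    intro i
    have h3 := hlr i
    rw [D.lam_of_eval i (V := D.U J) (hu0 i)] at h3
    have h4 := hz i
    have n1 : (t : E) * t' ≠ 0 := mul_ne_zero t.ne_zero ht'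
    have n2 : D.lead i a' ^ ℓ ≠ 0 := pow_ne_zero _ (D.lead_ne ha')
    rw [hc, hw]
    simp only
    rw [div_pow, mul_pow, ← h4, eq_inv_mul_iff_mul_eq₀ n1, eq_div_iff n2]
    show (t : E) * t' * ((x i : E) * (D.U J).eval (D.e i)) * D.lead i a' ^ ℓ = _
    linear_combination (-(x i : E) * t) * h3
  obtain ⟨d', hd'⟩ := hJd
  set s : Fin n → E := fun i => (-1) ^ d' * kap i ^ d' with hs
  have hs0 : ∀ i, s i ≠ 0 := fun i => mul_ne_zero (pow_ne_zero _ (neg_ne_zero.2 one_ne_zero))
    (pow_ne_zero _ (hkap0 i))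
  have hsl : ∀ i, s i ^ ℓ = (-1) ^ d * kap i ^ d := by
    intro i
    show ((-1) ^ d' * kap i ^ d') ^ ℓ = _
    rw [hd', mul_comm ℓ d', pow_mul (-1 : E), pow_mul (kap i), mul_pow]
  choose k hk using hsum
  -- the cochain
  set b0 : Jac.Gal E → SeparableClosure E := fun σ => ev (q σ) / ev (p σ) with hb0
  have hb0ne : ∀ σ, b0 σ ≠ 0 := fun σ => div_ne_zero (hevq σ) (hevp σ)
  have hb0rel : ∀ (σ τ : Jac.Gal E), b0 σ * σ (b0 τ) = b0 (σ * τ) *
      algebraMap E (SeparableClosure E)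
        (∏ i, (s i ^ ℓ / u i) ^ ((r σ i + r τ i - r (σ * τ) i) / ℓ)) := by
    intro σ τ
    have h3 := core σ τ (fun i => (r σ i + r τ i - r (σ * τ) i) / ℓ) (hn σ τ)
    generalize hm : (fun i => (r σ i + r τ i - r (σ * τ) i) / ℓ) = m at h3
    have hm' : ∀ i, (r σ i + r τ i - r (σ * τ) i) / ℓ = m i := fun i => congrFun hm i
    simp only [hm'] at h3 ⊢
    have h4 : ∏ i, (s i ^ ℓ / u i) ^ m i =
        (∏ i, (kap i ^ d) ^ m i) / (∏ i, ((-1) ^ d * u i) ^ m i) := by
      rw [← Finset.prod_div_distrib]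
      refine Finset.prod_congr rfl fun i _ => ?_
      rw [hsl, ← div_pow]
      congr 1
      have n1 := hu0 i
      have n2 : ((-1 : E)) ^ d ≠ 0 := pow_ne_zero _ (neg_ne_zero.2 one_ne_zero)
      rw [div_eq_div_iff n1 (mul_ne_zero n2 n1)]
      have n3 : ((-1 : E)) ^ d * (-1) ^ d = 1 := by
        rw [← mul_pow, neg_mul_neg, one_mul, one_pow]
      linear_combination (kap i ^ d * u i) * n3
    have n4 : algebraMap E (SeparableClosure E) (∏ i, ((-1) ^ d * u i) ^ m i) ≠ 0 :=
      (_root_.map_ne_zero _).2 (Finset.prod_ne_zero_iff.2 fun i _ => pow_ne_zero _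
        (mul_ne_zero (pow_ne_zero _ (neg_ne_zero.2 one_ne_zero)) (hu0 i)))
    have n5 : σ (ev (p τ)) ≠ 0 := (_root_.map_ne_zero _).2 (hevp τ)
    rw [h4, map_div₀ (algebraMap E (SeparableClosure E))]
    show ev (q σ) / ev (p σ) * σ (ev (q τ) / ev (p τ)) = ev (q (σ * τ)) / ev (p (σ * τ)) * _
    rw [map_div₀, div_mul_div_comm, div_mul_div_comm,
      div_eq_div_iff (mul_ne_zero (hevp σ) n5) (mul_ne_zero (hevp _) n4)]
    linear_combination h3
  set bE : Jac.Gal E → E := fun σ => c ^ k σ * ∏ i, (w i / s i) ^ r σ i with hbE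
  have hbE0 : ∀ σ, bE σ ≠ 0 := fun σ => mul_ne_zero (pow_ne_zero _ hc0)
    (Finset.prod_ne_zero_iff.2 fun i _ => pow_ne_zero _ (div_ne_zero (hw0 i) (hs0 i)))
  refine ⟨θ, r, fun σ => Units.mk0 (b0 σ * algebraMap E (SeparableClosure E) (bE σ))
    (mul_ne_zero (hb0ne σ) ((_root_.map_ne_zero _).2 (hbE0 σ))), hθ, hθr, hr, ?_, ?_⟩
  · -- locally constant
    have hpair : IsLocallyConstant (fun σ : Jac.Gal E => (D.mI (au σ) I, r σ)) :=
      (D.mI_locConst I).prodMk hrl
    have hkr : ∀ σ, k σ = (∑ i, r σ i) / ℓ := fun σ => by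
      rw [hk σ, Nat.mul_div_cancel_left _ D.pos]
    have h5 := hpair.comp (fun a => if h : (ev (Q a.1 a.2) / ev (P a.1 a.2) *
      algebraMap E (SeparableClosure E) (c ^ ((∑ i, a.2 i) / ℓ) *
        ∏ i, (w i / s i) ^ a.2 i)) = 0 then (1 : (SeparableClosure E)ˣ) else Units.mk0 _ h)
    convert h5 using 1
    funext σ
    apply Units.ext
    have hne : (ev (Q (D.mI (au σ) I) (r σ)) / ev (P (D.mI (au σ) I) (r σ)) *
      algebraMap E (SeparableClosure E) (c ^ ((∑ i, r σ i) / ℓ) *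
        ∏ i, (w i / s i) ^ r σ i)) ≠ 0 := by
      rw [← hkr σ]
      exact mul_ne_zero (hb0ne σ) ((_root_.map_ne_zero _).2 (hbE0 σ))
    simp only [Function.comp_apply]
    rw [dif_neg hne, Units.val_mk0, Units.val_mk0, ← hkr σ]
  · -- the cocycle relation
    intro σ τ
    simp only [Units.val_mk0]
    have h5 := field_id (F := E) (ℓ := ℓ) (x := fun i => (x i : E)) (u := u) (s := s) (w := w)
      (c := c) (n := fun i => (r σ i + r τ i - r (σ * τ) i) / ℓ) (a := r σ) (b := r τ)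
      (e := r (σ * τ)) (ka := k σ) (kb := k τ) (ke := k (σ * τ)) hs0 hu0 hxu (hn σ τ) (by
        apply Nat.eq_of_mul_eq_mul_left D.pos
        rw [mul_add, mul_add, ← hk, ← hk, ← hk, Finset.mul_sum, ← Finset.sum_add_distrib,
          ← Finset.sum_add_distrib]
        exact Finset.sum_congr rfl fun i _ => hn σ τ i)
    have h6 := congrArg (algebraMap E (SeparableClosure E)) h5
    rw [map_mul (algebraMap E (SeparableClosure E)), map_mul (algebraMap E (SeparableClosure E)) _ (_ * _),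
      map_mul (algebraMap E (SeparableClosure E)) (c ^ k σ * _)] at h6
    rw [map_mul σ, AlgEquiv.commutes]
    have h7 := hb0rel σ τ
    show algebraMap E (SeparableClosure E) (∏ i, (x i : E) ^ ((r σ i + r τ i - r (σ * τ) i) / ℓ)) *
      (b0 (σ * τ) * algebraMap E (SeparableClosure E) (c ^ k (σ * τ) *
        ∏ i, (w i / s i) ^ r (σ * τ) i)) =
      b0 σ * algebraMap E (SeparableClosure E) (c ^ k σ * ∏ i, (w i / s i) ^ r σ i) *
        (σ (b0 τ) * algebraMap E (SeparableClosure E) (c ^ k τ * ∏ i, (w i / s i) ^ r τ i))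
    calc _ = b0 (σ * τ) * (algebraMap E (SeparableClosure E)
          (∏ i, (x i : E) ^ ((r σ i + r τ i - r (σ * τ) i) / ℓ)) *
          algebraMap E (SeparableClosure E) (c ^ k (σ * τ) * ∏ i, (w i / s i) ^ r (σ * τ) i)) := by
          ring
      _ = _ := by rw [h6, ← mul_assoc, ← h7]; ring

end Pool.Agent.T3h73.SN.ISE
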