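import Pool.Agent.T3h73.SN.Stm

/-! Task LCV: basic properties of the image of the descent map. -/

set_option autoImplicit false
set_option linter.all false

open Polynomial

namespace Pool.Agent.T3h73.SN.LCV

open Pool.Agent.T3h73.SL (IsP)
open Pool.Agent.T3h73.SN Pool.Agent.Y713.SE Pool.Agent.Y713.SE.Dat

section
variable {ℓ n : ℕ} {E : Type} [Field E] (D : Dat ℓ n E)

lemma isP_mul {G : Type} [CommMonoid G] {x y : G} (hx : IsP ℓ x) (hy : IsP ℓ y) :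
    IsP ℓ (x * y) := by
  obtain ⟨a, rfl⟩ := hx
  obtain ⟨b, rfl⟩ := hy
  exact ⟨a * b, (mul_pow _ _ _).symm⟩

lemma gu_self (i : Fin n) : gu D i i = 1 := by
  unfold gu; rw [dif_pos rfl]

lemma gu_ne {i j : Fin n} (h : i ≠ j) : (gu D i j : E) = D.e i - D.e j := by
  unfold gu; rw [dif_neg h, Units.val_mk0]

lemma gu_neg {i j : Fin n} (h : i ≠ j) : gu D j i = -gu D i j := by
  apply Units.ext
  rw [Units.val_neg, gu_ne D h, gu_ne D h.symm]; ring

/-- the cofactor as a unit -/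
noncomputable def geU (i : Fin n) : Eˣ := δu D * ∏ j, gu D i j

lemma geU_val (i : Fin n) : (geU D i : E) = D.ge i := by
  unfold geU δu ge
  rw [Units.val_mul, Units.val_mk0, D.g_eval, Units.coe_prod]
  congr 1
  rw [← Finset.mul_prod_erase Finset.univ (fun j => (gu D i j : E)) (Finset.mem_univ i),
    gu_self, Units.val_one, one_mul]
  exact Finset.prod_congr rfl fun j hj => gu_ne D (Finset.ne_of_mem_erase hj).symm

lemma lam_prod (i : Fin n) (s : Finset (Fin n)) {F : Fin n → E[X]} (h : ∀ j, F j ≠ 0) :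
    D.lam i (∏ j ∈ s, F j) = ∏ j ∈ s, D.lam i (F j) := by
  classical
  induction s using Finset.induction_on with
  | empty => rw [Finset.prod_empty, Finset.prod_empty, D.lam_one]
  | insert a s ha ih =>
    rw [Finset.prod_insert ha, Finset.prod_insert ha, D.lam_mul i (h a)
      (Finset.prod_ne_zero_iff.2 fun j _ => h j), ih]

lemma lam_PT (m : Fin n → ℕ) (i : Fin n) :
    D.lam i (D.U (D.PT m)) = (((geU D i)⁻¹ ^ m i * ∏ k, gu D i k ^ m k : Eˣ) : E) := by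
  rw [D.U_PT, lam_prod D i _ fun k => pow_ne_zero _ (X_sub_C_ne_zero _),
    ← Finset.mul_prod_erase Finset.univ _ (Finset.mem_univ i),
    ← Finset.mul_prod_erase Finset.univ (fun k => gu D i k ^ m k) (Finset.mem_univ i),
    gu_self, one_pow, one_mul, D.lam_pow i (X_sub_C_ne_zero _), D.lam_X_sub_C_self,
    Units.val_mul, Units.val_pow_eq_pow_val, Units.val_inv_eq_inv_val, geU_val, Units.coe_prod]
  congr 1
  refine Finset.prod_congr rfl fun k hk => ?_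
  have h := (Finset.ne_of_mem_erase hk).symm
  rw [D.lam_pow i (X_sub_C_ne_zero _), D.lam_X_sub_C_ne h, Units.val_pow_eq_pow_val, gu_ne D h]

theorem lam_tor (m : Fin n → ℕ) (i : Fin n) :
    D.lam i (D.U (D.PT m)) * (tor D (fun k => (m k : ℤ)) i : E) = 1 := by
  rw [lam_PT, ← Units.val_mul, ← Units.val_one]
  congr 1
  unfold tor geU
  have h1 : ∏ j, gu D i j ^ ((m i : ℤ) - m j) =
      (∏ j, gu D i j) ^ m i * (∏ j, gu D i j ^ m j)⁻¹ := by
    rw [← Finset.prod_pow, ← Finset.prod_inv_distrib, ← Finset.prod_mul_distrib]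
    refine Finset.prod_congr rfl fun j _ => ?_
    rw [zpow_sub, zpow_natCast, zpow_natCast]
  rw [h1, zpow_natCast, inv_pow, mul_pow]
  generalize ∏ j, gu D i j ^ m j = a
  generalize (∏ j, gu D i j) ^ m i = b
  generalize δu D ^ m i = c
  calc (c * b)⁻¹ * a * (c * (b * a⁻¹)) = (c * b)⁻¹ * (c * b) * (a * a⁻¹) := by
        simp only [mul_comm, mul_left_comm, mul_assoc]
    _ = 1 := by rw [inv_mul_cancel, mul_inv_cancel, one_mul]

lemma tor_add (c c' : Fin n → ℤ) : tor D (c + c') = tor D c * tor D c' := by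
  funext i
  rw [Pi.mul_apply]
  unfold tor
  have h1 : ∀ j, gu D i j ^ ((c + c') i - (c + c') j) =
      gu D i j ^ (c i - c j) * gu D i j ^ (c' i - c' j) := by
    intro j
    rw [← zpow_add]
    congr 1
    rw [Pi.add_apply, Pi.add_apply]; ring
  rw [Finset.prod_congr rfl fun j _ => h1 j, Finset.prod_mul_distrib, Pi.add_apply, zpow_add]
  rw [mul_mul_mul_comm]

lemma tor_ell (k : ℕ) (q : Fin n → ℤ) (i : Fin n) :
    tor D (fun j => (k : ℤ) * q j) i = tor D q i ^ k := by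
  unfold tor
  rw [mul_pow, ← Finset.prod_pow]
  congr 1
  · show δu D ^ ((k : ℤ) * q i) = _
    rw [mul_comm (k : ℤ), zpow_mul, zpow_natCast]
  · refine Finset.prod_congr rfl fun j _ => ?_
    show gu D i j ^ ((k : ℤ) * q i - (k : ℤ) * q j) = _
    rw [← mul_sub, mul_comm (k : ℤ), zpow_mul, zpow_natCast]

/-- an element with fourth power one is an `ℓ`-th power -/
lemma isP_of_four {G : Type} [CommGroup G] (hℓ : ℓ.Prime) (h2 : ℓ ≠ 2) {x : G} (h : x ^ 4 = 1) :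
    IsP ℓ x := by
  have hc : IsCoprime (ℓ : ℤ) (4 : ℤ) := by
    have : Nat.Coprime ℓ (2 ^ 2) := Nat.Coprime.pow_right 2
      ((Nat.coprime_primes hℓ Nat.prime_two).2 h2)
    have h3 := Nat.isCoprime_iff_coprime.2 this
    exact_mod_cast h3
  obtain ⟨a, b, hab⟩ := hc
  refine ⟨x ^ a, ?_⟩
  have h4 : x ^ (4 : ℤ) = 1 := by
    have : x ^ ((4 : ℕ) : ℤ) = 1 := by rw [zpow_natCast, h]
    exact_mod_cast this
  calc x = x ^ (a * (ℓ : ℤ) + b * 4) := by rw [hab, zpow_one]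
    _ = (x ^ a) ^ ℓ * (x ^ (4 : ℤ)) ^ b := by
        rw [zpow_add, zpow_mul, zpow_natCast, mul_comm b, zpow_mul]
    _ = _ := by rw [h4, one_zpow, mul_one]

theorem prod_tor (h2 : ℓ ≠ 2) (c : Fin n → ℤ) (hc : (ℓ : ℤ) ∣ ∑ i, c i) : IsP ℓ (∏ i, tor D c i) := by
  unfold tor
  rw [Finset.prod_mul_distrib]
  apply isP_mul
  · obtain ⟨k, hk⟩ := hc
    have h3 : ∏ i, δu D ^ c i = δu D ^ (∑ i, c i) := by
      have h4 : ∀ s : Finset (Fin n), ∏ i ∈ s, δu D ^ c i = δu D ^ (∑ i ∈ s, c i) := by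
        classical
        intro s
        induction s using Finset.induction_on with
        | empty => rw [Finset.prod_empty, Finset.sum_empty, zpow_zero]
        | insert a s ha ih => rw [Finset.prod_insert ha, Finset.sum_insert ha, zpow_add, ih]
      exact h4 _
    refine ⟨δu D ^ k, ?_⟩
    rw [h3, hk, mul_comm (ℓ : ℤ), zpow_mul, zpow_natCast]
  · apply isP_of_four D.hp h2
    set P := ∏ i, ∏ j, gu D i j ^ (c i - c j) with hP
    have hPP : P * P = ∏ i, ∏ j, (gu D i j ^ (c i - c j) * gu D j i ^ (c j - c i)) := by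
      have h3 : P = ∏ i, ∏ j, gu D j i ^ (c j - c i) := by
        rw [hP, Finset.prod_comm]
      conv_lhs => 
        rw [hP]
        arg 2
        rw [← hP, h3]
      rw [← Finset.prod_mul_distrib]
      exact Finset.prod_congr rfl fun i _ => Finset.prod_mul_distrib.symm
    have h4 : (P * P) ^ 2 = 1 := by
      rw [hPP, ← Finset.prod_pow]
      refine Finset.prod_eq_one fun i _ => ?_
      rw [← Finset.prod_pow]
      refine Finset.prod_eq_one fun j _ => ?_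
      by_cases hij : i = j
      · subst hij
        rw [gu_self, one_zpow, mul_one, one_pow]
      · rw [gu_neg D hij]
        have h5 : c j - c i = -(c i - c j) := by ring
        rw [h5]
        generalize c i - c j = a
        generalize gu D i j = g
        have h6 : (g ^ a * (-g) ^ (-a)) ^ 2 = ((g ^ 2) ^ a) * ((((-g) ^ 2) ^ a)⁻¹) := by
          rw [mul_pow, zpow_neg, inv_pow, ← zpow_natCast (g ^ a), ← zpow_natCast ((-g) ^ a),
            ← zpow_mul, ← zpow_mul, mul_comm a, zpow_mul, zpow_mul, zpow_natCast, zpow_natCast]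
        rw [h6, neg_sq, mul_inv_cancel]
    calc P ^ 4 = (P * P) ^ 2 := by rw [← pow_two, ← pow_mul]
      _ = 1 := h4

theorem mem_mul {x y : Fin n → Eˣ} (hx : x ∈ Lcv D) (hy : y ∈ Lcv D) : x * y ∈ Lcv D := by
  obtain ⟨hx1, I, t, hI, hx2⟩ := hx
  obtain ⟨hy1, J, u, hJ, hy2⟩ := hy
  refine ⟨?_, I * J, t * u, D.mul_ne hI hJ, fun i => ?_⟩
  · have : ∏ i, (x * y) i = (∏ i, x i) * ∏ i, y i := by
      rw [← Finset.prod_mul_distrib]; rfl
    rw [this]
    exact isP_mul hx1 hy1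
  · obtain ⟨a, ha⟩ := hx2 i
    obtain ⟨b, hb⟩ := hy2 i
    refine ⟨a * b, ?_⟩
    rw [D.U_mul hI hJ, D.lam_mul i (D.U_ne _) (D.U_ne _), Pi.mul_apply, Units.val_mul,
      Units.val_mul, Units.val_mul, mul_pow, ← ha, ← hb]
    ring

theorem mem_pow {x : Fin n → Eˣ} (hx : ∀ i, IsP ℓ (x i)) : x ∈ Lcv D := by
  choose z hz using hx
  refine ⟨⟨∏ i, z i, ?_⟩, ⊤, 1, top_ne_bot, fun i => ⟨z i, ?_⟩⟩
  · rw [Finset.prod_congr rfl fun i _ => hz i, Finset.prod_pow]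
  · rw [D.U_top, D.lam_one, mul_one, Units.val_one, mul_one, hz i, Units.val_pow_eq_pow_val]

theorem mem_tor (h2 : ℓ ≠ 2) (c : Fin n → ℤ) (hc : (ℓ : ℤ) ∣ ∑ i, c i) : tor D c ∈ Lcv D := by
  have hℓ0 : (ℓ : ℤ) ≠ 0 := by exact_mod_cast D.pos.ne'
  set m : Fin n → ℕ := fun i => (c i % ℓ).toNat with hm
  set q : Fin n → ℤ := fun i => c i / ℓ with hq
  have hmc : ∀ i, (m i : ℤ) = c i % ℓ := fun i => Int.toNat_of_nonneg (Int.emod_nonneg _ hℓ0)
  have hcm : c = (fun k => (m k : ℤ)) + fun j => (ℓ : ℤ) * q j := by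
    funext i
    rw [Pi.add_apply, hmc i]
    exact (Int.emod_add_mul_ediv (c i) ℓ).symm
  have hsum : (ℓ : ℤ) ∣ ∑ i, (m i : ℤ) := by
    have h3 : ∑ i, c i = ∑ i, (m i : ℤ) + ℓ * ∑ j, q j := by
      conv_lhs => rw [hcm]
      rw [Finset.mul_sum, ← Finset.sum_add_distrib]
      rfl
    rw [h3] at hc
    exact (Int.dvd_add_left (dvd_mul_right _ _)).1 hc
  rw [hcm, tor_add]
  refine mem_mul D ⟨prod_tor D h2 _ hsum, D.PT m, 1, D.PT_ne m, fun i => ⟨1, ?_⟩⟩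
    (mem_pow D fun i => ⟨tor D q i, ?_⟩)
  · rw [mul_comm (tor D (fun k => (m k : ℤ)) i : E), lam_tor, Units.val_one, mul_one, one_pow]
  · exact tor_ell D ℓ q i

end

section
variable {ℓ n : ℕ} {E : Type} [Field E] (D D' : Dat ℓ n E) {z : E}

lemma ge_tw (he : D'.e = D.e) (hδ : D'.δ = D.δ * z ^ ℓ) (i : Fin n) : D'.ge i = D.ge i * z ^ ℓ := by
  unfold ge
  rw [D'.g_eval, D.g_eval, he, hδ]; ring

lemma lam_tw (he : D'.e = D.e) (hz : z ≠ 0) (hδ : D'.δ = D.δ * z ^ ℓ) (i : Fin n) {V : E[X]}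
    (hV : V ≠ 0) : ∃ w : Eˣ, D'.lam i V = D.lam i V * (w : E) ^ ℓ := by
  obtain ⟨V0, hV0, hV1⟩ := exists_eq_pow_rootMultiplicity_mul_and_not_dvd V hV (D.e i)
  set k := rootMultiplicity (D.e i) V
  rw [dvd_iff_isRoot, IsRoot.def] at hV1
  have hV00 : V0 ≠ 0 := by rintro rfl; exact hV1 eval_zero
  have hX : (X - C (D.e i) : E[X]) ^ k ≠ 0 := pow_ne_zero _ (X_sub_C_ne_zero _)
  refine ⟨((Units.mk0 z hz) ^ k)⁻¹, ?_⟩
  have h1 : D.lam i V = (D.ge i)⁻¹ ^ k * V0.eval (D.e i) := by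
    rw [hV0, D.lam_mul i hX hV00, D.lam_pow i (X_sub_C_ne_zero _), D.lam_X_sub_C_self,
      D.lam_of_eval i hV1]
  have h2 : D'.lam i V = (D'.ge i)⁻¹ ^ k * V0.eval (D.e i) := by
    have hei : D'.e i = D.e i := by rw [he]
    have hV1' : V0.eval (D'.e i) ≠ 0 := by rw [hei]; exact hV1
    rw [hV0, D'.lam_mul i hX hV00, ← hei, D'.lam_pow i (X_sub_C_ne_zero _), D'.lam_X_sub_C_self,
      D'.lam_of_eval i hV1']
  rw [h1, h2, ge_tw D D' he hδ i, Units.val_inv_eq_inv_val, Units.val_pow_eq_pow_val, Units.val_mk0,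
    mul_inv, mul_pow, inv_pow, inv_pow, inv_pow, ← pow_mul, ← pow_mul, mul_comm ℓ k]
  ring

/-- the map `y ↦ z⁻¹ y'` -/
noncomputable def iso (he : D'.e = D.e) (hz : z ≠ 0) (hδ : D'.δ = D.δ * z ^ ℓ) : D.A →ₐ[E[X]] D'.A :=
  AdjoinRoot.liftAlgHom _ (Algebra.ofId _ _) (algebraMap E[X] _ (C z⁻¹) * D'.y) (by
    show eval₂ (algebraMap E[X] D'.A) _ _ = 0
    have hf : D'.f = C (z ^ ℓ) * D.f := by
      unfold Dat.f
      rw [he, hδ, C_mul]; ring
    have hf2 : C z⁻¹ ^ ℓ * D'.f = D.f := by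
      rw [hf, ← C_pow, ← mul_assoc, ← C_mul, inv_pow, inv_mul_cancel₀ (pow_ne_zero _ hz), C_1,
        one_mul]
    rw [eval₂_sub, eval₂_pow, eval₂_X, eval₂_C, mul_pow, D'.y_pow, ← map_pow, ← map_mul, hf2,
      sub_self])

lemma iso_y (he : D'.e = D.e) (hz : z ≠ 0) (hδ : D'.δ = D.δ * z ^ ℓ) :
    iso D D' he hz hδ D.y = algebraMap E[X] _ (C z⁻¹) * D'.y := by
  unfold iso Dat.y yy
  exact AdjoinRoot.liftAlgHom_root ..

lemma iso_surj (he : D'.e = D.e) (hz : z ≠ 0) (hδ : D'.δ = D.δ * z ^ ℓ) :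
    Function.Surjective (iso D D' he hz hδ) := by
  intro a
  refine ⟨∑ j : Fin ℓ, (D'.c j a * C (z ^ (j : ℕ))) • D.y ^ (j : ℕ), ?_⟩
  conv_rhs => rw [← D'.sum_c a]
  rw [map_sum]
  refine Finset.sum_congr rfl fun j _ => ?_
  have h1 : iso D D' he hz hδ (D.y ^ (j : ℕ)) =
      algebraMap E[X] D'.A (C (z⁻¹ ^ (j : ℕ))) * D'.y ^ (j : ℕ) := by
    refine (map_pow _ _ _).trans ?_
    rw [iso_y, mul_pow, ← map_pow, ← C_pow]
  rw [map_smul, h1, Algebra.smul_def, Algebra.smul_def,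
    map_mul, mul_assoc, ← mul_assoc (algebraMap E[X] D'.A (C (z ^ (j : ℕ)))), ← map_mul, ← C_mul,
    inv_pow, mul_inv_cancel₀ (pow_ne_zero _ hz), C_1, map_one, one_mul]

lemma iso_inj (he : D'.e = D.e) (hz : z ≠ 0) (hδ : D'.δ = D.δ * z ^ ℓ) :
    Function.Injective (iso D D' he hz hδ) := by
  rw [injective_iff_map_eq_zero]
  intro a ha
  by_contra h0
  have h1 : iso D D' he hz hδ (algebraMap E[X] D.A (D.Nm a)) = 0 := by
    obtain ⟨b, hb⟩ := D.dvd_Nm a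
    rw [hb, map_mul, ha, zero_mul]
  rw [AlgHom.commutes] at h1
  exact D'.alg_ne (D.Nm_ne h0) h1

lemma iso_s (he : D'.e = D.e) (hζ : D'.ζ = D.ζ) (hz : z ≠ 0) (hδ : D'.δ = D.δ * z ^ ℓ) (j : ℕ)
    (a : D.A) : iso D D' he hz hδ (D.s j a) = D'.s j (iso D D' he hz hδ a) := by
  have key : (iso D D' he hz hδ).comp ((D.s j : D.A ≃ₐ[E[X]] D.A) : D.A →ₐ[E[X]] D.A) =
      ((D'.s j : D'.A ≃ₐ[E[X]] D'.A) : D'.A →ₐ[E[X]] D'.A).comp (iso D D' he hz hδ) := by
    apply AdjoinRoot.algHom_ext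
    show iso D D' he hz hδ (D.s j D.y) = D'.s j (iso D D' he hz hδ D.y)
    rw [D.s_y, iso_y]
    have e1 : iso D D' he hz hδ (algebraMap E[X] D.A (C (D.ζ ^ j)) * D.y) =
        algebraMap E[X] D'.A (C (D.ζ ^ j)) * (algebraMap E[X] D'.A (C z⁻¹) * D'.y) := by
      refine (map_mul _ _ _).trans ?_
      rw [iso_y, AlgHom.commutes]
    have e2 : D'.s j (algebraMap E[X] D'.A (C z⁻¹) * D'.y) =
        algebraMap E[X] D'.A (C z⁻¹) * (algebraMap E[X] D'.A (C (D'.ζ ^ j)) * D'.y) := by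
      refine (map_mul _ _ _).trans ?_
      rw [D'.s_y, AlgEquiv.commutes]
    rw [e1, e2, hζ]
    ring
  exact DFunLike.congr_fun key a

theorem map_tw (he : D'.e = D.e) (hζ : D'.ζ = D.ζ) (hz : z ≠ 0) (hδ : D'.δ = D.δ * z ^ ℓ)
    {I : Ideal D.A} (hI : I ≠ ⊥) :
    ∃ I' : Ideal D'.A, I' ≠ ⊥ ∧ D'.U I' = D.U I := by
  set φ := iso D D' he hz hδ with hφ
  have hs := iso_surj D D' he hz hδ
  have hi := iso_inj D D' he hz hδ
  have hI' : I.map φ ≠ ⊥ := fun h => hI ((Ideal.map_eq_bot_iff_of_injective (f := (φ : D.A →+* D'.A)) hi).1 h)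
  refine ⟨I.map φ, hI', D'.U_eq_of (D.U_monic I) ?_⟩
  have h1 : ∀ j, D'.sI j (I.map φ) = (D.sI j I).map φ := by
    intro j
    apply le_antisymm
    · intro b hb
      obtain ⟨c, hc, rfl⟩ := D'.mem_sI.1 hb
      obtain ⟨d, hd, rfl⟩ := (Ideal.mem_map_iff_of_surjective (φ : D.A →+* D'.A) hs).1 hc
      show D'.s j (φ d) ∈ _
      rw [← iso_s D D' he hζ hz hδ]
      exact Ideal.mem_map_of_mem _ (D.mem_sI.2 ⟨d, hd, rfl⟩)
    · intro b hb
      obtain ⟨c, hc, rfl⟩ := (Ideal.mem_map_iff_of_surjective (φ : D.A →+* D'.A) hs).1 hb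
      obtain ⟨d, hd, rfl⟩ := D.mem_sI.1 hc
      show φ (D.s j d) ∈ _
      rw [iso_s D D' he hζ hz hδ]
      exact D'.mem_sI.2 ⟨φ d, Ideal.mem_map_of_mem _ hd, rfl⟩
  have h2 : D'.NI (I.map φ) = (D.NI I).map φ := by
    unfold NI
    rw [Finset.prod_congr rfl fun j _ => h1 j]
    exact (map_prod (Ideal.mapHom (φ : D.A →+* D'.A)) _ _).symm
  rw [h2, D.NI_eq hI, Ideal.map_span, Set.image_singleton]
  congr 2
  exact AlgHom.commutes _ _

theorem Lcv_le (he : D'.e = D.e) (hζ : D'.ζ = D.ζ) (hz : z ≠ 0) (hδ : D'.δ = D.δ * z ^ ℓ)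
    {x : Fin n → Eˣ} (hx : x ∈ Lcv D) : x ∈ Lcv D' := by
  obtain ⟨h1, I, t, hI, h2⟩ := hx
  obtain ⟨I', hI', hU⟩ := map_tw D D' he hζ hz hδ hI
  refine ⟨h1, I', t, hI', fun i => ?_⟩
  obtain ⟨a, ha⟩ := h2 i
  obtain ⟨w, hw⟩ := lam_tw D D' he hz hδ i (D.U_ne I)
  refine ⟨a * w, ?_⟩
  rw [hU, hw, Units.val_mul, mul_pow, ← ha]; ring

end

theorem t_LCV : S_LCV := by
  intro ℓ n h2 E _ D
  refine ⟨fun x hx y hy => mem_mul D hx hy, fun x hx => mem_pow D hx, lam_tor D,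
    fun c hc => mem_tor D h2 c hc, ?_⟩
  intro D' z hζ he hz hδ
  ext x
  constructor
  · intro hx
    refine Lcv_le D' D (z := z⁻¹) he.symm hζ.symm (inv_ne_zero hz) ?_ hx
    rw [hδ, mul_assoc, ← mul_pow, mul_inv_cancel₀ hz, one_pow, mul_one]
  · intro hx
    exact Lcv_le D D' he hζ hz hδ hx

end Pool.Agent.T3h73.SN.LCV
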