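import Pool.Agent.T3h73.SN.Stm
import Pool.Agent.T3h73.SD.T_FI

/-!
# Project SN, task LNI (helper25): the local norm index is `ℓ`
-/

set_option autoImplicit false
set_option linter.all false

open NumberField IsDedekindDomain Polynomial Filter

namespace Pool.Agent.T3h73.SN.LNI

open Pool.Agent.T3h73.SN Pool.Agent.T3h73.SD Pool.Agent.T3h73.SD.FI
open Pool.Agent.T3h73.SL (Pl IsP Pk loc Evn Sg)
open Pool.Agent.Y713.SE (Pw)
open Pool.Agent.T3h73.SL.Cnt (vl vl_one_iff)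

/-! ### the abstract counting -/

lemma exists_dual_pair (k V : Type) [Field k] [AddCommGroup V] [Module k V]
    [FiniteDimensional k V] (h : 1 < Module.finrank k V) :
    ∃ φ₁ φ₂ : Module.Dual k V, ∀ a b : k, a • φ₁ + b • φ₂ = 0 → a = 0 ∧ b = 0 := by
  rw [← Subspace.dual_finrank_eq] at h
  haveI : Nontrivial (Module.Dual k V) := Module.nontrivial_of_finrank_pos (R := k) (by omega)
  obtain ⟨φ₁, hφ₁⟩ := exists_ne (0 : Module.Dual k V)
  obtain ⟨φ₂, hind⟩ := exists_linearIndependent_pair_of_one_lt_finrank h hφ₁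
  exact ⟨φ₁, φ₂, LinearIndependent.pair_iff.1 hind⟩

lemma card_le_aux (ℓ : ℕ) [Fact ℓ.Prime] (V : Type) [AddCommGroup V] [Module (ZMod ℓ) V] [Finite V]
    (h : ∀ φ₁ φ₂ : V →+ ZMod ℓ, ∃ a b : ℕ, ¬ (ℓ ∣ a ∧ ℓ ∣ b) ∧
      ∀ y, (a : ZMod ℓ) * φ₁ y + (b : ZMod ℓ) * φ₂ y = 0) : Nat.card V ≤ ℓ := by
  have := Fintype.ofFinite V
  have hcard := Module.card_eq_pow_finrank (K := ZMod ℓ) (V := V)
  rw [ZMod.card] at hcard
  have hle1 : Module.finrank (ZMod ℓ) V ≤ 1 := by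
    by_contra hcon
    push Not at hcon
    obtain ⟨φ₁, φ₂, hind⟩ := exists_dual_pair (ZMod ℓ) V hcon
    obtain ⟨a, b, hab, hrel⟩ := h φ₁.toAddMonoidHom φ₂.toAddMonoidHom
    have h5 := hind a b (LinearMap.ext hrel)
    apply hab
    rw [ZMod.natCast_eq_zero_iff, ZMod.natCast_eq_zero_iff] at h5
    exact h5
  rw [Nat.card_eq_fintype_card, hcard]
  calc ℓ ^ Module.finrank (ZMod ℓ) V ≤ ℓ ^ 1 :=
        Nat.pow_le_pow_right (Fact.out : ℓ.Prime).pos hle1
    _ = ℓ := pow_one ℓ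

lemma card_le_of {ℓ : ℕ} (hℓ : ℓ.Prime) (V : Type) [AddCommGroup V] [Finite V]
    (hz : ∀ x : V, ℓ • x = 0)
    (h : ∀ φ₁ φ₂ : V →+ ZMod ℓ, ∃ a b : ℕ, ¬ (ℓ ∣ a ∧ ℓ ∣ b) ∧
      ∀ y, (a : ZMod ℓ) * φ₁ y + (b : ZMod ℓ) * φ₂ y = 0) : Nat.card V ≤ ℓ := by
  haveI := Fact.mk hℓ
  letI := AddCommGroup.zmodModule hz
  exact card_le_aux ℓ V h

/-- the abstract form of the counting of the indices -/
theorem index_eq {ℓ : ℕ} (hℓ : ℓ.Prime) {ι : Type} [Fintype ι] [DecidableEq ι] {U : Type}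
    [CommGroup U] (N : ι → Subgroup U) (hN0 : ∀ i, (N i).index ≠ 0) (hp : ∀ i, ∀ x : U, x ^ ℓ ∈ N i)
    (E : Subgroup U) (hE : ∀ F : Set U, F.Finite → F ⊆ E → ∃ E' NE : Subgroup U, F ⊆ E' ∧
      (∀ i, NE ≤ N i) ∧ ℓ * NE.relIndex E' ≤ ℓ ^ Nat.card {i // N i ≠ ⊤} ∧ NE.relIndex E' ≠ 0)
    (hdim : ∀ χ₁ χ₂ : ι → (U →* Multiplicative (ZMod ℓ)), (∀ i, ∀ x ∈ N i, χ₁ i x = 1) →
      (∀ i, ∀ x ∈ N i, χ₂ i x = 1) → (∀ x ∈ E, ∏ i, χ₁ i x = 1) → (∀ x ∈ E, ∏ i, χ₂ i x = 1) →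
      ∃ a b : ℕ, ¬ (ℓ ∣ a ∧ ℓ ∣ b) ∧ ∀ i x, χ₁ i x ^ a * χ₂ i x ^ b = 1)
    (i₀ : ι) (h₀ : N i₀ ≠ ⊤) : (N i₀).index = ℓ := by
  classical
  haveI := Fact.mk hℓ
  -- the quotient
  let q : ∀ i, U →* U ⧸ N i := fun i => QuotientGroup.mk' (N i)
  have hqs : ∀ i, Function.Surjective (q i) := fun i => QuotientGroup.mk'_surjective _
  let dg : U →* (∀ i, U ⧸ N i) := Pi.monoidHom q
  have hfi : ∀ i, Finite (U ⧸ N i) := fun i => Nat.finite_of_card_ne_zero (hN0 i)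
  haveI : Finite (∀ i, U ⧸ N i) := Pi.finite
  have hpow : ∀ a : ∀ i, U ⧸ N i, a ^ ℓ = 1 := by
    intro a
    funext i
    obtain ⟨x, hx⟩ := hqs i (a i)
    rw [Pi.pow_apply, ← hx, ← map_pow, Pi.one_apply]
    exact (QuotientGroup.eq_one_iff _).2 (hp i x)
  -- lower bounds for the orders
  have hlow : ∀ i, (if N i ≠ ⊤ then ℓ else 1) ≤ (N i).index := by
    intro i
    split_ifs with h
    · obtain ⟨x, hx⟩ : ∃ x, x ∉ N i := by
        by_contra hc
        push Not at hc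
        exact h (eq_top_iff.2 fun y _ => hc y)
      have h2 : orderOf (q i x) = ℓ := by
        refine orderOf_eq_prime ?_ ?_
        · rw [← map_pow]
          exact (QuotientGroup.eq_one_iff _).2 (hp i x)
        · intro h3
          exact hx ((QuotientGroup.eq_one_iff x).1 h3)
      calc ℓ = orderOf (q i x) := h2.symm
        _ ≤ Nat.card (U ⧸ N i) := Nat.le_of_dvd Nat.card_pos (orderOf_dvd_natCard _)
    · exact Nat.one_le_iff_ne_zero.2 (hN0 i)
  have hr : ∏ i, (if N i ≠ ⊤ then ℓ else 1) = ℓ ^ Nat.card {i // N i ≠ ⊤} := by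
    rw [Finset.prod_ite, Finset.prod_const, Finset.prod_const_one, mul_one]
    congr 1
    rw [Nat.card_eq_fintype_card, Fintype.card_subtype]
  set H : Subgroup (∀ i, U ⧸ N i) := E.map dg with hH
  -- upper bound for `H`
  have hH1 : ℓ * Nat.card H ≤ ℓ ^ Nat.card {i // N i ≠ ⊤} := by
    have h1 : ∀ a : H, ∃ x ∈ E, dg x = a := fun a => a.2
    choose g hgE hg using h1
    obtain ⟨E', NE, hF, hNE, hle, h0⟩ := hE (Set.range g) (Set.finite_range g) (by
      rintro _ ⟨a, rfl⟩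
      exact hgE a)
    have h2 : NE ≤ dg.ker := by
      intro x hx
      rw [MonoidHom.mem_ker]
      funext i
      exact (QuotientGroup.eq_one_iff x).2 (hNE i hx)
    have h3 : dg.ker.relIndex E' ≤ NE.relIndex E' := Subgroup.relIndex_le_of_le_left h2 h0
    have h4 : Nat.card H ≤ dg.ker.relIndex E' := by
      rw [Subgroup.relIndex_ker]
      refine Nat.card_le_card_of_injective (fun a : H => (⟨a.1, ⟨g a, hF ⟨a, rfl⟩, hg a⟩⟩ :
        E'.map dg)) ?_
      intro a b hab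
      exact Subtype.ext (congrArg (fun t : E'.map dg => t.1) hab)
    exact (Nat.mul_le_mul_left ℓ (h4.trans h3)).trans hle
  -- upper bound for the quotient
  have hH2 : Nat.card ((∀ i, U ⧸ N i) ⧸ H) ≤ ℓ := by
    have hz : ∀ x : Additive ((∀ i, U ⧸ N i) ⧸ H), ℓ • x = 0 := by
      intro x
      obtain ⟨y, hy⟩ := QuotientGroup.mk_surjective (Additive.toMul x)
      apply Additive.toMul.injective
      rw [toMul_nsmul, ← hy, toMul_zero, ← QuotientGroup.mk_pow, hpow, QuotientGroup.mk_one]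
    haveI : Finite (Additive ((∀ i, U ⧸ N i) ⧸ H)) :=
      inferInstanceAs (Finite ((∀ i, U ⧸ N i) ⧸ H))
    refine card_le_of hℓ (Additive ((∀ i, U ⧸ N i) ⧸ H)) hz ?_
    intro φ₁ φ₂
    let c : (Additive ((∀ i, U ⧸ N i) ⧸ H) →+ ZMod ℓ) →
        ((∀ i, U ⧸ N i) →* Multiplicative (ZMod ℓ)) := fun φ =>
      { toFun := fun x => Multiplicative.ofAdd (φ (Additive.ofMul (QuotientGroup.mk x :
          (∀ i, U ⧸ N i) ⧸ H)))
        map_one' := by rw [QuotientGroup.mk_one, ofMul_one, map_zero, ofAdd_zero]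
        map_mul' := fun x y => by rw [QuotientGroup.mk_mul, ofMul_mul, map_add, ofAdd_add] }
    have hcH : ∀ φ, ∀ x ∈ H, c φ x = 1 := by
      intro φ x hx
      show Multiplicative.ofAdd (φ (Additive.ofMul (QuotientGroup.mk x :
          (∀ i, U ⧸ N i) ⧸ H))) = 1
      rw [(QuotientGroup.eq_one_iff x).2 hx, ofMul_one, map_zero, ofAdd_zero]
    let X : (Additive ((∀ i, U ⧸ N i) ⧸ H) →+ ZMod ℓ) → ι →
        (U →* Multiplicative (ZMod ℓ)) := fun φ i =>
      ((c φ).comp (MonoidHom.mulSingle (fun i => U ⧸ N i) i)).comp (q i)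
    have hX1 : ∀ φ i, ∀ x ∈ N i, X φ i x = 1 := by
      intro φ i x hx
      have h1 : q i x = 1 := (QuotientGroup.eq_one_iff x).2 hx
      show ((c φ).comp (MonoidHom.mulSingle (fun i => U ⧸ N i) i)) (q i x) = 1
      rw [h1, map_one]
    have hX2 : ∀ φ, ∀ x ∈ E, ∏ i, X φ i x = 1 := by
      intro φ x hx
      have h1 : ∏ i, Pi.mulSingle i (q i x) = dg x := Finset.univ_prod_mulSingle (dg x)
      have h2 : c φ (dg x) = 1 := hcH φ _ ⟨x, hx, rfl⟩
      rw [← h1, map_prod] at h2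
      exact h2
    obtain ⟨a, b, hab, hrel⟩ := hdim (X φ₁) (X φ₂) (hX1 φ₁) (hX1 φ₂) (hX2 φ₁) (hX2 φ₂)
    refine ⟨a, b, hab, fun y => ?_⟩
    have hrel2 : ∀ x, c φ₁ x ^ a * c φ₂ x ^ b = 1 := by
      intro x
      rw [← Finset.univ_prod_mulSingle x, map_prod, map_prod, ← Finset.prod_pow,
        ← Finset.prod_pow, ← Finset.prod_mul_distrib]
      refine Finset.prod_eq_one fun i _ => ?_
      obtain ⟨y, hy⟩ := hqs i (x i)
      rw [← hy]
      exact hrel i y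
    obtain ⟨x, hx⟩ := QuotientGroup.mk_surjective (Additive.toMul y)
    have h1 := hrel2 x
    have h2 : ∀ φ, c φ x = Multiplicative.ofAdd (φ y) := by
      intro φ
      show Multiplicative.ofAdd (φ (Additive.ofMul (QuotientGroup.mk x :
        (∀ i, U ⧸ N i) ⧸ H))) = _
      rw [hx]
      rfl
    rw [h2, h2, ← ofAdd_nsmul, ← ofAdd_nsmul, ← ofAdd_add] at h1
    have h3 := Multiplicative.ofAdd.injective (h1.trans ofAdd_zero.symm)
    rw [nsmul_eq_mul, nsmul_eq_mul] at h3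
    exact h3
  -- conclusion
  have hA : Nat.card (∀ i, U ⧸ N i) ≤ ℓ ^ Nat.card {i // N i ≠ ⊤} := by
    have h1 : Nat.card (∀ i, U ⧸ N i) = Nat.card ((∀ i, U ⧸ N i) ⧸ H) * Nat.card H :=
      Subgroup.card_eq_card_quotient_mul_card_subgroup H
    have h2 : ℓ * Nat.card (∀ i, U ⧸ N i) ≤ ℓ * ℓ ^ Nat.card {i // N i ≠ ⊤} := by
      calc ℓ * Nat.card (∀ i, U ⧸ N i) = Nat.card ((∀ i, U ⧸ N i) ⧸ H) * (ℓ * Nat.card H) := by
            rw [h1]; ring
        _ ≤ ℓ * ℓ ^ Nat.card {i // N i ≠ ⊤} := Nat.mul_le_mul hH2 hH1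
    exact Nat.le_of_mul_le_mul_left h2 hℓ.pos
  rw [Nat.card_pi, ← hr] at hA
  have hA2 : ∏ i, (N i).index ≤ ∏ i, (if N i ≠ ⊤ then ℓ else 1) := hA
  rw [← Finset.mul_prod_erase Finset.univ _ (Finset.mem_univ i₀),
    ← Finset.mul_prod_erase Finset.univ (fun i => if N i ≠ ⊤ then ℓ else 1)
      (Finset.mem_univ i₀)] at hA2
  have h6 : ∏ i ∈ Finset.univ.erase i₀, (if N i ≠ ⊤ then ℓ else 1) ≤
      ∏ i ∈ Finset.univ.erase i₀, (N i).index := Finset.prod_le_prod' fun i _ => hlow i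
  have h7 : 0 < ∏ i ∈ Finset.univ.erase i₀, (N i).index :=
    Finset.prod_pos fun i _ => Nat.pos_of_ne_zero (hN0 i)
  have h8 := hlow i₀
  rw [if_pos h₀] at h8 hA2
  refine le_antisymm ?_ h8
  have h9 : (N i₀).index * ∏ i ∈ Finset.univ.erase i₀, (N i).index ≤
      ℓ * ∏ i ∈ Finset.univ.erase i₀, (N i).index :=
    hA2.trans (Nat.mul_le_mul_left ℓ h6)
  exact Nat.le_of_mul_le_mul_right h9 h7

/-! ### densities -/

section
variable {K : Type} [Field K] [NumberField K]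

lemma fin_le (x : ℝ) : {q : Pl K | (Ideal.absNorm q.asIdeal : ℝ) ≤ x}.Finite := by
  have h1 := Ideal.finite_setOfPred_absNorm_le (S := 𝓞 K) ⌊x⌋₊
  refine (Set.Finite.preimage (f := fun q : Pl K => q.asIdeal) ?_ h1).subset ?_
  · intro a _ b _ hab
    exact HeightOneSpectrum.ext hab
  · intro q hq
    exact Nat.le_floor hq

/-- the places of norm at most `x` with property `P` -/
def SS (P : Pl K → Prop) (x : ℝ) : Set (Pl K) :=
  {q : Pl K | (Ideal.absNorm q.asIdeal : ℝ) ≤ x ∧ P q}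

lemma fin_leP (P : Pl K → Prop) (x : ℝ) : (SS P x).Finite :=
  (fin_le x).subset fun _ hq => hq.1

lemma dens_mono' {P Q : Pl K → Prop} {a b : ℝ} (T : Finset (Pl K)) (h : ∀ q, q ∉ T → P q → Q q)
    (hP : Dens P a) (hQ : Dens Q b) : a ≤ b := by
  classical
  have h0 : Tendsto (fun x : ℝ => (∑ q ∈ T, Real.log (Ideal.absNorm q.asIdeal)) / x) atTop
      (nhds 0) := tendsto_const_nhds.div_atTop tendsto_id
  have hQ' := hQ.add h0
  rw [add_zero] at hQ'
  refine le_of_tendsto_of_tendsto hP hQ' ?_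
  filter_upwards [eventually_gt_atTop 0] with x hx
  rw [← add_div]
  refine div_le_div_of_nonneg_right ?_ hx.le
  change (∑ᶠ q ∈ SS P x, Real.log (Ideal.absNorm q.asIdeal)) ≤
    (∑ᶠ q ∈ SS Q x, Real.log (Ideal.absNorm q.asIdeal)) + _
  rw [finsum_mem_eq_finite_toFinset_sum _ (fin_leP P x),
    finsum_mem_eq_finite_toFinset_sum _ (fin_leP Q x)]
  refine le_trans (Finset.sum_le_sum_of_subset_of_nonneg
    (t := (fin_leP Q x).toFinset ∪ T) ?_ fun q _ _ => Real.log_natCast_nonneg _)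
    ?_
  · intro q hq
    rw [Set.Finite.mem_toFinset] at hq
    rw [Finset.mem_union, Set.Finite.mem_toFinset]
    by_cases hqT : q ∈ T
    · exact Or.inr hqT
    · exact Or.inl ⟨hq.1, h q hqT hq.2⟩
  · rw [← Finset.sum_union_inter]
    have : 0 ≤ ∑ q ∈ (fin_leP Q x).toFinset ∩ T, Real.log (Ideal.absNorm q.asIdeal) :=
      Finset.sum_nonneg fun q _ => Real.log_natCast_nonneg _
    linarith

/-! ### extension of the characters -/

theorem extend (hLNG : S_LNG) {ℓ : ℕ} (hℓ : ℓ.Prime) (hℓ2 : ℓ ≠ 2) (ζ : K)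
    (hζ : IsPrimitiveRoot ζ ℓ) (w : Kˣ) (T : Finset (Pl K))
    (hTl : ∀ v : Pl K, v.valuation K (ℓ : K) ≠ 1 → v ∈ T)
    (hTw : ∀ v : Pl K, v ∉ T → v.valuation K (w : K) = 1)
    (hTm : ∀ m : Pl K → ℤ, {v | m v ≠ 0}.Finite →
      ∃ x : Kˣ, ∀ v, v ∉ T → v.valuation K (x : K) = WithZero.exp (-(m v)))
    (χT : T → (Kˣ →* Mu ℓ)) (hχ1 : ∀ i : T, ∀ x, LN ℓ i.1 w x → χT i x = 1)
    (hχ2 : ∀ x ∈ TUs (K := K) (fun v => v ∉ T ∧ ¬ IsP ℓ (loc v w)), ∏ i, χT i x = 1) :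
    ∃ χ : Pl K → (Kˣ →* Mu ℓ), GC ℓ χ ∧ (∀ v (h : v ∈ T), χ v = χT ⟨v, h⟩) ∧
      ∀ v, v ∉ T → IsP ℓ (loc v w) → χ v = 1 := by
  classical
  have hlocLN : ∀ v x, IsP ℓ (loc v x) → LN ℓ v w x := by
    intro v x hx
    obtain ⟨N, hN1, hN2, hN3, hN4, hN5⟩ := exists_N hLNG ℓ hℓ hℓ2 ζ hζ w v
    exact (hN1 x).1 (hN3 x hx)
  -- uniformizers
  have hπ : ∀ q : Pl K, ∃ π : Kˣ, ∀ v, v ∉ T → v.valuation K (π : K) =
      WithZero.exp (-(Pi.single (M := fun _ : Pl K => ℤ) q 1 v)) := by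
    intro q
    refine hTm _ ((Set.finite_singleton q).subset ?_)
    intro v hv
    by_contra hc
    exact hv (Pi.single_eq_of_ne hc _)
  choose π hπ using hπ
  have hπ1 : ∀ q, q ∉ T → WithZero.log (q.valuation K (π q : K)) = -1 := by
    intro q hq
    rw [hπ q q hq, Pi.single_eq_same, WithZero.log_exp]
  have hπ2 : ∀ q v, v ∉ T → v ≠ q → v.valuation K (π q : K) = 1 := by
    intro q v hv hvq
    rw [hπ q v hv, Pi.single_eq_of_ne hvq, neg_zero, WithZero.exp_zero]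
  let c : Pl K → Mu ℓ := fun q => ∏ i, χT i (π q)
  let χ : Pl K → (Kˣ →* Mu ℓ) := fun v => if h : v ∈ T then χT ⟨v, h⟩ else
    if IsP ℓ (loc v w) then 1 else (zpowersHom (Mu ℓ) (c v)).comp (vl v)
  have e1 : ∀ (v) (h : v ∈ T), χ v = χT ⟨v, h⟩ := fun v h => dif_pos h
  have e2 : ∀ v, v ∉ T → IsP ℓ (loc v w) → χ v = 1 := fun v h h' => by
    show dite _ _ _ = _
    rw [dif_neg h, if_pos h']
  have e3 : ∀ v, v ∉ T → ¬ IsP ℓ (loc v w) → ∀ x, χ v x =
      c v ^ WithZero.log (v.valuation K (x : K)) := fun v h h' x => by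
    have : χ v = (zpowersHom (Mu ℓ) (c v)).comp (vl v) := by
      show dite _ _ _ = _
      rw [dif_neg h, if_neg h']
    rw [this]
    rfl
  have e4 : ∀ v, v ∉ T → ∀ x : Kˣ, Pw ℓ (v.valuation K (x : K)) → χ v x = 1 := by
    intro v hv x hx
    by_cases h : IsP ℓ (loc v w)
    · rw [e2 v hv h, MonoidHom.one_apply]
    · rw [e3 v hv h]
      exact mu_zpow _ _ ((pw_log hℓ.pos v x).1 hx)
  refine ⟨χ, ⟨?_, ?_, ?_⟩, e1, e2⟩
  · intro v x hx
    by_cases h : v ∈ T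
    · rw [e1 v h]
      exact hχ1 ⟨v, h⟩ x (hlocLN v x hx)
    · apply e4 v h
      obtain ⟨z, hz⟩ := hx
      rw [← Pool.Agent.T3h73.SL.Chr.v_loc, hz, Units.val_pow_eq_pow_val, map_pow]
      exact Pw.pow _
  · refine T.finite_toSet.subset ?_
    intro v hv
    by_contra hc
    exact hv fun x hx => e4 v hc x hx
  · intro x
    have hD : {v : Pl K | v ∉ T ∧ ¬ IsP ℓ (loc v w) ∧ v.valuation K (x : K) ≠ 1}.Finite :=
      (fin_val x).subset fun v hv => hv.2.2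
    set D : Finset (Pl K) := hD.toFinset with hDdef
    have hDmem : ∀ v, v ∈ D ↔ v ∉ T ∧ ¬ IsP ℓ (loc v w) ∧ v.valuation K (x : K) ≠ 1 := by
      intro v
      rw [hDdef, Set.Finite.mem_toFinset]
      rfl
    have hdisj : Disjoint T D := by
      rw [Finset.disjoint_left]
      intro v hv hv'
      exact ((hDmem v).1 hv').1 hv
    have h1 : ∏ᶠ v : Pl K, χ v x = ∏ v ∈ T ∪ D, χ v x := by
      refine finprod_eq_prod_of_mulSupport_subset _ ?_
      intro v hv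
      rw [Finset.coe_union, Set.mem_union, Finset.mem_coe, Finset.mem_coe, hDmem]
      by_contra hc
      push Not at hc
      apply hv
      show χ v x = 1
      by_cases h : IsP ℓ (loc v w)
      · rw [e2 v hc.1 h, MonoidHom.one_apply]
      · rw [e3 v hc.1 h, hc.2 hc.1 h, WithZero.log_one, zpow_zero]
    set n : Pl K → ℤ := fun v => WithZero.log (v.valuation K (x : K)) with hn
    set u : Kˣ := x * ∏ q ∈ D, π q ^ n q with hu
    have huE : u ∈ TUs (fun v => v ∉ T ∧ ¬ IsP ℓ (loc v w)) := by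
      rintro v ⟨hv, hv'⟩
      have hx0 : v.valuation K (x : K) ≠ 0 := (Valuation.ne_zero_iff _).2 x.ne_zero
      have h2 : v.valuation K ((∏ q ∈ D, π q ^ n q : Kˣ) : K) =
          ∏ q ∈ D, v.valuation K (π q : K) ^ n q := by
        rw [Units.coe_prod, map_prod]
        refine Finset.prod_congr rfl fun q _ => ?_
        rw [Units.val_zpow_eq_zpow_val, map_zpow₀]
      rw [hu, Units.val_mul, map_mul, h2]
      by_cases hvD : v ∈ D
      · rw [Finset.prod_eq_single v]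
        · rw [hπ v v hv, Pi.single_eq_same, hn]
          show v.valuation K (x : K) * WithZero.exp (-1 : ℤ) ^ WithZero.log (v.valuation K (x : K)) = 1
          rw [← WithZero.exp_zsmul, smul_eq_mul, mul_neg, mul_one, WithZero.exp_neg,
            WithZero.exp_log hx0, mul_inv_cancel₀ hx0]
        · intro q _ hqv
          rw [hπ2 q v hv hqv.symm, one_zpow]
        · intro h
          exact absurd hvD h
      · have h3 : v.valuation K (x : K) = 1 := by
          by_contra hc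
          exact hvD ((hDmem v).2 ⟨hv, hv', hc⟩)
        rw [h3, one_mul]
        refine Finset.prod_eq_one fun q hq => ?_
        rw [hπ2 q v hv, one_zpow]
        rintro rfl
        exact hvD hq
    have h4 := hχ2 u huE
    rw [hu] at h4
    simp only [map_mul, map_prod, map_zpow] at h4
    rw [Finset.prod_mul_distrib, Finset.prod_comm] at h4
    rw [h1, Finset.prod_union hdisj, ← h4]
    congr 1
    · rw [← Finset.prod_coe_sort T]
      refine Finset.prod_congr rfl fun i _ => ?_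
      rw [e1 i.1 i.2]
    · refine Finset.prod_congr rfl fun q hq => ?_
      rw [e3 q ((hDmem q).1 hq).1 ((hDmem q).1 hq).2.1, Finset.prod_zpow]

end

/-! ### the theorem -/

theorem t_LNI (hLNG : Pool.Agent.T3h73.SD.S_LNG) (hTUN : Pool.Agent.T3h73.SD.S_TUN)
    (hDC : Pool.Agent.T3h73.SD.S_DC) (hDK : Pool.Agent.T3h73.SD.S_DK) : S_LNI := by
  classical
  intro ℓ hℓ hℓ2 K _ _ ζ hζ v₀ w hw₀
  have hw : ¬ IsP ℓ w := by
    rintro ⟨z, hz⟩
    exact hw₀ ⟨loc v₀ z, by rw [hz, map_pow]⟩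
  obtain ⟨T₀, hT₀⟩ := Pool.Agent.T3h73.SL.Cnt.t_CNT ℓ hℓ hℓ2 K ζ hζ
  have hl0 : (ℓ : K) ≠ 0 := Nat.cast_ne_zero.2 hℓ.ne_zero
  have hf1 : {v : Pl K | v.valuation K (ℓ : K) ≠ 1}.Finite := fin_val (Units.mk0 (ℓ : K) hl0)
  have hf2 : {v : Pl K | v.valuation K (w : K) ≠ 1}.Finite := fin_val w
  set T : Finset (Pl K) := insert v₀ (T₀ ∪ (hf1.toFinset ∪ hf2.toFinset)) with hT
  have hv₀ : v₀ ∈ T := Finset.mem_insert_self _ _
  have hTl : ∀ v : Pl K, v.valuation K (ℓ : K) ≠ 1 → v ∈ T := by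
    intro v hv
    rw [hT, Finset.mem_insert, Finset.mem_union, Finset.mem_union, Set.Finite.mem_toFinset]
    exact Or.inr (Or.inr (Or.inl hv))
  have hTw : ∀ v : Pl K, v ∉ T → v.valuation K (w : K) = 1 := by
    intro v hv
    by_contra hc
    apply hv
    rw [hT, Finset.mem_insert, Finset.mem_union, Finset.mem_union, Set.Finite.mem_toFinset,
      Set.Finite.mem_toFinset]
    exact Or.inr (Or.inr (Or.inr hc))
  have hTm : ∀ T' : Finset (Pl K), T ⊆ T' → ∀ m : Pl K → ℤ, {v | m v ≠ 0}.Finite →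
      ∃ x : Kˣ, ∀ v, v ∉ T' → v.valuation K (x : K) = WithZero.exp (-(m v)) := fun T' hT' =>
    (hT₀ T' ((Finset.subset_union_left.trans (Finset.subset_insert _ _)).trans hT')).1
  -- the extension
  have hwP : ∀ c : K, c ^ ℓ ≠ (w : K) := by
    intro c hc
    have hc0 : c ≠ 0 := by
      rintro rfl
      rw [zero_pow hℓ.ne_zero] at hc
      exact w.ne_zero hc.symm
    apply hw
    refine ⟨Units.mk0 c hc0, ?_⟩
    ext
    rw [Units.val_pow_eq_pow_val, Units.val_mk0, hc]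
  have hirr : Irreducible (X ^ ℓ - C (w : K) : K[X]) := X_pow_sub_C_irreducible_of_prime hℓ hwP
  haveI := Fact.mk hirr
  have hsplit := isSplittingField_AdjoinRoot_X_pow_sub_C ⟨ζ, (mem_primitiveRoots hℓ.pos).2 hζ⟩ hirr
  let M := AdjoinRoot (X ^ ℓ - C (w : K) : K[X])
  haveI : CharZero M := charZero_of_injective_algebraMap (algebraMap K M).injective
  haveI : FiniteDimensional K M := (AdjoinRoot.powerBasis hirr.ne_zero).finite
  haveI : NumberField M := NumberField.of_module_finite K M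
  have hd : Module.finrank K M = ℓ :=
    finrank_of_isSplittingField_X_pow_sub_C ⟨ζ, (mem_primitiveRoots hℓ.pos).2 hζ⟩ hirr M
  have hrt : (AdjoinRoot.root (X ^ ℓ - C (w : K) : K[X])) ^ ℓ = algebraMap K M (w : K) := by
    have := AdjoinRoot.eval₂_root (X ^ ℓ - C (w : K) : K[X])
    rw [eval₂_sub, eval₂_X_pow, eval₂_C, sub_eq_zero] at this
    exact this
  -- the local norm groups
  choose N hN1 hN2 hN3 hN4 hN5 using exists_N hLNG ℓ hℓ hℓ2 ζ hζ w
  have hNtop : ∀ v, IsP ℓ (loc v w) → N v = ⊤ := by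
    intro v hv
    rw [eq_top_iff]
    intro x _
    rw [hN1]
    exact Or.inl hv
  have hNidx : ∀ v, (N v).index ≠ 0 := by
    intro v
    have h1 : (Pk ℓ (v.adicCompletion K)ˣ).comap (loc v) ≤ N v := by
      rintro x ⟨z, hz⟩
      exact hN3 v x ⟨z, hz.symm⟩
    have h2 : ((Pk ℓ (v.adicCompletion K)ˣ).comap (loc v)).index ≠ 0 := by
      rw [Subgroup.index_comap]
      exact fun h => Pool.Agent.T3h73.SL.Fin.t_FIN ℓ hℓ K v (Nat.eq_zero_of_zero_dvd
        (h ▸ Subgroup.relIndex_dvd_index_of_normal _ _))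
    exact fun h => h2 (Nat.eq_zero_of_zero_dvd (h ▸ Subgroup.index_dvd_of_le h1))
  obtain ⟨N₀, hN₀⟩ : ∃ N₀ : Subgroup Kˣ, N₀ = N v₀ := ⟨_, rfl⟩
  refine ⟨N v₀, hN1 v₀, ?_⟩
  refine index_eq hℓ (ι := T) (fun i => N i.1) (fun i => hNidx i.1)
    (fun i => hN2 i.1) (TUs (fun v => v ∉ T ∧ ¬ IsP ℓ (loc v w))) ?_ ?_ ⟨v₀, hv₀⟩
    (fun h => hw₀ (hN5 v₀ h))
  · intro F hF hFE
    have hD : {v : Pl K | ∃ x ∈ F, v.valuation K (x : K) ≠ 1}.Finite := by
      have h1 : {v : Pl K | ∃ x ∈ F, v.valuation K (x : K) ≠ 1} =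
          ⋃ x ∈ F, {v : Pl K | v.valuation K (x : K) ≠ 1} := by
        ext v
        simp only [Set.mem_setOf_eq, Set.mem_iUnion, exists_prop]
      rw [h1]
      exact hF.biUnion fun x _ => fin_val x
    set T' : Finset (Pl K) := T ∪ hD.toFinset with hT'
    have hTT' : T ⊆ T' := Finset.subset_union_left
    have key := hTUN ℓ hℓ hℓ2 K ζ hζ w hw T' (fun v hv => hTT' (hTl v hv))
      (fun v hv => by
        rw [hTw v fun h => hv (hTT' h)]
        exact Pw.one) (hTm T' hTT') M (AdjoinRoot.root _) hrt hd (TUs (fun v => v ∉ T'))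
      (NEs M T') (fun x => Iff.rfl) (fun x => Iff.rfl)
    refine ⟨TUs (fun v => v ∉ T'), NEs M T', ?_, ?_, key.1.trans ?_, key.2⟩
    · intro x hx v hv
      by_contra hc
      apply hv
      rw [hT', Finset.mem_union, Set.Finite.mem_toFinset]
      exact Or.inr ⟨x, hx, hc⟩
    · rintro i x ⟨z, _, hz⟩
      rw [hN1]
      exact norm_LN hℓ.ne_zero w i.1 x z hz
    · refine Nat.pow_le_pow_right hℓ.pos ?_
      have h2 : ∀ v : {v : T' // ¬ IsP ℓ (loc (v : Pl K) w)}, ((v : T') : Pl K) ∈ T := by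
        rintro ⟨⟨v, hv⟩, hv2⟩
        by_contra hc
        rw [hT', Finset.mem_union, Set.Finite.mem_toFinset] at hv
        obtain hv | ⟨x, hx, hxv⟩ := hv
        · exact hc hv
        · exact hxv (hFE hx v ⟨hc, hv2⟩)
      refine Nat.card_le_card_of_injective (fun v => ⟨⟨((v : T') : Pl K), h2 v⟩, fun h =>
        v.2 (hN5 _ h)⟩) ?_
      intro a b hab
      apply Subtype.ext
      apply Subtype.ext
      exact congrArg (fun t => ((t.1 : T) : Pl K)) hab
  · intro χ₁ χ₂ h1 h2 h3 h4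
    obtain ⟨X₁, hX1, hX2, hX3⟩ := extend hLNG hℓ hℓ2 ζ hζ w T hTl hTw (hTm T subset_rfl) χ₁
      (fun i x hx => h1 i x ((hN1 i.1 x).2 hx)) h3
    obtain ⟨Y₁, hY1, hY2, hY3⟩ := extend hLNG hℓ hℓ2 ζ hζ w T hTl hTw (hTm T subset_rfl) χ₂
      (fun i x hx => h2 i x ((hN1 i.1 x).2 hx)) h4
    by_contra hcon
    push Not at hcon
    have hd1 := hDC ℓ hℓ hℓ2 K ζ hζ 2 ![X₁, Y₁] (by
      intro i
      fin_cases i
      · exact hX1
      · exact hY1) (by
      intro a ha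
      have h5 : ∀ (i : T) x, χ₁ i x ^ a 0 * χ₂ i x ^ a 1 = 1 := by
        intro i x
        have h6 := ha i.1 x
        rw [Fin.prod_univ_two] at h6
        have h7 : X₁ i.1 x = χ₁ i x := by rw [hX2 i.1 i.2]
        have h8 : Y₁ i.1 x = χ₂ i x := by rw [hY2 i.1 i.2]
        rw [← h7, ← h8]
        exact h6
      by_contra hc
      have h6 : ¬ (ℓ ∣ a 0 ∧ ℓ ∣ a 1) := by
        rintro ⟨h7, h8⟩
        apply hc
        intro i
        fin_cases i
        · exact h7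
        · exact h8
      obtain ⟨i, x, hix⟩ := hcon (a 0) (a 1) (fun h7 h8 => h6 ⟨h7, h8⟩)
      exact hix (h5 i x))
    have hd2 := (hDK ℓ hℓ K ζ hζ w w hw).1
    have h9 := dens_mono' T (P := fun q => IsP ℓ (loc q w)) (Q := fun q => ∀ i x,
      (![X₁, Y₁] : Fin 2 → Pl K → (Kˣ →* Mu ℓ)) i q x = 1) (by
        intro q hq hqw i x
        fin_cases i
        · show X₁ q x = 1
          rw [hX3 q hq hqw]
          rfl
        · show Y₁ q x = 1
          rw [hY3 q hq hqw]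
          rfl) hd2 hd1
    have hl1 : (1 : ℝ) < ℓ := by exact_mod_cast hℓ.one_lt
    rw [div_le_div_iff₀ (by positivity) (by positivity), one_mul, one_mul] at h9
    nlinarith

end Pool.Agent.T3h73.SN.LNI
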