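import Pool.Agent.T3h73.SN.Stm

/-!
# Project SN, task LNZ (helper25): the symbols vanish only on norms
-/

set_option autoImplicit false

open NumberField IsDedekindDomain Polynomial

namespace Pool.Agent.T3h73.SN.LNZ

open Pool.Agent.T3h73.SN Pool.Agent.T3h73.SD
open Pool.Agent.T3h73.SL (Pl IsP Pk loc)

theorem t_LNZ (hLNI : S_LNI) : S_LNZ := by
  intro ℓ hℓ h2 K _ _ ζ hζ sv H v w x hx
  by_cases hw : IsP ℓ (loc v w)
  · exact Or.inl hw
  obtain ⟨N, hN, hidx⟩ := hLNI ℓ hℓ h2 K ζ hζ v w hw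
  let f : Kˣ →* Multiplicative (ZMod ℓ) :=
    MonoidHom.mk' (fun x => Multiplicative.ofAdd (sv v w x)) fun a b => by
      rw [H.mul_right, ofAdd_add]
  have hker : ∀ y, y ∈ f.ker ↔ sv v w y = 0 := by
    intro y
    rw [MonoidHom.mem_ker]
    exact ofAdd_eq_one
  have hle : N ≤ f.ker := fun y hy => (hker y).2 (H.ln v w y ((hN y).1 hy))
  have hne : f.ker.index ≠ 1 := by
    rw [Ne, Subgroup.index_eq_one]
    intro htop
    exact hw (H.nd v w fun y => (hker y).1 (htop ▸ Subgroup.mem_top y))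
  have h1 := Subgroup.relIndex_mul_index hle
  rw [hidx] at h1
  have h3 : f.ker.index = ℓ := by
    rcases (Nat.dvd_prime hℓ).1 ⟨_, by rw [mul_comm]; exact h1.symm⟩ with h | h
    · exact absurd h hne
    · exact h
  rw [h3] at h1
  have h4 : N.relIndex f.ker = 1 := by
    have := hℓ.pos
    nlinarith
  rw [Subgroup.relIndex_eq_one] at h4
  exact (hN x).1 (h4 ((hker x).2 hx))

end Pool.Agent.T3h73.SN.LNZ
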