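import Pool.Agent.T3h73.SN.MAINW1

/-!
# Project SN, task MAINW (helper46): the contribution of a coset of `W ⊗ Y` (final step)
-/

set_option autoImplicit false
set_option linter.all false

namespace Pool.Agent.T3h73.SN.MAINW

open Pool.Agent.T3h73.SN
open Pool.Agent.T3h73.SD (Lin ee Cl Rc hc S_MAINU)

open Classical in
lemma part2 (hMAINU : S_MAINU) (ℓ n : ℕ) [Fact ℓ.Prime] (hℓ : ℓ ≠ 2) (V : Type) [AddCommGroup V]
    [Module (ZMod ℓ) V] [Fintype V] (ψ : V →ₗ[ZMod ℓ] V →ₗ[ZMod ℓ] ZMod ℓ)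
    (L0 L1 : Submodule (ZMod ℓ) V) (LL : Submodule (ZMod ℓ) (Sz ℓ n V)) (π : V →ₗ[ZMod ℓ] L0)
    (u : L0) (d1 : V) (g : Fin n → Fin n → L0) (h : LinW ℓ n V ψ L0 L1 LL π u d1 g) (k : ℕ)
    (Y : Submodule (ZMod ℓ) (Cl ℓ k)) (hYr : Module.finrank (ZMod ℓ) Y = k)
    (hY : ∀ x ∈ Y, ∀ y ∈ Y, ∑ s, (x.1 s * y.2 s + y.1 s * x.2 s) = 0) :
    ∑ w : Fin k → Sz ℓ n L0, ∑ z : Fin k → LL, GG ψ Y π w z = (Nat.card L0 : ℂ) ^ ((n - 1) * k) := by
  have hn2 := h.hn2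
  obtain ⟨U', hU'⟩ : ∃ U' : Finset (Cl ℓ k), ∀ a, a ∈ U' ↔ a ∈ Y :=
    ⟨(Set.toFinite (Y : Set (Cl ℓ k))).toFinset, fun a => Set.Finite.mem_toFinset _⟩
  have key := hMAINU ℓ hℓ (Sz ℓ n V) (psW n ψ) (L0W n L0) (L0W n L1) LL (piW n π) 0 0 (linW h) k U'
    (fun a ha b hb => unl hℓ Y hY a b ((hU' a).1 ha) ((hU' b).1 hb)) (cardY Y hYr U' hU')
  have hc : (Nat.card (L0W n L0) : ℂ) ^ k = (Nat.card L0 : ℂ) ^ ((n - 1) * k) := by
    rw [card_L0W (by omega), Nat.cast_pow, ← pow_mul]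
  refine Eq.trans ?_ (key.trans hc)
  clear key
  refine Fintype.sum_equiv (Equiv.piCongrRight fun _ => EE n L0) _ _ fun w => ?_
  rw [Finset.sum_comm]
  refine Finset.sum_congr rfl fun z _ => ?_
  symm
  trans ∑ α : L0W n L0, (if α = 0 then GG ψ Y π w z else 0)
  · refine Finset.sum_congr rfl fun α _ => ?_
    exact hfin (π := π) ψ Y U' hU' w z α
  · rw [Finset.sum_ite_eq' Finset.univ, if_pos (Finset.mem_univ _)]

open Classical in
theorem t_MAINW (hMAINU : S_MAINU) : S_MAINW := by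
  intro ℓ n _ hℓ V _ _ _ ψ L0 L1 LL π u d1 g h k U hU
  obtain ⟨x₀, Y, hY, hYr, hUY⟩ := hU
  have hn2 := h.hn2
  have step2 : ∑ w : Fin k → Sz ℓ n L0, ∑ α : L0, ∑ z : Fin k → LL,
    (if ∀ a ∈ U, hcW π u g w α z a = 0 then
      ee ℓ (- ψ (α : V) d1 +
        ∑ r, ∑ i, ψ (((z r : Sz ℓ n V) : Fin n → V) i) ((w r : Fin n → L0) i : V)) else 0) =
      ∑ w : Fin k → Sz ℓ n L0, ∑ z : Fin k → LL, GG ψ Y π w z := by
    have h1 : ∀ w : Fin k → Sz ℓ n L0, ∑ α : L0, ∑ z : Fin k → LL,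
        (if ∀ a ∈ U, hcW π u g w α z a = 0 then
          ee ℓ (- ψ (α : V) d1 +
            ∑ r, ∑ i, ψ (((z r : Sz ℓ n V) : Fin n → V) i) ((w r : Fin n → L0) i : V)) else 0) =
        ∑ z : Fin k → LL, GG ψ Y π (fun s => w s - sgW h (x₀.1 s)) z := by
      intro w
      rw [Finset.sum_comm]
      rw [← Equiv.sum_comp (Equiv.addRight (fun s => taW h (x₀.2 s)))
        (fun z => GG ψ Y π (fun s => w s - sgW h (x₀.1 s)) z)]
      refine Finset.sum_congr rfl fun z _ => ?_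
      rw [Finset.sum_congr rfl fun α _ => step1 h hℓ Y hY x₀ U hUY w α z, Finset.sum_ite_eq' Finset.univ]
      rw [if_pos (Finset.mem_univ _)]
      rfl
    rw [Finset.sum_congr rfl fun w _ => h1 w]
    exact Equiv.sum_comp (Equiv.subRight (fun s => sgW h (x₀.1 s))) (fun w => ∑ z : Fin k → LL, GG ψ Y π w z)
  rw [step2]
  exact part2 hMAINU ℓ n hℓ V ψ L0 L1 LL π u d1 g h k Y hYr hY

end Pool.Agent.T3h73.SN.MAINW
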