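import Pool.Agent.T3h73.SN.Stm3
import Pool.Agent.T3h73.SD.Mdl3

/-!
# MDNW: the model describes the Selmer groups of the twists of the curve (helper1)
-/

set_option autoImplicit false
set_option linter.all false

open NumberField IsDedekindDomain Filter Topology

namespace Pool.Agent.T3h73.SN.MDNW

open Pool.Agent.T3h73.SL (Pl IsP Pk loc Sg)
open Pool.Agent.T3h73.SD (Sv LN SymSys Lin ee NA T0 Mh SP Cl kap TYPQ VT S_SV S_CHS S_VSP S_LZ S_LAG)
open Pool.Agent.T3h73.SD.MDL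
open Pool.Agent.Y713.SE Pool.Agent.Y713.SE.Dat

section
variable {ℓ n : ℕ} {E : Type} [Field E]

lemma gu_self (D : Dat ℓ n E) (i : Fin n) : gu D i i = 1 := by
  unfold gu
  rw [dif_pos rfl]

lemma gu_val (D : Dat ℓ n E) {i j : Fin n} (h : i ≠ j) : (gu D i j : E) = D.e i - D.e j := by
  unfold gu
  rw [dif_neg h]
  rfl

lemma gu_neg (D : Dat ℓ n E) {i j : Fin n} (h : i ≠ j) : gu D i j = -1 * gu D j i := by
  apply Units.ext
  rw [gu_val D h, Units.val_mul, gu_val D h.symm, Units.val_neg, Units.val_one]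
  ring

end

section
variable {ℓ n : ℕ} {K : Type} [Field K] [NumberField K]

/-- torsion classes commute with base change -/
lemma loc_tor (D : Dat ℓ n K) (v : Pl K) (c : Fin n → ℤ) :
    (fun i => loc v (tor D c i)) = tor (D.base (v.adicCompletion K)) c := by
  funext i
  unfold tor
  have e1 : loc v (δu D) = δu (D.base (v.adicCompletion K)) := Units.ext rfl
  rw [map_mul, map_zpow, map_prod, e1]
  refine congrArg (fun y => δu (D.base (v.adicCompletion K)) ^ c i * y) ?_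
  refine Finset.prod_congr rfl fun j _ => ?_
  rw [map_zpow]
  congr 1
  apply Units.ext
  by_cases h : i = j
  · subst h
    rw [gu_self, gu_self, map_one]
  · rw [gu_val _ h]
    show algebraMap K (v.adicCompletion K) (gu D i j : K) = _
    rw [gu_val D h, map_sub]
    rfl

end

section
variable {n : ℕ} {ℓ : ℕ} [Fact ℓ.Prime]

/-- double sums of symmetric functions -/
lemma sum_symm {M : Type} [AddCommGroup M] (f : Fin n → Fin n → M) (hs : ∀ i j, f i j = f j i)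
    (hd : ∀ i, f i i = 0) : ∑ i, ∑ j, f i j = 2 • ∑ i, ∑ j ∈ Finset.Ioi i, f i j := by
  classical
  have h1 : ∀ i, ∑ j, f i j = ∑ j ∈ Finset.Ioi i, f i j + ∑ j ∈ Finset.Iio i, f i j := by
    intro i
    have h2 : (Finset.univ : Finset (Fin n)) = (Finset.Ioi i ∪ Finset.Iio i) ∪ {i} := by
      ext j
      simp only [Finset.mem_univ, Finset.mem_union, Finset.mem_Ioi, Finset.mem_Iio,
        Finset.mem_singleton, true_iff]
      rcases lt_trichotomy i j with h | h | h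
      · exact Or.inl (Or.inl h)
      · exact Or.inr h.symm
      · exact Or.inl (Or.inr h)
    rw [h2, Finset.sum_union, Finset.sum_union, Finset.sum_singleton, hd, add_zero]
    · rw [Finset.disjoint_left]
      intro j hj hj'
      rw [Finset.mem_Ioi] at hj
      rw [Finset.mem_Iio] at hj'
      exact absurd hj (not_lt.2 hj'.le)
    · rw [Finset.disjoint_singleton_right, Finset.mem_union, Finset.mem_Ioi, Finset.mem_Iio]
      rintro (h | h) <;> exact lt_irrefl _ h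
  rw [Finset.sum_congr rfl fun i _ => h1 i, Finset.sum_add_distrib, two_smul]
  congr 1
  have h3 : ∀ i, ∑ j ∈ Finset.Iio i, f i j = ∑ j, if j < i then f i j else 0 := by
    intro i
    rw [← Finset.sum_filter]
    refine Finset.sum_congr ?_ fun _ _ => rfl
    ext j
    simp
  have h4 : ∀ i, ∑ j ∈ Finset.Ioi i, f i j = ∑ j, if i < j then f i j else 0 := by
    intro i
    rw [← Finset.sum_filter]
    refine Finset.sum_congr ?_ fun _ _ => rfl
    ext j
    simp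
  rw [Finset.sum_congr rfl fun i _ => h3 i, Finset.sum_congr rfl fun i _ => h4 i, Finset.sum_comm]
  refine Finset.sum_congr rfl fun i _ => Finset.sum_congr rfl fun j _ => ?_
  rw [hs j i]

/-- integral representatives with sum zero -/
lemma exists_int (hℓ2 : ℓ ≠ 2) (hn2 : 2 ≤ n) (β : Fin n → Fin n → ZMod ℓ)
    (hs : ∀ i j, β i j = β j i) (hd : ∀ i, β i i = 0) (h0 : ∑ i, ∑ j, β i j = 0) :
    ∃ m : Fin n → Fin n → ℤ, (∀ i j, i < j → (m i j : ZMod ℓ) = β i j) ∧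
      ∑ i, ∑ j ∈ Finset.Ioi i, m i j = 0 := by
  classical
  have h20 : (2 : ZMod ℓ) ≠ 0 := by
    intro h
    have h1 : ((2 : ℕ) : ZMod ℓ) = 0 := by exact_mod_cast h
    rw [ZMod.natCast_eq_zero_iff] at h1
    exact hℓ2 ((Nat.prime_dvd_prime_iff_eq (Fact.out : ℓ.Prime) Nat.prime_two).1 h1)
  have h1 : ∑ i, ∑ j ∈ Finset.Ioi i, β i j = 0 := by
    rw [sum_symm β hs hd, two_smul, ← two_mul] at h0
    exact (mul_eq_zero.1 h0).resolve_left h20
  set m₀ : Fin n → Fin n → ℤ := fun i j => ((β i j).val : ℤ) with hm0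
  have hm : ∀ i j, (m₀ i j : ZMod ℓ) = β i j := by
    intro i j
    rw [hm0]
    push_cast
    exact ZMod.natCast_zmod_val _
  set N : ℤ := ∑ i, ∑ j ∈ Finset.Ioi i, m₀ i j with hN
  have hN0 : (N : ZMod ℓ) = 0 := by
    rw [hN]
    push_cast
    rw [← h1]
    exact Finset.sum_congr rfl fun i _ => Finset.sum_congr rfl fun j _ => hm i j
  let i0 : Fin n := ⟨0, by omega⟩
  let i1 : Fin n := ⟨1, by omega⟩
  have h01 : i0 < i1 := by
    rw [Fin.lt_def]
    exact Nat.zero_lt_one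
  refine ⟨fun i j => m₀ i j - if i = i0 then (if j = i1 then N else 0) else 0, ?_, ?_⟩
  · intro i j _
    beta_reduce
    split_ifs
    · push_cast
      rw [hm, hN0, sub_zero]
    · push_cast
      rw [hm, sub_zero]
    · push_cast
      rw [hm, sub_zero]
  · have h2 : ∀ i, ∑ j ∈ Finset.Ioi i, (m₀ i j - if i = i0 then (if j = i1 then N else 0) else 0) =
        ∑ j ∈ Finset.Ioi i, m₀ i j - if i = i0 then N else 0 := by
      intro i
      rw [Finset.sum_sub_distrib]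
      congr 1
      split_ifs with h
      · rw [Finset.sum_ite_eq', if_pos]
        rw [h, Finset.mem_Ioi]
        exact h01
      · exact Finset.sum_const_zero
    rw [Finset.sum_congr rfl fun i _ => h2 i, Finset.sum_sub_distrib, ← hN,
      Finset.sum_ite_eq' Finset.univ i0 (fun _ => N), if_pos (Finset.mem_univ _), sub_self]

end

theorem t_MDNW (hSV : S_SV) (hCHS : S_CHS) (hVSP : S_VSP) (hLZ : S_LZ) (hLAG : S_LAG)
    (hLCV : S_LCV) (hLLW : S_LLW) (hDICW : S_DICW) (hDSB : S_DSB) : S_MDNW := by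
  classical
  intro ℓ n hfact hℓ2 hn hn2 K _ _ ζ hζ e he hind a₀ ha₁ ha₂
  have hpr : ℓ.Prime := hfact.out
  have hpos : 0 < ℓ := hpr.pos
  haveI : NeZero ℓ := ⟨hpr.ne_zero⟩
  have hℓK : (ℓ : K) ≠ 0 := Nat.cast_ne_zero.2 hpr.ne_zero
  -- the curves
  let DD : Kˣ → Dat ℓ n K := fun δ =>
    ⟨hpr, hℓK, ζ, hζ, (δ : K) ^ a₀, pow_ne_zero _ δ.ne_zero, e, he, hn⟩
  obtain ⟨sv, H⟩ := hSV ℓ hpr hℓ2 K ζ hζ
  obtain ⟨T₀, hT₀⟩ := hLZ ℓ hpr hℓ2 K ζ hζ
  -- the places where some difference is not a unit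
  have hfin : (⋃ i, ⋃ j, {v : Pl K | od v (gu (DD 1) i j) ≠ 0}).Finite :=
    Set.finite_iUnion fun i => Set.finite_iUnion fun j => fin_od _
  refine ⟨T₀ ∪ hfin.toFinset, fun S hS η => ?_⟩
  have hgu : ∀ v, v ∉ S → ∀ i j, od v (gu (DD 1) i j) = 0 := by
    intro v hv i j
    by_contra hc
    apply hv
    apply hS
    rw [Finset.mem_union, Set.Finite.mem_toFinset]
    right
    rw [Set.mem_iUnion]
    refine ⟨i, ?_⟩
    rw [Set.mem_iUnion]
    exact ⟨j, hc⟩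
  obtain ⟨hSne, hab, hgen, hinj, hcard⟩ := hT₀ S (Finset.union_subset_left hS)
  obtain ⟨𝔪, h𝔪0, h𝔪c, h𝔪⟩ := hCHS ℓ hpr hℓ2 K ζ hζ sv H S hab hSne
  obtain ⟨V, i1, i2, i3, ψ, cl, c1, c2, c3, c4, c5, c6, c7⟩ := hVSP ℓ hpr hℓ2 K ζ hζ sv H S
  have C : Ctx ℓ K sv S V ψ cl := ⟨hpr, H, hab, hgen, hinj, c1, c2, c3, c6⟩
  -- the global classes
  obtain ⟨L0, hL0⟩ : ∃ L0, L0 = clS c1 ℓ (Sg ℓ S (fun _ => ⊤)) := ⟨_, rfl⟩
  have z0 : ∀ z, z ∈ L0 ↔ ∃ x, (∀ v, v ∉ S → (ℓ : ℤ) ∣ od v x) ∧ cl x = z := by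
    intro z
    rw [hL0, mem_clS]
    constructor
    · rintro ⟨x, hx, hxz⟩
      exact ⟨x, fun v hv => (pw_od hpos v x).1 (hx.2 v hv), hxz⟩
    · rintro ⟨x, hx, hxz⟩
      exact ⟨x, ⟨fun v _ => Subgroup.mem_top _, fun v hv => (pw_od hpos v x).2 (hx v hv)⟩, hxz⟩
  have iso0 : ∀ x ∈ L0, ∀ y ∈ L0, ψ x y = 0 := by
    intro x hx y hy
    obtain ⟨a, ha, rfl⟩ := (z0 x).1 hx
    obtain ⟨b, hb, rfl⟩ := (z0 y).1 hy
    exact C.prodS a b ha hb
  have card0 : Nat.card L0 ^ 2 = Nat.card V := by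
    have h1 : Nat.card L0 = (cl '' (Sg ℓ S (fun _ => ⊤) : Set Kˣ)).ncard := by
      rw [hL0]
      exact Nat.card_coe_set_eq _
    rw [h1, c7]
    refine hcard V cl fun x y => ?_
    rw [← c3, c1, cl_inv c1, add_neg_eq_zero]
  obtain ⟨hlag1, hlag2⟩ := hLAG ℓ hℓ2 V ψ c4 c5
  obtain ⟨L1, hcompl, iso1⟩ := hlag2 L0 iso0 card0
  obtain ⟨π, hπ⟩ : ∃ π : V →ₗ[ZMod ℓ] L0, ∀ x, x - (π x : V) ∈ L1 :=
    ⟨Submodule.projectionOnto L0 L1 hcompl, fun x => Submodule.sub_projection_mem hcompl x⟩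
  -- the local conditions
  obtain ⟨LL, isoL, cardL, zL⟩ := hLLW ℓ n hℓ2 K (DD η) hn2 sv H S V ψ cl c1 c2 c3 c4 c5 c6
  -- uniformizers
  have hP : ∀ q : Pl K, ∃ p : Kˣ, (∀ v, v ∉ S → v ≠ q → od v p = 0) ∧ (q ∉ S → od q p = -1) ∧
      cl p ∈ L1 := by
    intro q
    obtain ⟨y, hy⟩ := hgen (Pi.single (M := fun _ : Pl K => ℤ) q 1)
      ((Set.finite_singleton q).subset (by
        intro v hv
        by_contra hc
        exact hv (Pi.single_eq_of_ne hc _)))
    obtain ⟨x, hx, hx'⟩ := (z0 _).1 (π (cl y)).2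
    obtain ⟨x0, hx0, hx0'⟩ := C.unit_rep x hx
    refine ⟨y * x0⁻¹, fun v hv hvq => ?_, fun hq => ?_, ?_⟩
    · rw [od_mul, od_inv, hx0' v hv, od_eq (hy v hv), Pi.single_eq_of_ne hvq]
      simp
    · rw [od_mul, od_inv, hx0' q hq, od_eq (hy q hq), Pi.single_eq_same]
      simp
    · rw [c1, cl_inv c1, hx0, hx', ← sub_eq_add_neg]
      exact hπ _
  choose P pP pP1 pL using hP
  obtain ⟨u, hu⟩ : ∃ u, u = π (cl η) := ⟨_, rfl⟩
  obtain ⟨d1, hd1⟩ : ∃ d1, d1 = cl η - (u : V) := ⟨_, rfl⟩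
  have d1m : d1 ∈ L1 := by
    rw [hd1, hu]
    exact hπ _
  have hee : (u : V) + d1 = cl η := by
    rw [hd1, add_sub_cancel]
  have C2 : Ctx2 ℓ K sv S V ψ cl η L0 L1 ⊤ P u d1 :=
    ⟨C, z0, hcompl, iso1, fun _ _ => trivial, pP, pP1, pL, d1m, hee⟩
  have hpw1 : ∀ (v : Pl K) (δ : Kˣ), Pw ℓ (v.valuation K (δ : K) * WithZero.exp (1 : ℤ)) →
      (ℓ : ℤ) ∣ od v δ + 1 := by
    intro v δ h
    rw [val_od, ← WithZero.exp_add, pw_exp' hpos] at h
    exact h
  -- the number `a₀`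
  have hcop : Nat.Coprime a₀ ℓ := by
    rw [Nat.coprime_comm, hpr.coprime_iff_not_dvd]
    exact fun h => absurd (Nat.le_of_dvd ha₁ h) (not_le.2 ha₂)
  have ha0 : (a₀ : ZMod ℓ) ≠ 0 := by
    intro h
    rw [ZMod.natCast_eq_zero_iff] at h
    exact absurd (Nat.le_of_dvd ha₁ h) (not_le.2 ha₂)
  have h20 : (2 : ZMod ℓ) ≠ 0 := by
    intro h
    have h1 : ((2 : ℕ) : ZMod ℓ) = 0 := by exact_mod_cast h
    rw [ZMod.natCast_eq_zero_iff] at h1
    exact hℓ2 ((Nat.prime_dvd_prime_iff_eq hpr Nat.prime_two).1 h1)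
  have hcz : ∀ (x : Kˣ) (m : ℤ), cl (x ^ m) = (m : ZMod ℓ) • cl x := by
    intro x m
    rcases m with m | m
    · rw [Int.ofNat_eq_natCast, zpow_natCast, cl_pow (ℓ := ℓ) c1]
      push_cast
      rfl
    · rw [zpow_negSucc, cl_inv c1, cl_pow (ℓ := ℓ) c1, Int.cast_negSucc, neg_smul]
  have hcneg : cl (-1) = 0 := by
    have hodd : Odd ℓ := hpr.odd_of_ne_two hℓ2
    have h1 : (-1 : Kˣ) = (-1) ^ ℓ := by rw [hodd.neg_one_pow]
    rw [h1]
    exact cl_pow_ell (ℓ := ℓ) c1 _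
  have hc1 : cl 1 = 0 := cl_one c1
  -- the classes of the differences
  have gm : ∀ i j, cl (gu (DD 1) i j) ∈ L0 := by
    intro i j
    rw [z0]
    refine ⟨_, fun v hv => ?_, rfl⟩
    rw [hgu v hv i j]
    exact dvd_zero _
  obtain ⟨g, hg⟩ : ∃ g : Fin n → Fin n → L0, ∀ i j, g i j =
      (a₀ : ZMod ℓ)⁻¹ • (⟨cl (gu (DD 1) i j), gm i j⟩ : L0) := ⟨_, fun i j => rfl⟩
  have hg1 : ∀ i j, (a₀ : ZMod ℓ) • (g i j : V) = cl (gu (DD 1) i j) := by
    intro i j
    rw [hg, Submodule.coe_smul, smul_smul, mul_inv_cancel₀ ha0, one_smul]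
  have hgs : ∀ i j, cl (gu (DD 1) i j) = cl (gu (DD 1) j i) := by
    intro i j
    by_cases h : i = j
    · rw [h]
    · rw [gu_neg (DD 1) h, c1, hcneg, zero_add]
  have gsymm : ∀ i j, g i j = g j i := by
    intro i j
    rw [hg, hg]
    congr 1
    exact Subtype.ext (hgs i j)
  have gdiag : ∀ i, g i i = 0 := by
    intro i
    rw [hg]
    have : (⟨cl (gu (DD 1) i i), gm i i⟩ : L0) = 0 := Subtype.ext (by
      show cl (gu (DD 1) i i) = 0
      rw [gu_self, hc1])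
    rw [this, smul_zero]
  -- torsion classes
  have htor : ∀ (δ : Kˣ) (c : Fin n → ℤ), (ℓ : ℤ) ∣ ∑ i, c i → ∀ v : Pl K,
      (fun i => loc v (tor (DD δ) c i)) ∈ Lcv ((DD δ).base (v.adicCompletion K)) := by
    intro δ c hc v
    rw [loc_tor]
    exact (hLCV ℓ n hℓ2 _ ((DD δ).base (v.adicCompletion K))).2.2.2.1 c hc
  have hctor : ∀ (δ : Kˣ) (c : Fin n → ℤ) (i : Fin n), cl (tor (DD δ) c i) =
      ((c i : ZMod ℓ) * (a₀ : ZMod ℓ)) • cl δ +
        ∑ j, (((c i : ZMod ℓ) - (c j : ZMod ℓ)) * (a₀ : ZMod ℓ)) • (g i j : V) := by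
    intro δ c i
    unfold tor
    have h1 : δu (DD δ) = δ ^ a₀ := Units.ext rfl
    rw [c1, h1, hcz, cl_pow (ℓ := ℓ) c1, smul_smul, cl_prod c1]
    congr 1
    refine Finset.sum_congr rfl fun j _ => ?_
    rw [hcz, mul_smul, hg1]
    push_cast
    rfl
  have tor' : ∀ (c : Sz ℓ n (ZMod ℓ)) (x : Sz ℓ n V), (∀ i, (x : Fin n → V) i =
      (c : Fin n → ZMod ℓ) i • ((u : V) + d1) +
        ∑ j, ((c : Fin n → ZMod ℓ) i - (c : Fin n → ZMod ℓ) j) • (g i j : V)) → x ∈ LL := by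
    intro c x hx
    let c' : Fin n → ℤ := fun i => (((a₀ : ZMod ℓ)⁻¹ * (c : Fin n → ZMod ℓ) i).val : ℤ)
    have hc' : ∀ i, (c' i : ZMod ℓ) = (a₀ : ZMod ℓ)⁻¹ * (c : Fin n → ZMod ℓ) i := by
      intro i
      show (((((a₀ : ZMod ℓ)⁻¹ * (c : Fin n → ZMod ℓ) i).val : ℕ) : ℤ) : ZMod ℓ) = _
      rw [Int.cast_natCast]
      exact ZMod.natCast_zmod_val _
    have hcs : (ℓ : ℤ) ∣ ∑ i, c' i := by
      rw [← ZMod.intCast_zmod_eq_zero_iff_dvd]
      push_cast
      rw [Finset.sum_congr rfl fun i _ => hc' i, ← Finset.mul_sum,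
        show ∑ i, (c : Fin n → ZMod ℓ) i = 0 from c.2, mul_zero]
    refine zL (tor (DD η) c') (fun v _ => htor η c' hcs v) x fun i => ?_
    rw [hx i, hctor, hee]
    congr 1
    · rw [hc', mul_comm _ ((c : Fin n → ZMod ℓ) i), mul_assoc, inv_mul_cancel₀ ha0, mul_one]
    · refine Finset.sum_congr rfl fun j _ => ?_
      rw [hc', hc', ← mul_sub, mul_comm _ ((c : Fin n → ZMod ℓ) i - _), mul_assoc,
        inv_mul_cancel₀ ha0, mul_one]
  have ind' : ∀ β : Fin n → Fin n → ZMod ℓ, (∀ i j, β i j = β j i) → (∀ i, β i i = 0) →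
      ∑ i, ∑ j, β i j = 0 → ∑ i, ∑ j, β i j • g i j = 0 → ∀ i j, β i j = 0 := by
    intro β hs hd h0 hg0
    obtain ⟨m, hm1, hm2⟩ := exists_int hℓ2 hn2 β hs hd h0
    have h1 : ∑ i, ∑ j ∈ Finset.Ioi i, β i j • g i j = 0 := by
      rw [sum_symm (fun i j => β i j • g i j) (fun i j => by rw [hs i j, gsymm i j])
        (fun i => by rw [gdiag, smul_zero])] at hg0
      rw [← Nat.cast_smul_eq_nsmul (ZMod ℓ)] at hg0
      refine (smul_eq_zero.1 hg0).resolve_left ?_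
      push_cast
      exact h20
    set x : Kˣ := ∏ i, ∏ j ∈ Finset.Ioi i, gu (DD 1) i j ^ m i j with hx
    have hclx : cl x = 0 := by
      rw [hx, cl_prod c1]
      have e1 : ∀ i, cl (∏ j ∈ Finset.Ioi i, gu (DD 1) i j ^ m i j) =
          (a₀ : ZMod ℓ) • (((∑ j ∈ Finset.Ioi i, β i j • g i j : L0) : V)) := by
        intro i
        rw [cl_prod c1, Submodule.coe_sum, Finset.smul_sum]
        refine Finset.sum_congr rfl fun j hj => ?_
        rw [Finset.mem_Ioi] at hj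
        rw [hcz, hm1 i j hj, ← hg1, Submodule.coe_smul, smul_comm]
      rw [Finset.sum_congr rfl fun i _ => e1 i, ← Finset.smul_sum, ← Submodule.coe_sum, h1,
        Submodule.coe_zero, smul_zero]
    have hodx : ∀ v, v ∉ S → od v x = 0 := by
      intro v hv
      rw [hx, Pool.Agent.T3h73.SD.MDL.od_prod]
      refine Finset.sum_eq_zero fun i _ => ?_
      rw [Pool.Agent.T3h73.SD.MDL.od_prod]
      refine Finset.sum_eq_zero fun j _ => ?_
      rw [od_zpow, hgu v hv, mul_zero]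
    obtain ⟨z, hz⟩ := hinj x ((c3 x).1 hclx) fun v hv => (pw_od hpos v x).2 (by
      rw [hodx v hv]; exact dvd_zero _)
    have h2 := hind m hm2 ⟨(z : K), by
      have h3 := congrArg (fun y : Kˣ => (y : K)) hz
      simp only [Units.val_pow_eq_pow_val] at h3
      rw [← h3, hx]
      push_cast
      refine Finset.prod_congr rfl fun i _ => Finset.prod_congr rfl fun j hj => ?_
      rw [Finset.mem_Ioi] at hj
      rw [gu_val (DD 1) hj.ne]⟩
    have h4 : ∀ i j, i < j → β i j = 0 := by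
      intro i j hij
      rw [← hm1 i j hij, ZMod.intCast_zmod_eq_zero_iff_dvd]
      exact h2 i j hij
    intro i j
    rcases lt_trichotomy i j with h | h | h
    · exact h4 i j h
    · rw [h]; exact hd j
    · rw [hs i j]; exact h4 j i h
  -- `Sep1`
  have hsep : ∀ (δ : Kˣ) (v : Pl K), v ∉ S → (DD δ).Sep1 v := by
    intro δ v hv i j hij
    have h1 := (val_one_iff v (gu (DD 1) i j)).2 (hgu v hv i j)
    rwa [gu_val (DD 1) hij] at h1
  refine ⟨𝔪, V, i1, i2, i3, ψ, L0, L1, LL, π, u, d1, g, fun q => cl (P q),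
    fun p q => sv q (P p) (P q), ⟨⟨c4, c5, hcompl, iso0, iso1, hπ, d1m, hn, hn2, isoL, ?_, gsymm,
      gdiag, tor', ind'⟩, fun q _ => pL q, ⟨h𝔪0, h𝔪c, ?_, ?_, ?_⟩⟩, ?_, ?_, hinj⟩
  · apply Nat.pow_left_injective (n := 2) (by norm_num)
    show Nat.card LL ^ 2 = (Nat.card L0 ^ (n - 1)) ^ 2
    rw [cardL, ← card0, ← pow_mul, ← pow_mul, mul_comm]
  · intro h h' q
    show ψ ((h + h' : L0) : V) (cl (P q)) = _
    rw [Submodule.coe_add, map_add, LinearMap.add_apply]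
  · intro p q hp hq hpq
    exact C2.symm hp hq hpq
  · intro h j B hB hj
    exact C2.char 𝔪 h𝔪 h j B hB hj
  · intro δ B h1 hB h2 h3
    have h2' : ∀ v ∈ B, (ℓ : ℤ) ∣ od v δ + 1 := fun v hv => hpw1 v δ (h2 v hv)
    have h3' : ∀ v, v ∉ S → v ∉ B → (ℓ : ℤ) ∣ od v δ := fun v hv hvB =>
      (pw_od hpos v δ).1 (h3 v hv hvB)
    refine ⟨(C2.sum δ B h1 h2' h3').1, fun hne hns => ?_⟩
    -- the local conditions of the nearby curve
    have hL : ∀ v ∈ S, Lcv ((DD δ).base (v.adicCompletion K)) =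
        Lcv ((DD η).base (v.adicCompletion K)) := by
      intro v hv
      obtain ⟨z, hz⟩ := h1 v hv
      refine (hLCV ℓ n hℓ2 _ ((DD η).base (v.adicCompletion K))).2.2.2.2
        ((DD δ).base (v.adicCompletion K)) ((z : v.adicCompletion K) ^ a₀) rfl rfl
        (pow_ne_zero _ z.ne_zero) ?_
      have h4 := congrArg (fun y : (v.adicCompletion K)ˣ => (y : v.adicCompletion K)) hz
      simp only [Units.val_mul, Units.val_pow_eq_pow_val] at h4
      show algebraMap K (v.adicCompletion K) ((δ : K) ^ a₀) =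
        algebraMap K (v.adicCompletion K) ((η : K) ^ a₀) * ((z : v.adicCompletion K) ^ a₀) ^ ℓ
      rw [map_pow, map_pow]
      have h5 : algebraMap K (v.adicCompletion K) (δ : K) =
          algebraMap K (v.adicCompletion K) (η : K) * (z : v.adicCompletion K) ^ ℓ := h4
      rw [h5]
      ring
    obtain ⟨s1, s2⟩ := hDICW ℓ n hℓ2 hn2 K sv S V ψ cl η L0 L1 P u d1 C2 δ a₀ ha₁ ha₂ (DD δ) rfl
      (fun v hv => hsep δ v hv) g hg1 LL
      (fun x hx y hy => zL x (fun v hv => by rw [← hL v hv]; exact hx v hv) y hy)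
      (fun c hc v _ => htor δ c hc v) B hB h1 h2 h3 hne hns
    exact hDSB ℓ n hℓ2 K (DD δ) S (fun v hv => ⟨hsep δ v hv, by
      by_contra hc
      exact hv (hab v hc)⟩) s1 s2
  · intro B hB hs
    exact C2.exists_delta B hB hs

end Pool.Agent.T3h73.SN.MDNW
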