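import Pool.Agent.T3h73.SN.Stm2

/-!
# SN/MOMW (helper26): the moments
-/

set_option autoImplicit false
set_option linter.all false

open NumberField IsDedekindDomain Filter Topology Finset

namespace Pool.Agent.T3h73.SN.MOMW

open Pool.Agent.T3h73.SL (Pl IsP Pk loc)
open Pool.Agent.T3h73.SD (Sv LN SymSys Lin ee NA T0 Mh SP Cl kap TYPQ VT S_SV S_CHS S_VSP S_LZ S_LAG)
open Pool.Agent.Y713.SE Pool.Agent.Y713.SE.Dat

theorem RcW_self (ℓ n k : ℕ) (a : ClW ℓ n k) : RcW ℓ n k a a = 0 := by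
  unfold RcW
  refine sum_eq_zero fun s _ => sum_eq_zero fun i _ => ?_
  rw [sub_self, mul_zero]

open Classical in
/-- the good maximal unlinked sets -/
noncomputable def UU (ℓ n k : ℕ) [Fact ℓ.Prime] : Finset (Finset (ClW ℓ n k)) :=
  univ.filter fun U => GdU ℓ n k U

open Classical in
theorem mem_UU {ℓ n k : ℕ} [Fact ℓ.Prime] {U : Finset (ClW ℓ n k)} :
    U ∈ UU ℓ n k ↔ GdU ℓ n k U := by
  unfold UU
  rw [mem_filter]
  exact ⟨fun h => h.2, fun h => ⟨mem_univ _, h⟩⟩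

open Classical in
theorem card_P {ℓ n k : ℕ} [Fact ℓ.Prime] (P : Finset (ClW ℓ n k) → Prop)
    (h1 : ∀ U, GdU ℓ n k U → (∀ a ∈ U, ∀ b ∈ U, RcW ℓ n k a b + RcW ℓ n k b a = 0) ∧
      U.card = ℓ ^ ((n - 1) * k))
    (h2 : ∀ U, (∀ a ∈ U, ∀ b ∈ U, RcW ℓ n k a b + RcW ℓ n k b a = 0) →
      U.card = ℓ ^ ((n - 1) * k) → P U → GdU ℓ n k U) :
    ((Nat.card {U : Finset (ClW ℓ n k) // (∀ a ∈ U, ∀ b ∈ U, RcW ℓ n k a b + RcW ℓ n k b a = 0) ∧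
      U.card = ℓ ^ ((n - 1) * k) ∧ P U} : ℕ) : ℂ) = ∑ U ∈ UU ℓ n k, if P U then 1 else 0 := by
  rw [Finset.sum_boole]
  congr 1
  refine Nat.subtype_card _ fun U => ?_
  rw [mem_filter, mem_UU]
  constructor
  · rintro ⟨a, b⟩
    exact ⟨(h1 U a).1, (h1 U a).2, b⟩
  · rintro ⟨a, b, c⟩
    exact ⟨h2 U a b c, c⟩

theorem card_UU (hGDUW : S_GDUW) {ℓ n k : ℕ} [Fact ℓ.Prime] (h2 : ℓ ≠ 2) (hn : ¬ ℓ ∣ n)
    (hn2 : 2 ≤ n) :
    (UU ℓ n k).card = ℓ ^ ((n - 1) * k) * ∏ i ∈ Finset.range k, (1 + ℓ ^ i) := by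
  classical
  rw [← (hGDUW ℓ n h2 hn hn2 k).2]
  exact (Nat.subtype_card _ fun U => mem_UU).symm

open Classical in
/-- MOMW -/
theorem t_MOMW (hAN : Pool.Agent.T3h73.SD.S_AN) (hEXPW : S_EXPW) (hUNLW : S_UNLW)
    (hCLSW : S_CLSW) (hGDUW : S_GDUW) (hMAINW : S_MAINW) : S_MOMW := by
  intro ℓ n _ hℓ2 K _ _ S 𝔪 V _ _ _ ψ L0 L1 LL π u d1 g t sy hM k
  letI : Fintype V := Fintype.ofFinite V
  have hℓ : ℓ.Prime := Fact.out
  have hG := (hGDUW ℓ n hℓ2 hM.lin.hn hM.lin.hn2 k).1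
  have hlim : ∀ (w : Fin k → Sz ℓ n L0) (α : L0) (z : Fin k → LL),
      Tendsto (fun s : ℝ => Mh S (fun (h : L0) q => ψ (h : V) (t q)) sy (RcW ℓ n k)
        (ℓ ^ ((n - 1) * k)) (hcW π u g w α z) s / ((T0 S s : ℝ) : ℂ)) (𝓝[>] 1)
      (𝓝 (∑ U ∈ UU ℓ n k, if ∀ a ∈ U, hcW π u g w α z a = 0 then 1 else 0)) := by
    intro w α z
    have h := hAN ℓ hℓ K S 𝔪 L0 (fun (h : L0) q => ψ (h : V) (t q)) sy hM.sys (ClW ℓ n k)
      (RcW ℓ n k) (ℓ ^ ((n - 1) * k)) (hcW π u g w α z) (Nat.one_le_pow _ _ hℓ.pos)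
      (RcW_self ℓ n k) fun U hU => (hUNLW ℓ n hℓ2 hM.lin.hn k U hU).1
    rw [card_P (fun U => ∀ a ∈ U, hcW π u g w α z a = 0) hG fun U h1 h2 h3 =>
      hCLSW ℓ n hℓ2 V ψ L0 L1 LL π u d1 g hM.lin k w α z U h1 h2 h3] at h
    convert h
  have h1 : ∀ᶠ s : ℝ in 𝓝[>] 1, ((Nat.card L0 : ℂ) ^ ((n - 1) * k + 1))⁻¹ *
      ∑ w : Fin k → Sz ℓ n L0, ∑ α : L0, ∑ z : Fin k → LL, ee ℓ (- ψ (α : V) d1 +
        ∑ r, ∑ i, ψ (((z r : Sz ℓ n V) : Fin n → V) i) ((w r : Fin n → L0) i : V)) *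
        (Mh S (fun (h : L0) q => ψ (h : V) (t q)) sy (RcW ℓ n k) (ℓ ^ ((n - 1) * k))
          (hcW π u g w α z) s / ((T0 S s : ℝ) : ℂ)) =
      ((SP (ℓ := ℓ) S t d1 (fun P => (nSW ψ L0 LL u g t sy P : ℝ) ^ k) s / T0 S s : ℝ) : ℂ) := by
    filter_upwards [Ioc_mem_nhdsGT (show (1 : ℝ) < 2 by norm_num)] with s hs
    rw [Complex.ofReal_div, hEXPW ℓ n hℓ2 K S 𝔪 V ψ L0 L1 LL π u d1 g t sy hM k s hs.1 hs.2,
      mul_div_assoc, Finset.sum_div]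
    congr 1
    refine sum_congr rfl fun w _ => ?_
    rw [Finset.sum_div]
    refine sum_congr rfl fun α _ => ?_
    rw [Finset.sum_div]
    refine sum_congr rfl fun z _ => ?_
    rw [mul_div_assoc]
  have h2 : Tendsto (fun s : ℝ => ((Nat.card L0 : ℂ) ^ ((n - 1) * k + 1))⁻¹ *
      ∑ w : Fin k → Sz ℓ n L0, ∑ α : L0, ∑ z : Fin k → LL, ee ℓ (- ψ (α : V) d1 +
        ∑ r, ∑ i, ψ (((z r : Sz ℓ n V) : Fin n → V) i) ((w r : Fin n → L0) i : V)) *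
        (Mh S (fun (h : L0) q => ψ (h : V) (t q)) sy (RcW ℓ n k) (ℓ ^ ((n - 1) * k))
          (hcW π u g w α z) s / ((T0 S s : ℝ) : ℂ))) (𝓝[>] 1)
      (𝓝 (((Nat.card L0 : ℂ) ^ ((n - 1) * k + 1))⁻¹ *
      ∑ w : Fin k → Sz ℓ n L0, ∑ α : L0, ∑ z : Fin k → LL, ee ℓ (- ψ (α : V) d1 +
        ∑ r, ∑ i, ψ (((z r : Sz ℓ n V) : Fin n → V) i) ((w r : Fin n → L0) i : V)) *
        ∑ U ∈ UU ℓ n k, if ∀ a ∈ U, hcW π u g w α z a = 0 then 1 else 0)) :=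
    Tendsto.const_mul _ (tendsto_finset_sum _ fun w _ => tendsto_finset_sum _ fun α _ =>
      tendsto_finset_sum _ fun z _ => Tendsto.const_mul _ (hlim w α z))
  have h3 : ((Nat.card L0 : ℂ) ^ ((n - 1) * k + 1))⁻¹ *
      ∑ w : Fin k → Sz ℓ n L0, ∑ α : L0, ∑ z : Fin k → LL, ee ℓ (- ψ (α : V) d1 +
        ∑ r, ∑ i, ψ (((z r : Sz ℓ n V) : Fin n → V) i) ((w r : Fin n → L0) i : V)) *
        (∑ U ∈ UU ℓ n k, if ∀ a ∈ U, hcW π u g w α z a = 0 then 1 else 0) =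
      (((Nat.card L0 : ℝ)⁻¹ * (((ℓ : ℝ) ^ (n - 1)) ^ k *
        ∏ i ∈ Finset.range k, (1 + (ℓ : ℝ) ^ i)) : ℝ) : ℂ) := by
    have h4 : ∑ w : Fin k → Sz ℓ n L0, ∑ α : L0, ∑ z : Fin k → LL, ee ℓ (- ψ (α : V) d1 +
        ∑ r, ∑ i, ψ (((z r : Sz ℓ n V) : Fin n → V) i) ((w r : Fin n → L0) i : V)) *
        (∑ U ∈ UU ℓ n k, if ∀ a ∈ U, hcW π u g w α z a = 0 then 1 else 0) =
        ∑ U ∈ UU ℓ n k, ∑ w : Fin k → Sz ℓ n L0, ∑ α : L0, ∑ z : Fin k → LL,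
          (if ∀ a ∈ U, hcW π u g w α z a = 0 then
            ee ℓ (- ψ (α : V) d1 +
        ∑ r, ∑ i, ψ (((z r : Sz ℓ n V) : Fin n → V) i) ((w r : Fin n → L0) i : V)) else 0) := by
      conv_rhs => rw [sum_comm]
      refine sum_congr rfl fun w _ => ?_
      conv_rhs => rw [sum_comm]
      refine sum_congr rfl fun α _ => ?_
      conv_rhs => rw [sum_comm]
      refine sum_congr rfl fun z _ => ?_
      rw [mul_sum]
      refine sum_congr rfl fun U _ => ?_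
      rw [mul_ite, mul_one, mul_zero]
    rw [h4]
    have h5 : ∀ U ∈ UU ℓ n k, ∑ w : Fin k → Sz ℓ n L0, ∑ α : L0, ∑ z : Fin k → LL,
          (if ∀ a ∈ U, hcW π u g w α z a = 0 then
            ee ℓ (- ψ (α : V) d1 +
        ∑ r, ∑ i, ψ (((z r : Sz ℓ n V) : Fin n → V) i) ((w r : Fin n → L0) i : V)) else 0) =
          (Nat.card L0 : ℂ) ^ ((n - 1) * k) := by
      intro U hU
      rw [mem_UU] at hU
      have h6 := hMAINW ℓ n hℓ2 V ψ L0 L1 LL π u d1 g hM.lin k U hU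
      convert h6
    rw [sum_congr rfl h5, sum_const, card_UU hGDUW hℓ2 hM.lin.hn hM.lin.hn2, nsmul_eq_mul]
    have h7 : (Nat.card L0 : ℂ) ≠ 0 := by
      have : 0 < Nat.card L0 := Nat.card_pos
      exact_mod_cast this.ne'
    push_cast
    rw [← pow_mul]
    field_simp
    ring
  rw [h3] at h2
  have h8 := h2.congr' h1
  have h9 := (Complex.continuous_re.tendsto _).comp h8
  exact h9

end Pool.Agent.T3h73.SN.MOMW
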