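import Pool.Agent.T3h73.SN.Stm

/-! Task MOV: moving an ideal in its class. -/

set_option autoImplicit false
set_option linter.all false

open Polynomial

namespace Pool.Agent.T3h73.SN.MOV

open Pool.Agent.T3h73.SN Pool.Agent.Y713.SE Pool.Agent.Y713.SE.Dat

/-- every class of a Dedekind domain contains an ideal prime to a given one -/
theorem move {A : Type} [CommRing A] [IsDedekindDomain A] {I 𝔣 : Ideal A} (hI : I ≠ ⊥)
    (hf : 𝔣 ≠ ⊥) : ∃ J : Ideal A, J ≠ ⊥ ∧ cl J = cl I ∧ J ⊔ 𝔣 = ⊤ := by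
  by_cases hft : 𝔣 = ⊤
  · exact ⟨I, hI, rfl, by rw [hft, sup_top_eq]⟩
  obtain ⟨I', hI', hc⟩ := exists_cl (cl I)⁻¹
  have hfI : 𝔣 * I' ≠ 0 := mul_ne_zero (by rwa [Ne, Submodule.zero_eq_bot])
    (by rwa [Ne, Submodule.zero_eq_bot])
  obtain ⟨a, ha⟩ := IsDedekindDomain.exists_sup_span_eq (Ideal.mul_le_right : 𝔣 * I' ≤ I') hfI
  have ha0 : a ≠ 0 := by
    rintro rfl
    rw [Ideal.span_singleton_eq_bot.2 rfl, sup_bot_eq] at ha
    apply hft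
    have h1 : 𝔣 * I' = ⊤ * I' := by rw [Ideal.top_mul, ha]
    exact mul_right_cancel₀ (by rwa [Ne, Submodule.zero_eq_bot]) h1
  have hle : Ideal.span {a} ≤ I' := by
    conv_rhs => rw [← ha]
    exact le_sup_right
  obtain ⟨J, hJ⟩ := Ideal.dvd_iff_le.2 hle
  have hJ0 : J ≠ ⊥ := by
    rintro rfl
    rw [Ideal.mul_bot] at hJ
    exact ha0 (Ideal.span_singleton_eq_bot.1 hJ)
  refine ⟨J, hJ0, ?_, ?_⟩
  · have h1 := cl_span ha0
    rw [hJ, cl_mul hI' hJ0, hc] at h1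
    exact (inv_mul_eq_one.1 h1).symm
  · have h2 : I' * (J ⊔ 𝔣) = I' * ⊤ := by
      rw [Ideal.mul_sup, ← hJ, mul_comm I' 𝔣, sup_comm, ha, Ideal.mul_top]
    exact mul_left_cancel₀ (by rwa [Ne, Submodule.zero_eq_bot]) h2

theorem t_MOV : S_MOV := by
  intro ℓ n hℓ E _ D I 𝔣 hI hf
  obtain ⟨J1, hJ1, hc1, hs1⟩ := move hI hf
  by_cases hd : ℓ ∣ (D.U J1).natDegree
  · exact ⟨J1, hJ1, hc1, hs1, hd⟩
  obtain ⟨x, hx, hx0⟩ := Submodule.exists_mem_ne_zero_of_ne_bot hf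
  obtain ⟨F, hF0, hFm⟩ : ∃ F : E[X], F ≠ 0 ∧ algebraMap E[X] D.A F ∈ 𝔣 := by
    refine ⟨D.Nm x, D.Nm_ne hx0, ?_⟩
    obtain ⟨b, hb⟩ := D.dvd_Nm x
    rw [hb]
    exact 𝔣.mul_mem_right _ hx
  have hcop : Nat.Coprime ℓ n := (Nat.Prime.coprime_iff_not_dvd D.hp).2 D.hn
  obtain ⟨j, hj1, hj2⟩ : ∃ j : ℕ, j < ℓ ∧ ℓ ∣ (D.U J1).natDegree + n * j := by
    obtain ⟨m, -, hm⟩ := Nat.exists_mul_mod_eq_one_of_coprime hcop.symm D.hp.one_lt
    set d := (D.U J1).natDegree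
    refine ⟨(m * ((ℓ - 1) * d)) % ℓ, Nat.mod_lt _ D.pos, ?_⟩
    apply (Nat.modEq_zero_iff_dvd).1
    have h1 : n * ((m * ((ℓ - 1) * d)) % ℓ) ≡ (ℓ - 1) * d [MOD ℓ] := by
      calc n * ((m * ((ℓ - 1) * d)) % ℓ) ≡ n * (m * ((ℓ - 1) * d)) [MOD ℓ] :=
            Nat.ModEq.mul_left _ (Nat.mod_modEq _ _)
        _ = n * m * ((ℓ - 1) * d) := by ring
        _ ≡ 1 * ((ℓ - 1) * d) [MOD ℓ] := by
            apply Nat.ModEq.mul_right
            unfold Nat.ModEq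
            rw [hm, Nat.mod_eq_of_lt D.hp.one_lt]
        _ = (ℓ - 1) * d := one_mul _
    calc d + n * ((m * ((ℓ - 1) * d)) % ℓ) ≡ d + (ℓ - 1) * d [MOD ℓ] := Nat.ModEq.add_left _ h1
      _ = ℓ * d := by
          obtain ⟨k, hk⟩ : ∃ k, ℓ = k + 1 := ⟨ℓ - 1, (Nat.sub_add_cancel D.pos).symm⟩
          rw [hk, Nat.add_sub_cancel]; ring
      _ ≡ 0 [MOD ℓ] := (Nat.modEq_zero_iff_dvd).2 (dvd_mul_right _ _)
  have hj0 : j ≠ 0 := by
    rintro rfl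
    rw [mul_zero, add_zero] at hj2
    exact hd hj2
  set a : D.A := 1 + F • D.y ^ j with ha
  have hca : ∀ i : Fin ℓ, D.c i a = (if (⟨0, D.pos⟩ : Fin ℓ) = i then 1 else 0) +
      F * (if (⟨j, hj1⟩ : Fin ℓ) = i then 1 else 0) := by
    intro i
    have h1 : D.c i (1 : D.A) = if (⟨0, D.pos⟩ : Fin ℓ) = i then 1 else 0 := by
      have := D.c_algebraMap 1 i
      rwa [map_one] at this
    have h2 : D.c i (D.y ^ ((⟨j, hj1⟩ : Fin ℓ) : ℕ)) = if (⟨j, hj1⟩ : Fin ℓ) = i then 1 else 0 :=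
      cf_pow D.pos _ _
    rw [ha, map_add, map_smul, h1, smul_eq_mul]
    congr 1
    exact congrArg (fun z => F * z) h2
  have h0j : (⟨0, D.pos⟩ : Fin ℓ) ≠ ⟨j, hj1⟩ := by
    intro h
    exact hj0 (congrArg Fin.val h).symm
  have hcj : D.c ⟨j, hj1⟩ a = F := by
    rw [hca, if_neg h0j, if_pos rfl, zero_add, mul_one]
  have ha0 : a ≠ 0 := by
    intro h
    rw [h, map_zero] at hcj
    exact hF0 hcj.symm
  have hdeg : (D.Nm a).natDegree = ℓ * F.natDegree + n * j := by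
    have h := D.natDegree_Nm (a := a) (j0 := ⟨j, hj1⟩) (by rw [hcj]; exact hF0) (by
      intro i hi hi0
      rw [hcj]
      have hji : (⟨j, hj1⟩ : Fin ℓ) ≠ i := fun h => hi h.symm
      rw [hca, if_neg hji, mul_zero, add_zero] at hi0 ⊢
      by_cases h0 : (⟨0, D.pos⟩ : Fin ℓ) = i
      · subst h0
        rw [if_pos rfl, natDegree_one]
        have h1 : 0 < n * j := Nat.mul_pos D.n_pos (Nat.pos_of_ne_zero hj0)
        simp only [mul_zero, add_zero]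
        omega
      · rw [if_neg h0] at hi0
        exact absurd rfl hi0)
    rw [hcj] at h
    exact h
  have hspan : Ideal.span {a} ⊔ 𝔣 = ⊤ := by
    rw [Ideal.eq_top_iff_one]
    have h1 : (1 : D.A) = a - F • D.y ^ j := by rw [ha]; ring
    rw [h1]
    refine Ideal.sub_mem _ (Ideal.mem_sup_left (Ideal.mem_span_singleton_self a))
      (Ideal.mem_sup_right ?_)
    rw [Algebra.smul_def]
    exact 𝔣.mul_mem_right _ hFm
  refine ⟨J1 * Ideal.span {a}, D.mul_ne hJ1 (D.span_ne ha0), ?_, ?_, ?_⟩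
  · rw [cl_mul hJ1 (D.span_ne ha0), cl_span ha0, mul_one, hc1]
  · exact Ideal.isCoprime_iff_sup_eq.1 ((Ideal.isCoprime_iff_sup_eq.2 hs1).mul_left
      (Ideal.isCoprime_iff_sup_eq.2 hspan))
  · rw [D.U_mul hJ1 (D.span_ne ha0), (D.U_monic _).natDegree_mul (D.U_monic _),
      D.natDegree_U_span ha0, hdeg]
    obtain ⟨k, hk⟩ := hj2
    exact ⟨k + F.natDegree, by rw [mul_add, ← hk]; ring⟩

end Pool.Agent.T3h73.SN.MOV
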