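import Pool.Agent.T3h64.SP.Base

/-! SPA: the group of the 2-cocycles modulo coboundaries and the symbols. -/

set_option autoImplicit false
set_option linter.all false

open Polynomial

namespace Pool.Agent.T3h73.SN.SPA

open Pool.Agent.Y713 (Jac.Gal)
open Pool.Agent.T3h64.SP

section
variable (E : Type) [Field E]

/-- the 2-cochains -/
abbrev C2 : Type := Jac.Gal E → Jac.Gal E → (SeparableClosure E)ˣ

/-- the action on the units -/
noncomputable def act (σ : Jac.Gal E) : (SeparableClosure E)ˣ →* (SeparableClosure E)ˣ :=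
  Units.map (σ : SeparableClosure E →* SeparableClosure E)

theorem act_val (σ : Jac.Gal E) (u : (SeparableClosure E)ˣ) :
    ((act E σ u : (SeparableClosure E)ˣ) : SeparableClosure E) = σ u := rfl

/-- the coboundaries of the locally constant cochains -/
noncomputable def Bd : Subgroup (C2 E) where
  carrier := {c | ∃ b : Jac.Gal E → (SeparableClosure E)ˣ, IsLocallyConstant b ∧
    ∀ σ τ, c σ τ * b (σ * τ) = b σ * act E σ (b τ)}
  one_mem' := ⟨fun _ => 1, IsLocallyConstant.const 1, fun σ τ => by simp⟩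
  mul_mem' := by
    rintro c c' ⟨b, hb, h⟩ ⟨b', hb', h'⟩
    refine ⟨b * b', hb.mul hb', fun σ τ => ?_⟩
    have e1 : (c * c') σ τ * (b * b') (σ * τ) = (c σ τ * b (σ * τ)) * (c' σ τ * b' (σ * τ)) := by
      show (c σ τ * c' σ τ) * (b (σ * τ) * b' (σ * τ)) = _
      exact mul_mul_mul_comm _ _ _ _
    rw [e1, h, h']
    show _ = (b σ * b' σ) * act E σ (b τ * b' τ)
    rw [map_mul]
    exact mul_mul_mul_comm _ _ _ _
  inv_mem' := by
    rintro c ⟨b, hb, h⟩
    refine ⟨b⁻¹, hb.inv, fun σ τ => ?_⟩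
    show (c σ τ)⁻¹ * (b (σ * τ))⁻¹ = (b σ)⁻¹ * act E σ (b τ)⁻¹
    rw [map_inv, ← mul_inv, ← mul_inv, h]

end

section
variable {ℓ : ℕ} {E : Type} [Field E] [CharZero E] {ζ : E}

/-- the map from `Eˣ` -/
noncomputable def em : Eˣ →* (SeparableClosure E)ˣ :=
  Units.map (algebraMap E (SeparableClosure E) : E →* SeparableClosure E)

theorem em_val (x : Eˣ) : ((em x : (SeparableClosure E)ˣ) : SeparableClosure E) =
    algebraMap E (SeparableClosure E) (x : E) := rfl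

theorem act_em (σ : Jac.Gal E) (x : Eˣ) : act E σ (em x) = em x :=
  Units.ext (by rw [act_val, em_val, σ.commutes])

/-- the cocycle -/
noncomputable def cc (ℓ : ℕ) (r : Jac.Gal E → ℕ) (x : Eˣ) : C2 E :=
  fun σ τ => em x ^ ((r σ + r τ - r (σ * τ)) / ℓ)

theorem cc_mul_left (r : Jac.Gal E → ℕ) (x x' : Eˣ) : cc ℓ r (x * x') = cc ℓ r x * cc ℓ r x' := by
  funext σ τ
  show em (x * x') ^ _ = em x ^ _ * em x' ^ _
  rw [map_mul, mul_pow]

theorem cc_mul_right (hℓ : ℓ ≠ 0) (hζ : IsPrimitiveRoot ζ ℓ) {y y' : Eˣ}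
    {θ θ' θ'' : SeparableClosure E} {r r' r'' : Jac.Gal E → ℕ}
    (h : KDat ℓ ζ y θ r) (h' : KDat ℓ ζ y' θ' r') (h'' : KDat ℓ ζ (y * y') θ'' r'') (x : Eˣ) :
    (cc ℓ r'' x)⁻¹ * (cc ℓ r x * cc ℓ r' x) ∈ Bd E := by
  have hr : r'' = fun σ => (r σ + r' σ) % ℓ := h''.unique hℓ hζ (h.prod hℓ hζ h')
  let k : Jac.Gal E → ℕ := fun σ => (r σ + r' σ) / ℓ
  have hk : ∀ σ, r σ + r' σ = r'' σ + ℓ * k σ := fun σ => by
    rw [hr]; exact (Nat.mod_add_div _ _).symm
  have hlc : IsLocallyConstant k := by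
    have h1 := (h.lc hℓ hζ).prodMk (h'.lc hℓ hζ)
    exact h1.comp (fun p : ℕ × ℕ => (p.1 + p.2) / ℓ)
  refine ⟨fun σ => em x ^ k σ, hlc.comp (fun n => em x ^ n), fun σ τ => ?_⟩
  have e1 := h.nn hℓ hζ σ τ
  have e2 := h'.nn hℓ hζ σ τ
  have e3 := h''.nn hℓ hζ σ τ
  have key : (r σ + r τ - r (σ * τ)) / ℓ + (r' σ + r' τ - r' (σ * τ)) / ℓ + k (σ * τ) =
      (r'' σ + r'' τ - r'' (σ * τ)) / ℓ + (k σ + k τ) := by
    have h1 := hk σ
    have h2 := hk τ
    have h3 := hk (σ * τ)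
    generalize (r σ + r τ - r (σ * τ)) / ℓ = a at *
    generalize (r' σ + r' τ - r' (σ * τ)) / ℓ = a' at *
    generalize (r'' σ + r'' τ - r'' (σ * τ)) / ℓ = a'' at *
    apply Nat.eq_of_mul_eq_mul_left (Nat.pos_of_ne_zero hℓ)
    zify at *
    linarith
  show (em x ^ ((r'' σ + r'' τ - r'' (σ * τ)) / ℓ))⁻¹ * (em x ^ ((r σ + r τ - r (σ * τ)) / ℓ) *
    em x ^ ((r' σ + r' τ - r' (σ * τ)) / ℓ)) * em x ^ k (σ * τ) = em x ^ k σ * act E σ (em x ^ k τ)
  rw [map_pow, act_em, ← pow_add, ← pow_add, mul_assoc, ← pow_add, key, pow_add, inv_mul_cancel_left]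

end

/-- the quotient -/
def QQ (E : Type) [Field E] : Type := C2 E ⧸ Bd E

noncomputable instance instQ (E : Type) [Field E] : CommGroup (QQ E) :=
  QuotientGroup.Quotient.commGroup (Bd E)

/-- the projection -/
noncomputable def qm (E : Type) [Field E] : C2 E →* QQ E := QuotientGroup.mk' (Bd E)

theorem qm_one (E : Type) [Field E] (c : C2 E) : qm E c = 1 ↔ c ∈ Bd E :=
  QuotientGroup.eq_one_iff c

theorem qm_eq (E : Type) [Field E] (c c' : C2 E) : qm E c = qm E c' ↔ c⁻¹ * c' ∈ Bd E :=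
  QuotientGroup.eq

theorem t_SPA : S_SPA := by
  intro ℓ hp hℓ2 E _ _ ζ hζ
  have hℓ : ℓ ≠ 0 := hp.ne_zero
  choose θ r hd using fun y : Eˣ => exists_kdat (E := E) hℓ hζ y
  let s1 : Eˣ → Eˣ →* QQ E := fun x => MonoidHom.mk' (fun y => qm E (cc ℓ (r y) x))
    (fun y y' => by
      rw [← map_mul, qm_eq]
      exact cc_mul_right hℓ hζ (hd y) (hd y') (hd (y * y')) x)
  let s : Eˣ →* Eˣ →* QQ E := MonoidHom.mk' s1 (fun x x' => by
    refine MonoidHom.ext fun y => ?_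
    show qm E (cc ℓ (r y) (x * x')) = qm E (cc ℓ (r y) x) * qm E (cc ℓ (r y) x')
    rw [cc_mul_left, map_mul])
  have hs : ∀ x y, s x y = qm E (cc ℓ (r y) x) := fun x y => rfl
  refine ⟨QQ E, instQ E, s, ?_⟩
  intro m x y
  have hprod : ∏ i, s (x i) (y i) = qm E (∏ i, cc ℓ (r (y i)) (x i)) := by
    rw [map_prod]
    exact Finset.prod_congr rfl fun i _ => hs _ _
  rw [hprod, qm_one]
  have hval : ∀ σ τ : Jac.Gal E, (((∏ i, cc ℓ (r (y i)) (x i)) σ τ : (SeparableClosure E)ˣ) :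
      SeparableClosure E) = algebraMap E (SeparableClosure E)
        (∏ i, (x i : E) ^ ((r (y i) σ + r (y i) τ - r (y i) (σ * τ)) / ℓ)) := by
    intro σ τ
    rw [Finset.prod_apply, Finset.prod_apply, Units.coe_prod, map_prod]
    refine Finset.prod_congr rfl fun i _ => ?_
    show ((em (x i) ^ _ : (SeparableClosure E)ˣ) : SeparableClosure E) = _
    rw [Units.val_pow_eq_pow_val, em_val, map_pow]
  constructor
  · rintro ⟨θ', r', b, h1, h2, h3, h4, h5⟩
    have hr : ∀ i, (fun σ => r' σ i) = r (y i) := fun i =>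
      KDat.unique hℓ hζ (y := y i) (θ := θ' i) (θ' := θ (y i)) ⟨h1 i, fun σ => h2 σ i, fun σ => h3 σ i⟩ (hd (y i))
    refine ⟨b, h4, fun σ τ => Units.ext ?_⟩
    rw [Units.val_mul, hval, Units.val_mul, act_val, ← h5 σ τ]
    congr 2
    refine Finset.prod_congr rfl fun i _ => ?_
    rw [← hr i]
  · rintro ⟨b, hb, h⟩
    refine ⟨fun i => θ (y i), fun σ i => r (y i) σ, b, fun i => (hd (y i)).1, fun σ i => (hd (y i)).2.1 σ,
      fun σ i => (hd (y i)).2.2 σ, hb, fun σ τ => ?_⟩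
    have h1 := congrArg (Units.val) (h σ τ)
    rw [Units.val_mul, hval, Units.val_mul, act_val] at h1
    exact h1

end Pool.Agent.T3h73.SN.SPA

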