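import Pool.Agent.T3h64.SP.Base

/-! SPN: a single symbol is zero if and only if `x` is a norm from `E(y ^ (1/ℓ))`. -/

set_option autoImplicit false
set_option linter.all false

open Polynomial

namespace Pool.Agent.T3h73.SN.SPN

open Pool.Agent.Y713 (Jac.Gal)
open Pool.Agent.T3h73.SL (IsP)
open Pool.Agent.T3h64.SP
open scoped Topology

section emb
variable {ℓ : ℕ} {E : Type} [Field E] [CharZero E] {ζ : E} {y : Eˣ} {θ : SeparableClosure E}
  {r : Jac.Gal E → ℕ}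

/-- the embedding with `root ↦ z ^ j θ` -/
noncomputable def ph (hζ : IsPrimitiveRoot ζ ℓ) (h : KDat ℓ ζ y θ r) (j : ℕ) :
    AdjoinRoot (X ^ ℓ - C (y : E) : E[X]) →ₐ[E] (SeparableClosure E) :=
  AdjoinRoot.liftAlgHom _ (Algebra.ofId E (SeparableClosure E)) (algebraMap E (SeparableClosure E) ζ ^ j * θ) (by
    rw [eval₂_sub, eval₂_X_pow, eval₂_C, mul_pow, h.1, ← pow_mul, mul_comm j ℓ, pow_mul,
      (prim hζ).pow_eq_one, one_pow, one_mul]
    exact sub_self _)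

theorem ph_root (hζ : IsPrimitiveRoot ζ ℓ) (h : KDat ℓ ζ y θ r) (j : ℕ) :
    ph hζ h j (AdjoinRoot.root _) = algebraMap E (SeparableClosure E) ζ ^ j * θ := AdjoinRoot.liftAlgHom_root _ _ _ _

theorem ph_comp (hζ : IsPrimitiveRoot ζ ℓ) (h : KDat ℓ ζ y θ r) (j : ℕ) (σ : Jac.Gal E)
    (c : AdjoinRoot (X ^ ℓ - C (y : E) : E[X])) : σ (ph hζ h j c) = ph hζ h (j + r σ) c := by
  have h1 : (σ : (SeparableClosure E) →ₐ[E] (SeparableClosure E)).comp (ph hζ h j) = ph hζ h (j + r σ) := by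
    refine AdjoinRoot.algHom_ext ?_
    rw [AlgHom.comp_apply, ph_root, ph_root, map_mul, map_pow]
    show (σ (algebraMap E (SeparableClosure E) ζ)) ^ j * σ θ = _
    rw [σ.commutes, h.2.1, pow_add, mul_assoc]
  exact congrArg (fun f : AdjoinRoot (X ^ ℓ - C (y : E) : E[X]) →ₐ[E] (SeparableClosure E) => f c) h1

theorem ph_add (hζ : IsPrimitiveRoot ζ ℓ) (h : KDat ℓ ζ y θ r) (j : ℕ) :
    ph hζ h (ℓ + j) = ph hζ h j := by
  refine AdjoinRoot.algHom_ext ?_
  rw [ph_root, ph_root, pow_add, (prim hζ).pow_eq_one, one_mul]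

theorem ph_mul_add (hζ : IsPrimitiveRoot ζ ℓ) (h : KDat ℓ ζ y θ r) (n j : ℕ) :
    ph hζ h (ℓ * n + j) = ph hζ h j := by
  refine AdjoinRoot.algHom_ext ?_
  rw [ph_root, ph_root, pow_add, pow_mul, (prim hζ).pow_eq_one, one_pow, one_mul]

theorem ne_zero' (hℓ : ℓ ≠ 0) : (X ^ ℓ - C (y : E) : E[X]) ≠ 0 :=
  (monic_X_pow_sub_C _ hℓ).ne_zero

theorem norm_ph (hℓ : ℓ ≠ 0) (hζ : IsPrimitiveRoot ζ ℓ) (h : KDat ℓ ζ y θ r)
    (hirr : Irreducible (X ^ ℓ - C (y : E) : E[X])) (c : AdjoinRoot (X ^ ℓ - C (y : E) : E[X])) :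
    algebraMap E (SeparableClosure E) (Algebra.norm E c) = ∏ j ∈ Finset.range ℓ, ph hζ h j c := by
  haveI : Fact (Irreducible (X ^ ℓ - C (y : E) : E[X])) := ⟨hirr⟩
  haveI : FiniteDimensional E (AdjoinRoot (X ^ ℓ - C (y : E) : E[X])) :=
    (AdjoinRoot.powerBasis (ne_zero' hℓ)).finite
  haveI : CharZero (SeparableClosure E) := charZero_of_injective_algebraMap (algebraMap E (SeparableClosure E)).injective
  haveI : IsAlgClosed (SeparableClosure E) := IsSepClosed.isAlgClosed_of_perfectField (SeparableClosure E)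
  rw [Algebra.norm_eq_prod_embeddings]
  rw [Finset.prod_range]
  symm
  refine Fintype.prod_bijective (fun j : Fin ℓ => ph hζ h (j : ℕ)) ⟨?_, ?_⟩ _ _ (fun j => rfl)
  · intro a b hab
    have h1 : ph hζ h (a : ℕ) (AdjoinRoot.root _) = ph hζ h (b : ℕ) (AdjoinRoot.root _) := by
      have h2 : ph hζ h (a : ℕ) = ph hζ h (b : ℕ) := hab
      rw [h2]
    rw [ph_root, ph_root] at h1
    exact Fin.ext ((prim hζ).pow_inj a.2 b.2 (mul_right_cancel₀ (h.ne hℓ) h1))
  · intro g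
    haveI : NeZero ℓ := ⟨hℓ⟩
    have h1 : g (AdjoinRoot.root (X ^ ℓ - C (y : E) : E[X])) ^ ℓ = algebraMap E (SeparableClosure E) (y : E) := by
      have h2 : (AdjoinRoot.root (X ^ ℓ - C (y : E) : E[X])) ^ ℓ = AdjoinRoot.of _ (y : E) := by
        have h3 := AdjoinRoot.eval₂_root (X ^ ℓ - C (y : E) : E[X])
        rw [eval₂_sub, eval₂_X_pow, eval₂_C] at h3
        exact sub_eq_zero.1 h3
      rw [← map_pow, h2]
      exact g.commutes _
    have h4 : (g (AdjoinRoot.root (X ^ ℓ - C (y : E) : E[X])) / θ) ^ ℓ = 1 := by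
      rw [div_pow, h1, h.1, div_self]
      intro h0
      exact y.ne_zero ((algebraMap E (SeparableClosure E)).injective (h0.trans (map_zero _).symm))
    obtain ⟨i, hi, hi'⟩ := (prim hζ).eq_pow_of_pow_eq_one h4
    refine ⟨⟨i, hi⟩, ?_⟩
    refine AdjoinRoot.algHom_ext ?_
    rw [ph_root]
    show algebraMap E (SeparableClosure E) ζ ^ i * θ = _
    rw [hi', div_mul_cancel₀ _ (h.ne hℓ)]

end emb

section easy
variable {ℓ : ℕ} {E : Type} [Field E] [CharZero E] {ζ : E} {x y : Eˣ} {θ : SeparableClosure E}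
  {r : Jac.Gal E → ℕ}

/-- `b` splits the symbol -/
def SplB (ℓ : ℕ) {E : Type} [Field E] (x : Eˣ) (r : Jac.Gal E → ℕ)
    (b : Jac.Gal E → (SeparableClosure E)ˣ) : Prop :=
  IsLocallyConstant b ∧ ∀ σ τ : Jac.Gal E,
    algebraMap E (SeparableClosure E) ((x : E) ^ ((r σ + r τ - r (σ * τ)) / ℓ)) *
      (b (σ * τ) : SeparableClosure E) = b σ * σ (b τ : SeparableClosure E)

theorem spl_iff (hℓ : ℓ ≠ 0) (hζ : IsPrimitiveRoot ζ ℓ) (h : KDat ℓ ζ y θ r) :
    Spl ℓ ζ (fun _ : Fin 1 => x) (fun _ => y) ↔ ∃ b, SplB ℓ x r b := by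
  constructor
  · rintro ⟨θ', r', b, h1, h2, h3, h4, h5⟩
    have hr : (fun σ => r' σ 0) = r :=
      KDat.unique hℓ hζ (y := y) (θ := θ' 0) (θ' := θ) ⟨h1 0, fun σ => h2 σ 0, fun σ => h3 σ 0⟩ h
    subst hr
    refine ⟨b, h4, fun σ τ => ?_⟩
    rw [← h5 σ τ, Fin.prod_univ_one]
  · rintro ⟨b, hb, h1⟩
    refine ⟨fun _ => θ, fun σ _ => r σ, b, fun _ => h.1, fun σ _ => h.2.1 σ, fun σ _ => h.2.2 σ, hb,
      fun σ τ => ?_⟩
    rw [← h1 σ τ, Fin.prod_univ_one]

theorem spl_of_isP (hℓ : ℓ ≠ 0) (hζ : IsPrimitiveRoot ζ ℓ) (hy : IsP ℓ y) :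
    Spl ℓ ζ (fun _ : Fin 1 => x) (fun _ => y) := by
  obtain ⟨w, hw⟩ := hy
  have h : KDat ℓ ζ y (algebraMap E (SeparableClosure E) (w : E)) (fun _ => 0) :=
    ⟨by rw [hw, Units.val_pow_eq_pow_val, map_pow], fun σ => by rw [σ.commutes, pow_zero, one_mul],
      fun _ => Nat.pos_of_ne_zero hℓ⟩
  rw [spl_iff hℓ hζ h]
  refine ⟨fun _ => 1, IsLocallyConstant.const 1, fun σ τ => ?_⟩
  simp

theorem prod_range_ph (hζ : IsPrimitiveRoot ζ ℓ) (h : KDat ℓ ζ y θ r) (n a : ℕ)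
    (c : AdjoinRoot (X ^ ℓ - C (y : E) : E[X])) :
    ∏ j ∈ Finset.range (ℓ * n + a), ph hζ h j c =
      (∏ j ∈ Finset.range ℓ, ph hζ h j c) ^ n * ∏ j ∈ Finset.range a, ph hζ h j c := by
  have h1 : ∀ n, ∏ j ∈ Finset.range (ℓ * n), ph hζ h j c =
      (∏ j ∈ Finset.range ℓ, ph hζ h j c) ^ n := by
    intro n
    induction n with
    | zero => simp
    | succ n ih =>
      rw [mul_add, mul_one, Finset.prod_range_add, ih, pow_succ]
      simp only [ph_mul_add]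
  rw [Finset.prod_range_add, h1]
  simp only [ph_mul_add]

theorem spl_of_norm (hℓ : ℓ ≠ 0) (hζ : IsPrimitiveRoot ζ ℓ) (h : KDat ℓ ζ y θ r)
    (hirr : Irreducible (X ^ ℓ - C (y : E) : E[X])) (c : AdjoinRoot (X ^ ℓ - C (y : E) : E[X]))
    (hc : Algebra.norm E c = (x : E)) : ∃ b, SplB ℓ x r b := by
  have hN := norm_ph hℓ hζ h hirr c
  rw [hc] at hN
  have hx0 : algebraMap E (SeparableClosure E) (x : E) ≠ 0 := fun h0 =>
    x.ne_zero ((algebraMap E (SeparableClosure E)).injective (h0.trans (map_zero _).symm))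
  have hne : ∀ j, ph hζ h j c ≠ 0 := by
    intro j h0
    have h1 : ph hζ h (ℓ * (j / ℓ) + j % ℓ) c = 0 := by rw [Nat.div_add_mod]; exact h0
    rw [ph_mul_add] at h1
    exact hx0 (hN.trans (Finset.prod_eq_zero
      (Finset.mem_range.2 (Nat.mod_lt _ (Nat.pos_of_ne_zero hℓ))) h1))
  let B : ℕ → (SeparableClosure E)ˣ := fun n => Units.mk0 (∏ j ∈ Finset.range n, ph hζ h j c)
    (Finset.prod_ne_zero_iff.2 fun j _ => hne j)
  refine ⟨fun σ => B (r σ), (h.lc hℓ hζ).comp B, fun σ τ => ?_⟩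
  show _ * (∏ j ∈ Finset.range (r (σ * τ)), ph hζ h j c) =
    (∏ j ∈ Finset.range (r σ), ph hζ h j c) * σ (∏ j ∈ Finset.range (r τ), ph hζ h j c)
  have e := h.nn hℓ hζ σ τ
  generalize (r σ + r τ - r (σ * τ)) / ℓ = n at e ⊢
  rw [map_prod]
  have h1 : ∀ j, σ (ph hζ h j c) = ph hζ h (r σ + j) c := fun j => by
    rw [ph_comp, add_comm]
  simp only [h1]
  rw [← Finset.prod_range_add (fun j => ph hζ h j c), e, add_comm (r (σ * τ)), prod_range_ph,
    ← hN, map_pow]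

end easy

section hard
variable {ℓ : ℕ} {E : Type} [Field E] [CharZero E] {ζ : E} {x y : Eˣ} {θ : SeparableClosure E}
  {r : Jac.Gal E → ℕ}

theorem SplB.one (hℓ : ℓ ≠ 0) (hζ : IsPrimitiveRoot ζ ℓ) (h : KDat ℓ ζ y θ r) {b : Jac.Gal E → (SeparableClosure E)ˣ}
    (hb : SplB ℓ x r b) : b 1 = 1 := by
  have h1 := hb.2 1 1
  rw [mul_one, h.one hℓ hζ, Nat.add_zero, Nat.sub_self, Nat.zero_div, pow_zero, map_one, one_mul,
    AlgEquiv.one_apply] at h1
  refine Units.ext ?_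
  rw [Units.val_one]
  exact (mul_eq_left₀ (b 1).ne_zero).1 h1.symm

theorem SplB.right (hℓ : ℓ ≠ 0) (hζ : IsPrimitiveRoot ζ ℓ) (h : KDat ℓ ζ y θ r) {b : Jac.Gal E → (SeparableClosure E)ˣ}
    (hb : SplB ℓ x r b) (s u : Jac.Gal E) (hu : r u = 0) :
    (b (s * u) : (SeparableClosure E)) = b s * s (b u : (SeparableClosure E)) := by
  have h1 := hb.2 s u
  have h2 : r (s * u) = r s := by
    rw [h.mul hℓ hζ, hu, Nat.add_zero, Nat.mod_eq_of_lt (h.2.2 s)]
  rw [h2, hu, Nat.add_zero, Nat.sub_self, Nat.zero_div, pow_zero, map_one, one_mul] at h1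
  exact h1

theorem SplB.left (hℓ : ℓ ≠ 0) (hζ : IsPrimitiveRoot ζ ℓ) (h : KDat ℓ ζ y θ r) {b : Jac.Gal E → (SeparableClosure E)ˣ}
    (hb : SplB ℓ x r b) (u s : Jac.Gal E) (hu : r u = 0) :
    (b (u * s) : (SeparableClosure E)) = b u * u (b s : (SeparableClosure E)) := by
  have h1 := hb.2 u s
  have h2 : r (u * s) = r s := by
    rw [h.mul hℓ hζ, hu, Nat.zero_add, Nat.mod_eq_of_lt (h.2.2 s)]
  rw [h2, hu, Nat.zero_add, Nat.sub_self, Nat.zero_div, pow_zero, map_one, one_mul] at h1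
  exact h1

/-- the finite level -/
theorem exists_level (hℓ : ℓ ≠ 0) (hζ : IsPrimitiveRoot ζ ℓ) (h : KDat ℓ ζ y θ r)
    {b : Jac.Gal E → (SeparableClosure E)ˣ} (hb : SplB ℓ x r b) :
    ∃ L : IntermediateField E (SeparableClosure E), FiniteDimensional E L ∧ Normal E L ∧
      (∀ σ τ : Jac.Gal E, (∀ a : L, σ (a : (SeparableClosure E)) = τ (a : (SeparableClosure E))) → b σ = b τ ∧ r σ = r τ) := by
  have h1 : {σ : Jac.Gal E | b σ = 1 ∧ r σ = 0} ∈ 𝓝 (1 : Jac.Gal E) := by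
    have ho : IsOpen {σ : Jac.Gal E | b σ = 1 ∧ r σ = 0} :=
      (hb.1.isOpen_fiber 1).inter ((h.lc hℓ hζ).isOpen_fiber 0)
    exact ho.mem_nhds ⟨hb.one hℓ hζ h, h.one hℓ hζ⟩
  rw [krullTopology_mem_nhds_one_iff_of_normal] at h1
  obtain ⟨L, hL1, hL2, hL3⟩ := h1
  refine ⟨L, hL1, hL2, fun σ τ hst => ?_⟩
  have h2 : σ⁻¹ * τ ∈ L.fixingSubgroup := by
    rw [IntermediateField.mem_fixingSubgroup_iff]
    intro a ha
    rw [AlgEquiv.mul_apply, ← hst ⟨a, ha⟩, ← AlgEquiv.mul_apply, inv_mul_cancel]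
    rfl
  obtain ⟨h3, h4⟩ := hL3 h2
  have h5 := hb.right hℓ hζ h σ (σ⁻¹ * τ) h4
  rw [mul_inv_cancel_left, h3, Units.val_one, map_one, mul_one] at h5
  have h6 := h.mul hℓ hζ σ (σ⁻¹ * τ)
  rw [mul_inv_cancel_left, h4, Nat.add_zero, Nat.mod_eq_of_lt (h.2.2 σ)] at h6
  exact ⟨(Units.ext h5).symm, h6.symm⟩

/-- Hilbert 90 for the subgroup `r = 0` -/
theorem exists_beta (hℓ : ℓ ≠ 0) (hζ : IsPrimitiveRoot ζ ℓ) (h : KDat ℓ ζ y θ r)
    {b : Jac.Gal E → (SeparableClosure E)ˣ} (hb : SplB ℓ x r b) :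
    ∃ β : (SeparableClosure E), β ≠ 0 ∧ ∀ u : Jac.Gal E, r u = 0 → (b u : (SeparableClosure E)) * u β = β := by
  classical
  obtain ⟨L, hL1, hL2, hL3⟩ := exists_level hℓ hζ h hb
  let lf : (L ≃ₐ[E] L) → Jac.Gal E := fun g => g.liftNormal (SeparableClosure E)
  let rs : Jac.Gal E → (L ≃ₐ[E] L) := fun σ => σ.restrictNormal L
  have hrs : ∀ (σ : Jac.Gal E) (a : L), ((rs σ a : L) : (SeparableClosure E)) = σ a := fun σ a =>
    AlgEquiv.restrictNormal_commutes σ L a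
  have hlf : ∀ (g : L ≃ₐ[E] L) (a : L), lf g (a : (SeparableClosure E)) = ((g a : L) : (SeparableClosure E)) := fun g a =>
    AlgEquiv.liftNormal_commutes g (SeparableClosure E) a
  -- the values at the lifts
  have hmul : ∀ (u : Jac.Gal E) (g : L ≃ₐ[E] L), b (lf (rs u * g)) = b (u * lf g) ∧
      r (lf (rs u * g)) = r (u * lf g) := by
    intro u g
    refine hL3 _ _ fun a => ?_
    rw [hlf, AlgEquiv.mul_apply, AlgEquiv.mul_apply, hlf, hrs]
  have hone : b (lf 1) = b 1 ∧ r (lf 1) = r 1 := by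
    refine hL3 _ _ fun a => ?_
    rw [hlf]; rfl
  let B : (L ≃ₐ[E] L) → (SeparableClosure E) := fun g => if r (lf g) = 0 then (b (lf g) : (SeparableClosure E)) else 0
  let χ : (L ≃ₐ[E] L) → (L →* (SeparableClosure E)) := fun g => ((algebraMap L (SeparableClosure E)).comp (g : L →+* L)).toMonoidHom
  have hχ : ∀ g a, χ g a = ((g a : L) : (SeparableClosure E)) := fun g a => rfl
  have hχi : Function.Injective χ := by
    intro g g' hg
    refine AlgEquiv.ext fun a => ?_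
    have h1 := congrArg (fun f : L →* (SeparableClosure E) => f a) hg
    exact Subtype.ext h1
  have hli := (linearIndependent_monoidHom L (SeparableClosure E)).comp χ hχi
  have hex : ∃ a : L, ∑ g : L ≃ₐ[E] L, B g * ((g a : L) : (SeparableClosure E)) ≠ 0 := by
    by_contra hcon
    push Not at hcon
    have h2 := (Fintype.linearIndependent_iff.1 hli) B (by
      funext a
      rw [Finset.sum_apply]
      exact hcon a) 1
    have h3 : B 1 = 1 := by
      show (if r (lf 1) = 0 then (b (lf 1) : (SeparableClosure E)) else 0) = 1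
      rw [hone.2, h.one hℓ hζ, if_pos rfl, hone.1, hb.one hℓ hζ h, Units.val_one]
    rw [h3] at h2
    exact one_ne_zero h2
  obtain ⟨a, ha⟩ := hex
  refine ⟨_, ha, fun u hu => ?_⟩
  rw [map_sum, Finset.mul_sum]
  refine Fintype.sum_bijective (fun g => rs u * g) (Group.mulLeft_bijective (rs u)) _ _ fun g => ?_
  rw [map_mul, ← mul_assoc, AlgEquiv.mul_apply, hrs]
  congr 1
  show (b u : (SeparableClosure E)) * u (if r (lf g) = 0 then (b (lf g) : (SeparableClosure E)) else 0) =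
    if r (lf (rs u * g)) = 0 then (b (lf (rs u * g)) : (SeparableClosure E)) else 0
  rw [(hmul u g).1, (hmul u g).2]
  have h4 : r (u * lf g) = r (lf g) := by
    rw [h.mul hℓ hζ, hu, Nat.zero_add, Nat.mod_eq_of_lt (h.2.2 _)]
  rw [h4]
  split_ifs with h5
  · exact (hb.left hℓ hζ h u (lf g) hu).symm
  · rw [map_zero, mul_zero]

/-- an element fixed by the subgroup `r = 0` is in the image of `ph 0` -/
theorem mem_range (hℓ : ℓ ≠ 0) (hζ : IsPrimitiveRoot ζ ℓ) (h : KDat ℓ ζ y θ r)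
    (hirr : Irreducible (X ^ ℓ - C (y : E) : E[X])) (d : (SeparableClosure E))
    (hd : ∀ u : Jac.Gal E, r u = 0 → u d = d) :
    ∃ c : AdjoinRoot (X ^ ℓ - C (y : E) : E[X]), ph hζ h 0 c = d := by
  haveI : Fact (Irreducible (X ^ ℓ - C (y : E) : E[X])) := ⟨hirr⟩
  have h1 := InfiniteGalois.fixedField_fixingSubgroup ((ph hζ h 0).fieldRange)
  have h2 : d ∈ IntermediateField.fixedField ((ph hζ h 0).fieldRange).fixingSubgroup := by
    rw [IntermediateField.mem_fixedField_iff]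
    intro u hu
    refine hd u ?_
    rw [IntermediateField.mem_fixingSubgroup_iff] at hu
    have h3 : u θ = θ := by
      refine hu θ ⟨AdjoinRoot.root _, ?_⟩
      show ph hζ h 0 (AdjoinRoot.root _) = θ
      rw [ph_root, pow_zero, one_mul]
    have h4 := h.2.1 u
    rw [h3] at h4
    have h5 : (algebraMap E (SeparableClosure E) ζ) ^ r u = (algebraMap E (SeparableClosure E) ζ) ^ 0 := by
      rw [pow_zero]
      exact mul_right_cancel₀ (h.ne hℓ) (by rw [one_mul]; exact h4.symm)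
    exact (prim hζ).pow_inj (h.2.2 u) (Nat.pos_of_ne_zero hℓ) h5
  rw [h1] at h2
  obtain ⟨c, hc⟩ := h2
  exact ⟨c, hc⟩

theorem exists_s (hp : ℓ.Prime) (hζ : IsPrimitiveRoot ζ ℓ) (h : KDat ℓ ζ y θ r) (hy : ¬ IsP ℓ y) :
    ∃ s : Jac.Gal E, r s = 1 := by
  have hℓ := hp.ne_zero
  have h1 : ∃ σ : Jac.Gal E, r σ ≠ 0 := by
    by_contra hcon
    push Not at hcon
    apply hy
    have h2 : θ ∈ Set.range (algebraMap E (SeparableClosure E)) := by
      rw [InfiniteGalois.mem_range_algebraMap_iff_fixed]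
      intro σ
      rw [h.2.1 σ, hcon σ, pow_zero, one_mul]
    obtain ⟨w, hw⟩ := h2
    have hw0 : w ≠ 0 := by
      rintro rfl
      rw [map_zero] at hw
      exact h.ne hℓ hw.symm
    refine ⟨Units.mk0 w hw0, Units.ext ?_⟩
    rw [Units.val_pow_eq_pow_val, Units.val_mk0]
    apply (algebraMap E (SeparableClosure E)).injective
    rw [map_pow, hw, h.1]
  obtain ⟨σ, hσ⟩ := h1
  have hpow : ∀ k, r (σ ^ k) = (k * r σ) % ℓ := by
    intro k
    induction k with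
    | zero => rw [pow_zero, h.one hℓ hζ, Nat.zero_mul, Nat.zero_mod]
    | succ k ih =>
      rw [pow_succ, h.mul hℓ hζ, ih, Nat.mod_add_mod, Nat.succ_mul]
  have hcop : Nat.Coprime (r σ) ℓ := by
    refine (Nat.Prime.coprime_iff_not_dvd hp).2 (fun hd => ?_) |>.symm
    exact absurd (Nat.le_of_dvd (Nat.pos_of_ne_zero hσ) hd) (not_le.2 (h.2.2 σ))
  obtain ⟨k, -, hk⟩ := Nat.exists_mul_mod_eq_one_of_coprime hcop hp.one_lt
  exact ⟨σ ^ k, by rw [hpow, mul_comm]; exact hk⟩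

theorem norm_of_spl (hp : ℓ.Prime) (hζ : IsPrimitiveRoot ζ ℓ) (h : KDat ℓ ζ y θ r) (hy : ¬ IsP ℓ y)
    (hirr : Irreducible (X ^ ℓ - C (y : E) : E[X])) {b : Jac.Gal E → (SeparableClosure E)ˣ} (hb : SplB ℓ x r b) :
    ∃ c : AdjoinRoot (X ^ ℓ - C (y : E) : E[X]), Algebra.norm E c = (x : E) := by
  have hℓ := hp.ne_zero
  obtain ⟨β, hβ0, hβ⟩ := exists_beta hℓ hζ h hb
  obtain ⟨s, hs⟩ := exists_s hp hζ h hy
  set b' : Jac.Gal E → (SeparableClosure E) := fun σ => b σ * (σ β / β) with hb'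
  have hcoc : ∀ σ τ : Jac.Gal E, algebraMap E (SeparableClosure E) (x : E) ^ ((r σ + r τ - r (σ * τ)) / ℓ) * b' (σ * τ) =
      b' σ * σ (b' τ) := by
    intro σ τ
    have h1 := hb.2 σ τ
    rw [map_pow] at h1
    have hσβ : σ β ≠ 0 := fun h0 => hβ0 ((map_eq_zero σ).1 h0)
    calc algebraMap E (SeparableClosure E) (x : E) ^ ((r σ + r τ - r (σ * τ)) / ℓ) * b' (σ * τ)
        = (algebraMap E (SeparableClosure E) (x : E) ^ ((r σ + r τ - r (σ * τ)) / ℓ) * (b (σ * τ) : (SeparableClosure E))) *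
            (σ (τ β) / β) := by rw [hb']; simp only [AlgEquiv.mul_apply]; ring
      _ = (b σ * σ (b τ : (SeparableClosure E))) * (σ (τ β) / β) := by rw [h1]
      _ = b' σ * σ (b' τ) := by
        rw [hb']; simp only [map_mul, map_div₀]
        field_simp
  have hb1 : ∀ u, r u = 0 → b' u = 1 := by
    intro u hu
    show (b u : (SeparableClosure E)) * (u β / β) = 1
    rw [← mul_div_assoc, hβ u hu, div_self hβ0]
  have hright : ∀ σ u : Jac.Gal E, r u = 0 → b' (σ * u) = b' σ := by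
    intro σ u hu
    have h1 := hcoc σ u
    have h2 : r (σ * u) = r σ := by
      rw [h.mul hℓ hζ, hu, Nat.add_zero, Nat.mod_eq_of_lt (h.2.2 σ)]
    rw [h2, hu, Nat.add_zero, Nat.sub_self, Nat.zero_div, pow_zero, one_mul, hb1 u hu, map_one,
      mul_one] at h1
    exact h1
  have hleft : ∀ u σ : Jac.Gal E, r u = 0 → b' (u * σ) = u (b' σ) := by
    intro u σ hu
    have h1 := hcoc u σ
    have h2 : r (u * σ) = r σ := by
      rw [h.mul hℓ hζ, hu, Nat.zero_add, Nat.mod_eq_of_lt (h.2.2 σ)]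
    rw [h2, hu, Nat.zero_add, Nat.sub_self, Nat.zero_div, pow_zero, one_mul, hb1 u hu, one_mul] at h1
    exact h1
  have hfix : ∀ u : Jac.Gal E, r u = 0 → u (b' s) = b' s := by
    intro u hu
    have h1 : u * s = s * (s⁻¹ * u * s) := by group
    have h2 : r (s⁻¹ * u * s) = 0 := by
      have h3 : r (s⁻¹ * u * s) = (r s⁻¹ + r s) % ℓ := by
        rw [h.mul hℓ hζ, h.mul hℓ hζ, hu, Nat.add_zero, Nat.mod_add_mod]
      have h4 := h.mul hℓ hζ s⁻¹ s
      rw [inv_mul_cancel, h.one hℓ hζ] at h4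
      rw [h3, ← h4]
    rw [← hleft u s hu, h1, hright _ _ h2]
  obtain ⟨c, hc⟩ := mem_range hℓ hζ h hirr (b' s) hfix
  refine ⟨c, ?_⟩
  have hrpow : ∀ k, r (s ^ k) = k % ℓ := by
    intro k
    induction k with
    | zero => rw [pow_zero, h.one hℓ hζ, Nat.zero_mod]
    | succ k ih => rw [pow_succ, h.mul hℓ hζ, ih, hs, Nat.mod_add_mod]
  have hind : ∀ k, ∏ j ∈ Finset.range k, ph hζ h j c = algebraMap E (SeparableClosure E) (x : E) ^ (k / ℓ) * b' (s ^ k) := by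
    intro k
    induction k with
    | zero => rw [Finset.range_zero, Finset.prod_empty, Nat.zero_div, pow_zero, one_mul, pow_zero,
        hb1 1 (h.one hℓ hζ)]
    | succ k ih =>
      have e1 : ∏ j ∈ Finset.range k, ph hζ h (j + 1) c = s (∏ j ∈ Finset.range k, ph hζ h j c) := by
        rw [map_prod]
        refine Finset.prod_congr rfl fun j _ => ?_
        rw [ph_comp, hs]
      rw [Finset.prod_range_succ', e1, ih, hc, map_mul, map_pow, s.commutes, pow_succ' s k]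
      have h1 := hcoc s (s ^ k)
      have e2 := h.nn hℓ hζ s (s ^ k)
      rw [← pow_succ', hrpow (k + 1), hrpow k, hs] at e2
      rw [← pow_succ', hrpow (k + 1), hrpow k, hs] at h1
      generalize (1 + k % ℓ - (k + 1) % ℓ) / ℓ = n at h1 e2
      have e3 : (k + 1) / ℓ = k / ℓ + n := by
        have h5 := Nat.mod_add_div k ℓ
        have h6 := Nat.mod_add_div (k + 1) ℓ
        apply Nat.eq_of_mul_eq_mul_left hp.pos
        rw [mul_add]
        omega
      rw [← pow_succ', e3, pow_add, mul_assoc, mul_assoc, mul_comm (s (b' (s ^ k))), h1]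
  apply (algebraMap E (SeparableClosure E)).injective
  rw [norm_ph hℓ hζ h hirr c, hind ℓ, Nat.div_self hp.pos, pow_one, hb1 (s ^ ℓ) (by rw [hrpow, Nat.mod_self]),
    mul_one]

end hard

theorem t_SPN : S_SPN := by
  intro ℓ hp hℓ2 E _ _ ζ hζ x y
  have hℓ : ℓ ≠ 0 := hp.ne_zero
  obtain ⟨θ, r, h⟩ := exists_kdat (E := E) hℓ hζ y
  by_cases hy : IsP ℓ y
  · exact ⟨fun _ => Or.inl hy, fun _ => spl_of_isP hℓ hζ hy⟩
  have hirr : Irreducible (X ^ ℓ - C (y : E) : E[X]) := by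
    refine X_pow_sub_C_irreducible_of_prime hp fun w hw => hy ?_
    have hw0 : w ≠ 0 := by
      rintro rfl
      rw [zero_pow hℓ] at hw
      exact y.ne_zero hw.symm
    exact ⟨Units.mk0 w hw0, Units.ext (by rw [Units.val_pow_eq_pow_val, Units.val_mk0]; exact hw.symm)⟩
  rw [spl_iff hℓ hζ h]
  constructor
  · rintro ⟨b, hb⟩
    exact Or.inr (norm_of_spl hp hζ h hy hirr hb)
  · rintro (h1 | ⟨c, hc⟩)
    · exact absurd h1 hy
    · exact spl_of_norm hℓ hζ h hirr c hc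

end Pool.Agent.T3h73.SN.SPN

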