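import Pool.Agent.T3h73.SN.Stm

/-!
Project SN (helper73, MP_a43263), task SYM (helper2): comparison of two pairings with the same zeros.
-/

set_option autoImplicit false
set_option linter.all false

open NumberField IsDedekindDomain Polynomial

namespace Pool.Agent.T3h73.SN.SYM

open Pool.Agent.T3h73.SL (Pl IsP Pk loc)
open Pool.Agent.T3h73.SD (Sv LN)

section abs
variable {G B : Type} [CommGroup G] [CommGroup B] {ℓ : ℕ} [Fact ℓ.Prime]
  (σ : G → G → ZMod ℓ) (hl : ∀ x x' y, σ (x * x') y = σ x y + σ x' y)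
  (hr : ∀ x y y', σ x (y * y') = σ x y + σ x y')
include hl in
lemma l_one (y : G) : σ 1 y = 0 := by
  have := hl 1 1 y
  rw [one_mul] at this
  exact left_eq_add.1 this

include hl in
lemma l_inv (x y : G) : σ x⁻¹ y = - σ x y := by
  have := hl x x⁻¹ y
  rw [mul_inv_cancel, l_one σ hl] at this
  linear_combination -this

include hl in
lemma l_pow (x y : G) (k : ℕ) : σ (x ^ k) y = k * σ x y := by
  induction k with
  | zero => simp [l_one σ hl]
  | succ k ih => rw [pow_succ, hl, ih]; push_cast; ring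

include hl in
lemma l_prod {m : ℕ} (z : Fin m → G) (y : G) : σ (∏ i, z i) y = ∑ i, σ (z i) y := by
  induction m with
  | zero => simp [l_one σ hl]
  | succ m ih => rw [Fin.prod_univ_succ, Fin.sum_univ_succ, hl, ih]

/-- comparison of two pairings with the same zeros -/
lemma compare (hl : ∀ x x' y, σ (x * x') y = σ x y + σ x' y)
    (hr : ∀ x y y', σ x (y * y') = σ x y + σ x y') (τ : G →* G →* B)
    (h : ∀ x y, τ x y = 1 ↔ σ x y = 0) {m : ℕ} (x y : Fin m → G)
    (hp : ∏ i, τ (x i) (y i) = 1) : ∑ i, σ (x i) (y i) = 0 := by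
  have ro : ∀ x, σ x 1 = 0 := fun x => l_one (fun a b => σ b a) (fun a b c => hr c a b) x
  have ri : ∀ x y, σ x y⁻¹ = - σ x y := fun x y => l_inv (fun a b => σ b a) (fun a b c => hr c a b) y x
  have rp : ∀ x y (k : ℕ), σ x (y ^ k) = k * σ x y :=
    fun x y k => l_pow (fun a b => σ b a) (fun a b c => hr c a b) y x k
  by_cases hz : ∀ x y, σ x y = 0
  · exact Finset.sum_eq_zero (fun i _ => hz _ _)
  push Not at hz
  obtain ⟨x0, c, h0⟩ := hz
  have claim : ∀ x y : G, ∃ z : G, σ z c = σ x y ∧ τ x y = τ z c := by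
    intro x y
    by_cases ha : σ x y = 0
    · exact ⟨1, by rw [l_one σ hl, ha], by rw [(h x y).2 ha, map_one, MonoidHom.one_apply]⟩
    -- an element `u` with `σ u y = σ x y` and `σ u c ≠ 0`
    obtain ⟨u, hu1, hu2⟩ : ∃ u, σ u y = σ x y ∧ σ u c ≠ 0 := by
      by_cases hxc : σ x c = 0
      · let b : ZMod ℓ := σ x0 y / σ x y
        refine ⟨x * (x0 * (x ^ b.val)⁻¹), ?_, ?_⟩
        · rw [hl, hl, l_inv σ hl, l_pow σ hl, ZMod.natCast_val, ZMod.cast_id]
          show σ x y + (σ x0 y + -(σ x0 y / σ x y * σ x y)) = σ x y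
          rw [div_mul_cancel₀ _ ha]
          ring
        · rw [hl, hl, l_inv σ hl, l_pow σ hl, hxc, mul_zero, neg_zero, zero_add, add_zero]
          exact h0
      · exact ⟨x, rfl, hxc⟩
    have h1 : τ x y = τ u y := by
      have h2 : τ (x * u⁻¹) y = 1 := by
        rw [h, hl, l_inv σ hl, hu1, add_neg_cancel]
      rw [map_mul, MonoidHom.mul_apply, map_inv, MonoidHom.inv_apply, mul_inv_eq_one] at h2
      exact h2
    let b : ZMod ℓ := σ u y / σ u c
    have hb : ((b.val : ℕ) : ZMod ℓ) * σ u c = σ u y := by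
      rw [ZMod.natCast_val, ZMod.cast_id]
      exact div_mul_cancel₀ _ hu2
    have h3 : τ u y = τ u (c ^ b.val) := by
      have h4 : τ u (y * (c ^ b.val)⁻¹) = 1 := by
        rw [h, hr, ri, rp, hb, add_neg_cancel]
      rw [map_mul, map_inv, mul_inv_eq_one] at h4
      exact h4
    refine ⟨u ^ b.val, ?_, ?_⟩
    · rw [l_pow σ hl, hb, hu1]
    · rw [h1, h3, map_pow, map_pow, MonoidHom.pow_apply]
  choose z hz1 hz2 using claim
  have h5 : τ (∏ i, z (x i) (y i)) c = 1 := by
    rw [map_prod, MonoidHom.finsetProd_apply, ← hp]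
    exact Finset.prod_congr rfl (fun i _ => (hz2 _ _).symm)
  rw [h, l_prod σ hl] at h5
  rw [← h5]
  exact Finset.sum_congr rfl (fun i _ => (hz1 _ _).symm)

end abs

theorem t_SYM (hSPA : S_SPA) (hSPN : S_SPN) (hLNZ : S_LNZ) : S_SYM := by
  intro ℓ hp h2 K _ _ ζ hζ sv H v m x y hS
  haveI : Fact ℓ.Prime := ⟨hp⟩
  haveI : CharZero (v.adicCompletion K) :=
    charZero_of_injective_algebraMap (algebraMap K (v.adicCompletion K)).injective
  have hζ' : IsPrimitiveRoot (algebraMap K (v.adicCompletion K) ζ) ℓ :=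
    hζ.map_of_injective (algebraMap K (v.adicCompletion K)).injective
  obtain ⟨B, _, s, hs⟩ := hSPA ℓ hp h2 (v.adicCompletion K) _ hζ'
  have hanti : ∀ a b : Kˣ, sv v a b = - sv v b a := by
    intro a b
    have h := H.alt v (a * b)
    rw [H.mul_left, H.mul_right, H.mul_right, H.alt, H.alt] at h
    linear_combination h
  let τ : Kˣ →* Kˣ →* B := MonoidHom.mk' (fun a => (s (loc v a)).comp (loc v)) (fun a b => by
    ext c
    simp [map_mul])
  have hτ : ∀ a b, τ a b = s (loc v a) (loc v b) := fun a b => rfl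
  have hkey : ∀ a b : Kˣ, τ a b = 1 ↔ sv v a b = 0 := by
    intro a b
    rw [hτ]
    have h3 := hs 1 (fun _ => loc v a) (fun _ => loc v b)
    rw [Fin.prod_univ_one] at h3
    rw [← h3, hSPN ℓ hp h2 (v.adicCompletion K) _ hζ']
    have h4 : sv v a b = 0 ↔ sv v b a = 0 := by rw [hanti a b, neg_eq_zero]
    rw [h4]
    constructor
    · intro h5
      exact H.ln v b a h5
    · intro h5
      exact hLNZ ℓ hp h2 K ζ hζ sv H v b a h5
  refine compare (fun a b => sv v a b) (H.mul_left v) (H.mul_right v) τ hkey x y ?_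
  exact (hs m _ _).1 hS

end Pool.Agent.T3h73.SN.SYM
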