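import Pool.Agent.T3h73.SN.Stm2

/-!
# Project SN, part UNLW: unlinked sets of colours
-/

set_option autoImplicit false
set_option linter.all false

namespace Pool.Agent.T3h73.SN.UNLW

open Pool.Agent.T3h73.SD (Cl Rc S_UNL)

section

variable {ℓ m k : ℕ}

/-- the coordinates -/
def Fm (ℓ m k : ℕ) : ClW ℓ (m + 1) k →ₗ[ZMod ℓ] Cl ℓ (m * k) where
  toFun a := (fun p => (a.1 (finProdFinEquiv.symm p).2 : Fin (m + 1) → ZMod ℓ)
      (finProdFinEquiv.symm p).1.succ,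
    fun p => (a.2 (finProdFinEquiv.symm p).2 : Fin (m + 1) → ZMod ℓ)
      (finProdFinEquiv.symm p).1.succ - (a.2 (finProdFinEquiv.symm p).2 : Fin (m + 1) → ZMod ℓ) 0)
  map_add' := by
    intro a b
    ext p
    · rfl
    · exact add_sub_add_comm _ _ _ _
  map_smul' := by
    intro r a
    ext p
    · rfl
    · exact (mul_sub r _ _).symm

theorem Fm_1 (a : ClW ℓ (m + 1) k) (i : Fin m) (s : Fin k) :
    (Fm ℓ m k a).1 (finProdFinEquiv (i, s)) = (a.1 s : Fin (m + 1) → ZMod ℓ) i.succ := by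
  show (a.1 (finProdFinEquiv.symm (finProdFinEquiv (i, s))).2 : Fin (m + 1) → ZMod ℓ)
      (finProdFinEquiv.symm (finProdFinEquiv (i, s))).1.succ = _
  rw [Equiv.symm_apply_apply]

theorem Fm_2 (a : ClW ℓ (m + 1) k) (i : Fin m) (s : Fin k) :
    (Fm ℓ m k a).2 (finProdFinEquiv (i, s)) =
      (a.2 s : Fin (m + 1) → ZMod ℓ) i.succ - (a.2 s : Fin (m + 1) → ZMod ℓ) 0 := by
  show (a.2 (finProdFinEquiv.symm (finProdFinEquiv (i, s))).2 : Fin (m + 1) → ZMod ℓ)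
      (finProdFinEquiv.symm (finProdFinEquiv (i, s))).1.succ -
      (a.2 (finProdFinEquiv.symm (finProdFinEquiv (i, s))).2 : Fin (m + 1) → ZMod ℓ) 0 = _
  rw [Equiv.symm_apply_apply]

theorem sum_z (c : Sz ℓ (m + 1) (ZMod ℓ)) : (c : Fin (m + 1) → ZMod ℓ) 0 +
    ∑ i : Fin m, (c : Fin (m + 1) → ZMod ℓ) i.succ = 0 := by
  have h : ∑ i, (c : Fin (m + 1) → ZMod ℓ) i = 0 := c.2
  rwa [Fin.sum_univ_succ] at h

/-- the product on `W` in coordinates -/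
theorem prod_w (κ c : Sz ℓ (m + 1) (ZMod ℓ)) :
    ∑ i : Fin m, ((κ : Fin (m + 1) → ZMod ℓ) i.succ - (κ : Fin (m + 1) → ZMod ℓ) 0) *
      (c : Fin (m + 1) → ZMod ℓ) i.succ =
    ∑ i, (κ : Fin (m + 1) → ZMod ℓ) i * (c : Fin (m + 1) → ZMod ℓ) i := by
  rw [Fin.sum_univ_succ]
  have h : (c : Fin (m + 1) → ZMod ℓ) 0 = - ∑ i : Fin m, (c : Fin (m + 1) → ZMod ℓ) i.succ :=
    eq_neg_of_add_eq_zero_left (sum_z c)
  rw [h]
  simp only [sub_mul]
  rw [Finset.sum_sub_distrib, ← Finset.mul_sum]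
  ring

theorem sum_p {M : Type} [AddCommMonoid M] (f : Fin (m * k) → M) :
    ∑ p, f p = ∑ s : Fin k, ∑ i : Fin m, f (finProdFinEquiv (i, s)) := by
  rw [← finProdFinEquiv.sum_comp f, Fintype.sum_prod_type, Finset.sum_comm]

theorem prod_F (x y : ClW ℓ (m + 1) k) :
    ∑ p, (Fm ℓ m k x).1 p * (Fm ℓ m k y).2 p =
      ∑ s, ∑ i, (x.1 s : Fin (m + 1) → ZMod ℓ) i * (y.2 s : Fin (m + 1) → ZMod ℓ) i := by
  rw [sum_p]
  refine Finset.sum_congr rfl fun s _ => ?_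
  rw [Finset.sum_congr rfl fun i _ => mul_comm ((x.1 s : Fin (m + 1) → ZMod ℓ) i) _,
    ← prod_w (y.2 s) (x.1 s)]
  refine Finset.sum_congr rfl fun i _ => ?_
  rw [Fm_1, Fm_2, mul_comm]

theorem Rc_F (a b : ClW ℓ (m + 1) k) :
    Rc ℓ (m * k) (Fm ℓ m k a) (Fm ℓ m k b) = RcW ℓ (m + 1) k a b := by
  have h := prod_F (a - b) b
  rw [map_sub] at h
  unfold Rc RcW
  rw [← Finset.sum_congr rfl fun p _ => mul_comm ((Fm ℓ m k a).1 p - (Fm ℓ m k b).1 p) _]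
  refine Eq.trans h ?_
  refine Finset.sum_congr rfl fun s _ => Finset.sum_congr rfl fun i _ => ?_
  rw [mul_comm]
  rfl

theorem Fm_inj [Fact ℓ.Prime] (hn : ¬ ℓ ∣ m + 1) : Function.Injective (Fm ℓ m k) := by
  rw [← LinearMap.ker_eq_bot, LinearMap.ker_eq_bot']
  intro a ha
  have h1 : ∀ s, a.1 s = 0 := by
    intro s
    have h2 : ∀ i : Fin m, (a.1 s : Fin (m + 1) → ZMod ℓ) i.succ = 0 := by
      intro i
      rw [← Fm_1, ha]
      rfl
    have h3 : (a.1 s : Fin (m + 1) → ZMod ℓ) 0 = 0 := by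
      have := sum_z (a.1 s)
      rw [Finset.sum_eq_zero (fun i _ => h2 i), add_zero] at this
      exact this
    apply Subtype.ext
    funext j
    exact Fin.cases h3 h2 j
  have h1' : ∀ s, a.2 s = 0 := by
    intro s
    have h2 : ∀ i : Fin m, (a.2 s : Fin (m + 1) → ZMod ℓ) i.succ =
        (a.2 s : Fin (m + 1) → ZMod ℓ) 0 := by
      intro i
      rw [← sub_eq_zero, ← Fm_2, ha]
      rfl
    have h3 : (a.2 s : Fin (m + 1) → ZMod ℓ) 0 = 0 := by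
      have h4 := sum_z (a.2 s)
      rw [Finset.sum_congr rfl (fun i _ => h2 i), Finset.sum_const, Finset.card_univ,
        Fintype.card_fin, nsmul_eq_mul] at h4
      have h5 : ((m + 1 : ℕ) : ZMod ℓ) * (a.2 s : Fin (m + 1) → ZMod ℓ) 0 = 0 := by
        rw [← h4]
        push_cast
        ring
      rcases mul_eq_zero.1 h5 with h6 | h6
      · exact absurd ((ZMod.natCast_eq_zero_iff _ _).1 h6) hn
      · exact h6
    apply Subtype.ext
    funext j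
    exact Fin.cases h3 (fun i => (h2 i).trans h3) j
  exact Prod.ext (funext h1) (funext h1')

theorem Fm_surj [Fact ℓ.Prime] (hn : ¬ ℓ ∣ m + 1) : Function.Surjective (Fm ℓ m k) := by
  intro b
  have hn0 : ((m + 1 : ℕ) : ZMod ℓ) ≠ 0 := fun h => hn ((ZMod.natCast_eq_zero_iff _ _).1 h)
  obtain ⟨t, ht⟩ : ∃ t : Fin k → ZMod ℓ, ∀ s, ((m + 1 : ℕ) : ZMod ℓ) * t s =
      - ∑ i : Fin m, b.2 (finProdFinEquiv (i, s)) :=
    ⟨fun s => ((m + 1 : ℕ) : ZMod ℓ)⁻¹ * - ∑ i : Fin m, b.2 (finProdFinEquiv (i, s)),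
      fun s => by rw [mul_inv_cancel_left₀ hn0]⟩
  refine ⟨(fun s => ⟨Fin.cons (α := fun _ => ZMod ℓ) (- ∑ i : Fin m, b.1 (finProdFinEquiv (i, s)))
      (fun i => b.1 (finProdFinEquiv (i, s))), ?_⟩,
    fun s => ⟨Fin.cons (α := fun _ => ZMod ℓ) (t s)
      (fun i => b.2 (finProdFinEquiv (i, s)) + t s), ?_⟩), ?_⟩
  · show ∑ i, _ = (0 : ZMod ℓ)
    rw [Fin.sum_univ_succ]
    simp only [Fin.cons_zero, Fin.cons_succ]
    exact neg_add_cancel _
  · show ∑ i, _ = (0 : ZMod ℓ)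
    rw [Fin.sum_univ_succ]
    simp only [Fin.cons_zero, Fin.cons_succ]
    rw [Finset.sum_add_distrib, Finset.sum_const, Finset.card_univ, Fintype.card_fin,
      nsmul_eq_mul]
    have h := ht s
    push_cast at h
    linear_combination h
  · apply Prod.ext
    · funext p
      obtain ⟨⟨i, s⟩, rfl⟩ := finProdFinEquiv.surjective p
      rw [Fm_1]
      simp only [Fin.cons_succ]
    · funext p
      obtain ⟨⟨i, s⟩, rfl⟩ := finProdFinEquiv.surjective p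
      rw [Fm_2]
      simp only [Fin.cons_succ, Fin.cons_zero]
      ring

end

theorem t_UNLW (hUNL : S_UNL) : S_UNLW := by
  classical
  intro ℓ n _ hℓ hn k U hU
  obtain ⟨m, rfl⟩ : ∃ m, n = m + 1 := by
    rcases n with _ | m
    · exact absurd (dvd_zero ℓ) hn
    · exact ⟨m, rfl⟩
  rw [Nat.add_sub_cancel]
  obtain ⟨F, hF⟩ : ∃ F : ClW ℓ (m + 1) k ≃ₗ[ZMod ℓ] Cl ℓ (m * k), ∀ a, F a = Fm ℓ m k a :=
    ⟨LinearEquiv.ofBijective (Fm ℓ m k) ⟨Fm_inj hn, Fm_surj hn⟩, fun a => rfl⟩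
  have hc : (U.map F.toEquiv.toEmbedding).card = U.card := Finset.card_map _
  obtain ⟨h1, h2⟩ := hUNL ℓ hℓ (m * k) (U.map F.toEquiv.toEmbedding) (by
    intro a ha b hb
    rw [Finset.mem_map] at ha hb
    obtain ⟨a, ha, rfl⟩ := ha
    obtain ⟨b, hb, rfl⟩ := hb
    show Rc ℓ (m * k) (F a) (F b) + Rc ℓ (m * k) (F b) (F a) = 0
    rw [hF, hF, Rc_F, Rc_F]
    exact hU a ha b hb)
  rw [hc] at h1 h2
  refine ⟨h1, fun h3 => ?_⟩
  obtain ⟨x₀, X, g1, _, g3, g4⟩ := h2 h3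
  refine ⟨F.symm x₀, X.comap (F : ClW ℓ (m + 1) k →ₗ[ZMod ℓ] Cl ℓ (m * k)), ?_, ?_, ?_⟩
  · intro x hx y hy
    have h4 := g1 _ (Submodule.mem_comap.1 hx) _ (Submodule.mem_comap.1 hy)
    have h5 : ∑ p, ((Fm ℓ m k x).1 p * (Fm ℓ m k y).2 p + (Fm ℓ m k y).1 p * (Fm ℓ m k x).2 p) =
        0 := by
      rw [← hF, ← hF]
      exact h4
    rw [Finset.sum_add_distrib, prod_F, prod_F, ← Finset.sum_add_distrib] at h5
    rw [← h5]
    refine Finset.sum_congr rfl fun s _ => ?_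
    rw [← Finset.sum_add_distrib]
    rfl
  · refine Eq.trans ?_ g3
    have e : X.comap (F : ClW ℓ (m + 1) k →ₗ[ZMod ℓ] Cl ℓ (m * k)) =
        X.map (F.symm : Cl ℓ (m * k) →ₗ[ZMod ℓ] ClW ℓ (m + 1) k) :=
      (Submodule.map_equiv_eq_comap_symm F.symm X).symm
    rw [e]
    exact LinearEquiv.finrank_map_eq F.symm X
  · intro a
    have h4 := g4 (F a)
    rw [Submodule.mem_comap]
    have h5 : F a ∈ U.map F.toEquiv.toEmbedding ↔ a ∈ U := by
      rw [Finset.mem_map]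
      constructor
      · rintro ⟨b, hb, h6⟩
        have h7 : F b = F a := h6
        rwa [← F.injective h7]
      · intro ha
        exact ⟨a, ha, rfl⟩
    rw [← h5, h4]
    have h6 : (F : ClW ℓ (m + 1) k →ₗ[ZMod ℓ] Cl ℓ (m * k)) (a - F.symm x₀) = F a - x₀ := by
      rw [map_sub]
      congr 1
      exact F.apply_symm_apply x₀
    rw [h6]

end Pool.Agent.T3h73.SN.UNLW
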