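import Pool.Agent.T3h73.SN.Asm
import Pool.Agent.T3h73.SN.T_ADJ
import Pool.Agent.T3h73.SN.T_CLSW
import Pool.Agent.T3h73.SN.T_DICW
import Pool.Agent.T3h73.SN.T_DISTA
import Pool.Agent.T3h73.SN.T_DSA
import Pool.Agent.T3h73.SN.T_DSB
import Pool.Agent.T3h73.SN.T_EVJ
import Pool.Agent.T3h73.SN.T_EXPW
import Pool.Agent.T3h73.SN.T_GDUW
import Pool.Agent.T3h73.SN.T_IS1
import Pool.Agent.T3h73.SN.T_ISE
import Pool.Agent.T3h73.SN.T_LCC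
import Pool.Agent.T3h73.SN.T_LCV
import Pool.Agent.T3h73.SN.T_LLW
import Pool.Agent.T3h73.SN.T_LNI
import Pool.Agent.T3h73.SN.T_LNZ
import Pool.Agent.T3h73.SN.T_MAINW
import Pool.Agent.T3h73.SN.T_MDNW
import Pool.Agent.T3h73.SN.T_MOMW
import Pool.Agent.T3h73.SN.T_MOV
import Pool.Agent.T3h73.SN.T_ORDW
import Pool.Agent.T3h73.SN.T_SPA
import Pool.Agent.T3h73.SN.T_SPN
import Pool.Agent.T3h73.SN.T_SYM
import Pool.Agent.T3h73.SN.T_TYPW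
import Pool.Agent.T3h73.SN.T_UNLW
import Pool.Agent.T3h73.SD.All

/-! Project SN: all the parts together. -/

set_option autoImplicit false
set_option linter.all false

open NumberField IsDedekindDomain Filter Topology

namespace Pool.Agent.T3h73.SN

open Pool.Agent.T3h73.SL (Pl IsP Pk loc)
open Pool.Agent.T3h73.SD
open Pool.Agent.T3h73.SD.Def

theorem all_LNI : S_LNI := LNI.t_LNI all_LNG (TUN.t_TUN HERB.t_HERB) all_DC DK.t_DK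

theorem all_SYM : S_SYM := SYM.t_SYM SPA.t_SPA SPN.t_SPN (LNZ.t_LNZ all_LNI)

theorem all_ISE : S_ISE := ISE.t_ISE LCV.t_LCV MOV.t_MOV IS1.t_IS1 EVJ.t_EVJ

theorem all_LLW : S_LLW := LLW.t_LLW all_ISE all_SYM LCV.t_LCV LAG.t_LAG

theorem all_LCC : S_LCC := LCC.t_LCC ADJ.t_ADJ

theorem all_DSB : S_DSB := DSB.t_DSB LCV.t_LCV (DSA.t_DSA ADJ.t_ADJ all_LCC)

theorem all_MDNW : S_MDNW :=
  MDNW.t_MDNW all_SV all_CHS VSP.t_VSP all_LZ LAG.t_LAG LCV.t_LCV all_LLW DICW.t_DICW all_DSB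

theorem all_UNLW : S_UNLW := UNLW.t_UNLW UNL.t_UNL

theorem all_MOMW : S_MOMW :=
  MOMW.t_MOMW all_AN (EXPW.t_EXPW MASS.t_MASS) all_UNLW (CLSW.t_CLSW all_UNLW)
    (GDUW.t_GDUW UNL.t_UNL (CNTU.t_CNTU UNL.t_UNL)) (MAINW.t_MAINW (MAINU.t_MAINU UNL.t_UNL))

theorem all_TYPW : S_TYPW :=
  TYPW.t_TYPW all_MOMW (DISTA.t_DISTA KAP.t_KAP T0L.t_T0L MASS.t_MASS) ORDW.t_ORDW T0L.t_T0L

theorem final {ℓ n : ℕ} (hℓ : ℓ.Prime) (h2 : ℓ ≠ 2) (hn : ¬ ℓ ∣ n)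
    (hn2 : 2 ≤ n) {K : Type} [Field K] [NumberField K] {ζ : K} (hζ : IsPrimitiveRoot ζ ℓ)
    (e : Fin n → K) (he : Function.Injective e) (hind : SN.Def.Indep ℓ e)
    (S₀ : Finset (Pl K)) (η : Kˣ) (A : Finset ℕ) (hA : A.Nonempty) (hA' : ∀ a ∈ A, 1 ≤ a ∧ a < ℓ) :
    (∀ s : ℝ, 1 < s → Summable (fun c : Kˣ ⧸ (powMonoidHom ℓ : Kˣ →* Kˣ).range =>
      ht ℓ (Quotient.out c) ^ (-s))) ∧
    Tendsto (fun s : ℝ => csum ℓ (Near ℓ S₀ η) s) (𝓝[>] 1) atTop ∧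
    ∀ ε : ℝ, 0 < ε → ∀ᶠ s : ℝ in 𝓝[>] 1,
      (1 - A.card * (1 - kap ℓ) - ε) * csum ℓ (Near ℓ S₀ η) s ≤
        csum ℓ (fun δ => Near ℓ S₀ η δ ∧
          ∀ a ∈ A, SN.Def.Minimal ℓ K (SN.Def.crv e ((δ : K) ^ a))) s :=
  Asm.final all_TYPW all_MDNW hℓ h2 hn hn2 hζ e he hind S₀ η A hA hA'

end Pool.Agent.T3h73.SN
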