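import Pool.Agent.T3h73.SN.Stm2
import Pool.Agent.T3h73.SD.Uni

/-! Project SN: the final assembly -/

set_option autoImplicit false
set_option linter.all false

open NumberField IsDedekindDomain Filter Topology

namespace Pool.Agent.T3h73.SN.Asm

open Pool.Agent.T3h73.SL (Pl IsP Pk loc)
open Pool.Agent.T3h73.SD
open Pool.Agent.T3h73.SD.Def

/-- the final theorem, for a family of properties -/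
theorem mainQ {ℓ : ℕ} {K : Type} [Field K] [NumberField K] (hℓ : ℓ.Prime) {Q : ℕ → Kˣ → Prop}
    {A : Finset ℕ} (hA : A.Nonempty) (hQ : ∀ a ∈ A, TYPQ ℓ K (Q a)) (S₀ : Finset (Pl K)) (η : Kˣ) :
    (∀ s : ℝ, 1 < s → Summable (fun c : Kˣ ⧸ (powMonoidHom ℓ : Kˣ →* Kˣ).range =>
      ht ℓ (Quotient.out c) ^ (-s))) ∧
    Tendsto (fun s : ℝ => csum ℓ (Near ℓ S₀ η) s) (𝓝[>] 1) atTop ∧
    ∀ ε : ℝ, 0 < ε → ∀ᶠ s : ℝ in 𝓝[>] 1,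
      (1 - A.card * (1 - kap ℓ) - ε) * csum ℓ (Near ℓ S₀ η) s ≤
        csum ℓ (fun δ => Near ℓ S₀ η δ ∧ ∀ a ∈ A, Q a δ) s := by
  haveI : Fact ℓ.Prime := ⟨hℓ⟩
  have hF : ∀ a ∈ A, (∀ s : ℝ, 1 < s → Summable (fun c : Kˣ ⧸ (powMonoidHom ℓ : Kˣ →* Kˣ).range =>
      ht ℓ (Quotient.out c) ^ (-s))) ∧
    Tendsto (fun s : ℝ => csum ℓ (Near ℓ S₀ η) s) (𝓝[>] 1) atTop ∧
    ∀ ε : ℝ, 0 < ε → ∀ᶠ s : ℝ in 𝓝[>] 1,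
      (kap ℓ - ε) * csum ℓ (Near ℓ S₀ η) s ≤
        csum ℓ (fun δ => Near ℓ S₀ η δ ∧ Q a δ) s := fun a ha =>
    Full.fullQ MASS.t_MASS T0L.t_T0L KAP.t_KAP hℓ (hQ a ha) S₀ η
  obtain ⟨a₀, ha₀⟩ := hA
  have hA1 : A.Nonempty := ⟨a₀, ha₀⟩
  refine ⟨(hF a₀ ha₀).1, (hF a₀ ha₀).2.1, fun ε hε => ?_⟩
  have hc : (0 : ℝ) < A.card := Nat.cast_pos.2 (Finset.card_pos.2 hA1)
  have h1 : ∀ᶠ s : ℝ in 𝓝[>] 1, ∀ a ∈ A, (kap ℓ - ε / A.card) * csum ℓ (Near ℓ S₀ η) s ≤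
        csum ℓ (fun δ => Near ℓ S₀ η δ ∧ Q a δ) s :=
    (Filter.eventually_all_finset A).2 fun a ha => (hF a ha).2.2 (ε / A.card) (by positivity)
  have h3 : ∀ᶠ s : ℝ in 𝓝[>] (1 : ℝ), s ∈ Set.Ioi (1 : ℝ) := self_mem_nhdsWithin
  filter_upwards [h1, h3] with s h1 h3
  have h4 := Uni.union_bound (K := K) (ℓ := ℓ) (S₀ := S₀) (η := η) hA1 Q s ((hF a₀ ha₀).1 s h3)
  refine le_trans ?_ h4
  have h5 := Finset.sum_le_sum h1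
  rw [Finset.sum_const, nsmul_eq_mul] at h5
  have h6 : (A.card : ℝ) * ((kap ℓ - ε / A.card) * csum ℓ (Near ℓ S₀ η) s) =
      (A.card * kap ℓ - ε) * csum ℓ (Near ℓ S₀ η) s := by
    field_simp
  rw [h6] at h5
  nlinarith


theorem typ (hTYPW : S_TYPW) (hMDNW : S_MDNW) {ℓ n : ℕ} (hℓ : ℓ.Prime) (h2 : ℓ ≠ 2) (hn : ¬ ℓ ∣ n)
    (hn2 : 2 ≤ n) {K : Type} [Field K] [NumberField K] {ζ : K} (hζ : IsPrimitiveRoot ζ ℓ)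
    (e : Fin n → K) (he : Function.Injective e) (hind : SN.Def.Indep ℓ e) (a : ℕ) (h1 : 1 ≤ a)
    (h1' : a < ℓ) : TYPQ ℓ K (fun δ => SN.Def.Minimal ℓ K (SN.Def.crv e ((δ : K) ^ a))) := by
  haveI : Fact ℓ.Prime := ⟨hℓ⟩
  have h3 := hMDNW ℓ n h2 hn hn2 K ζ hζ e he hind a h1 h1'
  exact hTYPW ℓ n hℓ h2 K _ h3


theorem main (hTYPW : S_TYPW) (hMDNW : S_MDNW) {ℓ n : ℕ} (hℓ : ℓ.Prime) (h2 : ℓ ≠ 2) (hn : ¬ ℓ ∣ n)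
    (hn2 : 2 ≤ n) {K : Type} [Field K] [NumberField K] {ζ : K} (hζ : IsPrimitiveRoot ζ ℓ)
    (e : Fin n → K) (he : Function.Injective e) (hind : SN.Def.Indep ℓ e)
    (S₀ : Finset (Pl K)) (η : Kˣ) (A : Finset ℕ) (hA : A.Nonempty) (hA' : ∀ a ∈ A, 1 ≤ a ∧ a < ℓ)
    (Q : ℕ → Kˣ → Prop) (hQe : Q = fun (a : ℕ) (δ : Kˣ) => SN.Def.Minimal ℓ K (SN.Def.crv e ((δ : K) ^ a))) :
    (∀ s : ℝ, 1 < s → Summable (fun c : Kˣ ⧸ (powMonoidHom ℓ : Kˣ →* Kˣ).range =>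
      ht ℓ (Quotient.out c) ^ (-s))) ∧
    Tendsto (fun s : ℝ => csum ℓ (Near ℓ S₀ η) s) (𝓝[>] 1) atTop ∧
    ∀ ε : ℝ, 0 < ε → ∀ᶠ s : ℝ in 𝓝[>] 1,
      (1 - A.card * (1 - kap ℓ) - ε) * csum ℓ (Near ℓ S₀ η) s ≤
        csum ℓ (fun δ => Near ℓ S₀ η δ ∧
          ∀ a ∈ A, Q a δ) s := by
  have hQ : ∀ a ∈ A, TYPQ ℓ K (Q a) := by
    intro a ha
    rw [hQe]
    exact typ hTYPW hMDNW hℓ h2 hn hn2 hζ e he hind a (hA' a ha).1 (hA' a ha).2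
  exact mainQ hℓ hA hQ S₀ η

theorem final (hTYPW : S_TYPW) (hMDNW : S_MDNW) {ℓ n : ℕ} (hℓ : ℓ.Prime) (h2 : ℓ ≠ 2) (hn : ¬ ℓ ∣ n)
    (hn2 : 2 ≤ n) {K : Type} [Field K] [NumberField K] {ζ : K} (hζ : IsPrimitiveRoot ζ ℓ)
    (e : Fin n → K) (he : Function.Injective e) (hind : SN.Def.Indep ℓ e)
    (S₀ : Finset (Pl K)) (η : Kˣ) (A : Finset ℕ) (hA : A.Nonempty) (hA' : ∀ a ∈ A, 1 ≤ a ∧ a < ℓ) :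
    (∀ s : ℝ, 1 < s → Summable (fun c : Kˣ ⧸ (powMonoidHom ℓ : Kˣ →* Kˣ).range =>
      ht ℓ (Quotient.out c) ^ (-s))) ∧
    Tendsto (fun s : ℝ => csum ℓ (Near ℓ S₀ η) s) (𝓝[>] 1) atTop ∧
    ∀ ε : ℝ, 0 < ε → ∀ᶠ s : ℝ in 𝓝[>] 1,
      (1 - A.card * (1 - kap ℓ) - ε) * csum ℓ (Near ℓ S₀ η) s ≤
        csum ℓ (fun δ => Near ℓ S₀ η δ ∧
          ∀ a ∈ A, SN.Def.Minimal ℓ K (SN.Def.crv e ((δ : K) ^ a))) s := 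
  main hTYPW hMDNW hℓ h2 hn hn2 hζ e he hind S₀ η A hA hA' _ rfl

end Pool.Agent.T3h73.SN.Asm
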