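import Pool.Agent.T3h73.SN.Stm2
import Pool.Agent.T3h73.SD.Mdl2

/-!
# Project SN (helper73, MP_a43263). The dictionary between the model and the Selmer group
-/

set_option autoImplicit false
set_option linter.all false

open NumberField IsDedekindDomain Filter Topology

namespace Pool.Agent.T3h73.SN

open Pool.Agent.T3h73.SL (Pl IsP Pk loc)
open Pool.Agent.T3h73.SD (Sv)
open Pool.Agent.T3h73.SD.MDL (Ctx2)
open Pool.Agent.Y713.SE Pool.Agent.Y713.SE.Dat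

/-- DICW: if the Selmer group of the model is as small as possible, so is that of the curve -/
def S_DICW : Prop := ∀ (ℓ n : ℕ) [Fact ℓ.Prime] (_ : ℓ ≠ 2) (_ : 2 ≤ n) (K : Type) [Field K]
  [NumberField K] (sv : Pl K → Kˣ → Kˣ → ZMod ℓ) (S : Finset (Pl K)) (V : Type) [AddCommGroup V]
  [Module (ZMod ℓ) V] [Finite V] (ψ : V →ₗ[ZMod ℓ] V →ₗ[ZMod ℓ] ZMod ℓ) (cl : Kˣ → V) (η : Kˣ)
  (L0 L1 : Submodule (ZMod ℓ) V) (P : Pl K → Kˣ) (u : L0) (d1 : V),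
  Ctx2 ℓ K sv S V ψ cl η L0 L1 ⊤ P u d1 → ∀ (δ : Kˣ) (a₀ : ℕ), 1 ≤ a₀ → a₀ < ℓ →
  ∀ (D : Dat ℓ n K), D.δ = (δ : K) ^ a₀ → (∀ v, v ∉ S → D.Sep1 v) →
  ∀ (g : Fin n → Fin n → L0), (∀ i j, (a₀ : ZMod ℓ) • (g i j : V) = cl (gu D i j)) →
  ∀ (LL : Submodule (ZMod ℓ) (Sz ℓ n V)),
  (∀ x : Fin n → Kˣ, (∀ v ∈ S, (fun i => loc v (x i)) ∈ Lcv (D.base (v.adicCompletion K))) →
      ∀ y : Sz ℓ n V, (∀ i, (y : Fin n → V) i = cl (x i)) → y ∈ LL) →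
  (∀ c : Fin n → ℤ, (ℓ : ℤ) ∣ ∑ i, c i → ∀ v ∈ S,
    (fun i => loc v (tor D c i)) ∈ Lcv (D.base (v.adicCompletion K))) →
  ∀ B : Finset (Pl K), Disjoint B S → (∀ v ∈ S, ∃ z, loc v δ = loc v η * z ^ ℓ) →
    (∀ v ∈ B, Pw ℓ (v.valuation K (δ : K) * WithZero.exp (1 : ℤ))) →
    (∀ v, v ∉ S → v ∉ B → Pw ℓ (v.valuation K (δ : K))) → B.Nonempty →
    nSW ψ L0 LL u g (fun q => cl (P q)) (fun p q => sv q (P p) (P q)) B = ℓ ^ (n - 1) →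
    SelMin D S ∧
    ∀ c : Fin n → ℤ, (∀ i j, IsP ℓ (tor D c i * (tor D c j)⁻¹)) → ∀ i j, (ℓ : ℤ) ∣ c i - c j

end Pool.Agent.T3h73.SN
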