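import Pool.Agent.T3h73.SN.Stm
import Pool.Agent.T3h73.SD.StmQ

/-!
# Project SN (helper73, MP_a43263). Part M: the model of the Selmer groups and the moments

`V` is the space of the classes at the places of `S` (as in project SD), `L0` the global classes, `L1` a
complement. The Selmer group lies in `V ⊗ W`, `W = {c ∈ 𝔽_ℓ ^ n, ∑ c_i = 0}`, that is, in the space
`Sz ℓ n V` of the families of sum zero.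
-/

set_option autoImplicit false
set_option linter.all false

open NumberField IsDedekindDomain Filter Topology

namespace Pool.Agent.T3h73.SN

open Pool.Agent.T3h73.SL (Pl IsP Pk loc)
open Pool.Agent.T3h73.SD (Sv LN SymSys Lin ee NA T0 Mh SP Cl kap TYPQ VT S_SV S_CHS S_VSP S_LZ S_LAG)
open Pool.Agent.Y713.SE Pool.Agent.Y713.SE.Dat

/-- families of sum zero -/
def Sz (ℓ n : ℕ) (M : Type) [AddCommGroup M] [Module (ZMod ℓ) M] : Submodule (ZMod ℓ) (Fin n → M) where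
  carrier := {x | ∑ i, x i = 0}
  add_mem' := by
    intro a b ha hb
    show ∑ i, (a i + b i) = 0
    rw [Finset.sum_add_distrib, show ∑ i, a i = 0 from ha, show ∑ i, b i = 0 from hb, add_zero]
  zero_mem' := Finset.sum_const_zero
  smul_mem' := by
    intro c a ha
    show ∑ i, c • a i = 0
    rw [← Finset.smul_sum, show ∑ i, a i = 0 from ha, smul_zero]

noncomputable instance (ℓ n : ℕ) (M : Type) [AddCommGroup M] [Module (ZMod ℓ) M] [Finite M] :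
    Fintype (Sz ℓ n M) := Fintype.ofFinite _

section
variable {ℓ n : ℕ} {V : Type} [AddCommGroup V] [Module (ZMod ℓ) V]

/-- `v ⊗ c` -/
def tens (c : Sz ℓ n (ZMod ℓ)) (v : V) : Sz ℓ n V :=
  ⟨fun i => (c : Fin n → ZMod ℓ) i • v, by
    show ∑ i, (c : Fin n → ZMod ℓ) i • v = 0
    rw [← Finset.sum_smul, show ∑ i, (c : Fin n → ZMod ℓ) i = 0 from c.2, zero_smul]⟩

/-- the inclusion `L0 ⊗ W → V ⊗ W` -/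
def inc {L0 : Submodule (ZMod ℓ) V} (w : Sz ℓ n L0) : Sz ℓ n V :=
  ⟨fun i => ((w : Fin n → L0) i : V), by
    show ∑ i, (((w : Fin n → L0) i : L0) : V) = 0
    have h : ∑ i, (w : Fin n → L0) i = 0 := w.2
    have h2 := congrArg (Subtype.val) h
    rwa [Submodule.coe_sum, Submodule.coe_zero] at h2⟩

end

/-- the linear algebra data (compare `Lin` of project SD): `LL` is Lagrangian in `V ⊗ W` and contains the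
images `(u + d1) ⊗ c + A(c)` of the torsion points -/
structure LinW (ℓ n : ℕ) (V : Type) [AddCommGroup V] [Module (ZMod ℓ) V]
    (ψ : V →ₗ[ZMod ℓ] V →ₗ[ZMod ℓ] ZMod ℓ) (L0 L1 : Submodule (ZMod ℓ) V)
    (LL : Submodule (ZMod ℓ) (Sz ℓ n V)) (π : V →ₗ[ZMod ℓ] L0) (u : L0) (d1 : V)
    (g : Fin n → Fin n → L0) : Prop where
  alt : ∀ x, ψ x x = 0
  nd : ∀ x, (∀ y, ψ x y = 0) → x = 0
  compl : IsCompl L0 L1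
  iso0 : ∀ x ∈ L0, ∀ y ∈ L0, ψ x y = 0
  iso1 : ∀ x ∈ L1, ∀ y ∈ L1, ψ x y = 0
  proj : ∀ x : V, x - (π x : V) ∈ L1
  d1_mem : d1 ∈ L1
  hn : ¬ ℓ ∣ n
  hn2 : 2 ≤ n
  isoL : ∀ x ∈ LL, ∀ y ∈ LL, ∑ i, ψ ((x : Fin n → V) i) ((y : Fin n → V) i) = 0
  card : Nat.card LL = Nat.card L0 ^ (n - 1)
  gsymm : ∀ i j, g i j = g j i
  gdiag : ∀ i, g i i = 0
  tor : ∀ (c : Sz ℓ n (ZMod ℓ)) (x : Sz ℓ n V), (∀ i, (x : Fin n → V) i =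
    (c : Fin n → ZMod ℓ) i • ((u : V) + d1) +
      ∑ j, ((c : Fin n → ZMod ℓ) i - (c : Fin n → ZMod ℓ) j) • (g i j : V)) → x ∈ LL
  ind : ∀ β : Fin n → Fin n → ZMod ℓ, (∀ i j, β i j = β j i) → (∀ i, β i i = 0) →
    ∑ i, ∑ j, β i j = 0 → ∑ i, ∑ j, β i j • g i j = 0 → ∀ i j, β i j = 0

/-- the model -/
structure ModelW (ℓ n : ℕ) (K : Type) [Field K] [NumberField K] (S : Finset (Pl K))
    (𝔪 : Ideal (𝓞 K)) (V : Type) [AddCommGroup V] [Module (ZMod ℓ) V]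
    (ψ : V →ₗ[ZMod ℓ] V →ₗ[ZMod ℓ] ZMod ℓ) (L0 L1 : Submodule (ZMod ℓ) V)
    (LL : Submodule (ZMod ℓ) (Sz ℓ n V)) (π : V →ₗ[ZMod ℓ] L0) (u : L0) (d1 : V)
    (g : Fin n → Fin n → L0) (t : Pl K → V) (sy : Pl K → Pl K → ZMod ℓ) : Prop where
  lin : LinW ℓ n V ψ L0 L1 LL π u d1 g
  t_mem : ∀ q, q ∉ S → t q ∈ L1
  sys : SymSys ℓ K S 𝔪 L0 (fun h q => ψ (h : V) (t q)) sy

section
variable {ℓ n : ℕ} {K : Type} [Field K] [NumberField K] {V : Type} [AddCommGroup V]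
  [Module (ZMod ℓ) V] (ψ : V →ₗ[ZMod ℓ] V →ₗ[ZMod ℓ] ZMod ℓ) (L0 : Submodule (ZMod ℓ) V)
  (LL : Submodule (ZMod ℓ) (Sz ℓ n V)) (u : L0) (g : Fin n → Fin n → L0) (t : Pl K → V)
  (sy : Pl K → Pl K → ZMod ℓ)

/-- the Selmer group of the model for the finite set `P` -/
def MSelW (P : Finset (Pl K)) : Set (Sz ℓ n L0 × (Pl K → Sz ℓ n (ZMod ℓ))) :=
  open Classical in
  {x | (∀ q, q ∉ P → x.2 q = 0) ∧ inc x.1 + ∑ q ∈ P, tens (x.2 q) (t q) ∈ LL ∧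
    ∀ q ∈ P, ∀ i : Fin n, - ψ ((x.1 : Fin n → L0) i : V) (t q) +
      (x.2 q : Fin n → ZMod ℓ) i * ψ (u : V) (t q) +
      ∑ j, ((x.2 q : Fin n → ZMod ℓ) i - (x.2 q : Fin n → ZMod ℓ) j) * ψ (g i j : V) (t q) +
      ∑ p ∈ P.erase q, ((x.2 p : Fin n → ZMod ℓ) i - (x.2 q : Fin n → ZMod ℓ) i) * sy p q = 0}

/-- its order -/
noncomputable def nSW (P : Finset (Pl K)) : ℕ := Nat.card (MSelW ψ L0 LL u g t sy P)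

end

/-- the colours -/
abbrev ClW (ℓ n k : ℕ) : Type := (Fin k → Sz ℓ n (ZMod ℓ)) × (Fin k → Sz ℓ n (ZMod ℓ))

/-- the linking of the colours -/
def RcW (ℓ n k : ℕ) (a b : ClW ℓ n k) : ZMod ℓ :=
  ∑ s, ∑ i, (b.2 s : Fin n → ZMod ℓ) i *
    ((a.1 s : Fin n → ZMod ℓ) i - (b.1 s : Fin n → ZMod ℓ) i)

/-- the `i`-th part of a colour -/
def slc {ℓ n k : ℕ} (a : ClW ℓ n k) (i : Fin n) : Cl ℓ k :=
  (fun s => (a.1 s : Fin n → ZMod ℓ) i, fun s => (a.2 s : Fin n → ZMod ℓ) i)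

/-- the characters of the colours -/
def hcW {ℓ n k : ℕ} {V : Type} [AddCommGroup V] [Module (ZMod ℓ) V] {L0 : Submodule (ZMod ℓ) V}
    {LL : Submodule (ZMod ℓ) (Sz ℓ n V)} (π : V →ₗ[ZMod ℓ] L0) (u : L0) (g : Fin n → Fin n → L0)
    (w : Fin k → Sz ℓ n L0) (α : L0) (z : Fin k → LL) (a : ClW ℓ n k) : L0 :=
  α + ∑ s, ∑ i, (slc a i).1 s • π (((z s : Sz ℓ n V) : Fin n → V) i) -
    ∑ s, ∑ i, (slc a i).2 s • (w s : Fin n → L0) i +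
    (∑ s, ∑ i, (slc a i).2 s * (slc a i).1 s) • u +
    ∑ s, ∑ i, ∑ j, ((slc a i).2 s * ((slc a i).1 s - (slc a j).1 s)) • g i j

/-- the sets of colours which are cosets of `W ⊗ Y`, `Y` maximal totally isotropic -/
def GdU (ℓ n k : ℕ) (U : Finset (ClW ℓ n k)) : Prop :=
  ∃ (x₀ : ClW ℓ n k) (Y : Submodule (ZMod ℓ) (Cl ℓ k)),
    (∀ x ∈ Y, ∀ y ∈ Y, ∑ s, (x.1 s * y.2 s + y.1 s * x.2 s) = 0) ∧
    Module.finrank (ZMod ℓ) Y = k ∧ ∀ a, a ∈ U ↔ ∀ i, slc (a - x₀) i ∈ Y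

open Classical in
/-- EXPW: the moments in terms of the coloured sums -/
def S_EXPW : Prop := ∀ (ℓ n : ℕ) [Fact ℓ.Prime] (_ : ℓ ≠ 2) (K : Type) [Field K] [NumberField K]
  (S : Finset (Pl K)) (𝔪 : Ideal (𝓞 K)) (V : Type) [AddCommGroup V] [Module (ZMod ℓ) V] [Fintype V]
  (ψ : V →ₗ[ZMod ℓ] V →ₗ[ZMod ℓ] ZMod ℓ) (L0 L1 : Submodule (ZMod ℓ) V)
  (LL : Submodule (ZMod ℓ) (Sz ℓ n V)) (π : V →ₗ[ZMod ℓ] L0) (u : L0) (d1 : V)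
  (g : Fin n → Fin n → L0) (t : Pl K → V) (sy : Pl K → Pl K → ZMod ℓ),
  ModelW ℓ n K S 𝔪 V ψ L0 L1 LL π u d1 g t sy → ∀ (k : ℕ) (s : ℝ), 1 < s → s ≤ 2 →
  ((SP (ℓ := ℓ) S t d1 (fun P => (nSW ψ L0 LL u g t sy P : ℝ) ^ k) s : ℝ) : ℂ) =
    ((Nat.card L0 : ℂ) ^ ((n - 1) * k + 1))⁻¹ * ∑ w : Fin k → Sz ℓ n L0, ∑ α : L0, ∑ z : Fin k → LL,
      ee ℓ (- ψ (α : V) d1 +
        ∑ r, ∑ i, ψ (((z r : Sz ℓ n V) : Fin n → V) i) ((w r : Fin n → L0) i : V)) *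
        Mh S (fun (h : L0) q => ψ (h : V) (t q)) sy (RcW ℓ n k) (ℓ ^ ((n - 1) * k))
          (hcW π u g w α z) s

/-- UNLW: unlinked sets of colours -/
def S_UNLW : Prop := ∀ (ℓ n : ℕ) [Fact ℓ.Prime] (_ : ℓ ≠ 2) (_ : ¬ ℓ ∣ n) (k : ℕ)
  (U : Finset (ClW ℓ n k)), (∀ a ∈ U, ∀ b ∈ U, RcW ℓ n k a b + RcW ℓ n k b a = 0) →
  U.card ≤ ℓ ^ ((n - 1) * k) ∧
  (U.card = ℓ ^ ((n - 1) * k) → ∃ (x₀ : ClW ℓ n k) (X : Submodule (ZMod ℓ) (ClW ℓ n k)),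
    (∀ x ∈ X, ∀ y ∈ X, ∑ s, ∑ i,
      ((slc x i).1 s * (slc y i).2 s + (slc y i).1 s * (slc x i).2 s) = 0) ∧
    Module.finrank (ZMod ℓ) X = (n - 1) * k ∧ ∀ a, a ∈ U ↔ a - x₀ ∈ X)

/-- CLSW: a maximal unlinked set with a nonzero contribution is a coset of `W ⊗ Y` -/
def S_CLSW : Prop := ∀ (ℓ n : ℕ) [Fact ℓ.Prime] (_ : ℓ ≠ 2) (V : Type) [AddCommGroup V]
  [Module (ZMod ℓ) V] [Finite V] (ψ : V →ₗ[ZMod ℓ] V →ₗ[ZMod ℓ] ZMod ℓ)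
  (L0 L1 : Submodule (ZMod ℓ) V) (LL : Submodule (ZMod ℓ) (Sz ℓ n V)) (π : V →ₗ[ZMod ℓ] L0)
  (u : L0) (d1 : V) (g : Fin n → Fin n → L0), LinW ℓ n V ψ L0 L1 LL π u d1 g → ∀ (k : ℕ)
  (w : Fin k → Sz ℓ n L0) (α : L0) (z : Fin k → LL) (U : Finset (ClW ℓ n k)),
  (∀ a ∈ U, ∀ b ∈ U, RcW ℓ n k a b + RcW ℓ n k b a = 0) → U.card = ℓ ^ ((n - 1) * k) →
  (∀ a ∈ U, hcW π u g w α z a = 0) → GdU ℓ n k U

/-- GDUW: the cosets of `W ⊗ Y` are maximal unlinked sets; their number -/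
def S_GDUW : Prop := ∀ (ℓ n : ℕ) [Fact ℓ.Prime] (_ : ℓ ≠ 2) (_ : ¬ ℓ ∣ n) (_ : 2 ≤ n) (k : ℕ),
  (∀ U, GdU ℓ n k U → (∀ a ∈ U, ∀ b ∈ U, RcW ℓ n k a b + RcW ℓ n k b a = 0) ∧
    U.card = ℓ ^ ((n - 1) * k)) ∧
  Nat.card {U : Finset (ClW ℓ n k) // GdU ℓ n k U} =
    ℓ ^ ((n - 1) * k) * ∏ i ∈ Finset.range k, (1 + ℓ ^ i)

open Classical in
/-- MAINW: the contribution of a coset of `W ⊗ Y` -/
def S_MAINW : Prop := ∀ (ℓ n : ℕ) [Fact ℓ.Prime] (_ : ℓ ≠ 2) (V : Type) [AddCommGroup V]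
  [Module (ZMod ℓ) V] [Fintype V] (ψ : V →ₗ[ZMod ℓ] V →ₗ[ZMod ℓ] ZMod ℓ)
  (L0 L1 : Submodule (ZMod ℓ) V) (LL : Submodule (ZMod ℓ) (Sz ℓ n V)) (π : V →ₗ[ZMod ℓ] L0)
  (u : L0) (d1 : V) (g : Fin n → Fin n → L0), LinW ℓ n V ψ L0 L1 LL π u d1 g → ∀ (k : ℕ)
  (U : Finset (ClW ℓ n k)), GdU ℓ n k U →
  ∑ w : Fin k → Sz ℓ n L0, ∑ α : L0, ∑ z : Fin k → LL,
    (if ∀ a ∈ U, hcW π u g w α z a = 0 then
      ee ℓ (- ψ (α : V) d1 +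
        ∑ r, ∑ i, ψ (((z r : Sz ℓ n V) : Fin n → V) i) ((w r : Fin n → L0) i : V)) else 0) =
    (Nat.card L0 : ℂ) ^ ((n - 1) * k)

/-- MOMW: the moments -/
def S_MOMW : Prop := ∀ (ℓ n : ℕ) [Fact ℓ.Prime] (_ : ℓ ≠ 2) (K : Type) [Field K] [NumberField K]
  (S : Finset (Pl K)) (𝔪 : Ideal (𝓞 K)) (V : Type) [AddCommGroup V] [Module (ZMod ℓ) V] [Finite V]
  (ψ : V →ₗ[ZMod ℓ] V →ₗ[ZMod ℓ] ZMod ℓ) (L0 L1 : Submodule (ZMod ℓ) V)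
  (LL : Submodule (ZMod ℓ) (Sz ℓ n V)) (π : V →ₗ[ZMod ℓ] L0) (u : L0) (d1 : V)
  (g : Fin n → Fin n → L0) (t : Pl K → V) (sy : Pl K → Pl K → ZMod ℓ),
  ModelW ℓ n K S 𝔪 V ψ L0 L1 LL π u d1 g t sy → ∀ k : ℕ,
  Tendsto (fun s : ℝ => SP (ℓ := ℓ) S t d1 (fun P => (nSW ψ L0 LL u g t sy P : ℝ) ^ k) s / T0 S s)
    (𝓝[>] 1) (𝓝 ((Nat.card L0 : ℝ)⁻¹ * (((ℓ : ℝ) ^ (n - 1)) ^ k *
      ∏ i ∈ Finset.range k, (1 + (ℓ : ℝ) ^ i))))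

open Classical in
/-- DISTA: from the moments to the proportion of the sets `P` with `N P = c` -/
def S_DISTA : Prop := ∀ (ℓ : ℕ) [Fact ℓ.Prime] (_ : ℓ ≠ 2) (K : Type) [Field K] [NumberField K]
  (S : Finset (Pl K)) (V : Type) [AddCommGroup V] (t : Pl K → V) (d1 : V) (N : Finset (Pl K) → ℕ)
  (c : ℕ) (A : ℝ), 0 < c → 0 < A →
  (∀ P : Finset (Pl K), Disjoint P S → ∑ q ∈ P, t q = d1 → P.Nonempty → ∃ r : ℕ, N P = c * ℓ ^ r) →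
  (∃ D m : ℕ, ∀ P : Finset (Pl K), N P ≤ D * m ^ P.card) →
  (∀ k : ℕ, Tendsto (fun s : ℝ => SP (ℓ := ℓ) S t d1 (fun P => (N P : ℝ) ^ k) s / T0 S s)
    (𝓝[>] 1) (𝓝 (A * ((c : ℝ) ^ k * ∏ i ∈ Finset.range k, (1 + (ℓ : ℝ) ^ i))))) →
  ∀ ε : ℝ, 0 < ε → ∀ᶠ s : ℝ in 𝓝[>] 1,
  (kap ℓ - ε) * SP (ℓ := ℓ) S t d1 (fun P => 1) s ≤
    SP (ℓ := ℓ) S t d1 (fun P => if P.Nonempty ∧ N P = c then 1 else 0) s

/-- ORDW: the order of the Selmer group of the model -/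
def S_ORDW : Prop := ∀ (ℓ n : ℕ) [Fact ℓ.Prime] (_ : ℓ ≠ 2) (K : Type) [Field K] [NumberField K]
  (S : Finset (Pl K)) (𝔪 : Ideal (𝓞 K)) (V : Type) [AddCommGroup V] [Module (ZMod ℓ) V] [Finite V]
  (ψ : V →ₗ[ZMod ℓ] V →ₗ[ZMod ℓ] ZMod ℓ) (L0 L1 : Submodule (ZMod ℓ) V)
  (LL : Submodule (ZMod ℓ) (Sz ℓ n V)) (π : V →ₗ[ZMod ℓ] L0) (u : L0) (d1 : V)
  (g : Fin n → Fin n → L0) (t : Pl K → V) (sy : Pl K → Pl K → ZMod ℓ),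
  ModelW ℓ n K S 𝔪 V ψ L0 L1 LL π u d1 g t sy → ∀ P : Finset (Pl K),
  (Disjoint P S → ∑ q ∈ P, t q = d1 → P.Nonempty →
    ∃ r : ℕ, nSW ψ L0 LL u g t sy P = ℓ ^ (n - 1) * ℓ ^ r) ∧
  nSW ψ L0 LL u g t sy P ≤ Nat.card V ^ n * ℓ ^ (n * P.card)

/-- the model controls the property `Q` (compare `MDLQ` of project SD) -/
def MDLW (ℓ n : ℕ) (K : Type) [Field K] [NumberField K] (Q : Kˣ → Prop) : Prop :=
  ∃ T₀ : Finset (Pl K), ∀ S : Finset (Pl K), T₀ ⊆ S →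
  ∀ η : Kˣ, ∃ (𝔪 : Ideal (𝓞 K)) (V : Type) (_ : AddCommGroup V) (_ : Module (ZMod ℓ) V)
  (_ : Finite V) (ψ : V →ₗ[ZMod ℓ] V →ₗ[ZMod ℓ] ZMod ℓ) (L0 L1 : Submodule (ZMod ℓ) V)
  (LL : Submodule (ZMod ℓ) (Sz ℓ n V))
  (π : V →ₗ[ZMod ℓ] L0) (u : L0) (d1 : V) (g : Fin n → Fin n → L0) (t : Pl K → V)
  (sy : Pl K → Pl K → ZMod ℓ),
  ModelW ℓ n K S 𝔪 V ψ L0 L1 LL π u d1 g t sy ∧
  (∀ (δ : Kˣ) (P : Finset (Pl K)), (∀ v ∈ S, ∃ z, loc v δ = loc v η * z ^ ℓ) → Disjoint P S →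
    (∀ v ∈ P, Pw ℓ (v.valuation K (δ : K) * WithZero.exp (1 : ℤ))) →
    (∀ v, v ∉ S → v ∉ P → Pw ℓ (v.valuation K (δ : K))) →
    ∑ q ∈ P, t q = d1 ∧ (P.Nonempty → nSW ψ L0 LL u g t sy P = ℓ ^ (n - 1) → Q δ)) ∧
  (∀ P : Finset (Pl K), Disjoint P S → ∑ q ∈ P, t q = d1 → ∃ δ : Kˣ,
    (∀ v ∈ S, ∃ z, loc v δ = loc v η * z ^ ℓ) ∧
    (∀ v ∈ P, v.valuation K (δ : K) = WithZero.exp (-1 : ℤ)) ∧
    ∀ v, v ∉ S → v ∉ P → v.valuation K (δ : K) = 1) ∧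
  ∀ x : Kˣ, (∀ v ∈ S, IsP ℓ (loc v x)) → (∀ v, v ∉ S → Pw ℓ (v.valuation K (x : K))) → IsP ℓ x

/-- TYPW: the proportion for one type -/
def S_TYPW : Prop := ∀ (ℓ n : ℕ) (_ : ℓ.Prime) (_ : ℓ ≠ 2) (K : Type) [Field K] [NumberField K]
  (Q : Kˣ → Prop), MDLW ℓ n K Q → TYPQ ℓ K Q

/-- LLW: the local conditions at the places of `S` are contained in a Lagrangian subspace of `V ⊗ W` -/
def S_LLW : Prop := ∀ (ℓ n : ℕ) [Fact ℓ.Prime] (_ : ℓ ≠ 2) (K : Type) [Field K] [NumberField K]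
  (D : Dat ℓ n K) (_ : 2 ≤ n) (sv : Pl K → Kˣ → Kˣ → ZMod ℓ), Sv ℓ K sv → ∀ (S : Finset (Pl K))
  (V : Type) [AddCommGroup V] [Module (ZMod ℓ) V] [Finite V]
  (ψ : V →ₗ[ZMod ℓ] V →ₗ[ZMod ℓ] ZMod ℓ) (cl : Kˣ → V),
  (∀ x y, cl (x * y) = cl x + cl y) → Function.Surjective cl →
  (∀ x, cl x = 0 ↔ ∀ v ∈ S, IsP ℓ (loc v x)) → (∀ x, ψ x x = 0) →
  (∀ x, (∀ y, ψ x y = 0) → x = 0) → (∀ x y, ψ (cl x) (cl y) = ∑ v ∈ S, sv v x y) →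
  ∃ LL : Submodule (ZMod ℓ) (Sz ℓ n V),
    (∀ x ∈ LL, ∀ y ∈ LL, ∑ i, ψ ((x : Fin n → V) i) ((y : Fin n → V) i) = 0) ∧
    Nat.card LL ^ 2 = Nat.card V ^ (n - 1) ∧
    ∀ x : Fin n → Kˣ, (∀ v ∈ S, (fun i => loc v (x i)) ∈ Lcv (D.base (v.adicCompletion K))) →
      ∀ y : Sz ℓ n V, (∀ i, (y : Fin n → V) i = cl (x i)) → y ∈ LL

/-- MDNW: the model describes the Selmer groups of the twists of the curve -/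
def S_MDNW : Prop := ∀ (ℓ n : ℕ) [Fact ℓ.Prime] (_ : ℓ ≠ 2) (_ : ¬ ℓ ∣ n) (_ : 2 ≤ n) (K : Type)
  [Field K] [NumberField K] (ζ : K) (_ : IsPrimitiveRoot ζ ℓ) (e : Fin n → K)
  (_ : Function.Injective e) (_ : Def.Indep ℓ e) (a₀ : ℕ), 1 ≤ a₀ → a₀ < ℓ →
  MDLW ℓ n K (fun δ => Def.Minimal ℓ K (Def.crv e ((δ : K) ^ a₀)))

end Pool.Agent.T3h73.SN
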