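import Pool.Agent.Y713.SE.Stm

/-!
# Superelliptic curves with rational branch points: the definitions used in the statement

The Jacobian `J(L)` of the curve `y ^ ℓ = F(x)`, its cocycles, the Tate-Shafarevich group and the
statement `ShaPrimaryTrivial` that its `ℓ`-primary part is zero are defined in
`Pool.Agent.Y713.SE.Stm`.
-/

set_option autoImplicit false

open NumberField Polynomial

namespace Pool.Agent.T3h73.SN.Def

/-- The `ℓ`-part of the arithmetic of the Jacobian `J` of the curve `y ^ ℓ = F(x)` over the number field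
`K` is as small as possible (for a polynomial `F` which is a product of linear factors):

* the `ℓ`-primary part of the Tate-Shafarevich group of `J` over `K` is zero;
* there is a subgroup `T` of `J(K)` of order `ℓ ^ (deg F - 1)` and exponent `ℓ` such that multiplication by
  `ℓ` is bijective on `J(K) / T` (the group law of `J` is written as a product). By the theorem of
  Mordell and Weil this means that `J(K)` is finite and that `T` is its subgroup of elements of `ℓ`-power
  order. -/
def Minimal (ℓ : ℕ) (K : Type) [Field K] [NumberField K] (F : K[X]) : Prop :=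
  Pool.Agent.Y713.Jac.ShaPrimaryTrivial ℓ F (𝓞 K) ∧
  ∃ T : Subgroup (Pool.Agent.Y713.Jac.J ℓ F K), Nat.card T = ℓ ^ (F.natDegree - 1) ∧
    (∀ P ∈ T, P ^ ℓ = 1) ∧ (∀ P : Pool.Agent.Y713.Jac.J ℓ F K, ∃ t ∈ T, ∃ Q, P = t * Q ^ ℓ) ∧
    ∀ P : Pool.Agent.Y713.Jac.J ℓ F K, P ^ ℓ ∈ T → P ∈ T

/-- The quotients `(e i - e j) / (e 0 - e 1)`, `i < j`, `(i, j) ≠ (0, 1)`, are independent modulo `ℓ`-th
powers (no condition if there are only two points): a product of powers of the differences `e i - e j`,
`i < j`, with exponents of sum zero is an `ℓ`-th power only if all exponents are divisible by `ℓ`. -/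
def Indep (ℓ : ℕ) {n : ℕ} {K : Type} [Field K] (e : Fin n → K) : Prop :=
  ∀ m : Fin n → Fin n → ℤ, ∑ i, ∑ j ∈ Finset.Ioi i, m i j = 0 →
    (∃ z : K, ∏ i, ∏ j ∈ Finset.Ioi i, (e i - e j) ^ m i j = z ^ ℓ) → ∀ i j, i < j → (ℓ : ℤ) ∣ m i j

/-- The polynomial `δ ∏ (x - e i)`. -/
noncomputable def crv {n : ℕ} {K : Type} [Field K] (e : Fin n → K) (δ : K) : K[X] :=
  C δ * ∏ i, (X - C (e i))

end Pool.Agent.T3h73.SN.Def
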