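import Pool.Agent.T3h73.SD.Stm4
import Pool.Agent.T3h73.SN.Def

/-!
# Project SN (helper73, MP_a43263): twists of superelliptic curves with rational branch points. Part D

`D : Dat ℓ n E` (library `Pool.Agent.Y713.SE`) is the curve `y ^ ℓ = δ ∏ (x - e i)`, `n` prime to `ℓ`, over
a field `E` with a primitive `ℓ`-th root of unity `ζ`; `D.A` is the coordinate ring, `ClassGroup D.A` the
group of rational points of the Jacobian, `D.sC` the automorphism `y ↦ ζ y`, `D.phi c = c / sC c`,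
`D.PT m = ∏ P_i ^ m_i` (`P_i` the prime at the `i`-th branch point), `D.U I ∈ E[x]` the norm of an ideal
and `D.lam i` the leading coefficient at the branch point (`lam i V = V(e i)` if this is not zero).
-/

set_option autoImplicit false
set_option linter.all false

open NumberField IsDedekindDomain Polynomial

namespace Pool.Agent.T3h73.SN

open Pool.Agent.T3h73.SL (Pl IsP Pk loc)
open Pool.Agent.T3h73.SD (Sv LN)
open Pool.Agent.Y713.SE Pool.Agent.Y713.SE.Dat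
open Pool.Agent.Y713 (Jac.Gal)

section
variable {ℓ n : ℕ} {E : Type} [Field E] (D : Dat ℓ n E)

/-- the twist as a unit -/
noncomputable def δu : Eˣ := Units.mk0 D.δ D.hδ

open Classical in
/-- the differences of the branch points (`1` on the diagonal) -/
noncomputable def gu (i j : Fin n) : Eˣ :=
  if h : i = j then 1 else Units.mk0 (D.e i - D.e j) (sub_ne_zero.2 fun h' => h (D.he h'))

/-- the image of the torsion class `∏ P_i ^ c_i` under the descent map -/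
noncomputable def tor (c : Fin n → ℤ) (i : Fin n) : Eˣ := δu D ^ c i * ∏ j, gu D i j ^ (c i - c j)

/-- the image of the descent map: the families `x` with product an `ℓ`-th power such that
`x i * lam i (U I)` is up to `ℓ`-th powers independent of `i`, for some ideal `I` -/
def Lcv : Set (Fin n → Eˣ) :=
  {x | IsP ℓ (∏ i, x i) ∧ ∃ (I : Ideal D.A) (t : Eˣ), I ≠ ⊥ ∧
    ∀ i, ∃ z : Eˣ, (x i : E) * D.lam i (D.U I) * t = (z : E) ^ ℓ}

/-- `x` describes the Kummer classes `kd.d i j` of a cocycle: `kd.d i j = x i / x j` up to `ℓ`-th powers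
and the product of the `x i` is an `ℓ`-th power -/
def Kx {L : Type} [Field L] [Algebra E L] {χ : (L ≃ₐ[E] L) → Fin n → ℕ} (kd : D.KD χ)
    (x : Fin n → Eˣ) : Prop :=
  IsP ℓ (∏ i, x i) ∧ ∀ i j, ∃ z : Eˣ, kd.d i j * (x j : E) = x i * (z : E) ^ ℓ

end

/-- LCV: basic properties of the image of the descent map -/
def S_LCV : Prop := ∀ (ℓ n : ℕ) (_ : ℓ ≠ 2) (E : Type) [Field E] (D : Dat ℓ n E),
  (∀ x ∈ Lcv D, ∀ y ∈ Lcv D, x * y ∈ Lcv D) ∧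
  (∀ x : Fin n → Eˣ, (∀ i, IsP ℓ (x i)) → x ∈ Lcv D) ∧
  (∀ (m : Fin n → ℕ) (i : Fin n), D.lam i (D.U (D.PT m)) * (tor D (fun k => (m k : ℤ)) i : E) = 1) ∧
  (∀ c : Fin n → ℤ, (ℓ : ℤ) ∣ ∑ i, c i → tor D c ∈ Lcv D) ∧
  ∀ (D' : Dat ℓ n E) (z : E), D'.ζ = D.ζ → D'.e = D.e → z ≠ 0 → D'.δ = D.δ * z ^ ℓ → Lcv D' = Lcv D

/-- ADJ: the change of the Kummer classes under the adjustment of a cocycle, and the existence of `x` -/
def S_ADJ : Prop := ∀ (ℓ n : ℕ) (_ : ℓ ≠ 2) (E : Type) [Field E] (D : Dat ℓ n E) (L : Type) [Field L]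
  [Algebra E L] [IsGalois E L],
  (∀ (m : Fin n → ℕ) (χ χ' : (L ≃ₐ[E] L) → Fin n → ℕ) (Q : ClassGroup (D.base L).A),
    cl ((D.base L).PT m) * (D.base L).sC Q = Q →
    (∀ σ, cl ((D.base L).PT (χ' σ)) = cl ((D.base L).PT (χ σ)) / (D.mC (au σ) Q / Q)) →
    ∀ (kd : D.KD χ) (kd' : D.KD χ') (i j : Fin n), ∃ z : Eˣ,
      kd.d i j * (tor D (fun k => (m k : ℤ)) j : E) =
        kd'.d i j * (tor D (fun k => (m k : ℤ)) i : E) * (z : E) ^ ℓ) ∧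
  ∀ (χ : (L ≃ₐ[E] L) → Fin n → ℕ) (kd : D.KD χ), ∃ x, Kx D kd x

/-- LCC: the local conditions for a cocycle which is trivial at `v` -/
def S_LCC : Prop := ∀ (ℓ n : ℕ) (_ : ℓ ≠ 2) (K : Type) [Field K] [NumberField K] (D : Dat ℓ n K)
  (v : Pl K) (χ : Jac.Gal K → Fin n → ℕ),
  D.Coc (fun σ => cl ((D.base (SeparableClosure K)).PT (χ σ))) →
  D.Triv (v.adicCompletion K) (SeparableClosure (v.adicCompletion K))
      (fun σ => cl ((D.base (SeparableClosure K)).PT (χ σ))) →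
  ∀ (kd : D.KD χ) (x : Fin n → Kˣ), Kx D kd x →
    (fun i => loc v (x i)) ∈ Lcv (D.base (v.adicCompletion K)) ∧
    (D.Sep1 v → v.valuation K (ℓ : K) = 1 →
      (Pw ℓ (v.valuation K D.δ) → ∀ i, Pw ℓ (v.valuation K (x i : K))) ∧
      (¬ Pw ℓ (v.valuation K D.δ) → ∃ c : Fin n → ℤ, (ℓ : ℤ) ∣ ∑ i, c i ∧
        ∀ i, IsP ℓ (loc v (x i * (tor D c i)⁻¹))))

/-- the Selmer group of the curve `D` is as small as possible (`S` contains the bad places) -/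
def SelMin {ℓ n : ℕ} {K : Type} [Field K] [NumberField K] (D : Dat ℓ n K) (S : Finset (Pl K)) : Prop :=
  ∀ x : Fin n → Kˣ, IsP ℓ (∏ i, x i) →
    (∀ v ∈ S, (fun i => loc v (x i)) ∈ Lcv (D.base (v.adicCompletion K))) →
    (∀ v, v ∉ S → Pw ℓ (v.valuation K D.δ) → ∀ i, Pw ℓ (v.valuation K (x i : K))) →
    (∀ v, v ∉ S → ¬ Pw ℓ (v.valuation K D.δ) → ∃ c : Fin n → ℤ, (ℓ : ℤ) ∣ ∑ i, c i ∧
        ∀ i, IsP ℓ (loc v (x i * (tor D c i)⁻¹))) →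
    ∃ c : Fin n → ℤ, (ℓ : ℤ) ∣ ∑ i, c i ∧ ∀ i, IsP ℓ (x i * (tor D c i)⁻¹)

/-- DSA: descent, first part -/
def S_DSA : Prop := ∀ (ℓ n : ℕ) (_ : ℓ ≠ 2) (K : Type) [Field K] [NumberField K] (D : Dat ℓ n K)
  (S : Finset (Pl K)), (∀ v, v ∉ S → D.Sep1 v ∧ v.valuation K (ℓ : K) = 1) → SelMin D S →
  Pool.Agent.Y713.Jac.ShaPrimaryTrivial ℓ D.f (𝓞 K) ∧
  ∀ c : ClassGroup (D.base K).A, ∃ (m : Fin n → ℕ) (c' : ClassGroup (D.base K).A),
      c = cl ((D.base K).PT m) * (D.base K).phi c'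

/-- DSB: descent, second part -/
def S_DSB : Prop := ∀ (ℓ n : ℕ) (_ : ℓ ≠ 2) (K : Type) [Field K] [NumberField K] (D : Dat ℓ n K)
  (S : Finset (Pl K)), (∀ v, v ∉ S → D.Sep1 v ∧ v.valuation K (ℓ : K) = 1) → SelMin D S →
  (∀ c : Fin n → ℤ, (∀ i j, IsP ℓ (tor D c i * (tor D c j)⁻¹)) → ∀ i j, (ℓ : ℤ) ∣ c i - c j) →
  Def.Minimal ℓ K D.f

/-- MOV: moving an ideal in its class -/
def S_MOV : Prop := ∀ (ℓ n : ℕ) (_ : ℓ ≠ 2) (E : Type) [Field E] (D : Dat ℓ n E) (I 𝔣 : Ideal D.A),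
  I ≠ ⊥ → 𝔣 ≠ ⊥ → ∃ J : Ideal D.A, J ≠ ⊥ ∧ cl J = cl I ∧ J ⊔ 𝔣 = ⊤ ∧ ℓ ∣ (D.U J).natDegree

/-- the sum of the symbols `(x i, y i)` is zero in the Brauer group of `E`: the product of the cyclic
2-cocycles `x i ^ ((r σ i + r τ i - r (σ τ) i) / ℓ)` is the coboundary of `b`; here
`σ (y i ^ (1/ℓ)) = ζ ^ (r σ i) y i ^ (1/ℓ)`, `0 ≤ r σ i < ℓ` -/
def Spl (ℓ : ℕ) {E : Type} [Field E] (ζ : E) {m : ℕ} (x y : Fin m → Eˣ) : Prop :=
  ∃ (θ : Fin m → SeparableClosure E) (r : Jac.Gal E → Fin m → ℕ)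
    (b : Jac.Gal E → (SeparableClosure E)ˣ),
    (∀ i, θ i ^ ℓ = algebraMap E (SeparableClosure E) (y i : E)) ∧
    (∀ σ i, σ (θ i) = algebraMap E (SeparableClosure E) ζ ^ r σ i * θ i) ∧ (∀ σ i, r σ i < ℓ) ∧
    IsLocallyConstant b ∧ ∀ σ τ : Jac.Gal E,
      algebraMap E (SeparableClosure E) (∏ i, (x i : E) ^ ((r σ i + r τ i - r (σ * τ) i) / ℓ)) *
        (b (σ * τ) : SeparableClosure E) = b σ * σ (b τ : SeparableClosure E)

/-- IS1: the division of the class belonging to an element of the image of the descent map -/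
def S_IS1 : Prop := ∀ (ℓ n : ℕ) (_ : ℓ ≠ 2) (E : Type) [Field E] [CharZero E] (D : Dat ℓ n E)
  (y : Fin n → Eˣ), y ∈ Lcv D → ∃ (θ : Fin n → SeparableClosure E) (r : Jac.Gal E → Fin n → ℕ)
    (I : Ideal (D.base (SeparableClosure E)).A), I ≠ ⊥ ∧
    (∀ i, θ i ^ ℓ = algebraMap E (SeparableClosure E) (y i : E)) ∧
    (∀ σ i, σ (θ i) = algebraMap E (SeparableClosure E) D.ζ ^ r σ i * θ i) ∧ (∀ σ i, r σ i < ℓ) ∧
    (∀ σ, ℓ ∣ ∑ i, r σ i) ∧ IsLocallyConstant r ∧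
    ∀ σ : Jac.Gal E, cl (D.mI (au σ) I) = cl (I * (D.base (SeparableClosure E)).PT (r σ))

/-- EVJ: evaluation of functions at an ideal -/
def S_EVJ : Prop := ∀ (ℓ n : ℕ) (E : Type) [Field E] [CharZero E] (D : Dat ℓ n E) (J : Ideal D.A),
  J ≠ ⊥ → ∃ ev : (D.base (SeparableClosure E)).A →* SeparableClosure E,
    (∀ a, Ideal.span {a} ⊔ D.mI (Algebra.ofId E (SeparableClosure E)) (show Ideal (D.base E).A from J) = ⊤ →
      ev a ≠ 0) ∧
    (∀ (σ : Jac.Gal E) a, ev (D.mp (au σ) a) = σ (ev a)) ∧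
    (∀ c : SeparableClosure E,
      ev (algebraMap (SeparableClosure E)[X] (D.base (SeparableClosure E)).A (C c)) =
        c ^ (D.U J).natDegree) ∧
    ∀ e : E, ev (algebraMap (SeparableClosure E)[X] (D.base (SeparableClosure E)).A
        (X - C (algebraMap E (SeparableClosure E) e))) =
      (-1) ^ (D.U J).natDegree * algebraMap E (SeparableClosure E) ((D.U J).eval e)

/-- ISE: the image of the descent map is isotropic (with values in the Brauer group) -/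
def S_ISE : Prop := ∀ (ℓ n : ℕ) (_ : ℓ ≠ 2) (E : Type) [Field E] [CharZero E] (D : Dat ℓ n E),
  ∀ x ∈ Lcv D, ∀ y ∈ Lcv D, Spl ℓ D.ζ x y

/-- SPA: the group of the 2-cocycles modulo coboundaries and the symbols -/
def S_SPA : Prop := ∀ (ℓ : ℕ) (_ : ℓ.Prime) (_ : ℓ ≠ 2) (E : Type) [Field E] [CharZero E] (ζ : E)
  (_ : IsPrimitiveRoot ζ ℓ), ∃ (B : Type) (_ : CommGroup B) (s : Eˣ →* Eˣ →* B),
    ∀ (m : ℕ) (x y : Fin m → Eˣ), Spl ℓ ζ x y ↔ ∏ i, s (x i) (y i) = 1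

/-- SPN: a single symbol is zero if and only if `x` is a norm from `E(y ^ (1/ℓ))` -/
def S_SPN : Prop := ∀ (ℓ : ℕ) (_ : ℓ.Prime) (_ : ℓ ≠ 2) (E : Type) [Field E] [CharZero E] (ζ : E)
  (_ : IsPrimitiveRoot ζ ℓ) (x y : Eˣ), Spl ℓ ζ (fun _ : Fin 1 => x) (fun _ => y) ↔
    (IsP ℓ y ∨ ∃ c : AdjoinRoot (X ^ ℓ - C (y : E) : E[X]), Algebra.norm E c = (x : E))

/-- LNI: the local norm index (for the elements of `K`, which are dense in `K_v`) -/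
def S_LNI : Prop := ∀ (ℓ : ℕ) (_ : ℓ.Prime) (_ : ℓ ≠ 2) (K : Type) [Field K] [NumberField K] (ζ : K)
  (_ : IsPrimitiveRoot ζ ℓ) (v : Pl K) (w : Kˣ), ¬ IsP ℓ (loc v w) →
  ∃ N : Subgroup Kˣ, (∀ x, x ∈ N ↔ LN ℓ v w x) ∧ N.index = ℓ

/-- LNZ: the symbols `sv` vanish only on norms -/
def S_LNZ : Prop := ∀ (ℓ : ℕ) (_ : ℓ.Prime) (_ : ℓ ≠ 2) (K : Type) [Field K] [NumberField K] (ζ : K)
  (_ : IsPrimitiveRoot ζ ℓ) (sv : Pl K → Kˣ → Kˣ → ZMod ℓ), Sv ℓ K sv → ∀ (v : Pl K) (w x : Kˣ),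
  sv v w x = 0 → LN ℓ v w x

/-- SYM: comparison of the symbols -/
def S_SYM : Prop := ∀ (ℓ : ℕ) (_ : ℓ.Prime) (_ : ℓ ≠ 2) (K : Type) [Field K] [NumberField K] (ζ : K)
  (_ : IsPrimitiveRoot ζ ℓ) (sv : Pl K → Kˣ → Kˣ → ZMod ℓ), Sv ℓ K sv → ∀ (v : Pl K) (m : ℕ)
  (x y : Fin m → Kˣ),
  Spl ℓ (algebraMap K (v.adicCompletion K) ζ) (fun i => loc v (x i)) (fun i => loc v (y i)) →
  ∑ i, sv v (x i) (y i) = 0

end Pool.Agent.T3h73.SN
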