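import Pool.Agent.T3h73.SN.TorB
import Pool.Agent.T3h73.SN.DscF
import Pool.Agent.T3h73.SL.D.D12

/-! Project SN, task LCC (helper55): the local conditions. -/

set_option autoImplicit false
set_option linter.all false

open Polynomial IsDedekindDomain NumberField

namespace Pool.Agent.T3h73.SN.LCC

open Pool.Agent.Y713.SE Pool.Agent.Y713.SE.Dat
open Pool.Agent.T3h73.SL (IsP Pk Pl loc locA' even_place)
open Pool.Agent.Y713 (Jac.Gal)

/-! ### a lemma on abelian groups -/

theorem mem_of {G : Type} [CommGroup G] {ℓ n : ℕ} (hp : ℓ.Prime) (hn : ¬ ℓ ∣ n) (H : Subgroup G)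
    (hH : ∀ y : G, y ^ ℓ ∈ H) (x : Fin n → G) (h1 : ∀ i j, x i * (x j)⁻¹ ∈ H)
    (h2 : ∏ i, x i ∈ H) (i : Fin n) : x i ∈ H := by
  have h3 : x i ^ n ∈ H := by
    have : x i ^ n = (∏ j, (x i * (x j)⁻¹)) * ∏ j, x j := by
      rw [← Finset.prod_mul_distrib]
      simp
    rw [this]
    exact mul_mem (prod_mem fun j _ => h1 i j) h2
  have hcop : IsCoprime (n : ℤ) (ℓ : ℤ) :=
    Nat.isCoprime_iff_coprime.2 ((Nat.Prime.coprime_iff_not_dvd hp).2 hn).symm
  obtain ⟨a, b, hab⟩ := hcop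
  have : x i = (x i ^ n) ^ a * (x i ^ ℓ) ^ b := by
    rw [← zpow_natCast (x i) n, ← zpow_natCast (x i) ℓ, ← zpow_mul, ← zpow_mul, ← zpow_add,
      mul_comm (n : ℤ) a, mul_comm (ℓ : ℤ) b, hab, zpow_one]
  rw [this]
  exact mul_mem (zpow_mem h3 _) (zpow_mem (hH _) _)

lemma isP_iff {G : Type} [CommGroup G] {ℓ : ℕ} {x : G} : IsP ℓ x ↔ x ∈ Pk ℓ G := by
  constructor
  · rintro ⟨z, rfl⟩
    exact ⟨z, rfl⟩
  · rintro ⟨z, hz⟩
    exact ⟨z, hz.symm⟩

/-! ### the torsion elements -/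

section
variable {ℓ n : ℕ} {E : Type} [Field E] (D : Dat ℓ n E)

lemma tor_shift (c : Fin n → ℤ) (s : ℤ) (i : Fin n) :
    tor D (fun k => c k - s) i = tor D c i * δu D ^ (-s) := by
  unfold tor
  simp only [sub_sub_sub_cancel_right]
  rw [sub_eq_add_neg, zpow_add]
  exact mul_right_comm _ _ _

lemma prod_tor (h2 : ℓ ≠ 2) (c : Fin n → ℤ) (hc : (ℓ : ℤ) ∣ ∑ i, c i) :
    IsP ℓ (∏ i, tor D c i) := by
  classical
  rw [isP_iff]
  unfold tor
  rw [Finset.prod_mul_distrib]
  obtain ⟨m, hm⟩ := D.hp.odd_of_ne_two h2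
  have hpw : ∀ u : Eˣ, u ^ 2 = 1 → u ^ ℓ = u := fun u hu => by
    rw [hm, pow_succ, pow_mul, hu, one_pow, one_mul]
  have hpw2 : ∀ u : Eˣ, u = u ^ ℓ * ((u * u) ^ m)⁻¹ := fun u => by
    rw [eq_mul_inv_iff_mul_eq, hm, pow_succ, pow_mul, pow_two, mul_comm]
  refine mul_mem ?_ ?_
  · have h : ∀ s : Finset (Fin n), ∏ i ∈ s, δu D ^ c i = δu D ^ ∑ i ∈ s, c i := by
      intro s
      induction s using Finset.induction_on with
      | empty => simp
      | insert a s ha ih => rw [Finset.prod_insert ha, Finset.sum_insert ha, ih, zpow_add]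
    rw [h]
    obtain ⟨k, hk⟩ := hc
    rw [hk]
    refine ⟨δu D ^ k, ?_⟩
    show (δu D ^ k) ^ ℓ = _
    rw [← zpow_natCast, ← zpow_mul, mul_comm]
  · set P := ∏ i, ∏ j, gu D i j ^ (c i - c j) with hP
    have hPP : P * P ∈ Pk ℓ Eˣ := by
      have e : P * P = ∏ i, ∏ j, (gu D i j ^ (c i - c j) * gu D j i ^ (c j - c i)) := by
        have e1 : P = ∏ i, ∏ j, gu D j i ^ (c j - c i) := by
          rw [hP, Finset.prod_comm]
        conv_lhs =>
          congr
          · rw [hP]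
          · rw [e1]
        rw [← Finset.prod_mul_distrib]
        exact Finset.prod_congr rfl fun i _ => by rw [← Finset.prod_mul_distrib]
      rw [e]
      refine prod_mem fun i _ => prod_mem fun j _ => ?_
      by_cases h : i = j
      · subst h
        rw [TorB.gu_self, one_zpow, one_mul]
        exact one_mem _
      · have hu : (gu D i j * (gu D j i)⁻¹) ^ 2 = 1 := by
          have h3 : gu D i j ^ 2 = gu D j i ^ 2 := by
            ext
            rw [Units.val_pow_eq_pow_val, Units.val_pow_eq_pow_val, TorB.gu_val D h,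
              TorB.gu_val D (Ne.symm h)]
            ring
          rw [mul_pow, h3, ← mul_pow, mul_inv_cancel, one_pow]
        have hu2 : gu D i j * (gu D j i)⁻¹ ∈ Pk ℓ Eˣ := by
          refine ⟨gu D i j * (gu D j i)⁻¹, ?_⟩
          exact hpw _ hu
        have e2 : gu D i j ^ (c i - c j) * gu D j i ^ (c j - c i) =
            (gu D i j * (gu D j i)⁻¹) ^ (c i - c j) := by
          rw [mul_zpow, inv_zpow', neg_sub]
        rw [e2]
        exact zpow_mem hu2 _
    have hPl : P ^ ℓ ∈ Pk ℓ Eˣ := ⟨P, rfl⟩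
    rw [hpw2 P]
    exact mul_mem hPl (inv_mem (pow_mem hPP _))

end

/-! ### the ideal -/

section
variable {ℓ n : ℕ} {K : Type} [Field K] (D : Dat ℓ n K)
variable {F Ω : Type} [Field F] [Algebra K F] [Field Ω] [Algebra K Ω] [Algebra F Ω]
  [IsScalarTower K F Ω]

lemma d_ne {L : Type} [Field L] [Algebra K L] {χ : (L ≃ₐ[K] L) → Fin n → ℕ} (kd : D.KD χ)
    (i j : Fin n) : kd.d i j ≠ 0 := by
  intro h
  have := kd.hd i j
  rw [h, map_zero] at this
  exact pow_ne_zero _ (kd.h0 i j) this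

/-- an invariant ideal -/
theorem exists_B {χv : (Ω ≃ₐ[F] Ω) → Fin n → ℕ} {P : ClassGroup (D.base Ω).A}
    (hP : ∀ τ, D.mC (rs K τ) P = P * cl ((D.base Ω).PT (χv τ))) :
    ∃ B : Ideal (D.base Ω).A, B ≠ ⊥ ∧ (∀ τ : Ω ≃ₐ[F] Ω, D.mI (rs K τ) B = B) ∧
      cl B * (D.base Ω).sC P = P := by
  obtain ⟨B, hB, hBc, hmin⟩ := (D.base Ω).exists_min (P / (D.base Ω).sC P)
  refine ⟨B, hB, fun τ => ?_, by rw [hBc, div_mul_cancel]⟩
  symm
  apply (D.base Ω).can_unique hB (D.mI_ne _ hB) _ hmin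
  · rw [D.U_mI _ hB, natDegree_map]
  · rw [← D.mC_cl _ hB, hBc, _root_.map_div, mC_sC, hP, map_mul, sC_cl _ ((D.base Ω).PT_ne _),
      sI_PT, mul_div_mul_right_eq_div]

variable {L : Type} [Field L] [Algebra K L] [IsGalois K L]

theorem partA (h2 : ℓ ≠ 2) [CharZero F] [IsGalois F Ω] [IsSepClosed Ω]
    {χ : (L ≃ₐ[K] L) → Fin n → ℕ}
    (ht : D.Triv F Ω (fun σ => cl ((D.base L).PT (χ σ)))) (kd : D.KD χ) :
    ∃ I : Ideal (D.base F).A, I ≠ ⊥ ∧ ∀ i j, ∃ y : F, y ≠ 0 ∧
      algebraMap K F (kd.d i j) * (D.base F).lam i ((D.base F).U I) =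
        y ^ ℓ * (D.base F).lam j ((D.base F).U I) := by
  obtain ⟨ι, P, hP⟩ := ht
  obtain ⟨χv, h1, h3⟩ := D.transfer (Q := 1) (χ' := χ) hP
    (fun σ => by rw [map_one, div_one, div_one]) kd
  rw [map_one, div_one] at h1
  obtain ⟨B, hB, hBinv, hBc⟩ := exists_B D h1
  have hdesc := DscF.ideal_descent D (F := F) (Ω := Ω) hBinv
  set I := B.comap (D.mp (DscF.fo K F Ω)) with hI
  have hI0 : I ≠ ⊥ := by
    intro h0
    rw [h0] at hdesc
    apply hB
    rw [← hdesc]
    exact Ideal.map_bot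
  refine ⟨I, hI0, fun i j => ?_⟩
  have hθ0 : ι (kd.θ i j) ≠ 0 := (_root_.map_ne_zero _).2 (kd.h0 i j)
  obtain ⟨x, hx, hrel⟩ := locA' D h2 (F := F) (Ω := Ω) (χ := χv) (R := P) h1 (i := i) (j := j)
    hθ0 (fun τ => h3 τ i j) (B1 := B) (B2 := ⊤) hB
    (by rw [← Ideal.one_eq_top]; exact one_ne_zero) hBinv
    (fun τ => Ideal.map_top _) (by
      rw [hBc, ← Ideal.one_eq_top]
      have : cl (1 : Ideal (D.base Ω).A) = 1 := by
        have := cl_PT_of_modEq (D.base Ω) (m := fun _ => 0) (fun _ _ => rfl)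
        rwa [show (D.base Ω).PT (fun _ => 0) = 1 by unfold PT; simp] at this
      rw [this, one_mul])
  have hl : ∀ k, (D.base Ω).lam k ((D.base Ω).U B) =
      algebraMap F Ω ((D.base F).lam k ((D.base F).U I)) := by
    intro k
    conv_lhs => rw [← hdesc]
    rw [D.U_mI _ hI0, D.lam_map _ k ((D.base F).U_ne I)]
    rfl
  rw [U_top, lam_one, lam_one, mul_one, mul_one, hl, hl, ← map_pow, kd.hd, AlgHom.commutes,
    IsScalarTower.algebraMap_apply K F Ω, ← map_pow, ← map_mul, ← map_mul] at hrel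
  exact ⟨x, hx, (algebraMap F Ω).injective hrel⟩

end

/-! ### the theorem -/

section
variable {K : Type} [Field K] [NumberField K]

/-- the elements of valuation divisible by `ℓ` -/
def Ev (ℓ : ℕ) (v : Pl K) : Subgroup Kˣ where
  carrier := {x | Pw ℓ (v.valuation K (x : K))}
  mul_mem' := by
    intro a b ha hb
    show Pw ℓ (v.valuation K ((a * b : Kˣ) : K))
    rw [Units.val_mul, map_mul]
    exact Pw.mul ha hb
  one_mem' := by
    show Pw ℓ (v.valuation K ((1 : Kˣ) : K))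
    rw [Units.val_one, map_one]
    exact ⟨1, by rw [one_pow]⟩
  inv_mem' := by
    intro a ha
    show Pw ℓ (v.valuation K ((a⁻¹ : Kˣ) : K))
    rw [Units.val_inv_eq_inv_val, map_inv₀]
    exact Pw.inv ha

end

theorem t_LCC (hADJ : S_ADJ) : S_LCC := by
  intro ℓ n h2 K _ _ D v χ hc ht kd x hx
  obtain ⟨p, hexp⟩ := ExpChar.exists K
  haveI := hexp
  haveI : ExpChar (SeparableClosure K) p :=
    expChar_of_injective_algebraMap (algebraMap K (SeparableClosure K)).injective p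
  haveI : ExpChar (SeparableClosure (v.adicCompletion K)) p :=
    expChar_of_injective_algebraMap
      (algebraMap K (SeparableClosure (v.adicCompletion K))).injective p
  haveI : CharZero (v.adicCompletion K) :=
    charZero_of_injective_algebraMap (algebraMap K (v.adicCompletion K)).injective
  obtain ⟨hx1, hx2⟩ := hx
  set dU : Fin n → Fin n → Kˣ := fun i j => Units.mk0 (kd.d i j) (d_ne D kd i j) with hdU
  have hx3 : ∀ i j, ∃ z : Kˣ, x i * (x j)⁻¹ = dU i j * (z ^ ℓ)⁻¹ := by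
    intro i j
    obtain ⟨z, hz⟩ := hx2 i j
    refine ⟨z, ?_⟩
    rw [mul_inv_eq_iff_eq_mul, mul_right_comm, eq_mul_inv_iff_mul_eq]
    ext
    rw [Units.val_mul, Units.val_pow_eq_pow_val, Units.val_mul]
    exact hz.symm
  have hlv : ∀ y : Kˣ, (loc v y : v.adicCompletion K) = algebraMap K _ (y : K) := fun y => rfl
  refine ⟨⟨?_, ?_⟩, fun hsep hℓ => ⟨fun hδ => ?_, fun hδ => ?_⟩⟩
  · obtain ⟨w, hw⟩ := hx1
    exact ⟨loc v w, by rw [← map_prod, hw, map_pow]⟩
  · obtain ⟨I, hI, hy⟩ := partA D h2 ht kd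
    set i0 : Fin n := ⟨0, D.n_pos⟩
    have hlam : ∀ i, (D.base (v.adicCompletion K)).lam i ((D.base (v.adicCompletion K)).U I) ≠ 0 :=
      fun i => (D.base (v.adicCompletion K)).lam_ne i ((D.base (v.adicCompletion K)).U_ne I)
    refine ⟨I, (loc v (x i0) * Units.mk0 _ (hlam i0))⁻¹, hI, fun i => ?_⟩
    obtain ⟨y, hy0, hy1⟩ := hy i i0
    obtain ⟨z, hz⟩ := hx2 i i0
    refine ⟨Units.mk0 y hy0 * (loc v z)⁻¹, ?_⟩
    have hzv : (loc v z : v.adicCompletion K) ≠ 0 := (loc v z).ne_zero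
    have hxv : (loc v (x i0) : v.adicCompletion K) ≠ 0 := (loc v (x i0)).ne_zero
    have hz' : algebraMap K (v.adicCompletion K) (kd.d i i0) * (loc v (x i0) : v.adicCompletion K) =
        (loc v (x i) : v.adicCompletion K) * (loc v z : v.adicCompletion K) ^ ℓ := by
      rw [hlv, hlv, hlv, ← map_mul, hz, map_mul, map_pow]
    have hl0 := hlam i0
    rw [Units.val_inv_eq_inv_val, Units.val_mul, Units.val_mul, Units.val_mk0, Units.val_mk0,
      Units.val_inv_eq_inv_val, mul_pow, inv_pow]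
    generalize (D.base (v.adicCompletion K)).lam i ((D.base (v.adicCompletion K)).U I) = li at *
    generalize (D.base (v.adicCompletion K)).lam i0 ((D.base (v.adicCompletion K)).U I) = l0 at *
    generalize algebraMap K (v.adicCompletion K) (kd.d i i0) = d at *
    generalize (loc v (x i) : v.adicCompletion K) = xi at *
    generalize (loc v (x i0) : v.adicCompletion K) = x0 at *
    generalize (loc v z : v.adicCompletion K) = z0 at *
    -- hy1 : d * li = y ^ ℓ * l0 ; hz' : d * x0 = xi * z0 ^ ℓ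
    have hz0 : z0 ^ ℓ ≠ 0 := pow_ne_zero _ hzv
    rw [← div_eq_mul_inv, ← div_eq_mul_inv, div_eq_div_iff (mul_ne_zero hxv hl0) hz0]
    calc xi * li * z0 ^ ℓ = (xi * z0 ^ ℓ) * li := by ring
      _ = (d * x0) * li := by rw [hz']
      _ = (d * li) * x0 := by ring
      _ = _ := by rw [hy1]; ring
  · have key : ∀ i, x i ∈ Ev ℓ v := by
      refine mem_of D.hp D.hn (Ev ℓ v) ?_ x ?_ ?_
      · intro y
        show Pw ℓ (v.valuation K ((y ^ ℓ : Kˣ) : K))
        rw [Units.val_pow_eq_pow_val, map_pow]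
        exact Pw.pow _
      · intro i j
        obtain ⟨z, hz⟩ := hx3 i j
        rw [hz]
        refine mul_mem ?_ (inv_mem ?_)
        · exact even_place D (p := p) hsep hδ hℓ ht kd i j
        · show Pw ℓ (v.valuation K ((z ^ ℓ : Kˣ) : K))
          rw [Units.val_pow_eq_pow_val, map_pow]
          exact Pw.pow _
      · obtain ⟨w, hw⟩ := hx1
        rw [hw]
        show Pw ℓ (v.valuation K ((w ^ ℓ : Kˣ) : K))
        rw [Units.val_pow_eq_pow_val, map_pow]
        exact Pw.pow _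
    exact key
  · obtain ⟨m, hm⟩ := D.twist_place (p := p) hsep hδ hℓ ht
    obtain ⟨Q, χ', hQ, hχ', hc'⟩ := D.exists_adj (p := p) m hc
    obtain ⟨kd'⟩ := D.exists_KD hc'
    have hcop : IsCoprime (n : ℤ) (ℓ : ℤ) :=
      Nat.isCoprime_iff_coprime.2 ((Nat.Prime.coprime_iff_not_dvd D.hp).2 D.hn).symm
    obtain ⟨a, b, hab⟩ := hcop
    set s : ℤ := a * ∑ k, (m k : ℤ) with hs
    have hsum : (ℓ : ℤ) ∣ ∑ k, ((m k : ℤ) - s) := by
      rw [Finset.sum_sub_distrib, Finset.sum_const, Finset.card_univ, Fintype.card_fin,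
        nsmul_eq_mul, hs]
      refine ⟨b * ∑ k, (m k : ℤ), ?_⟩
      have : (ℓ : ℤ) * (b * ∑ k, (m k : ℤ)) = (1 - a * n) * ∑ k, (m k : ℤ) := by
        rw [← hab]; ring
      rw [this]; ring
    refine ⟨fun k => (m k : ℤ) - s, hsum, fun i => ?_⟩
    have key : x i * (tor D (fun k => (m k : ℤ) - s) i)⁻¹ ∈ (Pk ℓ (v.adicCompletion K)ˣ).comap
        (loc v) := by
      refine mem_of D.hp D.hn _ ?_ (fun i => x i * (tor D (fun k => (m k : ℤ) - s) i)⁻¹) ?_ ?_ i
      · intro y
        rw [Subgroup.mem_comap, map_pow]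
        exact ⟨_, rfl⟩
      · intro i j
        obtain ⟨z, hz⟩ := hx3 i j
        obtain ⟨y, hy⟩ := hm Q χ' kd' hQ hχ' i j
        obtain ⟨w, hw⟩ := (hADJ ℓ n h2 K D (SeparableClosure K)).1 m χ χ' Q hQ hχ' kd kd' i j
        have hy0 : y ≠ 0 := by
          rintro rfl
          rw [zero_pow D.pos.ne'] at hy
          exact d_ne D kd' i j ((_root_.map_eq_zero _).1 hy)
        have hw' : dU i j * tor D (fun k => (m k : ℤ)) j =
            Units.mk0 (kd'.d i j) (d_ne D kd' i j) * tor D (fun k => (m k : ℤ)) i * w ^ ℓ := by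
          ext
          simp only [Units.val_mul, Units.val_pow_eq_pow_val, hdU, Units.val_mk0]
          exact hw
        have e1 : x i * (tor D (fun k => (m k : ℤ) - s) i)⁻¹ *
            (x j * (tor D (fun k => (m k : ℤ) - s) j)⁻¹)⁻¹ =
            Units.mk0 (kd'.d i j) (d_ne D kd' i j) * (w * z⁻¹) ^ ℓ := by
          rw [tor_shift, tor_shift]
          have e2 : x i * (tor D (fun k => (m k : ℤ)) i * δu D ^ (-s))⁻¹ *
              (x j * (tor D (fun k => (m k : ℤ)) j * δu D ^ (-s))⁻¹)⁻¹ =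
              (x i * (x j)⁻¹) * (tor D (fun k => (m k : ℤ)) j * (tor D (fun k => (m k : ℤ)) i)⁻¹) := by
            simp only [mul_inv, inv_inv]
            generalize tor D (fun k => (m k : ℤ)) i = ti
            generalize tor D (fun k => (m k : ℤ)) j = tj
            generalize δu D ^ (-s) = dd
            calc x i * (ti⁻¹ * dd⁻¹) * ((x j)⁻¹ * (tj * dd)) =
                (x i * (x j)⁻¹ * (tj * ti⁻¹)) * (dd⁻¹ * dd) := by
                  simp only [mul_assoc, mul_comm, mul_left_comm]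
              _ = _ := by rw [inv_mul_cancel, mul_one]
          rw [e2, hz]
          generalize dU i j = d at *
          generalize tor D (fun k => (m k : ℤ)) i = ti at *
          generalize tor D (fun k => (m k : ℤ)) j = tj at *
          generalize Units.mk0 (kd'.d i j) (d_ne D kd' i j) = d' at *
          calc d * (z ^ ℓ)⁻¹ * (tj * ti⁻¹) = (d * tj) * ti⁻¹ * (z ^ ℓ)⁻¹ := by
                simp only [mul_assoc, mul_comm, mul_left_comm]
            _ = (d' * ti * w ^ ℓ) * ti⁻¹ * (z ^ ℓ)⁻¹ := by rw [hw']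
            _ = d' * (w ^ ℓ * (z ^ ℓ)⁻¹) * (ti * ti⁻¹) := by
                simp only [mul_assoc, mul_comm, mul_left_comm]
            _ = _ := by rw [mul_inv_cancel, mul_one, mul_pow, inv_pow]
        show (x i * (tor D (fun k => (m k : ℤ) - s) i)⁻¹ *
            (x j * (tor D (fun k => (m k : ℤ) - s) j)⁻¹)⁻¹) ∈ _
        rw [e1, Subgroup.mem_comap, map_mul]
        refine mul_mem ⟨Units.mk0 y hy0, ?_⟩ ?_
        · apply Units.ext
          show y ^ ℓ = algebraMap K (v.adicCompletion K) (kd'.d i j)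
          exact hy.symm
        · rw [map_pow]
          exact ⟨_, rfl⟩
      · rw [Finset.prod_mul_distrib, Finset.prod_inv_distrib]
        refine mul_mem ?_ (inv_mem ?_)
        · obtain ⟨w, hw⟩ := hx1
          rw [hw, Subgroup.mem_comap, map_pow]
          exact ⟨_, rfl⟩
        · obtain ⟨w, hw⟩ := prod_tor D h2 (fun k => (m k : ℤ) - s) hsum
          rw [hw, Subgroup.mem_comap, map_pow]
          exact ⟨_, rfl⟩
    exact isP_iff.2 key

end Pool.Agent.T3h73.SN.LCC
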