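import Pool.Agent.T3h73.SN.Stm2

/-!
# SN/TYPW (helper26): the proportion for one type
-/

set_option autoImplicit false
set_option linter.all false

open NumberField IsDedekindDomain Filter Topology Finset

namespace Pool.Agent.T3h73.SN.TYPW

open Pool.Agent.T3h73.SL (Pl IsP Pk loc)
open Pool.Agent.T3h73.SD (Sv LN SymSys Lin ee NA T0 Mh SP Cl kap TYPQ VT S_SV S_CHS S_VSP S_LZ S_LAG Gs Tw)
open Pool.Agent.Y713.SE Pool.Agent.Y713.SE.Dat

theorem Pw_one (ℓ : ℕ) : Pw ℓ 1 := ⟨1, by rw [one_pow]⟩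

theorem exp_mul : (WithZero.exp (-1 : ℤ) : WithZero (Multiplicative ℤ)) * WithZero.exp (1 : ℤ) = 1 := by
  rw [← WithZero.exp_add, neg_add_cancel, WithZero.exp_zero]

open Classical in
/-- TYPW -/
theorem t_TYPW (hMOMW : S_MOMW) (hDISTA : S_DISTA) (hORDW : S_ORDW)
    (hT0L : Pool.Agent.T3h73.SD.S_T0L) : S_TYPW := by
  intro ℓ n hℓ hℓ2 K _ _ Q hMDL
  haveI : Fact ℓ.Prime := ⟨hℓ⟩
  obtain ⟨T₀, hT₀⟩ := hMDL
  refine ⟨T₀, fun S hS => ⟨?_, fun η => ?_⟩⟩
  · obtain ⟨𝔪, V, _, _, _, ψ, L0, L1, LL, π, u, d1, g, t, sy, hM, h2, h3, h4⟩ := hT₀ S hS 1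
    exact h4
  obtain ⟨𝔪, V, _, _, _, ψ, L0, L1, LL, π, u, d1, g, t, sy, hM, h2, h3, h4⟩ := hT₀ S hS η
  have hG : ∀ P, P ∈ Gs ℓ S η ↔ Disjoint P S ∧ ∑ q ∈ P, t q = d1 := by
    intro P
    constructor
    · rintro ⟨hd, δ, a, b, c⟩
      exact ⟨hd, (h2 δ P a hd b c).1⟩
    · rintro ⟨hd, hs⟩
      obtain ⟨δ, a, b, c⟩ := h3 P hd hs
      refine ⟨hd, δ, a, fun v hv => ?_, fun v hv hv' => ?_⟩
      · rw [b v hv, exp_mul]
        exact Pw_one ℓ
      · rw [c v hv hv']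
        exact Pw_one ℓ
  have hsum : ∀ s : ℝ, ∑' P : Finset (Pl K), (if P ∈ Gs ℓ S η then (NA P : ℝ) ^ (-s) else 0) =
      SP (ℓ := ℓ) S t d1 (fun _ => 1) s := by
    intro s
    unfold SP
    refine tsum_congr fun P => ?_
    by_cases h : P ∈ Gs ℓ S η
    · rw [if_pos h, if_pos ((hG P).1 h), mul_one]
    · rw [if_neg h, if_neg fun h' => h ((hG P).2 h')]
  obtain ⟨c0, s₀, hc0, hs₀, hT⟩ := hT0L K S
  have hev : ∀ᶠ s : ℝ in 𝓝[>] 1, 1 < s ∧ s < s₀ := by
    filter_upwards [Ioo_mem_nhdsGT hs₀] with s hs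
    exact ⟨hs.1, hs.2⟩
  have hT0 : ∀ᶠ s : ℝ in 𝓝[>] 1, 0 < T0 S s := by
    filter_upwards [hev] with s hs
    have h := (hT s hs.1 hs.2).2
    have h' : 0 < c0 / (s - 1) := div_pos hc0 (by linarith [hs.1])
    linarith
  have hcard : (0 : ℝ) < Nat.card L0 := by
    have : 0 < Nat.card L0 := Nat.card_pos
    exact_mod_cast this
  constructor
  · have h5 := hMOMW ℓ n hℓ2 K S 𝔪 V ψ L0 L1 LL π u d1 g t sy hM 0
    simp only [pow_zero, Finset.range_zero, Finset.prod_empty, mul_one] at h5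
    have h6 : (Nat.card L0 : ℝ)⁻¹ / 2 < (Nat.card L0 : ℝ)⁻¹ := by
      have := inv_pos.2 hcard
      linarith
    refine ⟨(Nat.card L0 : ℝ)⁻¹ / 2, by positivity, ?_⟩
    filter_upwards [h5.eventually (lt_mem_nhds h6), hT0] with s h7 h8
    rw [hsum s]
    rw [lt_div_iff₀ h8] at h7
    exact h7.le
  · intro ε hε
    have hord := hORDW ℓ n hℓ2 K S 𝔪 V ψ L0 L1 LL π u d1 g t sy hM
    have h5 := hDISTA ℓ hℓ2 K S V t d1 (nSW ψ L0 LL u g t sy) (ℓ ^ (n - 1)) ((Nat.card L0 : ℝ)⁻¹)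
      (pow_pos hℓ.pos _) (inv_pos.2 hcard) (fun P hP1 hP2 hP3 => (hord P).1 hP1 hP2 hP3)
      ⟨Nat.card V ^ n, ℓ ^ n, fun P => by rw [← pow_mul]; exact (hord P).2⟩
      (fun k => by
        have := hMOMW ℓ n hℓ2 K S 𝔪 V ψ L0 L1 LL π u d1 g t sy hM k
        push_cast
        exact this) ε hε
    filter_upwards [h5, hev] with s h6 h7
    rw [hsum s]
    refine h6.trans ?_
    have hsm := (hT s h7.1 h7.2).1
    have h0 : ∀ P : Finset (Pl K), 0 ≤ (NA P : ℝ) ^ (-s) := fun P =>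
      Real.rpow_nonneg (Nat.cast_nonneg _) _
    unfold SP
    refine Summable.tsum_le_tsum (fun P => ?_) ?_ ?_
    · beta_reduce
      by_cases h : Disjoint P S ∧ ∑ q ∈ P, t q = d1
      · rw [if_pos h]
        by_cases h' : P.Nonempty ∧ nSW ψ L0 LL u g t sy P = ℓ ^ (n - 1)
        · rw [if_pos h', mul_one, if_pos]
          refine ⟨(hG P).2 h, fun δ hδ => ?_⟩
          exact (h2 δ P hδ.1 h.1 hδ.2.1 hδ.2.2).2 h'.1 h'.2
        · rw [if_neg h', mul_zero]
          split_ifs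
          · exact h0 P
          · exact le_rfl
      · rw [if_neg h]
        split_ifs
        · exact h0 P
        · exact le_rfl
    · refine Summable.of_nonneg_of_le (fun P => ?_) (fun P => ?_) hsm
      · beta_reduce
        split_ifs
        · rw [mul_one]
          exact h0 P
        · rw [mul_zero]
        · exact le_rfl
      · beta_reduce
        split_ifs
        · rw [mul_one]
        · rw [mul_zero]
          exact h0 P
        · exact h0 P
    · refine Summable.of_nonneg_of_le (fun P => ?_) (fun P => ?_) hsm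
      · split_ifs
        · exact h0 P
        · exact le_rfl
      · split_ifs
        · exact le_rfl
        · exact h0 P

end Pool.Agent.T3h73.SN.TYPW
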