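import Pool.Agent.T3h73.SN.Stm
import Pool.Agent.T3h73.SL.D.LA

/-! Project SN: the torsion elements, compatibility with base change (helper55). -/

set_option autoImplicit false
set_option linter.all false

open Polynomial IsDedekindDomain

namespace Pool.Agent.T3h73.SN.TorB

open Pool.Agent.Y713.SE Pool.Agent.Y713.SE.Dat
open Pool.Agent.T3h73.SL (IsP)

section
variable {ℓ n : ℕ} {E : Type} [Field E] (D : Dat ℓ n E)

lemma gu_self (i : Fin n) : gu D i i = 1 := by
  unfold gu
  rw [dif_pos rfl]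

lemma gu_val {i j : Fin n} (h : i ≠ j) : (gu D i j : E) = D.e i - D.e j := by
  unfold gu
  rw [dif_neg h]
  rfl

lemma lam_prod (i : Fin n) (s : Finset (Fin n)) (m : Fin n → ℕ) :
    D.lam i (∏ k ∈ s, (X - C (D.e k)) ^ m k) = ∏ k ∈ s, D.lam i (X - C (D.e k)) ^ m k := by
  classical
  induction s using Finset.induction_on with
  | empty => rw [Finset.prod_empty, Finset.prod_empty, D.lam_one]
  | insert a s ha ih =>
    rw [Finset.prod_insert ha, Finset.prod_insert ha, D.lam_mul i
      (pow_ne_zero _ (X_sub_C_ne_zero _))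
      (Finset.prod_ne_zero_iff.2 fun k _ => pow_ne_zero _ (X_sub_C_ne_zero _)), ih,
      D.lam_pow i (X_sub_C_ne_zero _)]

/-- the leading coefficients of the torsion ideals -/
theorem lam_tor (m : Fin n → ℕ) (i : Fin n) :
    D.lam i (D.U (D.PT m)) * (tor D (fun k => (m k : ℤ)) i : E) = 1 := by
  classical
  have h1 : (tor D (fun k => (m k : ℤ)) i : E) =
      D.δ ^ (m i : ℤ) * ∏ j ∈ Finset.univ.erase i, (D.e i - D.e j) ^ ((m i : ℤ) - (m j : ℤ)) := by
    unfold tor
    rw [← Finset.mul_prod_erase Finset.univ _ (Finset.mem_univ i), gu_self, one_zpow, one_mul]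
    push_cast
    congr 1
    refine Finset.prod_congr rfl fun j hj => ?_
    rw [gu_val D (Finset.ne_of_mem_erase hj).symm]
  have h2 : D.lam i (D.U (D.PT m)) =
      ((D.δ * ∏ j ∈ Finset.univ.erase i, (D.e i - D.e j))⁻¹) ^ m i *
        ∏ j ∈ Finset.univ.erase i, (D.e i - D.e j) ^ m j := by
    rw [D.U_PT, lam_prod, ← Finset.mul_prod_erase Finset.univ _ (Finset.mem_univ i),
      D.lam_X_sub_C_self]
    unfold ge
    rw [D.g_eval]
    congr 1
    refine Finset.prod_congr rfl fun j hj => ?_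
    rw [D.lam_X_sub_C_ne (Finset.ne_of_mem_erase hj).symm]
  have hne : ∀ j ∈ Finset.univ.erase i, D.e i - D.e j ≠ 0 := fun j hj =>
    sub_ne_zero.2 fun h => Finset.ne_of_mem_erase hj (D.he h).symm
  have h3 : ∏ j ∈ Finset.univ.erase i, (D.e i - D.e j) ^ ((m i : ℤ) - (m j : ℤ)) =
      (∏ j ∈ Finset.univ.erase i, (D.e i - D.e j)) ^ m i *
        (∏ j ∈ Finset.univ.erase i, (D.e i - D.e j) ^ m j)⁻¹ := by
    rw [← Finset.prod_pow, ← Finset.prod_inv_distrib, ← Finset.prod_mul_distrib]
    refine Finset.prod_congr rfl fun j hj => ?_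
    rw [zpow_sub₀ (hne j hj), zpow_natCast, zpow_natCast, div_eq_mul_inv]
  rw [h1, h2, h3, zpow_natCast]
  have n1 : (∏ j ∈ Finset.univ.erase i, (D.e i - D.e j)) ≠ 0 := Finset.prod_ne_zero_iff.2 hne
  have n2 : (∏ j ∈ Finset.univ.erase i, (D.e i - D.e j) ^ m j) ≠ 0 :=
    Finset.prod_ne_zero_iff.2 fun j hj => pow_ne_zero _ (hne j hj)
  generalize (∏ j ∈ Finset.univ.erase i, (D.e i - D.e j)) = P at *
  generalize (∏ j ∈ Finset.univ.erase i, (D.e i - D.e j) ^ m j) = R at *
  have n3 := D.hδ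
  rw [inv_pow, mul_pow]
  field_simp

/-- the torsion elements after a base change -/
theorem tor_base {L : Type} [Field L] [Algebra E L] (c : Fin n → ℤ) (i : Fin n) :
    (tor (D.base L) c i : L) = algebraMap E L (tor D c i : E) := by
  classical
  set φ : Eˣ →* Lˣ := Units.map (algebraMap E L : E →* L) with hφ
  have hδ : δu (D.base L) = φ (δu D) := Units.ext rfl
  have hg : ∀ j, gu (D.base L) i j = φ (gu D i j) := by
    intro j
    by_cases h : i = j
    · subst h
      rw [gu_self, gu_self, map_one]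
    · ext
      rw [gu_val _ h]
      show _ = algebraMap E L (gu D i j : E)
      rw [gu_val _ h, map_sub, base_e, base_e]
  have h1 : tor (D.base L) c i = φ (tor D c i) := by
    unfold tor
    rw [map_mul φ, map_prod φ, map_zpow φ, hδ]
    congr 1
    refine Finset.prod_congr rfl fun j _ => ?_
    rw [map_zpow φ, hg]
  rw [h1]
  rfl

end

end Pool.Agent.T3h73.SN.TorB
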